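import Mathlib
import Pool.Agent.TH551.SU.Norm
import Pool.Agent.TH551.ZP.Mono

/-!
# Project HA: sizes of sums of S-units at all places, statements
-/

set_option autoImplicit false
set_option linter.unusedSectionVars false

namespace Pool.Agent.TH551.HA

open Filter Topology Pool.Agent.TH932.Germs Pool.Agent.TH551.SU Pool.Agent.TH551.ZP

variable {s : ℕ}

/-- the absolute values: `none` is the usual one, `some v` the `b v`-adic one -/
noncomputable def av (b : Fin s → ℕ) (v : Option (Fin s)) (q : ℚ) : ℝ :=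
  match v with
  | none => |(q : ℝ)|
  | some v => ((padicNorm (b v) q : ℚ) : ℝ)

/-- a representative of a germ -/
noncomputable def rep (g : GG) : ℕ → ℚ := (gm_surj g).choose

lemma gm_rep (g : GG) : gm (rep g) = g := (gm_surj g).choose_spec

/-- `f` is dominated by `g` at the place `v` -/
def Dom (b : Fin s → ℕ) (L : ℕ → ℝ) (v : Option (Fin s)) (f g : GG) : Prop :=
  ∀ ε : ℝ, 0 < ε → ∀ᶠ n in (UU : Filter ℕ),
    av b v (rep f n) ≤ Real.exp (ε * L n) * av b v (rep g n)

/-- the sizes of `f` at all places are at most a power of `exp L`, from both sides -/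
def Mod (b : Fin s → ℕ) (L : ℕ → ℝ) (f : GG) : Prop :=
  ∃ K : ℝ, ∀ᶠ n in (UU : Filter ℕ), ∀ v, Real.exp (-(K * L n)) ≤ av b v (rep f n) ∧
    av b v (rep f n) ≤ Real.exp (K * L n)

/-- `SSUI`: no cancellation at any place in sums of S-unit germs of different classes -/
def SsuiStmt : Prop :=
  ∀ (s : ℕ) (b : Fin s → ℕ) (_ : ∀ v, (b v).Prime) (_ : Function.Injective b) (L : ℕ → ℝ)
    (hL : Tendsto L atTop atTop) (m : ℕ) (u : Fin m → GG) (_ : ∀ i, GSU b (u i))
    (_ : ∀ i, Mod b L (u i)) (_ : ∀ i j, i ≠ j → u i / u j ∉ KK L hL)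
    (c : Fin m → KK L hL) (_ : ∀ i, c i ≠ 0) (v : Option (Fin s)) (i : Fin m),
    Dom b L v (u i) (∑ j, (c j : GG) * u j)

/-- `NC`: the partial sums over unions of classes are dominated by the whole sum -/
def NcStmt : Prop :=
  ∀ (s : ℕ) (b : Fin s → ℕ) (_ : ∀ v, (b v).Prime) (_ : Function.Injective b) (L : ℕ → ℝ)
    (hL : Tendsto L atTop atTop) (ι : Type) (A : Finset ι) (a : ι → KK L hL) (g : ι → GG)
    (w : ι → ℕ) (_ : ∀ i ∈ A, GSU b (g i)) (_ : ∀ i ∈ A, Mod b L (g i))
    (_ : ∀ i ∈ A, ∀ j ∈ A, g i / g j ∈ KK L hL → w i = w j) (v : Option (Fin s)) (k : ℕ),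
    Dom b L v (∑ i ∈ A with w i = k, (a i : GG) * g i) (∑ i ∈ A, (a i : GG) * g i)

/-- `HB`: a germ of moderate size which is a sum of S-unit germs is a sum of S-unit germs of
moderate size -/
def HbStmt : Prop :=
  ∀ (s : ℕ) (b : Fin s → ℕ) (_ : ∀ v, (b v).Prime) (_ : Function.Injective b) (L : ℕ → ℝ)
    (hL : Tendsto L atTop atTop) (m : ℕ) (u : Fin m → GG) (_ : ∀ i, GSU b (u i))
    (c : Fin m → KK L hL) (K : ℝ)
    (_ : ∀ᶠ n in (UU : Filter ℕ), ∀ v,
      av b v (rep (∑ j, (c j : GG) * u j) n) ≤ Real.exp (K * L n)),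
    ∃ (m' : ℕ) (u' : Fin m' → GG) (c' : Fin m' → KK L hL), (∀ i, GSU b (u' i)) ∧
      (∀ i, Mod b L (u' i)) ∧ ∑ j, (c' j : GG) * u' j = ∑ j, (c j : GG) * u j

/-- `FW`: weights which separate the classes of the monomials of bounded degree -/
def FwStmt : Prop :=
  ∀ (L : ℕ → ℝ) (hL : Tendsto L atTop atTop) (r : ℕ) (u : Fin (r + 1) → GG) (_ : ∀ j, u j ≠ 0)
    (d : ℕ), ∃ l : Fin (r + 1) → ℕ, ∀ α β : Fin (r + 1) → ℕ, ∑ j, α j = ∑ j, β j →
      ∑ j, α j ≤ d →
      ((∏ j, u j ^ (α j)) / (∏ j, u j ^ (β j)) ∈ KK L hL ↔ ∑ j, α j * l j = ∑ j, β j * l j)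

/-- germs of numbers which are integral outside the primes `b v`, up to negligible factors -/
def QI (b : Fin s → ℕ) (L : ℕ → ℝ) (f : GG) : Prop :=
  ∃ N : ℕ → ℤ, Negl L N ∧ (∀ᶠ n in (UU : Filter ℕ), N n ≠ 0) ∧
    ∀ᶠ n in (UU : Filter ℕ), IntS b ((N n : ℚ) * rep f n)

/-! ## the absolute values -/

section av

variable {b : Fin s → ℕ} (hb : ∀ v, (b v).Prime)
include hb

lemma av_nonneg (v : Option (Fin s)) (q : ℚ) : 0 ≤ av b v q := by
  cases v with
  | none => exact abs_nonneg _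
  | some v =>
    have := Fact.mk (hb v)
    have h : (0 : ℚ) ≤ padicNorm (b v) q := padicNorm.nonneg q
    show (0 : ℝ) ≤ ((padicNorm (b v) q : ℚ) : ℝ)
    exact_mod_cast h

lemma av_mul (v : Option (Fin s)) (x y : ℚ) : av b v (x * y) = av b v x * av b v y := by
  cases v with
  | none => simp [av, abs_mul]
  | some v =>
    have := Fact.mk (hb v)
    simp [av, padicNorm.mul]

lemma av_add (v : Option (Fin s)) (x y : ℚ) : av b v (x + y) ≤ av b v x + av b v y := by
  cases v with
  | none =>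
    simp only [av]
    push_cast
    exact abs_add_le _ _
  | some v =>
    have := Fact.mk (hb v)
    simp only [av]
    exact_mod_cast padicNorm.triangle_ineq x y

lemma av_pos (v : Option (Fin s)) {q : ℚ} (hq : q ≠ 0) : 0 < av b v q := by
  cases v with
  | none => exact abs_pos.2 (by exact_mod_cast hq)
  | some v =>
    have := Fact.mk (hb v)
    have h1 : 0 ≤ padicNorm (b v) q := padicNorm.nonneg q
    have h2 : padicNorm (b v) q ≠ 0 := padicNorm.nonzero hq
    simp only [av]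
    exact_mod_cast lt_of_le_of_ne h1 (Ne.symm h2)

lemma av_zero (v : Option (Fin s)) : av b v 0 = 0 := by
  cases v <;> simp [av]

lemma av_one (v : Option (Fin s)) : av b v 1 = 1 := by
  cases v <;> simp [av]

lemma av_neg (v : Option (Fin s)) (q : ℚ) : av b v (-q) = av b v q := by
  cases v <;> simp [av]

lemma av_inv (v : Option (Fin s)) (q : ℚ) : av b v q⁻¹ = (av b v q)⁻¹ := by
  by_cases hq : q = 0
  · subst hq
    rw [inv_zero, av_zero hb, inv_zero]
  · have h1 : av b v (q * q⁻¹) = 1 := by rw [mul_inv_cancel₀ hq, av_one hb]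
    rw [av_mul hb] at h1
    exact eq_inv_of_mul_eq_one_right h1

lemma av_pow (v : Option (Fin s)) (q : ℚ) (k : ℕ) : av b v (q ^ k) = av b v q ^ k := by
  induction k with
  | zero => simp [av_one hb]
  | succ k ih => rw [pow_succ, pow_succ, av_mul hb, ih]

lemma av_prod {ι : Type} (v : Option (Fin s)) (A : Finset ι) (f : ι → ℚ) :
    av b v (∏ i ∈ A, f i) = ∏ i ∈ A, av b v (f i) := by
  classical
  induction A using Finset.induction_on with
  | empty => simp [av_one hb]
  | insert a A ha ih => rw [Finset.prod_insert ha, Finset.prod_insert ha, av_mul hb, ih]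

/-- the product over the places of `S` of the absolute values of a nonzero integer -/
lemma one_le_prod_int (hbi : Function.Injective b) (z : ℤ) (hz : z ≠ 0) :
    1 ≤ ∏ v, av b v (z : ℚ) := by
  classical
  rw [Fintype.prod_option]
  have hb1 : ∀ v, (1 : ℝ) < b v := fun v => by exact_mod_cast (hb v).one_lt
  -- the part of `z` at the primes `b v`
  set e : Fin s → ℕ := fun v => padicValInt (b v) z with he
  have h1 : (∏ v, (b v) ^ (e v) : ℕ) ∣ z.natAbs := by
    refine Finset.prod_dvd_of_isRelPrime (fun i _ j _ hij => ?_) fun v _ => ?_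
    · exact Nat.coprime_iff_isRelPrime.1 (Nat.Coprime.pow _ _
        ((Nat.coprime_primes (hb i) (hb j)).2 fun h => hij (hbi h)))
    · exact pow_padicValNat_dvd
  have h2 : (∏ v, (b v : ℝ) ^ (e v)) ≤ |(z : ℝ)| := by
    have h3 := Nat.le_of_dvd (Int.natAbs_pos.2 hz) h1
    have h4 : ((∏ v, (b v) ^ (e v) : ℕ) : ℝ) ≤ (z.natAbs : ℝ) := by exact_mod_cast h3
    rw [Nat.cast_natAbs, Int.cast_abs] at h4
    push_cast at h4
    exact h4
  have h3 : ∀ v : Fin s, av b (some v) (z : ℚ) = ((b v : ℝ) ^ (e v))⁻¹ := by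
    intro v
    have hz' : (z : ℚ) ≠ 0 := by exact_mod_cast hz
    simp only [av]
    rw [padicNorm.eq_zpow_of_nonzero hz', padicValRat.of_int]
    push_cast
    rw [zpow_neg, zpow_natCast]
  rw [Finset.prod_congr rfl fun v _ => h3 v]
  simp only [av]
  rw [Finset.prod_inv_distrib]
  have h4 : 0 < ∏ v, (b v : ℝ) ^ (e v) := Finset.prod_pos fun v _ => pow_pos (by linarith [hb1 v]) _
  rw [← div_eq_mul_inv, le_div_iff₀ h4, one_mul]
  exact_mod_cast h2

end av

end Pool.Agent.TH551.HA
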