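import Mathlib
import Pool.Agent.TH551.HA.Defs
import Pool.Agent.TH551.ZP.AR

/-!
# Project HA: calculus of domination
-/

set_option autoImplicit false
set_option linter.unusedSectionVars false
set_option linter.unusedVariables false

namespace Pool.Agent.TH551.HA

open Filter Topology Pool.Agent.TH932.Germs Pool.Agent.TH551.SU Pool.Agent.TH551.ZP
open Pool.Agent.TH551.ZP.GT

variable {s : ℕ} {b : Fin s → ℕ} {L : ℕ → ℝ}

lemma rep_gm (a : ℕ → ℚ) : ∀ᶠ n in (UU : Filter ℕ), rep (gm a) n = a n := gm_eq.1 (gm_rep _)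

lemma dom_gm {v : Option (Fin s)} {a a' : ℕ → ℚ} :
    Dom b L v (gm a) (gm a') ↔ ∀ ε : ℝ, 0 < ε → ∀ᶠ n in (UU : Filter ℕ),
      av b v (a n) ≤ Real.exp (ε * L n) * av b v (a' n) := by
  constructor
  · intro h ε hε
    filter_upwards [h ε hε, rep_gm a, rep_gm a'] with n h1 h2 h3
    rwa [h2, h3] at h1
  · intro h ε hε
    filter_upwards [h ε hε, rep_gm a, rep_gm a'] with n h1 h2 h3
    rwa [h2, h3]

lemma rep_add (f g : GG) : ∀ᶠ n in (UU : Filter ℕ), rep (f + g) n = rep f n + rep g n := by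
  have h := rep_gm (fun n => rep f n + rep g n)
  rw [← gm_add, gm_rep, gm_rep] at h
  exact h

lemma rep_mul (f g : GG) : ∀ᶠ n in (UU : Filter ℕ), rep (f * g) n = rep f n * rep g n := by
  have h := rep_gm (fun n => rep f n * rep g n)
  rw [← gm_mul, gm_rep, gm_rep] at h
  exact h

lemma rep_neg (f : GG) : ∀ᶠ n in (UU : Filter ℕ), rep (-f) n = -rep f n := by
  have h := rep_gm (fun n => -rep f n)
  rw [← gm_neg, gm_rep] at h
  exact h

lemma rep_zero : ∀ᶠ n in (UU : Filter ℕ), rep 0 n = 0 := by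
  have h := rep_gm (fun _ => 0)
  rwa [gm_zero] at h

lemma rep_one : ∀ᶠ n in (UU : Filter ℕ), rep 1 n = 1 := by
  have h := rep_gm (fun _ => 1)
  rwa [gm_one] at h

lemma rep_ne_zero {f : GG} (hf : f ≠ 0) : ∀ᶠ n in (UU : Filter ℕ), rep f n ≠ 0 := by
  rw [← gm_rep f, gm_ne_zero] at hf
  exact hf

section

variable (hb : ∀ v, (b v).Prime)
include hb

lemma Dom.zero (hL : Tendsto L atTop atTop) (v : Option (Fin s)) (g : GG) :
    Dom b L v 0 g := by
  intro ε hε
  filter_upwards [rep_zero] with n h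
  rw [h, av_zero hb]
  exact mul_nonneg (Real.exp_pos _).le (av_nonneg hb _ _)

lemma Dom.refl (hL : Tendsto L atTop atTop) (v : Option (Fin s)) (g : GG) :
    Dom b L v g g := by
  intro ε hε
  filter_upwards [L_nonneg hL] with n h
  have h1 : 1 ≤ Real.exp (ε * L n) := Real.one_le_exp (by positivity)
  nlinarith [av_nonneg hb v (rep g n)]

lemma Dom.trans {v : Option (Fin s)} {f g h : GG} (h1 : Dom b L v f g) (h2 : Dom b L v g h) :
    Dom b L v f h := by
  intro ε hε
  filter_upwards [h1 (ε / 2) (by positivity), h2 (ε / 2) (by positivity)] with n h3 h4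
  calc av b v (rep f n) ≤ Real.exp (ε / 2 * L n) * av b v (rep g n) := h3
    _ ≤ Real.exp (ε / 2 * L n) * (Real.exp (ε / 2 * L n) * av b v (rep h n)) := by gcongr
    _ = Real.exp (ε * L n) * av b v (rep h n) := by
      rw [← mul_assoc, ← Real.exp_add]
      ring_nf

lemma Dom.mul {v : Option (Fin s)} {f f' g g' : GG} (h1 : Dom b L v f f')
    (h2 : Dom b L v g g') : Dom b L v (f * g) (f' * g') := by
  intro ε hε
  filter_upwards [h1 (ε / 2) (by positivity), h2 (ε / 2) (by positivity), rep_mul f g,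
    rep_mul f' g'] with n h3 h4 h5 h6
  rw [h5, h6, av_mul hb, av_mul hb]
  calc av b v (rep f n) * av b v (rep g n) ≤
      (Real.exp (ε / 2 * L n) * av b v (rep f' n)) *
        (Real.exp (ε / 2 * L n) * av b v (rep g' n)) :=
        mul_le_mul h3 h4 (av_nonneg hb _ _)
          (mul_nonneg (Real.exp_pos _).le (av_nonneg hb _ _))
    _ = Real.exp (ε * L n) * (av b v (rep f' n) * av b v (rep g' n)) := by
      have h7 : Real.exp (ε * L n) = Real.exp (ε / 2 * L n) * Real.exp (ε / 2 * L n) := by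
        rw [← Real.exp_add]
        ring_nf
      rw [h7]
      ring

lemma Dom.add (hL : Tendsto L atTop atTop) {v : Option (Fin s)} {f g h : GG}
    (h1 : Dom b L v f h) (h2 : Dom b L v g h) : Dom b L v (f + g) h := by
  intro ε hε
  filter_upwards [h1 (ε / 2) (by positivity), h2 (ε / 2) (by positivity), rep_add f g,
    two_le_exp hL (show 0 < ε / 2 by positivity)] with n h3 h4 h5 h6
  rw [h5]
  refine (av_add hb v _ _).trans ?_
  have h7 : Real.exp (ε * L n) = Real.exp (ε / 2 * L n) * Real.exp (ε / 2 * L n) := by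
    rw [← Real.exp_add]
    ring_nf
  have h8 := av_nonneg hb v (rep h n)
  have h9 : 0 ≤ Real.exp (ε / 2 * L n) * av b v (rep h n) :=
    mul_nonneg (Real.exp_pos _).le h8
  rw [h7]
  nlinarith

lemma Dom.neg {v : Option (Fin s)} {f g : GG} (h1 : Dom b L v f g) : Dom b L v (-f) g := by
  intro ε hε
  filter_upwards [h1 ε hε, rep_neg f] with n h3 h4
  rwa [h4, av_neg hb]

lemma Dom.sub (hL : Tendsto L atTop atTop) {v : Option (Fin s)} {f g h : GG}
    (h1 : Dom b L v f h) (h2 : Dom b L v g h) : Dom b L v (f - g) h := by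
  rw [sub_eq_add_neg]
  exact Dom.add hb hL h1 (Dom.neg hb h2)

lemma Dom.sum (hL : Tendsto L atTop atTop) {v : Option (Fin s)} {ι : Type} (A : Finset ι)
    (f : ι → GG) (g : GG) (h : ∀ i ∈ A, Dom b L v (f i) g) : Dom b L v (∑ i ∈ A, f i) g := by
  classical
  induction A using Finset.induction_on with
  | empty =>
    rw [Finset.sum_empty]
    exact Dom.zero hb hL v g
  | insert a A ha ih =>
    rw [Finset.sum_insert ha]
    exact Dom.add hb hL (h a (Finset.mem_insert_self _ _))
      (ih fun i hi => h i (Finset.mem_insert_of_mem hi))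

lemma Dom.pow (hL : Tendsto L atTop atTop) {v : Option (Fin s)} {f g : GG}
    (h : Dom b L v f g) (k : ℕ) : Dom b L v (f ^ k) (g ^ k) := by
  induction k with
  | zero =>
    rw [pow_zero, pow_zero]
    exact Dom.refl hb hL v 1
  | succ k ih =>
    rw [pow_succ, pow_succ]
    exact Dom.mul hb ih h

lemma Dom.inv {v : Option (Fin s)} {f g : GG} (hf : f ≠ 0) (hg : g ≠ 0)
    (h : Dom b L v f g) : Dom b L v g⁻¹ f⁻¹ := by
  have h1 : ∀ x : GG, gm (fun n => (rep x n)⁻¹) = x⁻¹ := fun x => by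
    rw [← gm_inv, gm_rep]
  rw [← h1 f, ← h1 g, dom_gm]
  intro ε hε
  filter_upwards [h ε hε, rep_ne_zero hf, rep_ne_zero hg] with n h2 h3 h4
  rw [av_inv hb, av_inv hb]
  have h5 := av_pos hb v h3
  have h6 := av_pos hb v h4
  rw [inv_le_comm₀ h6 (mul_pos (Real.exp_pos _) (inv_pos.2 h5)), mul_inv, inv_inv]
  have h7 : (Real.exp (ε * L n))⁻¹ * av b v (rep f n) ≤ av b v (rep g n) := by
    rw [inv_mul_le_iff₀ (Real.exp_pos _)]
    exact h2
  exact h7

/-- elements of the negligible field have size 1 -/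
lemma Dom.of_KK (hbi : Function.Injective b) (hL : Tendsto L atTop atTop) (v : Option (Fin s))
    {c : GG} (hc : c ∈ KK L hL) : Dom b L v c 1 := by
  obtain ⟨m, d, hm, hd, hd0, rfl⟩ := hc
  rw [← gm_one, dom_gm]
  intro ε hε
  filter_upwards [hm ε hε, hd ε hε, hd0, L_nonneg hL] with n h1 h2 h3 h4
  rw [av_one hb, mul_one, div_eq_mul_inv, av_mul hb, av_inv hb]
  have h5 : (d n : ℚ) ≠ 0 := by exact_mod_cast h3
  cases v with
  | none =>
    have h6 : (1 : ℝ) ≤ av b none (d n : ℚ) := by
      simp only [av]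
      push_cast
      exact_mod_cast Int.one_le_abs h3
    have h7 : av b none (m n : ℚ) ≤ Real.exp (ε * L n) := by
      simp only [av]
      push_cast
      exact h1
    have h8 : (av b none (d n : ℚ))⁻¹ ≤ 1 := inv_le_one_of_one_le₀ h6
    have h9 : 0 ≤ (av b none (d n : ℚ))⁻¹ := inv_nonneg.2 (av_nonneg hb _ _)
    have h10 := av_nonneg hb none (m n : ℚ)
    nlinarith [Real.exp_pos (ε * L n)]
  | some w =>
    have h6 : av b (some w) (m n : ℚ) ≤ 1 := by
      have := Fact.mk (hb w)
      simp only [av]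
      exact_mod_cast padicNorm.of_int (p := b w) (m n)
    -- the product formula for `d`
    have h7 : (av b (some w) (d n : ℚ))⁻¹ ≤ Real.exp (ε * L n) := by
      have h8 := one_le_prod_int hb hbi (d n) h3
      rw [Fintype.prod_option] at h8
      have h9 : ∏ v : Fin s, av b (some v) (d n : ℚ) ≤ av b (some w) (d n : ℚ) := by
        rw [← Finset.mul_prod_erase _ _ (Finset.mem_univ w)]
        refine mul_le_of_le_one_right (av_nonneg hb _ _) ?_
        refine Finset.prod_le_one (fun v _ => av_nonneg hb _ _) fun v _ => ?_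
        have := Fact.mk (hb v)
        simp only [av]
        exact_mod_cast padicNorm.of_int (p := b v) (d n)
      have h10 : av b none (d n : ℚ) ≤ Real.exp (ε * L n) := by
        simp only [av]
        push_cast
        exact h2
      have h11 : 1 ≤ Real.exp (ε * L n) * av b (some w) (d n : ℚ) :=
        h8.trans (mul_le_mul h10 h9 (Finset.prod_nonneg fun v _ => av_nonneg hb _ _)
          (Real.exp_pos _).le)
      rw [inv_le_iff_one_le_mul₀ (av_pos hb _ h5)]
      exact h11
    have h8 := av_nonneg hb (some w) (m n : ℚ)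
    have h9 : 0 ≤ (av b (some w) (d n : ℚ))⁻¹ := inv_nonneg.2 (av_nonneg hb _ _)
    nlinarith [Real.exp_pos (ε * L n)]

lemma Dom.one_of_KK (hbi : Function.Injective b) (hL : Tendsto L atTop atTop)
    (v : Option (Fin s)) {c : GG} (hc : c ∈ KK L hL) (hc0 : c ≠ 0) : Dom b L v 1 c := by
  have h := Dom.inv hb (inv_ne_zero hc0) one_ne_zero
    (Dom.of_KK hb hbi hL v ((KK L hL).inv_mem hc))
  rwa [inv_one, inv_inv] at h

/-- multiplication by an element of the negligible field -/
lemma Dom.smul (hbi : Function.Injective b) (hL : Tendsto L atTop atTop) {v : Option (Fin s)}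
    {c f g : GG} (hc : c ∈ KK L hL) (h : Dom b L v f g) : Dom b L v (c * f) g := by
  have h1 := Dom.mul hb (Dom.of_KK hb hbi hL v hc) h
  rwa [one_mul] at h1

lemma prod_av_unit (hbi : Function.Injective b) {x : ℚ} (hx : IsSU b x) :
    ∏ v, av b v x = 1 := by
  classical
  obtain ⟨σ, e, hσ, hx⟩ := hx
  rw [Fintype.prod_option]
  have hb0 : ∀ v, (b v : ℚ) ≠ 0 := fun v => by exact_mod_cast (hb v).ne_zero
  have hσ1 : |(σ : ℝ)| = 1 := by rcases hσ with h | h <;> simp [h]
  have h1 : av b none x = ∏ v, (b v : ℝ) ^ (e v) := by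
    simp only [av]
    rw [hx]
    push_cast
    rw [abs_mul, hσ1, one_mul, Finset.abs_prod]
    refine Finset.prod_congr rfl fun v _ => ?_
    rw [abs_zpow, Nat.abs_cast]
  have h2 : ∀ w : Fin s, av b (some w) x = ((b w : ℝ) ^ (e w))⁻¹ := by
    intro w
    have hw := Fact.mk (hb w)
    have h3 : padicNorm (b w) x = ((b w : ℚ) ^ (e w))⁻¹ := by
      have hx0 : x ≠ 0 := by
        rw [hx]
        refine mul_ne_zero ?_ (Finset.prod_ne_zero_iff.2 fun v _ => zpow_ne_zero _ (hb0 v))
        rcases hσ with h | h <;> simp [h]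
      rw [padicNorm.eq_zpow_of_nonzero hx0, hx, Pool.Agent.TH551.ZP.AR.val_SU_in hb hbi hσ e w, zpow_neg]
    simp only [av]
    rw [h3]
    push_cast
    rfl
  rw [h1, Finset.prod_congr rfl fun v _ => h2 v, Finset.prod_inv_distrib]
  refine mul_inv_cancel₀ (Finset.prod_ne_zero_iff.2 fun v _ => zpow_ne_zero _ ?_)
  exact_mod_cast (hb v).ne_zero

end

end Pool.Agent.TH551.HA
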