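import Mathlib
import Pool.Agent.TH551.HA.Basic
import Pool.Agent.TH551.SU.CS
import Pool.Agent.TH551.SU.Ht
import Pool.Agent.TH551.ZP.Fin

/-!
# Project HA: moderate germs, quasi-integral germs
-/

set_option autoImplicit false
set_option linter.unusedSectionVars false
set_option linter.unusedVariables false

namespace Pool.Agent.TH551.HA

open Filter Topology Pool.Agent.TH932.Germs Pool.Agent.TH551.SU Pool.Agent.TH551.ZP
open Pool.Agent.TH551.ZP.GT

variable {s : ℕ} {b : Fin s → ℕ} {L : ℕ → ℝ}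

lemma rep_pow (f : GG) (k : ℕ) : ∀ᶠ n in (UU : Filter ℕ), rep (f ^ k) n = rep f n ^ k := by
  have h := rep_gm (fun n => rep f n ^ k)
  rw [← gm_pow, gm_rep] at h
  exact h

section

variable (hb : ∀ v, (b v).Prime)
include hb

lemma Mod.one (hL : Tendsto L atTop atTop) : Mod b L 1 := by
  refine ⟨0, ?_⟩
  filter_upwards [rep_one] with n h v
  rw [h, av_one hb]
  simp

lemma Mod.mul {f g : GG} (hf : Mod b L f) (hg : Mod b L g) : Mod b L (f * g) := by
  obtain ⟨K, hK⟩ := hf
  obtain ⟨K', hK'⟩ := hg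
  refine ⟨K + K', ?_⟩
  filter_upwards [hK, hK', rep_mul f g] with n h1 h2 h3 v
  rw [h3, av_mul hb]
  obtain ⟨h4, h5⟩ := h1 v
  obtain ⟨h6, h7⟩ := h2 v
  constructor
  · have h8 : Real.exp (-((K + K') * L n)) = Real.exp (-(K * L n)) * Real.exp (-(K' * L n)) := by
      rw [← Real.exp_add]
      ring_nf
    rw [h8]
    exact mul_le_mul h4 h6 (Real.exp_pos _).le (av_nonneg hb _ _)
  · have h8 : Real.exp ((K + K') * L n) = Real.exp (K * L n) * Real.exp (K' * L n) := by
      rw [← Real.exp_add]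
      ring_nf
    rw [h8]
    exact mul_le_mul h5 h7 (av_nonneg hb _ _) (Real.exp_pos _).le

lemma Mod.pow (hL : Tendsto L atTop atTop) {f : GG} (hf : Mod b L f) (k : ℕ) :
    Mod b L (f ^ k) := by
  induction k with
  | zero => rw [pow_zero]; exact Mod.one hb hL
  | succ k ih => rw [pow_succ]; exact Mod.mul hb ih hf

lemma Mod.prod (hL : Tendsto L atTop atTop) {ι : Type} (A : Finset ι) (f : ι → GG)
    (h : ∀ i ∈ A, Mod b L (f i)) : Mod b L (∏ i ∈ A, f i) := by
  classical
  induction A using Finset.induction_on with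
  | empty => rw [Finset.prod_empty]; exact Mod.one hb hL
  | insert a A ha ih =>
    rw [Finset.prod_insert ha]
    exact Mod.mul hb (h a (Finset.mem_insert_self _ _))
      (ih fun i hi => h i (Finset.mem_insert_of_mem hi))

lemma QI.of_KK (hL : Tendsto L atTop atTop) {c : GG} (hc : c ∈ KK L hL) : QI b L c := by
  obtain ⟨m, d, hm, hd, hd0, rfl⟩ := hc
  refine ⟨d, hd, hd0, ?_⟩
  filter_upwards [rep_gm (fun n => (m n : ℚ) / d n), hd0] with n h1 h2
  rw [h1, mul_div_cancel₀ _ (by exact_mod_cast h2 : (d n : ℚ) ≠ 0)]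
  exact IntS.int b _

lemma QI.of_GSU (hL : Tendsto L atTop atTop) {c : GG} (hc : GSU b c) : QI b L c := by
  obtain ⟨a, rfl, ha⟩ := hc
  refine ⟨fun _ => 1, Negl.one hL, by simp, ?_⟩
  filter_upwards [rep_gm a] with n h1
  rw [h1, Int.cast_one, one_mul]
  obtain ⟨σ, e, hσ, hx⟩ := ha n
  rw [hx]
  refine IntS.mul (IntS.int b σ) ?_
  -- powers of the primes
  have key : ∀ A : Finset (Fin s), IntS b (∏ v ∈ A, (b v : ℚ) ^ (e v)) := by
    intro A
    classical
    induction A using Finset.induction_on with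
    | empty => simpa using IntS.int b 1
    | insert w A hw ih =>
      rw [Finset.prod_insert hw]
      refine IntS.mul ?_ ih
      rcases Int.eq_nat_or_neg (e w) with ⟨k, hk | hk⟩
      · rw [hk, zpow_natCast]
        simpa using IntS.pow (IntS.int b (b w)) k
      · have h0 : (b w : ℚ) ≠ 0 := by exact_mod_cast (hb w).ne_zero
        rw [hk, zpow_neg, zpow_natCast]
        refine ⟨(∏ v ∈ Finset.univ.erase w, (b v : ℤ)) ^ k, k, ?_⟩
        rw [← Finset.mul_prod_erase _ _ (Finset.mem_univ w), mul_pow]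
        push_cast
        field_simp
  exact key _

lemma QI.mul {f g : GG} (hf : QI b L f) (hg : QI b L g) : QI b L (f * g) := by
  obtain ⟨N, hN, hN0, h⟩ := hf
  obtain ⟨N', hN', hN0', h'⟩ := hg
  refine ⟨fun n => N n * N' n, hN.mul hN', ?_, ?_⟩
  · filter_upwards [hN0, hN0'] with n h1 h2 using mul_ne_zero h1 h2
  · filter_upwards [h, h', rep_mul f g] with n h1 h2 h3
    rw [h3]
    have h4 : ((N n * N' n : ℤ) : ℚ) * (rep f n * rep g n) =
        ((N n : ℚ) * rep f n) * ((N' n : ℚ) * rep g n) := by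
      push_cast
      ring
    rw [h4]
    exact IntS.mul h1 h2

lemma QI.add {f g : GG} (hf : QI b L f) (hg : QI b L g) : QI b L (f + g) := by
  obtain ⟨N, hN, hN0, h⟩ := hf
  obtain ⟨N', hN', hN0', h'⟩ := hg
  refine ⟨fun n => N n * N' n, hN.mul hN', ?_, ?_⟩
  · filter_upwards [hN0, hN0'] with n h1 h2 using mul_ne_zero h1 h2
  · filter_upwards [h, h', rep_add f g] with n h1 h2 h3
    rw [h3]
    have h4 : ((N n * N' n : ℤ) : ℚ) * (rep f n + rep g n) =
        ((N' n : ℤ) : ℚ) * ((N n : ℚ) * rep f n) + ((N n : ℤ) : ℚ) * ((N' n : ℚ) * rep g n) := by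
      push_cast
      ring
    rw [h4]
    exact IntS.add (IntS.mul (IntS.int b _) h1) (IntS.mul (IntS.int b _) h2)

lemma QI.sum (hL : Tendsto L atTop atTop) {ι : Type} (A : Finset ι) (f : ι → GG)
    (h : ∀ i ∈ A, QI b L (f i)) : QI b L (∑ i ∈ A, f i) := by
  classical
  induction A using Finset.induction_on with
  | empty => rw [Finset.sum_empty]; exact QI.of_KK hb hL (KK L hL).zero_mem
  | insert a A ha ih =>
    rw [Finset.sum_insert ha]
    exact QI.add hb (h a (Finset.mem_insert_self _ _))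
      (ih fun i hi => h i (Finset.mem_insert_of_mem hi))

/-- a nonzero quasi-integral germ is not small outside the other places -/
lemma QI.lower (hbi : Function.Injective b) (hL : Tendsto L atTop atTop) {f : GG}
    (hf : QI b L f) (hf0 : f ≠ 0) (ε : ℝ) (hε : 0 < ε) :
    ∀ᶠ n in (UU : Filter ℕ), Real.exp (-(ε * L n)) ≤ ∏ v, av b v (rep f n) := by
  obtain ⟨N, hN, hN0, h⟩ := hf
  filter_upwards [hN ε hε, hN0, h, rep_ne_zero hf0] with n h1 h2 h3 h4
  obtain ⟨k, e, hk⟩ := h3
  have hP0 : (∏ v, (b v : ℚ)) ≠ 0 := Finset.prod_ne_zero_iff.2 fun v _ => by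
    exact_mod_cast (hb v).ne_zero
  have hk0 : k ≠ 0 := by
    intro h0
    rw [h0, Int.cast_zero] at hk
    rcases mul_eq_zero.1 hk with h5 | h5
    · rcases mul_eq_zero.1 h5 with h6 | h6
      · exact h2 (by exact_mod_cast h6)
      · exact h4 h6
    · exact pow_ne_zero _ hP0 h5
  have h5 := one_le_prod_int hb hbi k hk0
  rw [← hk] at h5
  simp only [av_mul hb] at h5
  rw [Finset.prod_mul_distrib, Finset.prod_mul_distrib] at h5
  have h6 : ∏ v, av b v ((∏ v, (b v : ℚ)) ^ e) = 1 := by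
    refine prod_av_unit hb hbi ⟨1, fun _ => e, Or.inl rfl, ?_⟩
    rw [← Finset.prod_pow]
    simp
  rw [h6, mul_one] at h5
  have h7 : ∏ v, av b v ((N n : ℤ) : ℚ) ≤ Real.exp (ε * L n) := by
    rw [Fintype.prod_option]
    have h8 : ∏ v : Fin s, av b (some v) ((N n : ℤ) : ℚ) ≤ 1 := by
      refine Finset.prod_le_one (fun v _ => av_nonneg hb _ _) fun v _ => ?_
      have := Fact.mk (hb v)
      simp only [av]
      exact_mod_cast padicNorm.of_int (p := b v) (N n)
    have h9 : av b none ((N n : ℤ) : ℚ) ≤ Real.exp (ε * L n) := by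
      simp only [av]
      push_cast
      exact h1
    have h10 := av_nonneg hb none ((N n : ℤ) : ℚ)
    have h11 : 0 ≤ ∏ v : Fin s, av b (some v) ((N n : ℤ) : ℚ) :=
      Finset.prod_nonneg fun v _ => av_nonneg hb _ _
    nlinarith
  have h8 : 0 ≤ ∏ v, av b v (rep f n) := Finset.prod_nonneg fun v _ => av_nonneg hb _ _
  rw [Real.exp_neg, inv_le_iff_one_le_mul₀ (Real.exp_pos _)]
  calc (1 : ℝ) ≤ (∏ v, av b v ((N n : ℤ) : ℚ)) * ∏ v, av b v (rep f n) := h5
    _ ≤ (∏ v, av b v (rep f n)) * Real.exp (ε * L n) := by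
      rw [mul_comm]
      exact mul_le_mul_of_nonneg_left h7 h8

end

end Pool.Agent.TH551.HA
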