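import Mathlib
import Pool.Agent.TH551.HA.Basic2
import Pool.Agent.TH551.SU.CRV

/-!
# Project HA: one parameter families through sums of S-units
-/

set_option autoImplicit false
set_option linter.unusedSectionVars false
set_option linter.unusedVariables false

namespace Pool.Agent.TH551.HA

open Filter Topology Pool.Agent.TH932.Germs Pool.Agent.TH551.SU Pool.Agent.TH551.ZP
open Pool.Agent.TH551.SU.CRV

variable {s : ℕ} {b : Fin s → ℕ} {L : ℕ → ℝ} {r : ℕ}

/-- substitution of `U j * T ^ (l j)` -/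
noncomputable def psi (hL : Tendsto L atTop atTop) (U : Fin r → GG) (l : Fin r → ℕ) :
    MvPolynomial (Fin r) (KK L hL) →+* Polynomial GG :=
  MvPolynomial.eval₂Hom (Polynomial.C.comp (KK L hL).subtype)
    (fun j => Polynomial.C (U j) * Polynomial.X ^ (l j))

/-- the polynomials obtained from the forms of degree `e` over the negligible field -/
def Lift (hL : Tendsto L atTop atTop) (U : Fin r → GG) (l : Fin r → ℕ) (e : ℕ)
    (p : Polynomial GG) : Prop :=
  ∃ P : MvPolynomial (Fin r) (KK L hL), P.IsHomogeneous e ∧ psi hL U l P = p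

lemma psi_eq (hL : Tendsto L atTop atTop) (U : Fin r → GG) (l : Fin r → ℕ)
    (P : MvPolynomial (Fin r) (KK L hL)) :
    psi hL U l P = ∑ α ∈ P.support, Polynomial.C (((MvPolynomial.coeff α P : KK L hL) : GG) *
      ∏ j, U j ^ (α j)) * Polynomial.X ^ (∑ j, α j * l j) := by
  unfold psi
  rw [MvPolynomial.coe_eval₂Hom, MvPolynomial.eval₂_eq']
  refine Finset.sum_congr rfl fun α _ => ?_
  simp only [RingHom.coe_comp, Function.comp_apply, Subfield.coe_subtype, mul_pow,
    Finset.prod_mul_distrib, ← pow_mul]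
  rw [Polynomial.C_mul, mul_assoc]
  congr 2
  · rw [map_prod]
    exact Finset.prod_congr rfl fun j _ => by rw [map_pow]
  · rw [Finset.prod_pow_eq_pow_sum]
    congr 1
    exact Finset.sum_congr rfl fun j _ => mul_comm _ _

lemma deg_of_hom {hL : Tendsto L atTop atTop} {P : MvPolynomial (Fin r) (KK L hL)} {e : ℕ}
    (hP : P.IsHomogeneous e) {α : Fin r →₀ ℕ} (hα : α ∈ P.support) : ∑ j, α j = e := by
  have h2 := hP (MvPolynomial.mem_support_iff.1 hα)
  rw [Finsupp.weight_apply, Finsupp.sum_fintype _ _ (by simp)] at h2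
  simpa using h2

section lift

variable {hL : Tendsto L atTop atTop} {U : Fin r → GG} {l : Fin r → ℕ}

lemma Lift.add {e : ℕ} {p q : Polynomial GG} (hp : Lift hL U l e p) (hq : Lift hL U l e q) :
    Lift hL U l e (p + q) := by
  obtain ⟨P, hP, rfl⟩ := hp
  obtain ⟨Q, hQ, rfl⟩ := hq
  exact ⟨P + Q, hP.add hQ, map_add _ _ _⟩

lemma Lift.mul {e f : ℕ} {p q : Polynomial GG} (hp : Lift hL U l e p)
    (hq : Lift hL U l f q) : Lift hL U l (e + f) (p * q) := by
  obtain ⟨P, hP, rfl⟩ := hp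
  obtain ⟨Q, hQ, rfl⟩ := hq
  exact ⟨P * Q, hP.mul hQ, map_mul _ _ _⟩

lemma Lift.smul {e : ℕ} {p : Polynomial GG} (hp : Lift hL U l e p) {c : GG}
    (hc : c ∈ KK L hL) : Lift hL U l e (Polynomial.C c * p) := by
  obtain ⟨P, hP, rfl⟩ := hp
  refine ⟨MvPolynomial.C ⟨c, hc⟩ * P, ?_, ?_⟩
  · have h := (MvPolynomial.isHomogeneous_C (Fin r) (⟨c, hc⟩ : KK L hL)).mul hP
    rwa [zero_add] at h
  · rw [map_mul]
    congr 1
    unfold psi
    simp

lemma Lift.zero (e : ℕ) : Lift hL U l e 0 :=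
  ⟨0, MvPolynomial.isHomogeneous_zero _ _ _, map_zero _⟩

lemma Lift.one : Lift hL U l 0 1 :=
  ⟨1, MvPolynomial.isHomogeneous_one _ _, map_one _⟩

lemma Lift.neg {e : ℕ} {p : Polynomial GG} (hp : Lift hL U l e p) : Lift hL U l e (-p) := by
  obtain ⟨P, hP, rfl⟩ := hp
  exact ⟨-P, hP.neg, map_neg _ _⟩

lemma Lift.sub {e : ℕ} {p q : Polynomial GG} (hp : Lift hL U l e p) (hq : Lift hL U l e q) :
    Lift hL U l e (p - q) := by
  rw [sub_eq_add_neg]
  exact hp.add hq.neg

lemma Lift.gen (j : Fin r) : Lift hL U l 1 (Polynomial.C (U j) * Polynomial.X ^ (l j)) := by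
  refine ⟨MvPolynomial.X j, MvPolynomial.isHomogeneous_X _ _, ?_⟩
  unfold psi
  simp

lemma Lift.sum {ι : Type} (A : Finset ι) (e : ℕ) (p : ι → Polynomial GG)
    (h : ∀ i ∈ A, Lift hL U l e (p i)) : Lift hL U l e (∑ i ∈ A, p i) := by
  classical
  induction A using Finset.induction_on with
  | empty => rw [Finset.sum_empty]; exact Lift.zero e
  | insert a A ha ih =>
    rw [Finset.sum_insert ha]
    exact Lift.add (h a (Finset.mem_insert_self _ _))
      (ih fun i hi => h i (Finset.mem_insert_of_mem hi))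

lemma Lift.pow {e : ℕ} {p : Polynomial GG} (hp : Lift hL U l e p) (k : ℕ) :
    Lift hL U l (e * k) (p ^ k) := by
  induction k with
  | zero => rw [pow_zero, mul_zero]; exact Lift.one
  | succ k ih => rw [pow_succ, Nat.mul_succ]; exact ih.mul hp

lemma Lift.prod {ι : Type} (A : Finset ι) (e : ι → ℕ) (p : ι → Polynomial GG)
    (h : ∀ i ∈ A, Lift hL U l (e i) (p i)) : Lift hL U l (∑ i ∈ A, e i) (∏ i ∈ A, p i) := by
  classical
  induction A using Finset.induction_on with
  | empty => rw [Finset.prod_empty, Finset.sum_empty]; exact Lift.one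
  | insert a A ha ih =>
    rw [Finset.prod_insert ha, Finset.sum_insert ha]
    exact Lift.mul (h a (Finset.mem_insert_self _ _))
      (ih fun i hi => h i (Finset.mem_insert_of_mem hi))

/-- the Euler derivation -/
noncomputable def th (p : Polynomial GG) : Polynomial GG := Polynomial.X * Polynomial.derivative p

lemma th_mul (p q : Polynomial GG) : th (p * q) = th p * q + p * th q := by
  unfold th
  rw [Polynomial.derivative_mul]
  ring

lemma th_add (p q : Polynomial GG) : th (p + q) = th p + th q := by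
  unfold th
  rw [Polynomial.derivative_add]
  ring

lemma th_neg (p : Polynomial GG) : th (-p) = -th p := by
  unfold th
  rw [Polynomial.derivative_neg]
  ring

lemma th_sub (p q : Polynomial GG) : th (p - q) = th p - th q := by
  rw [sub_eq_add_neg, th_add, th_neg, ← sub_eq_add_neg]

lemma th_pow (p : Polynomial GG) (k : ℕ) : th (p ^ (k + 1)) = (k + 1 : ℕ) * p ^ k * th p := by
  unfold th
  rw [Polynomial.derivative_pow_succ]
  simp
  ring

lemma th_monomial (c : GG) (k : ℕ) :
    th (Polynomial.C c * Polynomial.X ^ k) = Polynomial.C ((k : GG) * c) * Polynomial.X ^ k := by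
  unfold th
  cases k with
  | zero => simp
  | succ k =>
    rw [Polynomial.derivative_C_mul_X_pow]
    simp
    ring

lemma th_coeff (p : Polynomial GG) (k : ℕ) : (th p).coeff k = (k : GG) * p.coeff k := by
  unfold th
  cases k with
  | zero => simp
  | succ k =>
    rw [Polynomial.coeff_X_mul, Polynomial.coeff_derivative]
    push_cast
    ring

lemma Lift.th {e : ℕ} {p : Polynomial GG} (hp : Lift hL U l e p) : Lift hL U l e (th p) := by
  classical
  obtain ⟨P, hP, rfl⟩ := hp
  rw [psi_eq]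
  have h1 : HA.th (∑ α ∈ P.support, Polynomial.C (((MvPolynomial.coeff α P : KK L hL) : GG) *
      ∏ j, U j ^ (α j)) * Polynomial.X ^ (∑ j, α j * l j)) =
      ∑ α ∈ P.support, HA.th (Polynomial.C (((MvPolynomial.coeff α P : KK L hL) : GG) *
      ∏ j, U j ^ (α j)) * Polynomial.X ^ (∑ j, α j * l j)) := by
    generalize P.support = A
    induction A using Finset.induction_on with
    | empty => simp [HA.th]
    | insert a A ha ih => rw [Finset.sum_insert ha, Finset.sum_insert ha, th_add, ih]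
  rw [h1]
  refine Lift.sum _ _ _ fun α hα => ?_
  rw [th_monomial]
  refine ⟨MvPolynomial.monomial α (((∑ j, α j * l j : ℕ) : KK L hL) * MvPolynomial.coeff α P),
    MvPolynomial.isHomogeneous_monomial _ ?_, ?_⟩
  · rw [Finsupp.degree_eq_sum]
    exact deg_of_hom hP hα
  · unfold psi
    rw [MvPolynomial.coe_eval₂Hom, MvPolynomial.eval₂_monomial, Finsupp.prod_fintype _ _
      (fun i => pow_zero _)]
    simp only [RingHom.coe_comp, Function.comp_apply, Subfield.coe_subtype, mul_pow,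
      Finset.prod_mul_distrib, ← pow_mul]
    rw [Finset.prod_pow_eq_pow_sum]
    have h2 : ∑ j, l j * α j = ∑ j, α j * l j := Finset.sum_congr rfl fun j _ => mul_comm _ _
    rw [h2, ← mul_assoc]
    congr 1
    have h3 : ∏ j, (Polynomial.C (U j)) ^ (α j) = (Polynomial.C (∏ j, U j ^ (α j)) :
        Polynomial GG) := by
      rw [map_prod]
      exact Finset.prod_congr rfl fun j _ => by rw [map_pow]
    rw [h3, ← Polynomial.C_mul]
    congr 1
    push_cast
    ring

end lift

/-- the data: S-unit germs of moderate size and weights separating the classes of the monomials of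
degree at most `d` -/
structure Setup (b : Fin s → ℕ) (hL : Tendsto L atTop atTop) (U : Fin r → GG) (l : Fin r → ℕ)
    (d : ℕ) : Prop where
  gsu : ∀ j, GSU b (U j)
  md : ∀ j, Mod b L (U j)
  fw : ∀ α β : Fin r → ℕ, ∑ j, α j = ∑ j, β j → ∑ j, α j ≤ d →
    ((∏ j, U j ^ (α j)) / (∏ j, U j ^ (β j)) ∈ KK L hL ↔ ∑ j, α j * l j = ∑ j, β j * l j)

section setup

variable {hL : Tendsto L atTop atTop} {U : Fin r → GG} {l : Fin r → ℕ} {d : ℕ}

lemma psi_coeff (P : MvPolynomial (Fin r) (KK L hL)) (k : ℕ) :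
    (psi hL U l P).coeff k = ∑ α ∈ P.support with ∑ j, α j * l j = k,
      ((MvPolynomial.coeff α P : KK L hL) : GG) * ∏ j, U j ^ (α j) := by
  rw [psi_eq, Polynomial.finsetSum_coeff, Finset.sum_filter]
  refine Finset.sum_congr rfl fun α _ => ?_
  rw [Polynomial.coeff_C_mul_X_pow]
  by_cases h : ∑ j, α j * l j = k
  · rw [if_pos h, if_pos h.symm]
  · rw [if_neg h, if_neg (Ne.symm h)]

lemma psi_eval (P : MvPolynomial (Fin r) (KK L hL)) :
    (psi hL U l P).eval 1 = ∑ α ∈ P.support,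
      ((MvPolynomial.coeff α P : KK L hL) : GG) * ∏ j, U j ^ (α j) := by
  rw [psi_eq, Polynomial.eval_finsetSum]
  refine Finset.sum_congr rfl fun α _ => ?_
  rw [Polynomial.eval_mul, Polynomial.eval_C, Polynomial.eval_pow, Polynomial.eval_X, one_pow,
    mul_one]

lemma Setup.mono_gsu (hb : ∀ v, (b v).Prime) (hs : Setup b hL U l d) (α : Fin r → ℕ) :
    GSU b (∏ j, U j ^ (α j)) := GSU.prod hb _ _ fun j _ => GSU.pow hb (hs.gsu j) _

lemma Setup.mono_mod (hb : ∀ v, (b v).Prime) (hs : Setup b hL U l d) (α : Fin r → ℕ) :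
    Mod b L (∏ j, U j ^ (α j)) := Mod.prod hb hL _ _ fun j _ => Mod.pow hb hL (hs.md j) _

/-- the coefficients of a lift are dominated by its value at 1 -/
lemma Lift.dom (hnc : NcStmt) (hb : ∀ v, (b v).Prime) (hbi : Function.Injective b)
    (hs : Setup b hL U l d) {e : ℕ} (he : e ≤ d) {p : Polynomial GG} (hp : Lift hL U l e p)
    (v : Option (Fin s)) (k : ℕ) : Dom b L v (p.coeff k) (p.eval 1) := by
  obtain ⟨P, hP, rfl⟩ := hp
  rw [psi_coeff, psi_eval]
  refine hnc s b hb hbi L hL (Fin r →₀ ℕ) P.support (fun α => MvPolynomial.coeff α P)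
    (fun α => ∏ j, U j ^ (α j)) (fun α => ∑ j, α j * l j) (fun α _ => hs.mono_gsu hb α)
    (fun α _ => hs.mono_mod hb α) ?_ v k
  intro α hα β hβ h
  refine (hs.fw α β ?_ ?_).1 h
  · rw [deg_of_hom hP hα, deg_of_hom hP hβ]
  · rw [deg_of_hom hP hα]
    exact he

lemma Lift.eq_zero (hcs : CSStmt) (hb : ∀ v, (b v).Prime) (hbi : Function.Injective b)
    (hs : Setup b hL U l d) {e : ℕ} (he : e ≤ d) {p : Polynomial GG} (hp : Lift hL U l e p)
    (h0 : p.eval 1 = 0) : p = 0 := by
  obtain ⟨P, hP, rfl⟩ := hp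
  rw [psi_eval] at h0
  rw [psi_eq]
  refine hcs s b hb hbi L hL (Fin r →₀ ℕ) P.support (fun α => MvPolynomial.coeff α P)
    (fun α => ∏ j, U j ^ (α j)) (fun α => ∑ j, α j * l j) (fun α _ => hs.mono_gsu hb α) ?_ h0
  intro α hα β hβ h
  refine (hs.fw α β ?_ ?_).1 h
  · rw [deg_of_hom hP hα, deg_of_hom hP hβ]
  · rw [deg_of_hom hP hα]
    exact he

lemma eval_one_eq (p : Polynomial GG) (N : ℕ) (hN : p.natDegree < N) :
    p.eval 1 = ∑ k ∈ Finset.range N, p.coeff k := by
  rw [Polynomial.eval_eq_sum_range' hN]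
  simp

lemma Lift.th_dom (hnc : NcStmt) (hb : ∀ v, (b v).Prime) (hbi : Function.Injective b)
    (hs : Setup b hL U l d) {e : ℕ} (he : e ≤ d) {p : Polynomial GG} (hp : Lift hL U l e p)
    (v : Option (Fin s)) : Dom b L v ((HA.th p).eval 1) (p.eval 1) := by
  rw [eval_one_eq (HA.th p) ((HA.th p).natDegree + 1) (Nat.lt_succ_self _)]
  refine Dom.sum hb hL _ _ _ fun k _ => ?_
  rw [th_coeff]
  refine Dom.smul hb hbi hL ?_ (hp.dom hnc hb hbi hs he v k)
  exact natCast_mem _ k

lemma Lift.qi (hb : ∀ v, (b v).Prime) (hs : Setup b hL U l d) {e : ℕ} {p : Polynomial GG}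
    (hp : Lift hL U l e p) : QI b L (p.eval 1) := by
  obtain ⟨P, hP, rfl⟩ := hp
  rw [psi_eval]
  exact QI.sum hb hL _ _ fun α _ => QI.mul hb (QI.of_KK hb hL (MvPolynomial.coeff α P).2)
    (QI.of_GSU hb hL (hs.mono_gsu hb α))

lemma Lift.coeff_div (hb : ∀ v, (b v).Prime) (hs : Setup b hL U l d) {e : ℕ} (he : e ≤ d)
    {p q : Polynomial GG} (hp : Lift hL U l e p) (hq : Lift hL U l e q) (k : ℕ)
    (hk : q.coeff k ≠ 0) : p.coeff k / q.coeff k ∈ KK L hL := by
  obtain ⟨P, hP, rfl⟩ := hp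
  obtain ⟨Q, hQ, rfl⟩ := hq
  obtain ⟨β, hβ, hβk⟩ : ∃ β ∈ Q.support, ∑ j, β j * l j = k := by
    by_contra hno
    push Not at hno
    apply hk
    rw [psi_coeff, Finset.filter_false_of_mem hno, Finset.sum_empty]
  set g : GG := ∏ j, U j ^ (β j) with hg
  have hg0 : g ≠ 0 := GSU.ne_zero hb (hs.mono_gsu hb β)
  have key : ∀ R : MvPolynomial (Fin r) (KK L hL), R.IsHomogeneous e →
      (psi hL U l R).coeff k / g ∈ KK L hL := by
    intro R hR
    rw [psi_coeff, Finset.sum_div]
    refine sum_mem fun α hα => ?_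
    rw [mul_div_assoc]
    refine mul_mem (MvPolynomial.coeff α R).2 ?_
    rw [Finset.mem_filter] at hα
    refine (hs.fw α β ?_ ?_).2 ?_
    · rw [deg_of_hom hR hα.1, deg_of_hom hQ hβ]
    · rw [deg_of_hom hR hα.1]
      exact he
    · rw [hα.2, hβk]
  have h1 : (psi hL U l P).coeff k / (psi hL U l Q).coeff k =
      ((psi hL U l P).coeff k / g) / ((psi hL U l Q).coeff k / g) := by
    field_simp
  rw [h1]
  exact div_mem (key P hP) (key Q hQ)

end setup

end Pool.Agent.TH551.HA
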