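import Mathlib
import Pool.Agent.TH551.HA.Lift

/-!
# Project HA: the inequality of Davenport and Hall for sums of S-units
-/

set_option autoImplicit false
set_option linter.unusedSectionVars false
set_option linter.unusedVariables false

namespace Pool.Agent.TH551.HA

open Filter Topology Pool.Agent.TH932.Germs Pool.Agent.TH551.SU Pool.Agent.TH551.ZP
open Pool.Agent.TH551.SU.CRV

/-- polynomials with vanishing Wronskian are proportional -/
lemma prop_of_wr {F : Type*} [Field F] [CharZero F] (A B : Polynomial F) (hB : B ≠ 0)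
    (h : Polynomial.derivative A * B = A * Polynomial.derivative B) :
    ∃ κ : F, A = Polynomial.C κ * B := by
  -- the degrees of two nonzero polynomials with vanishing Wronskian agree
  have key : ∀ A : Polynomial F, A ≠ 0 →
      Polynomial.derivative A * B = A * Polynomial.derivative B → A.natDegree = B.natDegree := by
    intro A hA h
    have h1 : (Polynomial.X * Polynomial.derivative A) * B =
        A * (Polynomial.X * Polynomial.derivative B) := by
      linear_combination Polynomial.X * h
    have hd : ∀ P : Polynomial F, (Polynomial.X * Polynomial.derivative P).natDegree ≤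
        P.natDegree := by
      intro P
      rcases Nat.eq_zero_or_pos P.natDegree with h0 | h0
      · rw [Polynomial.natDegree_eq_zero] at h0
        obtain ⟨c, rfl⟩ := h0
        simp
      · refine (Polynomial.natDegree_mul_le).trans ?_
        rw [Polynomial.natDegree_X]
        have := Polynomial.natDegree_derivative_lt h0.ne'
        omega
    have hc : ∀ P : Polynomial F, (Polynomial.X * Polynomial.derivative P).coeff P.natDegree =
        (P.natDegree : F) * P.leadingCoeff := by
      intro P
      cases hP : P.natDegree with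
      | zero => simp
      | succ k =>
        rw [Polynomial.coeff_X_mul, Polynomial.coeff_derivative, Polynomial.leadingCoeff, hP]
        push_cast
        ring
    have h2 : ((Polynomial.X * Polynomial.derivative A) * B).coeff (A.natDegree + B.natDegree) =
        (A * (Polynomial.X * Polynomial.derivative B)).coeff (A.natDegree + B.natDegree) := by
      rw [h1]
    rw [Polynomial.coeff_mul_add_eq_of_natDegree_le (hd A) le_rfl,
      Polynomial.coeff_mul_add_eq_of_natDegree_le le_rfl (hd B), hc, hc] at h2
    have hA' : A.leadingCoeff ≠ 0 := Polynomial.leadingCoeff_ne_zero.2 hA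
    have hB' : B.leadingCoeff ≠ 0 := Polynomial.leadingCoeff_ne_zero.2 hB
    have h3 : ((A.natDegree : F) - B.natDegree) * (A.leadingCoeff * B.leadingCoeff) = 0 := by
      have h4 : B.coeff B.natDegree = B.leadingCoeff := rfl
      have h5 : A.coeff A.natDegree = A.leadingCoeff := rfl
      rw [h4, h5] at h2
      linear_combination h2
    have h4 := (mul_eq_zero.1 h3).resolve_right (mul_ne_zero hA' hB')
    exact_mod_cast sub_eq_zero.1 h4
  by_cases hA : A = 0
  · exact ⟨0, by rw [hA]; simp⟩
  have hB' : B.leadingCoeff ≠ 0 := Polynomial.leadingCoeff_ne_zero.2 hB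
  refine ⟨A.leadingCoeff / B.leadingCoeff, ?_⟩
  set κ := A.leadingCoeff / B.leadingCoeff with hκ
  by_contra hne
  have h1 : A - Polynomial.C κ * B ≠ 0 := sub_ne_zero.2 hne
  have h2 := key (A - Polynomial.C κ * B) h1 (by
    rw [Polynomial.derivative_sub, Polynomial.derivative_C_mul]
    linear_combination h)
  have h3 := key A hA h
  have h4 : (A - Polynomial.C κ * B).coeff B.natDegree = 0 := by
    rw [Polynomial.coeff_sub, Polynomial.coeff_C_mul]
    have h5 : A.coeff B.natDegree = A.leadingCoeff := by
      rw [← h3]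
      rfl
    have h6 : B.coeff B.natDegree = B.leadingCoeff := rfl
    rw [h5, h6, hκ, div_mul_cancel₀ _ hB', sub_self]
  rw [← h2] at h4
  exact h1 (Polynomial.leadingCoeff_eq_zero.1 h4)

variable {s : ℕ} {b : Fin s → ℕ} {L : ℕ → ℝ} {r : ℕ} {hL : Tendsto L atTop atTop}
  {U : Fin (r + 1) → GG} {l : Fin (r + 1) → ℕ} {d : ℕ}

/-- a germ of integers is at most 1 at the primes -/
def Ing (b : Fin s → ℕ) (L : ℕ → ℝ) (x : GG) : Prop := ∀ v : Fin s, Dom b L (some v) x 1

/-- **the inequality of Davenport, for germs** -/
theorem hallGerm (hnc : NcStmt) (hcs : CSStmt) (hb : ∀ v, (b v).Prime)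
    (hbi : Function.Injective b) (hs : Setup b hL U l d) (hU0 : U 0 = 1) (m n : ℕ)
    (hd : m + n + 5 ≤ d) (X Y : Polynomial GG) (hX : Lift hL U l 1 X) (hY : Lift hL U l 1 Y)
    (hxi : Ing b L (X.eval 1)) (hyi : Ing b L (Y.eval 1))
    (hne : Y.eval 1 ^ (n + 1) - X.eval 1 ^ (m + 1) ≠ 0) :
    Dom b L none (Y.eval 1 ^ n) (X.eval 1 * (Y.eval 1 ^ (n + 1) - X.eval 1 ^ (m + 1))) ∨
      Dom b L none (X.eval 1 ^ (m + 1)) (Y.eval 1 ^ (n + 1) - X.eval 1 ^ (m + 1)) := by
  classical
  set E : Polynomial GG := Polynomial.X ^ (l 0) with hE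
  have hEL : Lift hL U l 1 E := by
    have h := Lift.gen (hL := hL) (U := U) (l := l) 0
    rw [hU0, Polynomial.C_1, one_mul] at h
    exact h
  have hE1 : E.eval 1 = 1 := by rw [hE]; simp
  set A : Polynomial GG := E ^ (m + 1) * Y ^ (n + 1) with hA
  set B : Polynomial GG := E ^ (n + 1) * X ^ (m + 1) with hB
  have hAL : Lift hL U l (m + n + 2) A := by
    have h := (hEL.pow (m + 1)).mul (hY.pow (n + 1))
    have h1 : 1 * (m + 1) + 1 * (n + 1) = m + n + 2 := by ring
    rwa [h1] at h
  have hBL : Lift hL U l (m + n + 2) B := by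
    have h := (hEL.pow (n + 1)).mul (hX.pow (m + 1))
    have h1 : 1 * (n + 1) + 1 * (m + 1) = m + n + 2 := by ring
    rwa [h1] at h
  have hDL : Lift hL U l (m + n + 2) (A - B) := hAL.sub hBL
  -- the Wronskian without its obvious factors
  set ω : Polynomial GG := Polynomial.C ((m : GG) - n) * (th E * X * Y) +
    Polynomial.C ((n : GG) + 1) * (E * X * th Y) - Polynomial.C ((m : GG) + 1) * (E * Y * th X)
    with hω
  have hωL : Lift hL U l 3 ω := by
    have h1 : Lift hL U l 3 (th E * X * Y) := (hEL.th.mul hX).mul hY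
    have h2 : Lift hL U l 3 (E * X * th Y) := (hEL.mul hX).mul hY.th
    have h3 : Lift hL U l 3 (E * Y * th X) := (hEL.mul hY).mul hX.th
    refine ((h1.smul ?_).add (h2.smul ?_)).sub (h3.smul ?_)
    · exact sub_mem (natCast_mem _ m) (natCast_mem _ n)
    · exact add_mem (natCast_mem _ n) (one_mem _)
    · exact add_mem (natCast_mem _ m) (one_mem _)
  have hthA : th A = (m + 1 : ℕ) * E ^ m * th E * Y ^ (n + 1) +
      E ^ (m + 1) * ((n + 1 : ℕ) * Y ^ n * th Y) := by
    rw [hA, th_mul, th_pow, th_pow]
  have hthB : th B = (n + 1 : ℕ) * E ^ n * th E * X ^ (m + 1) +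
      E ^ (n + 1) * ((m + 1 : ℕ) * X ^ m * th X) := by
    rw [hB, th_mul, th_pow, th_pow]
  have hid : E * X * th (A - B) - (A - B) * (Polynomial.C ((n : GG) + 1) * th E * X +
      Polynomial.C ((m : GG) + 1) * E * th X) = E ^ (m + 1) * Y ^ n * ω := by
    rw [th_sub, hthA, hthB, hω, hA, hB]
    simp only [Polynomial.C_add, Polynomial.C_sub, Polynomial.C_1, map_natCast]
    push_cast
    ring
  set x := X.eval 1 with hx
  set y := Y.eval 1 with hy
  set D : GG := y ^ (n + 1) - x ^ (m + 1) with hD
  have hD1 : (A - B).eval 1 = D := by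
    rw [hA, hB, hD, hx, hy]
    simp [hE1]
  -- the identity at 1
  have hid1 : y ^ n * ω.eval 1 = x * (th (A - B)).eval 1 -
      D * (((n : GG) + 1) * (th E).eval 1 * x + ((m : GG) + 1) * (th X).eval 1) := by
    have h := congrArg (Polynomial.eval 1) hid
    simp only [Polynomial.eval_sub, Polynomial.eval_mul, Polynomial.eval_add, Polynomial.eval_pow,
      Polynomial.eval_C, hE1, one_pow, one_mul, mul_one] at h
    rw [← h, ← hD1]
    simp only [Polynomial.eval_sub]
    rfl
  have hthE : (th E).eval 1 ∈ KK L hL := by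
    have h1 : (th E).eval 1 = (l 0 : GG) := by
      have h2 := th_monomial (1 : GG) (l 0)
      rw [Polynomial.C_1, one_mul] at h2
      rw [hE, h2]
      simp
    rw [h1]
    exact natCast_mem _ _
  -- the left side is dominated
  have hdom : Dom b L none (y ^ n * ω.eval 1) (x * D) := by
    rw [hid1]
    have h1 : Dom b L none (x * (th (A - B)).eval 1) (x * D) := by
      refine Dom.mul hb (Dom.refl hb hL _ _) ?_
      have h := hDL.th_dom hnc hb hbi hs (by omega) none
      rwa [hD1] at h
    have h2 : Dom b L none (((n : GG) + 1) * (th E).eval 1 * x + ((m : GG) + 1) * (th X).eval 1)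
        x := by
      refine Dom.add hb hL ?_ ?_
      · exact Dom.smul hb hbi hL (mul_mem (add_mem (natCast_mem _ n) (one_mem _)) hthE)
          (Dom.refl hb hL _ _)
      · exact Dom.smul hb hbi hL (add_mem (natCast_mem _ m) (one_mem _))
          (hX.th_dom hnc hb hbi hs (by omega) none)
    refine Dom.sub hb hL h1 ?_
    rw [mul_comm x D]
    exact Dom.mul hb (Dom.refl hb hL _ _) h2
  -- the factor at all places
  have hωdom : ∀ v, Dom b L v (ω.eval 1) (x * y) := by
    intro v
    rw [hω]
    simp only [Polynomial.eval_sub, Polynomial.eval_mul, Polynomial.eval_add, Polynomial.eval_C,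
      hE1, one_mul]
    refine Dom.sub hb hL (Dom.add hb hL ?_ ?_) ?_
    · refine Dom.smul hb hbi hL (sub_mem (natCast_mem _ m) (natCast_mem _ n)) ?_
      rw [mul_assoc]
      exact Dom.smul hb hbi hL hthE (Dom.refl hb hL _ _)
    · refine Dom.smul hb hbi hL (add_mem (natCast_mem _ n) (one_mem _)) ?_
      exact Dom.mul hb (Dom.refl hb hL _ _) (hY.th_dom hnc hb hbi hs (by omega) v)
    · refine Dom.smul hb hbi hL (add_mem (natCast_mem _ m) (one_mem _)) ?_
      rw [mul_comm x y]
      exact Dom.mul hb (Dom.refl hb hL _ _) (hX.th_dom hnc hb hbi hs (by omega) v)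
  by_cases hω0 : ω.eval 1 = 0
  · -- the Wronskian vanishes
    right
    have h1 : ω = 0 := hωL.eq_zero hcs hb hbi hs (by omega) hω0
    by_cases hB0 : B = 0
    · have h2 : x ^ (m + 1) = 0 := by
        have h3 := congrArg (Polynomial.eval 1) hB0
        rw [hB] at h3
        simpa [hE1, ← hx] using h3
      rw [h2]
      exact Dom.zero hb hL _ _
    -- A and B are proportional
    have hWid : th A * B - A * th B = E ^ (m + n + 1) * X ^ m * Y ^ n * ω := by
      rw [hthA, hthB, hω, hA, hB]
      simp only [Polynomial.C_add, Polynomial.C_sub, Polynomial.C_1, map_natCast]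
      push_cast
      ring
    have hW : Polynomial.derivative A * B = A * Polynomial.derivative B := by
      rw [h1, mul_zero] at hWid
      unfold th at hWid
      have h2 : Polynomial.X * (Polynomial.derivative A * B - A * Polynomial.derivative B) =
          0 := by
        linear_combination hWid
      exact sub_eq_zero.1 ((mul_eq_zero.1 h2).resolve_left Polynomial.X_ne_zero)
    obtain ⟨κ, hκ⟩ := prop_of_wr A B hB0 hW
    have hlc : B.coeff B.natDegree ≠ 0 := Polynomial.leadingCoeff_ne_zero.2 hB0
    have hκK : κ ∈ KK L hL := by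
      have h2 := Lift.coeff_div hb hs (by omega) hAL hBL B.natDegree hlc
      rw [hκ, Polynomial.coeff_C_mul, mul_div_assoc, div_self hlc, mul_one] at h2
      exact h2
    have hD2 : D = (κ - 1) * x ^ (m + 1) := by
      rw [← hD1, hκ, hB]
      simp only [Polynomial.eval_sub, Polynomial.eval_mul, Polynomial.eval_pow, Polynomial.eval_C,
        hE1, one_pow, one_mul, ← hx]
      ring
    have hκ1 : κ - 1 ≠ 0 := by
      intro h2
      rw [h2, zero_mul] at hD2
      exact hne hD2
    rw [hD2]
    have h3 := Dom.mul hb (Dom.one_of_KK hb hbi hL none (sub_mem hκK (one_mem _)) hκ1)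
      (Dom.refl hb hL none (x ^ (m + 1)))
    rwa [one_mul] at h3
  · left
    -- the factor is not small at infinity
    have h1 : Dom b L none 1 (ω.eval 1) := by
      intro ε hε
      have hs1 : (0 : ℝ) < s + 1 := by positivity
      have h2 := QI.lower hb hbi hL (hωL.qi hb hs) hω0 (ε / 2) (by positivity)
      have h3 : ∀ᶠ k in (UU : Filter ℕ), ∀ v : Fin s,
          av b (some v) (rep (ω.eval 1) k) ≤ Real.exp (ε / (2 * (s + 1)) * L k) := by
        refine eventually_all.2 fun v => ?_
        have h4 : Dom b L (some v) (ω.eval 1) 1 := by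
          have h5 := Dom.mul hb (hxi v) (hyi v)
          rw [one_mul] at h5
          exact Dom.trans hb (hωdom (some v)) h5
        filter_upwards [h4 (ε / (2 * (s + 1))) (by positivity), rep_one] with k h6 h7
        rwa [h7, av_one hb, mul_one] at h6
      filter_upwards [h2, h3, rep_one, L_nonneg hL] with k h4 h5 h6 h7
      rw [h6, av_one hb]
      rw [Fintype.prod_option] at h4
      have h8 : ∏ v : Fin s, av b (some v) (rep (ω.eval 1) k) ≤ Real.exp (ε / 2 * L k) := by
        calc ∏ v : Fin s, av b (some v) (rep (ω.eval 1) k) ≤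
            ∏ v : Fin s, Real.exp (ε / (2 * (s + 1)) * L k) :=
              Finset.prod_le_prod (fun v _ => av_nonneg hb _ _) fun v _ => h5 v
          _ = Real.exp (s * (ε / (2 * (s + 1)) * L k)) := by
            rw [Finset.prod_const, Finset.card_univ, Fintype.card_fin, ← Real.exp_nat_mul]
          _ ≤ Real.exp (ε / 2 * L k) := by
            refine Real.exp_le_exp.2 ?_
            have h9 : (s : ℝ) * (ε / (2 * (s + 1)) * L k) = (s / (s + 1)) * (ε / 2 * L k) := by
              field_simp
            rw [h9]
            refine mul_le_of_le_one_left (by positivity) ?_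
            rw [div_le_one hs1]
            linarith
      have h10 := av_nonneg hb none (rep (ω.eval 1) k)
      have h11 : Real.exp (-(ε / 2 * L k)) ≤
          av b none (rep (ω.eval 1) k) * Real.exp (ε / 2 * L k) :=
        h4.trans (mul_le_mul_of_nonneg_left h8 h10)
      have h12 : (1 : ℝ) = Real.exp (ε / 2 * L k) * Real.exp (-(ε / 2 * L k)) := by
        rw [← Real.exp_add]
        simp
      rw [h12]
      calc Real.exp (ε / 2 * L k) * Real.exp (-(ε / 2 * L k)) ≤
          Real.exp (ε / 2 * L k) * (av b none (rep (ω.eval 1) k) * Real.exp (ε / 2 * L k)) :=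
            mul_le_mul_of_nonneg_left h11 (Real.exp_pos _).le
        _ = Real.exp (ε * L k) * av b none (rep (ω.eval 1) k) := by
          have h13 : Real.exp (ε * L k) = Real.exp (ε / 2 * L k) * Real.exp (ε / 2 * L k) := by
            rw [← Real.exp_add]
            ring_nf
          rw [h13]
          ring
    have h2 := Dom.mul hb (Dom.refl hb hL none (y ^ n)) h1
    rw [mul_one] at h2
    exact Dom.trans hb h2 hdom

end Pool.Agent.TH551.HA
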