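import Mathlib
import Pool.Agent.TH551.HA.Hall

/-!
# Project HA: the inequality of Hall for sums of S-units
-/

set_option autoImplicit false
set_option linter.unusedSectionVars false
set_option linter.unusedVariables false

namespace Pool.Agent.TH551.HA

open Filter Topology Pool.Agent.TH932.Germs Pool.Agent.TH551.SU Pool.Agent.TH551.ZP
open Pool.Agent.TH551.SU.CRV Pool.Agent.TH551.SU.Ht

/-- the real arithmetic at the end -/
lemma arith (m n : ℕ) (ε L x y D : ℝ) (hε : 0 < ε) (hx0 : 0 ≤ x) (hy0 : 0 ≤ y) (hD1 : 1 ≤ D)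
    (hmax : max (x ^ (m + 1)) (y ^ (n + 1)) = Real.exp L)
    (hD : |y ^ (n + 1) - x ^ (m + 1)| ≤ D)
    (hlt : Real.log D < (1 - 1 / ((m : ℝ) + 1) - 1 / ((n : ℝ) + 1) - ε) * L)
    (hbig : 2 * Real.log 2 < ε * L) (hL : 0 ≤ L)
    (h : y ^ n ≤ Real.exp (ε / 2 * L) * (x * D) ∨ x ^ (m + 1) ≤ Real.exp (ε / 2 * L) * D) :
    False := by
  have hm1 : (0 : ℝ) < (m : ℝ) + 1 := by positivity
  have hn1 : (0 : ℝ) < (n : ℝ) + 1 := by positivity
  have hlog2 : 0 < Real.log 2 := Real.log_pos (by norm_num)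
  have hDe : D = Real.exp (Real.log D) := (Real.exp_log (by linarith)).symm
  have hδ : 0 < 1 / ((m : ℝ) + 1) + 1 / ((n : ℝ) + 1) := by positivity
  -- `D` is small
  have hD2 : D ≤ Real.exp L / 2 := by
    rw [hDe]
    have h1 : Real.exp L / 2 = Real.exp (L - Real.log 2) := by
      rw [Real.exp_sub, Real.exp_log (by norm_num)]
    rw [h1]
    refine Real.exp_le_exp.2 ?_
    nlinarith
  have hxle : x ^ (m + 1) ≤ Real.exp L := by rw [← hmax]; exact le_max_left _ _
  have hyle : y ^ (n + 1) ≤ Real.exp L := by rw [← hmax]; exact le_max_right _ _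
  have habs := abs_le.1 hD
  have hxge : Real.exp L / 2 ≤ x ^ (m + 1) := by
    rcases max_choice (x ^ (m + 1)) (y ^ (n + 1)) with h1 | h1
    · rw [← h1, hmax]
      linarith [Real.exp_pos L]
    · rw [h1] at hmax
      linarith [habs.2]
  have hyge : Real.exp L / 2 ≤ y ^ (n + 1) := by
    rcases max_choice (x ^ (m + 1)) (y ^ (n + 1)) with h1 | h1
    · rw [h1] at hmax
      linarith [habs.1]
    · rw [← h1, hmax]
      linarith [Real.exp_pos L]
  have hxpos : 0 < x := by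
    rcases hx0.eq_or_lt with h1 | h1
    · rw [← h1, zero_pow (by omega)] at hxge
      linarith [Real.exp_pos L]
    · exact h1
  have hypos : 0 < y := by
    rcases hy0.eq_or_lt with h1 | h1
    · rw [← h1, zero_pow (by omega)] at hyge
      linarith [Real.exp_pos L]
    · exact h1
  have e1 : Real.exp L / 2 = Real.exp (L - Real.log 2) := by
    rw [Real.exp_sub, Real.exp_log (by norm_num)]
  have lx : (m + 1 : ℝ) * Real.log x ≤ L := by
    have h1 := Real.log_le_log (pow_pos hxpos _) hxle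
    rw [Real.log_exp, Real.log_pow] at h1
    exact_mod_cast h1
  have lx' : L - Real.log 2 ≤ (m + 1 : ℝ) * Real.log x := by
    rw [e1] at hxge
    have h1 := Real.log_le_log (Real.exp_pos _) hxge
    rw [Real.log_exp, Real.log_pow] at h1
    exact_mod_cast h1
  have ly' : L - Real.log 2 ≤ (n + 1 : ℝ) * Real.log y := by
    rw [e1] at hyge
    have h1 := Real.log_le_log (Real.exp_pos _) hyge
    rw [Real.log_exp, Real.log_pow] at h1
    exact_mod_cast h1
  rcases h with h | h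
  · have h1 := Real.log_le_log (pow_pos hypos _) h
    rw [Real.log_pow, Real.log_mul (Real.exp_pos _).ne' (mul_pos hxpos (by linarith)).ne',
      Real.log_exp, Real.log_mul hxpos.ne' (by linarith)] at h1
    -- multiply out
    have h2 : (L - Real.log 2) / ((n : ℝ) + 1) ≤ Real.log y := by
      rw [div_le_iff₀ hn1]
      linarith
    have h3 : Real.log x ≤ L / ((m : ℝ) + 1) := by
      rw [le_div_iff₀ hm1]
      linarith
    have h4 : (n : ℝ) * ((L - Real.log 2) / ((n : ℝ) + 1)) ≤ n * Real.log y :=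
      mul_le_mul_of_nonneg_left h2 (Nat.cast_nonneg n)
    have h5 : (n : ℝ) * ((L - Real.log 2) / ((n : ℝ) + 1)) =
        (L - Real.log 2) - (L - Real.log 2) * (1 / ((n : ℝ) + 1)) := by
      field_simp
      ring
    have h6 : L / ((m : ℝ) + 1) = 1 / ((m : ℝ) + 1) * L := by ring
    have h7 : 0 ≤ Real.log 2 * (1 / ((n : ℝ) + 1)) := by positivity
    nlinarith
  · have h1 := Real.log_le_log (pow_pos hxpos _) h
    rw [Real.log_pow, Real.log_mul (Real.exp_pos _).ne' (by linarith), Real.log_exp] at h1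
    push_cast at h1
    have h2 : 0 ≤ (1 / ((m : ℝ) + 1) + 1 / ((n : ℝ) + 1)) * L := by positivity
    nlinarith

/-- the representation of a germ by a lift, for a combined family -/
lemma exists_lift {L : ℕ → ℝ} {hL : Tendsto L atTop atTop} {r k : ℕ} (U : Fin (r + 1) → GG)
    (l : Fin (r + 1) → ℕ) (ι : Fin k → Fin (r + 1)) (c : Fin k → KK L hL) :
    ∃ X : Polynomial GG, Lift hL U l 1 X ∧ X.eval 1 = ∑ j, (c j : GG) * U (ι j) := by
  refine ⟨∑ j, Polynomial.C (c j : GG) * (Polynomial.C (U (ι j)) * Polynomial.X ^ (l (ι j))),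
    Lift.sum _ _ _ fun j _ => (Lift.gen (ι j)).smul (c j).2, ?_⟩
  rw [Polynomial.eval_finsetSum]
  refine Finset.sum_congr rfl fun j _ => ?_
  simp

lemma gm_sum' {ι : Type} (A : Finset ι) (f : ι → ℕ → ℚ) :
    ∑ a ∈ A, gm (f a) = gm (fun t => ∑ a ∈ A, f a t) := by
  classical
  induction A using Finset.induction_on with
  | empty => simp [gm_zero]
  | insert x A hx ih =>
    rw [Finset.sum_insert hx, ih, gm_add]
    congr 1
    funext n
    rw [Finset.sum_insert hx]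

/-- **The inequality of Hall for sums of S-units.** -/
theorem hall (hnc : NcStmt) (hcs : CSStmt) (hhb : HbStmt) (hfw : FwStmt) (m n k : ℕ)
    (Γ : Subgroup ℚˣ) (hΓ : Γ.FG) (ε : ℝ) (hε : 0 < ε) :
    ∃ C : ℝ, ∀ M : ℝ, 1 ≤ M → ∀ (u : Fin k → Γ) (a c : Fin k → ℤ), (∀ j, |(a j : ℝ)| ≤ M) →
      (∀ j, |(c j : ℝ)| ≤ M) → ∀ x y : ℤ, (x : ℚ) = ∑ j, ((u j : ℚˣ) : ℚ) * a j →
      (y : ℚ) = ∑ j, ((u j : ℚˣ) : ℚ) * c j → y ^ (n + 1) ≠ x ^ (m + 1) →
      (1 - 1 / ((m : ℝ) + 1) - 1 / ((n : ℝ) + 1) - ε) *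
          Real.log (max (|(x : ℝ)| ^ (m + 1)) (|(y : ℝ)| ^ (n + 1))) ≤
        C * (1 + Real.log M) + Real.log |(y : ℝ) ^ (n + 1) - (x : ℝ) ^ (m + 1)| := by
  classical
  obtain ⟨s, b, hb, hbi, hΓb⟩ := exists_base Γ hΓ
  by_contra hcon
  push Not at hcon
  choose M hM u a c ha hc x y hx hy hne hlt using fun t : ℕ => hcon (t : ℝ)
  set L : ℕ → ℝ := fun t => Real.log (max (|(x t : ℝ)| ^ (m + 1)) (|(y t : ℝ)| ^ (n + 1)))
    with hLdef
  have hm1 : (0 : ℝ) < (m : ℝ) + 1 := by positivity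
  have hn1 : (0 : ℝ) < (n : ℝ) + 1 := by positivity
  have hδ : 0 < 1 / ((m : ℝ) + 1) + 1 / ((n : ℝ) + 1) := by positivity
  have hD1 : ∀ t, 1 ≤ |(y t : ℝ) ^ (n + 1) - (x t : ℝ) ^ (m + 1)| := by
    intro t
    have h1 : y t ^ (n + 1) - x t ^ (m + 1) ≠ 0 := sub_ne_zero.2 (hne t)
    exact_mod_cast Int.one_le_abs h1
  have hmax1 : ∀ t, 1 ≤ max (|(x t : ℝ)| ^ (m + 1)) (|(y t : ℝ)| ^ (n + 1)) := by
    intro t
    by_cases h : x t = 0
    · have h1 : y t ≠ 0 := by
        intro h2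
        apply hne t
        rw [h, h2, zero_pow (by omega), zero_pow (by omega)]
      refine le_max_of_le_right (one_le_pow₀ ?_)
      exact_mod_cast Int.one_le_abs h1
    · refine le_max_of_le_left (one_le_pow₀ ?_)
      exact_mod_cast Int.one_le_abs h
  have hL0 : ∀ t, 0 ≤ L t := fun t => Real.log_nonneg (hmax1 t)
  have hlM : ∀ t, 0 ≤ Real.log (M t) := fun t => Real.log_nonneg (hM t)
  have hlD : ∀ t, 0 ≤ Real.log |(y t : ℝ) ^ (n + 1) - (x t : ℝ) ^ (m + 1)| :=
    fun t => Real.log_nonneg (hD1 t)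
  have hLt : ∀ t : ℕ, (t : ℝ) * (1 + Real.log (M t)) < L t := by
    intro t
    have h1 := hlt t
    have h2 : (1 - 1 / ((m : ℝ) + 1) - 1 / ((n : ℝ) + 1) - ε) * L t ≤ L t := by
      have h3 : 0 ≤ (1 / ((m : ℝ) + 1) + 1 / ((n : ℝ) + 1) + ε) * L t :=
        mul_nonneg (by linarith) (hL0 t)
      nlinarith
    have h3 : (t : ℝ) * (1 + Real.log (M t)) +
        Real.log |(y t : ℝ) ^ (n + 1) - (x t : ℝ) ^ (m + 1)| <
        (1 - 1 / ((m : ℝ) + 1) - 1 / ((n : ℝ) + 1) - ε) * L t := h1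
    have h4 := hlD t
    linarith
  have hL : Tendsto L atTop atTop := by
    refine tendsto_atTop_mono (fun t => ?_) tendsto_natCast_atTop_atTop
    have h1 := hLt t
    have h2 : 0 ≤ (t : ℝ) * Real.log (M t) := mul_nonneg (Nat.cast_nonneg t) (hlM t)
    rw [mul_add, mul_one] at h1
    linarith
  -- the digits are negligible
  have hneg : ∀ z : ℕ → ℤ, (∀ t, |(z t : ℝ)| ≤ M t) → gm (fun t => (z t : ℚ)) ∈ KK L hL := by
    intro z hz
    refine ⟨z, fun _ => 1, ?_, Negl.one hL, by simp, by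
      congr 1
      funext t
      simp⟩
    intro ε' hε'
    have h1 : ∀ᶠ t : ℕ in atTop, 1 / ε' ≤ (t : ℝ) :=
      tendsto_natCast_atTop_atTop.eventually_ge_atTop _
    refine ev_of_atTop (h1.mono fun t ht => ?_)
    refine (hz t).trans ?_
    rw [← Real.exp_log (show 0 < M t by linarith [hM t])]
    refine Real.exp_le_exp.2 ?_
    have h2 := hLt t
    have h3 : 1 / ε' * Real.log (M t) ≤ (t : ℝ) * (1 + Real.log (M t)) := by
      have h5 : (0 : ℝ) ≤ t := Nat.cast_nonneg t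
      nlinarith [mul_le_mul_of_nonneg_right ht (hlM t)]
    have h5 : 1 / ε' * Real.log (M t) ≤ L t := h3.trans h2.le
    rw [one_div, inv_mul_le_iff₀ hε'] at h5
    exact h5
  -- integers bounded by a power of exp L
  have hintle : ∀ z : ℕ → ℤ, (∀ t, |(z t : ℝ)| ≤ Real.exp (L t)) → ∀ t, ∀ v,
      av b v (z t : ℚ) ≤ Real.exp (1 * L t) := by
    intro z hz t v
    rw [one_mul]
    cases v with
    | none =>
      simp only [av]
      push_cast
      exact hz t
    | some w =>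
      have := Fact.mk (hb w)
      have h1 : av b (some w) (z t : ℚ) ≤ 1 := by
        simp only [av]
        exact_mod_cast padicNorm.of_int (p := b w) (z t)
      exact h1.trans (Real.one_le_exp (hL0 t))
  have hpowle : ∀ (z : ℤ) (e : ℕ) (B : ℝ), 1 ≤ B → |(z : ℝ)| ^ (e + 1) ≤ B → |(z : ℝ)| ≤ B := by
    intro z e B hB hz
    by_cases h0 : z = 0
    · rw [h0, Int.cast_zero, abs_zero]
      linarith
    · have h1 : (1 : ℝ) ≤ |(z : ℝ)| := by exact_mod_cast Int.one_le_abs h0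
      exact (le_self_pow₀ h1 (by omega)).trans hz
  have hexpL : ∀ t, Real.exp (L t) = max (|(x t : ℝ)| ^ (m + 1)) (|(y t : ℝ)| ^ (n + 1)) :=
    fun t => Real.exp_log (by linarith [hmax1 t])
  have hxle : ∀ t, |(x t : ℝ)| ≤ Real.exp (L t) := fun t =>
    hpowle _ m _ (Real.one_le_exp (hL0 t)) (by rw [hexpL]; exact le_max_left _ _)
  have hyle : ∀ t, |(y t : ℝ)| ≤ Real.exp (L t) := fun t =>
    hpowle _ n _ (Real.one_le_exp (hL0 t)) (by rw [hexpL]; exact le_max_right _ _)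
  -- the germs
  set V : Fin k → GG := fun j => gm (fun t => ((u t j : ℚˣ) : ℚ)) with hV
  have hVS : ∀ j, GSU b (V j) := fun j => ⟨_, rfl, fun t => hΓb _ (u t j).2⟩
  have hgerm : ∀ (z : ℕ → ℤ) (e : ℕ → Fin k → ℤ),
      (∀ t, (z t : ℚ) = ∑ j, ((u t j : ℚˣ) : ℚ) * e t j) →
      ∑ j, gm (fun t => (e t j : ℚ)) * V j = gm (fun t => (z t : ℚ)) := by
    intro z e hz
    have h1 : ∀ j, gm (fun t => (e t j : ℚ)) * V j =
        gm (fun t => ((u t j : ℚˣ) : ℚ) * e t j) := by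
      intro j
      rw [hV]
      simp only
      rw [gm_mul]
      congr 1
      funext t
      ring
    simp only [h1]
    rw [gm_sum']
    congr 1
    funext t
    rw [hz t]
  have hrepz : ∀ z : ℕ → ℤ, ∀ᶠ t in (UU : Filter ℕ), rep (gm (fun t => (z t : ℚ))) t = z t :=
    fun z => rep_gm _
  have hHB : ∀ (z : ℕ → ℤ) (e : ℕ → Fin k → ℤ),
      (∀ t, (z t : ℚ) = ∑ j, ((u t j : ℚˣ) : ℚ) * e t j) → (∀ t j, |(e t j : ℝ)| ≤ M t) →
      (∀ t, |(z t : ℝ)| ≤ Real.exp (L t)) →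
      ∃ (m' : ℕ) (u' : Fin m' → GG) (c' : Fin m' → KK L hL), (∀ i, GSU b (u' i)) ∧
        (∀ i, Mod b L (u' i)) ∧ ∑ j, (c' j : GG) * u' j = gm (fun t => (z t : ℚ)) := by
    intro z e hz he hzl
    have h1 := hhb s b hb hbi L hL k V hVS
      (fun j => ⟨gm (fun t => (e t j : ℚ)), hneg _ fun t => he t j⟩) 1 (by
        have h2 : ∑ j, ((⟨gm (fun t => (e t j : ℚ)), hneg _ fun t => he t j⟩ : KK L hL) : GG) *
            V j = gm (fun t => (z t : ℚ)) := hgerm z e hz
        rw [h2]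
        filter_upwards [hrepz z] with t ht v
        rw [ht]
        exact hintle z hzl t v)
    obtain ⟨m', u', c', h3, h4, h5⟩ := h1
    exact ⟨m', u', c', h3, h4, h5.trans (hgerm z e hz)⟩
  obtain ⟨m1, u1, c1, hu1, hu1', hs1⟩ := hHB x a hx ha hxle
  obtain ⟨m2, u2, c2, hu2, hu2', hs2⟩ := hHB y c hy hc hyle
  -- the combined family
  set W : Fin (m1 + m2 + 1) → GG := Fin.cons 1 (Fin.append u1 u2) with hW
  have hWall : ∀ (P : GG → Prop), P 1 → (∀ j, P (u1 j)) → (∀ j, P (u2 j)) → ∀ j, P (W j) := by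
    intro P h0 h1 h2 j
    rw [hW]
    refine Fin.cases ?_ (fun j => ?_) j
    · simpa using h0
    · rw [Fin.cons_succ]
      refine Fin.addCases (fun i => ?_) (fun i => ?_) j
      · rw [Fin.append_left]
        exact h1 i
      · rw [Fin.append_right]
        exact h2 i
  have hWg : ∀ j, GSU b (W j) := hWall _ GSU.one hu1 hu2
  have hWm : ∀ j, Mod b L (W j) := hWall _ (Mod.one hb hL) hu1' hu2'
  obtain ⟨l, hl⟩ := hfw L hL (m1 + m2) W (fun j => GSU.ne_zero hb (hWg j)) (m + n + 5)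
  have hs : Setup b hL W l (m + n + 5) := ⟨hWg, hWm, hl⟩
  obtain ⟨X, hX, hX1⟩ := exists_lift (hL := hL) W l (fun j : Fin m1 => (Fin.castAdd m2 j).succ) c1
  obtain ⟨Y, hY, hY1⟩ := exists_lift (hL := hL) W l (fun j : Fin m2 => (Fin.natAdd m1 j).succ) c2
  have hX2 : X.eval 1 = gm (fun t => (x t : ℚ)) := by
    rw [hX1, ← hs1]
    refine Finset.sum_congr rfl fun j _ => ?_
    rw [hW, Fin.cons_succ, Fin.append_left]
  have hY2 : Y.eval 1 = gm (fun t => (y t : ℚ)) := by
    rw [hY1, ← hs2]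
    refine Finset.sum_congr rfl fun j _ => ?_
    rw [hW, Fin.cons_succ, Fin.append_right]
  have hing : ∀ z : ℕ → ℤ, Ing b L (gm (fun t => (z t : ℚ))) := by
    intro z v
    rw [← gm_one, dom_gm]
    intro ε' hε'
    filter_upwards [L_nonneg hL] with t ht
    rw [av_one hb, mul_one]
    have := Fact.mk (hb v)
    have h1 : av b (some v) (z t : ℚ) ≤ 1 := by
      simp only [av]
      exact_mod_cast padicNorm.of_int (p := b v) (z t)
    exact h1.trans (Real.one_le_exp (by positivity))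
  have hDg : gm (fun t => (y t : ℚ)) ^ (n + 1) - gm (fun t => (x t : ℚ)) ^ (m + 1) =
      gm (fun t => (y t : ℚ) ^ (n + 1) - (x t : ℚ) ^ (m + 1)) := by
    rw [gm_pow, gm_pow, gm_sub]
  have key := hallGerm hnc hcs hb hbi hs (by rw [hW]; rfl) m n le_rfl X Y hX hY
    (by rw [hX2]; exact hing x) (by rw [hY2]; exact hing y) (by
      rw [hX2, hY2, hDg, gm_ne_zero]
      refine Eventually.of_forall fun t => sub_ne_zero.2 ?_
      exact_mod_cast hne t)
  rw [hX2, hY2, hDg] at key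
  -- the final contradiction
  have hbig : ∀ᶠ t in (UU : Filter ℕ), 2 * Real.log 2 < ε * L t := by
    refine ev_of_atTop ?_
    filter_upwards [hL.eventually_gt_atTop (2 * Real.log 2 / ε)] with t ht
    rw [div_lt_iff₀ hε] at ht
    linarith
  have hfin : ∀ᶠ t in (UU : Filter ℕ), |(y t : ℝ)| ^ n ≤ Real.exp (ε / 2 * L t) *
      (|(x t : ℝ)| * |(y t : ℝ) ^ (n + 1) - (x t : ℝ) ^ (m + 1)|) ∨
      |(x t : ℝ)| ^ (m + 1) ≤ Real.exp (ε / 2 * L t) *
        |(y t : ℝ) ^ (n + 1) - (x t : ℝ) ^ (m + 1)| := by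
    rcases key with h | h
    · rw [gm_pow, gm_mul, dom_gm] at h
      filter_upwards [h (ε / 2) (by positivity)] with t ht
      left
      rw [av_mul hb, av_pow hb] at ht
      simp only [av] at ht
      push_cast at ht
      exact ht
    · rw [gm_pow, dom_gm] at h
      filter_upwards [h (ε / 2) (by positivity)] with t ht
      right
      rw [av_pow hb] at ht
      simp only [av] at ht
      push_cast at ht
      exact ht
  obtain ⟨t, h1, h2⟩ := (hbig.and hfin).exists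
  refine arith m n ε (L t) |(x t : ℝ)| |(y t : ℝ)|
    |(y t : ℝ) ^ (n + 1) - (x t : ℝ) ^ (m + 1)| hε (abs_nonneg _) (abs_nonneg _) (hD1 t)
    (hexpL t).symm ?_ ?_ h1 (hL0 t) h2
  · rw [← abs_pow, ← abs_pow]
    exact abs_abs_sub_abs_le _ _
  · have h3 := hlt t
    have h4 : 0 ≤ (t : ℝ) * (1 + Real.log (M t)) :=
      mul_nonneg (Nat.cast_nonneg t) (by linarith [hlM t])
    have h5 : (t : ℝ) * (1 + Real.log (M t)) +
        Real.log |(y t : ℝ) ^ (n + 1) - (x t : ℝ) ^ (m + 1)| <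
        (1 - 1 / ((m : ℝ) + 1) - 1 / ((n : ℝ) + 1) - ε) * L t := h3
    linarith

end Pool.Agent.TH551.HA
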