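import Mathlib
import Pool.Agent.TH551.HA.HallMain

/-!
# Project HA: the inequality of Mason and Stothers for sums of S-units
-/

set_option autoImplicit false
set_option linter.unusedSectionVars false
set_option linter.unusedVariables false

namespace Pool.Agent.TH551.HA

open Filter Topology Pool.Agent.TH932.Germs Pool.Agent.TH551.SU Pool.Agent.TH551.ZP
open Pool.Agent.TH551.SU.CRV Pool.Agent.TH551.ZP.GT

variable {s : ℕ} {b : Fin s → ℕ} {L : ℕ → ℝ} {r : ℕ} {hL : Tendsto L atTop atTop}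
  {U : Fin (r + 1) → GG} {l : Fin (r + 1) → ℕ} {d : ℕ}

lemma QI.pow (hb : ∀ v, (b v).Prime) (hL : Tendsto L atTop atTop) {f : GG} (h : QI b L f)
    (k : ℕ) : QI b L (f ^ k) := by
  induction k with
  | zero => rw [pow_zero]; exact QI.of_KK hb hL (KK L hL).one_mem
  | succ k ih => rw [pow_succ]; exact QI.mul hb ih h

lemma QI.prod (hb : ∀ v, (b v).Prime) (hL : Tendsto L atTop atTop) {ι : Type} (A : Finset ι)
    (f : ι → GG) (h : ∀ i ∈ A, QI b L (f i)) : QI b L (∏ i ∈ A, f i) := by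
  classical
  induction A using Finset.induction_on with
  | empty => rw [Finset.prod_empty]; exact QI.of_KK hb hL (KK L hL).one_mem
  | insert a A ha ih =>
    rw [Finset.prod_insert ha]
    exact QI.mul hb (h a (Finset.mem_insert_self _ _))
      (ih fun i hi => h i (Finset.mem_insert_of_mem hi))

lemma QI.neg (hb : ∀ v, (b v).Prime) (hL : Tendsto L atTop atTop) {f : GG} (h : QI b L f) :
    QI b L (-f) := by
  rw [← neg_one_mul]
  exact QI.mul hb (QI.of_KK hb hL (neg_mem (KK L hL).one_mem)) h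

/-- the logarithmic derivative of a product of powers has small denominators -/
lemma th_prod (hb : ∀ v, (b v).Prime) (hs : Setup b hL U l d) {ι : Type} (A : Finset ι)
    (e : ι → ℕ) (he : ∀ i ∈ A, 1 ≤ e i) (X : ι → Polynomial GG)
    (hX : ∀ i ∈ A, Lift hL U l 1 (X i)) :
    ∃ h : GG, QI b L h ∧ (th (∏ i ∈ A, X i ^ (e i))).eval 1 =
      (∏ i ∈ A, (X i).eval 1 ^ (e i - 1)) * h := by
  classical
  induction A using Finset.induction_on with
  | empty =>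
    refine ⟨0, QI.of_KK hb hL (KK L hL).zero_mem, ?_⟩
    simp [th]
  | insert a A ha ih =>
    obtain ⟨h, hh, heq⟩ := ih (fun i hi => he i (Finset.mem_insert_of_mem hi))
      (fun i hi => hX i (Finset.mem_insert_of_mem hi))
    obtain ⟨k, hk⟩ : ∃ k, e a = k + 1 :=
      ⟨e a - 1, (Nat.sub_add_cancel (he a (Finset.mem_insert_self _ _))).symm⟩
    have hXa := hX a (Finset.mem_insert_self _ _)
    refine ⟨((k : GG) + 1) * (th (X a)).eval 1 * (∏ i ∈ A, (X i).eval 1) + (X a).eval 1 * h,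
      ?_, ?_⟩
    · refine QI.add hb ?_ (QI.mul hb (hXa.qi hb hs) hh)
      refine QI.mul hb (QI.mul hb ?_ (hXa.th.qi hb hs)) ?_
      · exact QI.of_KK hb hL (add_mem (natCast_mem _ k) (one_mem _))
      · exact QI.prod hb hL _ _ fun i hi => (hX i (Finset.mem_insert_of_mem hi)).qi hb hs
    · rw [Finset.prod_insert ha, th_mul, hk, th_pow, Finset.prod_insert ha, hk,
        Nat.add_sub_cancel]
      simp only [Polynomial.eval_add, Polynomial.eval_mul, Polynomial.eval_pow, heq,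
        Polynomial.eval_natCast]
      have h1 : (∏ i ∈ A, X i ^ (e i)).eval 1 =
          (∏ i ∈ A, (X i).eval 1 ^ (e i - 1)) * ∏ i ∈ A, (X i).eval 1 := by
        rw [Polynomial.eval_prod, ← Finset.prod_mul_distrib]
        refine Finset.prod_congr rfl fun i hi => ?_
        rw [Polynomial.eval_pow, ← pow_succ,
          Nat.sub_add_cancel (he i (Finset.mem_insert_of_mem hi))]
      rw [h1]
      push_cast
      ring

/-- three divisors of a quasi-integral germ -/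
lemma qi_div (hb : ∀ v, (b v).Prime) (hL : Tendsto L atTop atTop) (W : GG)
    (G : Fin 3 → ℕ → ℤ) (hG0 : ∀ σ t, G σ t ≠ 0)
    (hcop : ∀ σ σ' t, σ ≠ σ' → IsCoprime (G σ t) (G σ' t))
    (h : ∀ σ, ∃ ω : GG, QI b L ω ∧ W = gm (fun t => (G σ t : ℚ)) * ω) :
    ∃ ω : GG, QI b L ω ∧ W = gm (fun t => ((G 0 t * G 1 t * G 2 t : ℤ) : ℚ)) * ω := by
  classical
  have hg0 : gm (fun t => ((G 0 t * G 1 t * G 2 t : ℤ) : ℚ)) ≠ 0 := by
    rw [gm_ne_zero]
    refine Eventually.of_forall fun t => ?_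
    exact_mod_cast mul_ne_zero (mul_ne_zero (hG0 0 t) (hG0 1 t)) (hG0 2 t)
  refine ⟨W / gm (fun t => ((G 0 t * G 1 t * G 2 t : ℤ) : ℚ)), ?_, by
    rw [mul_div_cancel₀ _ hg0]⟩
  choose ω hω hW using h
  choose N hN hN0 hNi using hω
  refine ⟨fun t => N 0 t * N 1 t * N 2 t, ((hN 0).mul (hN 1)).mul (hN 2), ?_, ?_⟩
  · filter_upwards [hN0 0, hN0 1, hN0 2] with t h0 h1 h2
    exact mul_ne_zero (mul_ne_zero h0 h1) h2
  · have hWr : ∀ σ, ∀ᶠ t in (UU : Filter ℕ), rep W t = G σ t * rep (ω σ) t := by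
      intro σ
      have h1 := rep_mul (gm (fun t => (G σ t : ℚ))) (ω σ)
      rw [← hW σ] at h1
      filter_upwards [h1, rep_gm (fun t => (G σ t : ℚ))] with t h2 h3
      rw [h2, h3]
    have hdiv : ∀ᶠ t in (UU : Filter ℕ),
        rep (W / gm (fun t => ((G 0 t * G 1 t * G 2 t : ℤ) : ℚ))) t =
        rep W t / ((G 0 t * G 1 t * G 2 t : ℤ) : ℚ) := by
      have h1 := rep_gm (fun t => rep W t / ((G 0 t * G 1 t * G 2 t : ℤ) : ℚ))
      rw [← gm_div, gm_rep] at h1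
      exact h1
    filter_upwards [hNi 0, hNi 1, hNi 2, hWr 0, hWr 1, hWr 2, hdiv] with t i0 i1 i2 w0 w1 w2 hd
    rw [hd]
    obtain ⟨k0, e0, hk0⟩ := i0
    obtain ⟨k1, e1, hk1⟩ := i1
    obtain ⟨k2, e2, hk2⟩ := i2
    set P : ℚ := ∏ v, (b v : ℚ) with hP
    set Pz : ℤ := ∏ v, (b v : ℤ) with hPz
    have hPP : (Pz : ℚ) = P := by rw [hPz, hP]; push_cast; rfl
    -- the common numerator
    have a0 : (N 0 t * N 1 t * N 2 t : ℤ) * rep W t * P ^ (e0 + e1 + e2) =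
        ((G 0 t * (N 1 t * N 2 t * k0 * Pz ^ (e1 + e2)) : ℤ) : ℚ) := by
      rw [w0]
      push_cast
      rw [hPP, ← hk0]
      ring
    have a1 : (N 0 t * N 1 t * N 2 t : ℤ) * rep W t * P ^ (e0 + e1 + e2) =
        ((G 1 t * (N 0 t * N 2 t * k1 * Pz ^ (e0 + e2)) : ℤ) : ℚ) := by
      rw [w1]
      push_cast
      rw [hPP, ← hk1]
      ring
    have a2 : (N 0 t * N 1 t * N 2 t : ℤ) * rep W t * P ^ (e0 + e1 + e2) =
        ((G 2 t * (N 0 t * N 1 t * k2 * Pz ^ (e0 + e1)) : ℤ) : ℚ) := by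
      rw [w2]
      push_cast
      rw [hPP, ← hk2]
      ring
    have b1 : G 0 t * (N 1 t * N 2 t * k0 * Pz ^ (e1 + e2)) =
        G 1 t * (N 0 t * N 2 t * k1 * Pz ^ (e0 + e2)) := by exact_mod_cast a0.symm.trans a1
    have b2 : G 0 t * (N 1 t * N 2 t * k0 * Pz ^ (e1 + e2)) =
        G 2 t * (N 0 t * N 1 t * k2 * Pz ^ (e0 + e1)) := by exact_mod_cast a0.symm.trans a2
    set w : ℤ := G 0 t * (N 1 t * N 2 t * k0 * Pz ^ (e1 + e2)) with hw
    have d0 : G 0 t ∣ w := ⟨_, hw⟩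
    have d1 : G 1 t ∣ w := ⟨_, b1⟩
    have d2 : G 2 t ∣ w := ⟨_, b2⟩
    have c01 : IsCoprime (G 0 t) (G 1 t) := hcop 0 1 t (by decide)
    have c02 : IsCoprime (G 0 t) (G 2 t) := hcop 0 2 t (by decide)
    have c12 : IsCoprime (G 1 t) (G 2 t) := hcop 1 2 t (by decide)
    have d3 : G 0 t * G 1 t * G 2 t ∣ w :=
      (IsCoprime.mul_left c02 c12).mul_dvd (c01.mul_dvd d0 d1) d2
    obtain ⟨q, hq⟩ := d3
    refine ⟨q, e0 + e1 + e2, ?_⟩
    have hne : ((G 0 t * G 1 t * G 2 t : ℤ) : ℚ) ≠ 0 := by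
      exact_mod_cast mul_ne_zero (mul_ne_zero (hG0 0 t) (hG0 1 t)) (hG0 2 t)
    have h9 : ((w : ℤ) : ℚ) = ((G 0 t * G 1 t * G 2 t : ℤ) : ℚ) * q := by
      rw [hq]
      push_cast
      ring
    have h10 : (N 0 t * N 1 t * N 2 t : ℤ) * (rep W t / ((G 0 t * G 1 t * G 2 t : ℤ) : ℚ)) *
        P ^ (e0 + e1 + e2) = ((w : ℤ) : ℚ) / ((G 0 t * G 1 t * G 2 t : ℤ) : ℚ) := by
      rw [← a0]
      ring
    rw [h10, h9, mul_div_cancel_left₀ _ hne]

lemma gm_prod' {ι : Type} (A : Finset ι) (f : ι → ℕ → ℚ) :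
    ∏ a ∈ A, gm (f a) = gm (fun t => ∏ a ∈ A, f a t) := by
  classical
  induction A using Finset.induction_on with
  | empty => simp [gm_one]
  | insert x A hx ih =>
    rw [Finset.prod_insert hx, ih, gm_mul]
    congr 1
    funext n
    rw [Finset.prod_insert hx]

lemma av_int_le_one (hb : ∀ v, (b v).Prime) (v : Fin s) (z : ℤ) : av b (some v) (z : ℚ) ≤ 1 := by
  have := Fact.mk (hb v)
  simp only [av]
  exact_mod_cast padicNorm.of_int (p := b v) z

/-- coprime integers are not both small at a prime -/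
lemma one_le_max_of_coprime (hb : ∀ v, (b v).Prime) (v : Fin s) (y z : ℤ) (h : IsCoprime y z) :
    1 ≤ max (av b (some v) (y : ℚ)) (av b (some v) (z : ℚ)) := by
  have := Fact.mk (hb v)
  by_contra hno
  rw [not_le, max_lt_iff] at hno
  simp only [av] at hno
  have h1 : padicNorm (b v) (y : ℚ) < 1 := by exact_mod_cast hno.1
  have h2 : padicNorm (b v) (z : ℚ) < 1 := by exact_mod_cast hno.2
  rw [padicNorm.int_lt_one_iff] at h1 h2
  have h3 := h.isUnit_of_dvd' h1 h2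
  rw [Int.isUnit_iff_natAbs_eq, Int.natAbs_natCast] at h3
  exact (hb v).one_lt.ne' h3

/-- the size of the quotient of two coprime integers -/
lemma small_of_KK (hL : Tendsto L atTop atTop) (y z : ℕ → ℤ) (hz : ∀ t, z t ≠ 0)
    (hc : ∀ t, IsCoprime (y t) (z t)) (h : gm (fun t => (y t : ℚ) / (z t : ℚ)) ∈ KK L hL)
    (ε : ℝ) (hε : 0 < ε) : ∀ᶠ t in (UU : Filter ℕ), |(y t : ℝ)| ≤ Real.exp (ε * L t) ∧
      |(z t : ℝ)| ≤ Real.exp (ε * L t) := by
  obtain ⟨h1, h2⟩ := (mem_KK_iff hL _).1 h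
  filter_upwards [h1 ε hε, h2 ε hε] with t h3 h4
  have h5 : |((((y t : ℚ) / (z t : ℚ)).num : ℤ) : ℝ)| = |(y t : ℝ)| ∧
      |(((((y t : ℚ) / (z t : ℚ)).den : ℕ) : ℤ) : ℝ)| = |(z t : ℝ)| := by
    obtain ⟨c, hc1, hc2⟩ := Rat.exists_eq_mul_div_num_and_eq_mul_div_den (y t) (hz t)
    have h6 : c ∣ y t := ⟨_, hc1⟩
    have h7 : c ∣ z t := ⟨_, hc2⟩
    have h8 : |c| = 1 := Int.isUnit_iff_abs_eq.1 ((hc t).isUnit_of_dvd' h6 h7)
    have h9 : |(c : ℝ)| = 1 := by exact_mod_cast h8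
    constructor
    · have h10 : (y t : ℝ) = c * ((((y t : ℚ) / (z t : ℚ)).num : ℤ) : ℝ) := by exact_mod_cast hc1
      rw [h10, abs_mul, h9, one_mul]
    · have h10 : (z t : ℝ) = c * (((((y t : ℚ) / (z t : ℚ)).den : ℕ) : ℤ) : ℝ) := by
        exact_mod_cast hc2
      rw [h10, abs_mul, h9, one_mul]
  rw [h5.1] at h3
  rw [h5.2] at h4
  exact ⟨h3, h4⟩

/-- domination of the Wronskian -/
lemma wr_dom (hnc : NcStmt) (hb : ∀ v, (b v).Prime) (hbi : Function.Injective b)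
    (hs : Setup b hL U l d) (N : ℕ) (hN : N ≤ d) (p q : Polynomial GG) (hp : Lift hL U l N p)
    (hq : Lift hL U l N q) (v : Option (Fin s)) :
    Dom b L v ((th p * q - p * th q).eval 1) (p.eval 1 * q.eval 1) := by
  rw [Polynomial.eval_sub, Polynomial.eval_mul, Polynomial.eval_mul]
  exact Dom.sub hb hL
    (Dom.mul hb (hp.th_dom hnc hb hbi hs hN v) (Dom.refl hb hL _ _))
    (Dom.mul hb (Dom.refl hb hL _ _) (hq.th_dom hnc hb hbi hs hN v))

/-- three numbers -/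
lemma max_three (W a0 a1 a2 E : ℝ) (n0 : 0 ≤ a0) (n1 : 0 ≤ a1) (n2 : 0 ≤ a2)
    (g1 : W ≤ E * (a0 * a1)) (g2 : W ≤ E * (a1 * a2)) (g3 : W ≤ E * (a2 * a0)) :
    W * max (max a0 a1) a2 ≤ E * (a0 * a1 * a2) := by
  rcases max_choice (max a0 a1) a2 with h | h
  · rw [h]
    rcases max_choice a0 a1 with h' | h'
    · rw [h']
      calc W * a0 ≤ (E * (a1 * a2)) * a0 := mul_le_mul_of_nonneg_right g2 n0
        _ = _ := by ring
    · rw [h']
      calc W * a1 ≤ (E * (a2 * a0)) * a1 := mul_le_mul_of_nonneg_right g3 n1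
        _ = _ := by ring
  · rw [h]
    calc W * a2 ≤ (E * (a0 * a1)) * a2 := mul_le_mul_of_nonneg_right g1 n2
      _ = _ := by ring

/-- the Wronskian does not vanish -/
lemma wr_ne (hcs : CSStmt) (hb : ∀ v, (b v).Prime)
    (hbi : Function.Injective b) (hs : Setup b hL U l d) (N : ℕ) (hN : 2 * N ≤ d)
    (a : Fin 3 → Polynomial GG) (haL : ∀ σ, Lift hL U l N (a σ)) (A : Fin 3 → ℕ → ℤ)
    (ha1 : ∀ σ, (a σ).eval 1 = gm (fun t => (A σ t : ℚ))) (hA0 : ∀ σ t, A σ t ≠ 0)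
    (hsum : ∀ t, A 0 t + A 1 t + A 2 t = 0)
    (hcop : ∀ σ σ' t, σ ≠ σ' → IsCoprime (A σ t) (A σ' t))
    (hLA : ∀ t, Real.exp (L t) = max (max |(A 0 t : ℝ)| |(A 1 t : ℝ)|) |(A 2 t : ℝ)|) :
    (th (a 0) * a 1 - a 0 * th (a 1)).eval 1 ≠ 0 := by
  intro hW0
  have hWL : Lift hL U l (N + N) (th (a 0) * a 1 - a 0 * th (a 1)) :=
    ((haL 0).th.mul (haL 1)).sub ((haL 0).mul (haL 1).th)
  have h1 : th (a 0) * a 1 - a 0 * th (a 1) = 0 := hWL.eq_zero hcs hb hbi hs (by omega) hW0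
  have hgA0 : ∀ σ, gm (fun t => (A σ t : ℚ)) ≠ 0 := by
    intro σ
    rw [gm_ne_zero]
    exact Eventually.of_forall fun t => by exact_mod_cast hA0 σ t
  have ha10 : a 1 ≠ 0 := by
    intro h2
    have h3 := ha1 1
    rw [h2, Polynomial.eval_zero] at h3
    exact hgA0 1 h3.symm
  have hWr : Polynomial.derivative (a 0) * a 1 = a 0 * Polynomial.derivative (a 1) := by
    unfold th at h1
    have h2 : Polynomial.X * (Polynomial.derivative (a 0) * a 1 -
        a 0 * Polynomial.derivative (a 1)) = 0 := by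
      linear_combination h1
    exact sub_eq_zero.1 ((mul_eq_zero.1 h2).resolve_left Polynomial.X_ne_zero)
  obtain ⟨c, hc⟩ := prop_of_wr (a 0) (a 1) ha10 hWr
  have hlc : (a 1).coeff (a 1).natDegree ≠ 0 := Polynomial.leadingCoeff_ne_zero.2 ha10
  have hcK : c ∈ KK L hL := by
    have h2 := Lift.coeff_div hb hs (by omega) (haL 0) (haL 1) (a 1).natDegree hlc
    rw [hc, Polynomial.coeff_C_mul, mul_div_assoc, div_self hlc, mul_one] at h2
    exact h2
  have hq : gm (fun t => (A 0 t : ℚ) / (A 1 t : ℚ)) ∈ KK L hL := by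
    have h2 := ha1 0
    rw [hc, Polynomial.eval_mul, Polynomial.eval_C, ha1] at h2
    rw [← gm_div, ← h2, mul_div_assoc, div_self (hgA0 1), mul_one]
    exact hcK
  have hsm := small_of_KK hL _ _ (hA0 1) (fun t => hcop 0 1 t (by decide)) hq (1 / 2)
    (by norm_num)
  have hbig : ∀ᶠ t in (UU : Filter ℕ), 2 * Real.log 2 < L t :=
    ev_of_atTop (hL.eventually_gt_atTop _)
  obtain ⟨t, h2, h3⟩ := (hsm.and hbig).exists
  have h4 : |(A 2 t : ℝ)| ≤ 2 * Real.exp (1 / 2 * L t) := by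
    have h5 : (A 2 t : ℝ) = -((A 0 t : ℝ) + (A 1 t : ℝ)) := by
      have h6 := hsum t
      have h7 : (A 0 t : ℝ) + (A 1 t : ℝ) + (A 2 t : ℝ) = 0 := by exact_mod_cast h6
      linarith
    rw [h5, abs_neg]
    refine (abs_add_le _ _).trans ?_
    linarith [h2.1, h2.2]
  have h5 : Real.exp (L t) ≤ 2 * Real.exp (1 / 2 * L t) := by
    rw [hLA t]
    have h6 := Real.exp_pos (1 / 2 * L t)
    exact max_le (max_le (by linarith [h2.1]) (by linarith [h2.2])) h4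
  have h6 : (2 : ℝ) * Real.exp (1 / 2 * L t) = Real.exp (Real.log 2 + 1 / 2 * L t) := by
    rw [Real.exp_add, Real.exp_log (by norm_num)]
  rw [h6] at h5
  have h7 := Real.exp_le_exp.1 h5
  linarith

/-- the places together -/
lemma places (hb : ∀ v, (b v).Prime) (A : Fin 3 → ℤ) (G : ℤ) (W ω : ℚ) (L ε1 : ℝ)
    (hcop : IsCoprime (A 0) (A 1))
    (hLA : Real.exp L = max (max |(A 0 : ℝ)| |(A 1 : ℝ)|) |(A 2 : ℝ)|)
    (hup : ∀ v, av b v W * max (max (av b v (A 0 : ℚ)) (av b v (A 1 : ℚ))) (av b v (A 2 : ℚ)) ≤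
      Real.exp (ε1 * L) * (av b v (A 0 : ℚ) * av b v (A 1 : ℚ) * av b v (A 2 : ℚ)))
    (hW : W = (G : ℚ) * ω) (hω : Real.exp (-(ε1 * L)) ≤ ∏ v, av b v ω) :
    Real.exp ((1 - (s + 2) * ε1) * L) * ∏ v, av b v (G : ℚ) ≤
      ∏ v, (av b v (A 0 : ℚ) * av b v (A 1 : ℚ) * av b v (A 2 : ℚ)) := by
  have hmaxge : Real.exp L ≤ ∏ v, max (max (av b v (A 0 : ℚ)) (av b v (A 1 : ℚ)))
      (av b v (A 2 : ℚ)) := by
    rw [Fintype.prod_option]
    have h1 : (1 : ℝ) ≤ ∏ v : Fin s, max (max (av b (some v) (A 0 : ℚ))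
        (av b (some v) (A 1 : ℚ))) (av b (some v) (A 2 : ℚ)) := by
      have h2 : ∀ v ∈ (Finset.univ : Finset (Fin s)), (1 : ℝ) ≤
          max (max (av b (some v) (A 0 : ℚ)) (av b (some v) (A 1 : ℚ)))
            (av b (some v) (A 2 : ℚ)) := fun v _ =>
        (one_le_max_of_coprime hb v _ _ hcop).trans (le_max_left _ _)
      calc (1 : ℝ) = ∏ v : Fin s, (1 : ℝ) := by simp
        _ ≤ _ := Finset.prod_le_prod (fun _ _ => zero_le_one) h2
    have h2 : max (max (av b none (A 0 : ℚ)) (av b none (A 1 : ℚ)))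
        (av b none (A 2 : ℚ)) = Real.exp L := by
      rw [hLA]
      simp only [av]
      push_cast
      rfl
    rw [h2]
    exact le_mul_of_one_le_right (Real.exp_pos _).le h1
  have h1 : ∏ v, (av b v W *
      max (max (av b v (A 0 : ℚ)) (av b v (A 1 : ℚ))) (av b v (A 2 : ℚ))) ≤
      ∏ v, (Real.exp (ε1 * L) *
        (av b v (A 0 : ℚ) * av b v (A 1 : ℚ) * av b v (A 2 : ℚ))) :=
    Finset.prod_le_prod (fun v _ => mul_nonneg (av_nonneg hb _ _)
      (le_max_of_le_right (av_nonneg hb _ _))) fun v _ => hup v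
  rw [Finset.prod_mul_distrib, Finset.prod_mul_distrib] at h1
  have h2 : ∏ v : Option (Fin s), Real.exp (ε1 * L) = Real.exp ((s + 1) * (ε1 * L)) := by
    rw [Finset.prod_const, Finset.card_univ, Fintype.card_option, Fintype.card_fin,
      ← Real.exp_nat_mul]
    push_cast
    rfl
  rw [h2] at h1
  have h3 : ∏ v, av b v W = (∏ v, av b v (G : ℚ)) * ∏ v, av b v ω := by
    rw [← Finset.prod_mul_distrib]
    exact Finset.prod_congr rfl fun v _ => by rw [hW, av_mul hb]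
  have hG : 0 ≤ ∏ v, av b v (G : ℚ) := Finset.prod_nonneg fun v _ => av_nonneg hb _ _
  have h4 : (∏ v, av b v (G : ℚ)) * Real.exp (-(ε1 * L)) * Real.exp L ≤
      Real.exp ((s + 1) * (ε1 * L)) *
        ∏ v, (av b v (A 0 : ℚ) * av b v (A 1 : ℚ) * av b v (A 2 : ℚ)) := by
    refine le_trans ?_ h1
    rw [h3]
    exact mul_le_mul (mul_le_mul_of_nonneg_left hω hG) hmaxge (Real.exp_pos _).le
      (mul_nonneg hG (Finset.prod_nonneg fun v _ => av_nonneg hb _ _))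
  have h5 : Real.exp ((1 - (s + 2) * ε1) * L) = Real.exp (-((s + 1) * (ε1 * L))) *
      (Real.exp (-(ε1 * L)) * Real.exp L) := by
    rw [← Real.exp_add, ← Real.exp_add]
    congr 1
    ring
  calc Real.exp ((1 - (s + 2) * ε1) * L) * ∏ v, av b v (G : ℚ) =
      Real.exp (-((s + 1) * (ε1 * L))) *
        ((∏ v, av b v (G : ℚ)) * Real.exp (-(ε1 * L)) * Real.exp L) := by
        rw [h5]
        ring
    _ ≤ Real.exp (-((s + 1) * (ε1 * L))) * (Real.exp ((s + 1) * (ε1 * L)) *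
        ∏ v, (av b v (A 0 : ℚ) * av b v (A 1 : ℚ) * av b v (A 2 : ℚ))) :=
        mul_le_mul_of_nonneg_left h4 (Real.exp_pos _).le
    _ = _ := by
      rw [← mul_assoc, ← Real.exp_add]
      simp

/-- the inequality with divisors of the terms and of their derivatives -/
theorem abcCore (hnc : NcStmt) (hcs : CSStmt) (hb : ∀ v, (b v).Prime)
    (hbi : Function.Injective b) (hs : Setup b hL U l d) (N : ℕ) (hN : 2 * N ≤ d)
    (a : Fin 3 → Polynomial GG) (haL : ∀ σ, Lift hL U l N (a σ)) (A : Fin 3 → ℕ → ℤ)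
    (ha1 : ∀ σ, (a σ).eval 1 = gm (fun t => (A σ t : ℚ))) (hA0 : ∀ σ t, A σ t ≠ 0)
    (hsum : ∀ t, A 0 t + A 1 t + A 2 t = 0)
    (hcop : ∀ σ σ' t, σ ≠ σ' → IsCoprime (A σ t) (A σ' t))
    (hLA : ∀ t, Real.exp (L t) = max (max |(A 0 t : ℝ)| |(A 1 t : ℝ)|) |(A 2 t : ℝ)|)
    (G : Fin 3 → ℕ → ℤ) (hG0 : ∀ σ t, G σ t ≠ 0) (hGA : ∀ σ t, G σ t ∣ A σ t)
    (hdv : ∀ σ, ∃ u u' : GG, QI b L u ∧ QI b L u' ∧
        (a σ).eval 1 = gm (fun t => (G σ t : ℚ)) * u ∧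
        (th (a σ)).eval 1 = gm (fun t => (G σ t : ℚ)) * u')
    (ε : ℝ) (hε : 0 < ε) :
    ∀ᶠ t in (UU : Filter ℕ), Real.exp ((1 - ε) * L t) *
        ∏ v, av b v ((G 0 t * G 1 t * G 2 t : ℤ) : ℚ) ≤
      ∏ v, (av b v (A 0 t : ℚ) * av b v (A 1 t : ℚ) * av b v (A 2 t : ℚ)) := by
  classical
  have hasum : a 0 + a 1 + a 2 = 0 := by
    refine (((haL 0).add (haL 1)).add (haL 2)).eq_zero hcs hb hbi hs (by omega) ?_
    rw [Polynomial.eval_add, Polynomial.eval_add, ha1, ha1, ha1, gm_add, gm_add, ← gm_zero]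
    congr 1
    funext t
    exact_mod_cast hsum t
  have htsum : th (a 0) + th (a 1) + th (a 2) = 0 := by
    rw [← th_add, ← th_add, hasum]
    simp [th]
  have e2 : a 2 = -a 0 - a 1 := by linear_combination hasum
  have e3 : th (a 2) = -th (a 0) - th (a 1) := by linear_combination htsum
  have hW12 : th (a 0) * a 1 - a 0 * th (a 1) = th (a 1) * a 2 - a 1 * th (a 2) := by
    rw [e3, e2]
    ring
  have hW20 : th (a 0) * a 1 - a 0 * th (a 1) = th (a 2) * a 0 - a 2 * th (a 0) := by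
    rw [e3, e2]
    ring
  obtain ⟨W, hW⟩ : ∃ W : GG, W = (th (a 0) * a 1 - a 0 * th (a 1)).eval 1 := ⟨_, rfl⟩
  have hW0 : W ≠ 0 := by
    rw [hW]
    exact wr_ne hcs hb hbi hs N hN a haL A ha1 hA0 hsum hcop hLA
  have hGc : ∀ σ σ' t, σ ≠ σ' → IsCoprime (G σ t) (G σ' t) := fun σ σ' t h =>
    ((hcop σ σ' t h).of_isCoprime_of_dvd_left (hGA σ t)).of_isCoprime_of_dvd_right (hGA σ' t)
  have hWd : ∀ σ, ∃ ω : GG, QI b L ω ∧ W = gm (fun t => (G σ t : ℚ)) * ω := by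
    have hq : ∀ σ, QI b L ((a σ).eval 1) := fun σ => (haL σ).qi hb hs
    have hq' : ∀ σ, QI b L ((th (a σ)).eval 1) := fun σ => (haL σ).th.qi hb hs
    have hsub : ∀ {f g : GG}, QI b L f → QI b L g → QI b L (f - g) := by
      intro f g hf hg
      rw [sub_eq_add_neg]
      exact QI.add hb hf (QI.neg hb hL hg)
    intro σ
    obtain ⟨u, u', hu, hu', h1, h2⟩ := hdv σ
    have h3 : σ = 0 ∨ σ = 1 ∨ σ = 2 := by fin_cases σ <;> simp
    rcases h3 with rfl | rfl | rfl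
    · refine ⟨u' * (a 1).eval 1 - u * (th (a 1)).eval 1,
        hsub (QI.mul hb hu' (hq 1)) (QI.mul hb hu (hq' 1)), ?_⟩
      rw [hW, Polynomial.eval_sub, Polynomial.eval_mul, Polynomial.eval_mul, h1, h2]
      ring
    · refine ⟨(th (a 0)).eval 1 * u - (a 0).eval 1 * u',
        hsub (QI.mul hb (hq' 0) hu) (QI.mul hb (hq 0) hu'), ?_⟩
      rw [hW, Polynomial.eval_sub, Polynomial.eval_mul, Polynomial.eval_mul, h1, h2]
      ring
    · refine ⟨(th (a 1)).eval 1 * u - (a 1).eval 1 * u',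
        hsub (QI.mul hb (hq' 1) hu) (QI.mul hb (hq 1) hu'), ?_⟩
      rw [hW, hW12, Polynomial.eval_sub, Polynomial.eval_mul, Polynomial.eval_mul, h1, h2]
      ring
  obtain ⟨ω, hω, hWω⟩ := qi_div hb hL W G hG0 hGc hWd
  have hω0 : ω ≠ 0 := by
    intro h
    rw [h, mul_zero] at hWω
    exact hW0 hWω
  have hdom : ∀ v, Dom b L v W ((a 0).eval 1 * (a 1).eval 1) ∧
      Dom b L v W ((a 1).eval 1 * (a 2).eval 1) ∧
      Dom b L v W ((a 2).eval 1 * (a 0).eval 1) := by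
    intro v
    refine ⟨?_, ?_, ?_⟩
    · rw [hW]
      exact wr_dom hnc hb hbi hs N (by omega) _ _ (haL 0) (haL 1) v
    · rw [hW, hW12]
      exact wr_dom hnc hb hbi hs N (by omega) _ _ (haL 1) (haL 2) v
    · rw [hW, hW20]
      exact wr_dom hnc hb hbi hs N (by omega) _ _ (haL 2) (haL 0) v
  have hs2 : (0 : ℝ) < (s : ℝ) + 2 := by positivity
  obtain ⟨ε1, hε1⟩ : ∃ ε1 : ℝ, ε1 = ε / (s + 2) := ⟨_, rfl⟩
  have hε1' : 0 < ε1 := by rw [hε1]; positivity
  have hrA : ∀ σ σ', ∀ᶠ t in (UU : Filter ℕ), rep ((a σ).eval 1 * (a σ').eval 1) t =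
      (A σ t : ℚ) * (A σ' t : ℚ) := by
    intro σ σ'
    rw [ha1, ha1, gm_mul]
    exact rep_gm _
  have hrW : ∀ᶠ t in (UU : Filter ℕ), rep W t =
      ((G 0 t * G 1 t * G 2 t : ℤ) : ℚ) * rep ω t := by
    have h1 := rep_mul (gm (fun t => ((G 0 t * G 1 t * G 2 t : ℤ) : ℚ))) ω
    rw [← hWω] at h1
    filter_upwards [h1, rep_gm (fun t => ((G 0 t * G 1 t * G 2 t : ℤ) : ℚ))] with t h2 h3
    rw [h2, h3]
  have hup : ∀ᶠ t in (UU : Filter ℕ), ∀ v, av b v (rep W t) *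
      max (max (av b v (A 0 t : ℚ)) (av b v (A 1 t : ℚ))) (av b v (A 2 t : ℚ)) ≤
      Real.exp (ε1 * L t) * (av b v (A 0 t : ℚ) * av b v (A 1 t : ℚ) * av b v (A 2 t : ℚ)) := by
    refine eventually_all.2 fun v => ?_
    obtain ⟨h01, h12, h20⟩ := hdom v
    filter_upwards [h01 ε1 hε1', h12 ε1 hε1', h20 ε1 hε1', hrA 0 1, hrA 1 2, hrA 2 0] with
      t g1 g2 g3 g4 g5 g6
    rw [g4, av_mul hb] at g1
    rw [g5, av_mul hb] at g2
    rw [g6, av_mul hb] at g3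
    exact max_three _ _ _ _ _ (av_nonneg hb v _) (av_nonneg hb v _) (av_nonneg hb v _) g1 g2 g3
  filter_upwards [hup, hrW, QI.lower hb hbi hL hω hω0 ε1 hε1'] with t g1 g2 g3
  have h1 := places hb (fun σ => A σ t) (G 0 t * G 1 t * G 2 t) (rep W t) (rep ω t) (L t) ε1
    (hcop 0 1 t (by decide)) (hLA t) g1 g2 g3
  have h2 : ((s : ℝ) + 2) * ε1 = ε := by
    rw [hε1]
    field_simp
  rw [h2] at h1
  exact h1

/-- **The inequality of Mason and Stothers, for germs.** -/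
theorem abcGerm (hnc : NcStmt) (hcs : CSStmt) (hb : ∀ v, (b v).Prime)
    (hbi : Function.Injective b) (hs : Setup b hL U l d) (hU0 : U 0 = 1) (k : ℕ)
    (τ : Fin k → Fin 3) (e : Fin k → ℕ) (he : ∀ i, 1 ≤ e i) (hd : 2 * (1 + ∑ i, e i) ≤ d)
    (X : Fin k → Polynomial GG) (hX : ∀ i, Lift hL U l 1 (X i)) (x : Fin k → ℕ → ℤ)
    (hx : ∀ i, (X i).eval 1 = gm (fun t => (x i t : ℚ))) (w : Fin 3 → ℕ → ℤ)
    (hwS : ∀ σ t, IsSU b (w σ t : ℚ)) (κ : Fin 3 → Fin (r + 1))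
    (hw : ∀ σ, U (κ σ) = gm (fun t => (w σ t : ℚ))) (A : Fin 3 → ℕ → ℤ)
    (hA : ∀ σ t, A σ t = w σ t * ∏ i with τ i = σ, x i t ^ (e i)) (hA0 : ∀ σ t, A σ t ≠ 0)
    (hsum : ∀ t, A 0 t + A 1 t + A 2 t = 0)
    (hcop : ∀ σ σ' t, σ ≠ σ' → IsCoprime (A σ t) (A σ' t))
    (hLA : ∀ t, Real.exp (L t) = max (max |(A 0 t : ℝ)| |(A 1 t : ℝ)|) |(A 2 t : ℝ)|)
    (ε : ℝ) (hε : 0 < ε) :
    ∀ᶠ t in (UU : Filter ℕ), Real.exp ((1 - ε) * L t) ≤ ∏ i, |(x i t : ℝ)| := by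
  classical
  obtain ⟨F, hF⟩ : ∃ F : Fin 3 → Finset (Fin k),
      F = fun σ => Finset.univ.filter (fun i => τ i = σ) := ⟨_, rfl⟩
  have hA' : ∀ σ t, A σ t = w σ t * ∏ i ∈ F σ, x i t ^ (e i) := fun σ t => by
    rw [hA, hF]
  have hmem : ∀ i, i ∈ F (τ i) := fun i => by
    rw [hF]
    exact Finset.mem_filter.2 ⟨Finset.mem_univ _, rfl⟩
  have hFle : ∀ σ, ∑ i ∈ F σ, e i ≤ ∑ i, e i := fun σ => by
    rw [hF]
    exact Finset.sum_le_sum_of_subset (Finset.filter_subset _ _)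
  have hfib : ∀ f : Fin k → ℝ, (∏ i ∈ F 0, f i) * (∏ i ∈ F 1, f i) * (∏ i ∈ F 2, f i) =
      ∏ i, f i := by
    intro f
    rw [hF, ← Finset.prod_fiberwise (g := τ) Finset.univ f, Fin.prod_univ_three]
  obtain ⟨E, hE⟩ : ∃ E : Polynomial GG, E = Polynomial.X ^ (l 0) := ⟨_, rfl⟩
  have hEL : Lift hL U l 1 E := by
    have h := Lift.gen (hL := hL) (U := U) (l := l) 0
    rw [hU0, Polynomial.C_1, one_mul] at h
    rw [hE]
    exact h
  have hE1 : E.eval 1 = 1 := by rw [hE]; simp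
  obtain ⟨K, hK⟩ : ∃ K : Fin 3 → Polynomial GG, K = fun σ =>
    E ^ (∑ i, e i - ∑ i ∈ F σ, e i) *
    (Polynomial.C (U (κ σ)) * Polynomial.X ^ (l (κ σ))) := ⟨_, rfl⟩
  obtain ⟨P, hP⟩ : ∃ P : Fin 3 → Polynomial GG, P = fun σ => ∏ i ∈ F σ, X i ^ (e i) := ⟨_, rfl⟩
  have hKL : ∀ σ, Lift hL U l (1 * (∑ i, e i - ∑ i ∈ F σ, e i) + 1) (K σ) := fun σ => by
    rw [hK]
    exact (hEL.pow _).mul (Lift.gen _)
  have hPL : ∀ σ, Lift hL U l (∑ i ∈ F σ, 1 * e i) (P σ) := fun σ => by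
    rw [hP]
    exact Lift.prod _ _ _ fun i _ => (hX i).pow (e i)
  have haL : ∀ σ, Lift hL U l (1 + ∑ i, e i) (K σ * P σ) := by
    intro σ
    have h2 := (hKL σ).mul (hPL σ)
    have h3 : 1 * (∑ i, e i - ∑ i ∈ F σ, e i) + 1 + ∑ i ∈ F σ, 1 * e i = 1 + ∑ i, e i := by
      have h4 := hFle σ
      simp only [one_mul]
      omega
    rwa [h3] at h2
  have hK1 : ∀ σ, (K σ).eval 1 = gm (fun t => (w σ t : ℚ)) := by
    intro σ
    rw [← hw σ, hK]
    simp [hE1]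
  have hP1 : ∀ σ, (P σ).eval 1 = gm (fun t => ∏ i ∈ F σ, (x i t : ℚ) ^ (e i)) := by
    intro σ
    rw [hP]
    simp only
    rw [Polynomial.eval_prod, ← gm_prod']
    refine Finset.prod_congr rfl fun i _ => ?_
    rw [Polynomial.eval_pow, hx, gm_pow]
  have ha1 : ∀ σ, (K σ * P σ).eval 1 = gm (fun t => (A σ t : ℚ)) := by
    intro σ
    rw [Polynomial.eval_mul, hK1, hP1, gm_mul]
    congr 1
    funext t
    rw [hA' σ t]
    push_cast
    rfl
  have hx0 : ∀ i t, x i t ≠ 0 := by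
    intro i t h0
    apply hA0 (τ i) t
    rw [hA', Finset.prod_eq_zero (hmem i)
      (by rw [h0, zero_pow (by have := he i; omega)]), mul_zero]
  obtain ⟨G, hG⟩ : ∃ G : Fin 3 → ℕ → ℤ, G = fun σ t => ∏ i ∈ F σ, x i t ^ (e i - 1) :=
    ⟨_, rfl⟩
  have hG0 : ∀ σ t, G σ t ≠ 0 := fun σ t => by
    rw [hG]
    exact Finset.prod_ne_zero_iff.2 fun i _ => pow_ne_zero _ (hx0 i t)
  have hGA : ∀ σ t, G σ t ∣ A σ t := by
    intro σ t
    rw [hA', hG]
    exact Dvd.dvd.mul_left (Finset.prod_dvd_prod_of_dvd _ _ fun i _ =>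
      pow_dvd_pow _ (Nat.sub_le _ _)) _
  have hGg : ∀ σ, ∏ i ∈ F σ, (X i).eval 1 ^ (e i - 1) = gm (fun t => (G σ t : ℚ)) := by
    intro σ
    have h1 : ∀ i, (X i).eval 1 ^ (e i - 1) = gm (fun t => (x i t : ℚ) ^ (e i - 1)) := by
      intro i
      rw [hx, gm_pow]
    simp only [h1]
    rw [gm_prod']
    congr 1
    funext t
    rw [hG]
    push_cast
    rfl
  have hdv : ∀ σ, ∃ u u' : GG, QI b L u ∧ QI b L u' ∧
      (K σ * P σ).eval 1 = gm (fun t => (G σ t : ℚ)) * u ∧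
      (th (K σ * P σ)).eval 1 = gm (fun t => (G σ t : ℚ)) * u' := by
    intro σ
    obtain ⟨h, hh, heq⟩ := th_prod hb hs (F σ) e (fun i _ => he i) X (fun i _ => hX i)
    have hPe : (P σ).eval 1 = gm (fun t => (G σ t : ℚ)) * ∏ i ∈ F σ, (X i).eval 1 := by
      rw [← hGg, hP]
      simp only
      rw [Polynomial.eval_prod, ← Finset.prod_mul_distrib]
      refine Finset.prod_congr rfl fun i _ => ?_
      rw [Polynomial.eval_pow, ← pow_succ, Nat.sub_add_cancel (he i)]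
    have h2 : (th (P σ)).eval 1 = gm (fun t => (G σ t : ℚ)) * h := by
      rw [← hGg, hP]
      exact heq
    have hQp : QI b L (∏ i ∈ F σ, (X i).eval 1) :=
      QI.prod hb hL _ _ fun i _ => (hX i).qi hb hs
    refine ⟨(K σ).eval 1 * ∏ i ∈ F σ, (X i).eval 1,
      (th (K σ)).eval 1 * (∏ i ∈ F σ, (X i).eval 1) + (K σ).eval 1 * h, ?_, ?_, ?_, ?_⟩
    · exact QI.mul hb ((hKL σ).qi hb hs) hQp
    · exact QI.add hb (QI.mul hb ((hKL σ).th.qi hb hs) hQp) (QI.mul hb ((hKL σ).qi hb hs) hh)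
    · rw [Polynomial.eval_mul, hPe]
      ring
    · rw [th_mul, Polynomial.eval_add, Polynomial.eval_mul, Polynomial.eval_mul, hPe, h2]
      ring
  have key := abcCore hnc hcs hb hbi hs (1 + ∑ i, e i) hd (fun σ => K σ * P σ) haL A ha1 hA0
    hsum hcop hLA G hG0 hGA hdv ε hε
  filter_upwards [key] with t ht
  -- products over the places
  obtain ⟨S, hS⟩ : ∃ S : Fin k → ℝ, S = fun i => ∏ v, av b v (x i t : ℚ) := ⟨_, rfl⟩
  have hSpos : ∀ i, 0 < S i := fun i => by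
    rw [hS]
    exact Finset.prod_pos fun v _ => av_pos hb v (by exact_mod_cast hx0 i t)
  have hSle : ∀ i, S i ≤ |(x i t : ℝ)| := by
    intro i
    rw [hS]
    simp only
    rw [Fintype.prod_option]
    have h1 : ∏ v : Fin s, av b (some v) (x i t : ℚ) ≤ 1 :=
      Finset.prod_le_one (fun v _ => av_nonneg hb _ _) fun v _ => av_int_le_one hb v _
    have h2 : av b none (x i t : ℚ) = |(x i t : ℝ)| := by
      simp only [av]
      push_cast
      rfl
    rw [h2]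
    exact mul_le_of_le_one_right (abs_nonneg _) h1
  have hprodA : ∀ σ, ∏ v, av b v (A σ t : ℚ) = ∏ i ∈ F σ, S i ^ (e i) := by
    intro σ
    have h1 : ∀ v, av b v (A σ t : ℚ) = av b v (w σ t : ℚ) *
        ∏ i ∈ F σ, av b v (x i t : ℚ) ^ (e i) := by
      intro v
      rw [hA' σ t]
      push_cast
      rw [av_mul hb, av_prod hb]
      congr 1
      exact Finset.prod_congr rfl fun i _ => av_pow hb v _ _
    rw [Finset.prod_congr rfl fun v _ => h1 v, Finset.prod_mul_distrib,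
      prod_av_unit hb hbi (hwS σ t), one_mul, Finset.prod_comm]
    refine Finset.prod_congr rfl fun i _ => ?_
    rw [Finset.prod_pow, hS]
  have hprodG : ∀ σ, ∏ v, av b v (G σ t : ℚ) = ∏ i ∈ F σ, S i ^ (e i - 1) := by
    intro σ
    have h1 : ∀ v, av b v (G σ t : ℚ) = ∏ i ∈ F σ, av b v (x i t : ℚ) ^ (e i - 1) := by
      intro v
      rw [hG]
      push_cast
      rw [av_prod hb]
      exact Finset.prod_congr rfl fun i _ => av_pow hb v _ _
    rw [Finset.prod_congr rfl fun v _ => h1 v, Finset.prod_comm]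
    refine Finset.prod_congr rfl fun i _ => ?_
    rw [Finset.prod_pow, hS]
  have h1 : ∏ v, av b v ((G 0 t * G 1 t * G 2 t : ℤ) : ℚ) = ∏ i, S i ^ (e i - 1) := by
    have h2 : ∀ v, av b v ((G 0 t * G 1 t * G 2 t : ℤ) : ℚ) =
        av b v (G 0 t : ℚ) * av b v (G 1 t : ℚ) * av b v (G 2 t : ℚ) := by
      intro v
      push_cast
      rw [av_mul hb, av_mul hb]
    rw [Finset.prod_congr rfl fun v _ => h2 v, Finset.prod_mul_distrib, Finset.prod_mul_distrib,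
      hprodG, hprodG, hprodG, hfib]
  rw [h1, Finset.prod_mul_distrib, Finset.prod_mul_distrib, hprodA, hprodA, hprodA, hfib] at ht
  have hQpos : 0 < ∏ i, S i ^ (e i - 1) := Finset.prod_pos fun i _ => pow_pos (hSpos i) _
  have hsplit : ∏ i, S i ^ (e i) = (∏ i, S i ^ (e i - 1)) * ∏ i, S i := by
    rw [← Finset.prod_mul_distrib]
    refine Finset.prod_congr rfl fun i _ => ?_
    rw [← pow_succ, Nat.sub_add_cancel (he i)]
  rw [hsplit, mul_comm] at ht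
  have hfinal := le_of_mul_le_mul_left ht hQpos
  exact hfinal.trans (Finset.prod_le_prod (fun i _ => (hSpos i).le) fun i _ => hSle i)

end Pool.Agent.TH551.HA
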