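import Mathlib
import Pool.Agent.TH551.HA.Defs

set_option autoImplicit false

namespace Pool.Agent.TH551.HA

open Filter Topology Pool.Agent.TH932.Germs Pool.Agent.TH551.SU

section FWaux

variable {F : Subfield GG} {ι : Type} [Fintype ι] [DecidableEq ι]

/-- the first property of the weights for families of factors with multiplicities -/
private lemma fw_fam (v : ι → GG) (w : ι → ℕ)
    (h1 : ∀ A B : ι → ℕ, ∑ a, A a = ∑ a, B a →
      (∏ a, v a ^ (A a)) / (∏ a, v a ^ (B a)) ∈ F → ∑ a, A a * w a = ∑ a, B a * w a)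
    {J J' : Type} [Fintype J] [Fintype J'] (f : J → ι) (c : J → ℕ) (f' : J' → ι) (c' : J' → ℕ)
    (hc : ∑ j, c j = ∑ j, c' j)
    (hq : (∏ j, v (f j) ^ (c j)) / (∏ j, v (f' j) ^ (c' j)) ∈ F) :
    ∑ j, c j * w (f j) = ∑ j, c' j * w (f' j) := by
  have e1 : ∀ {J : Type} [Fintype J] (f : J → ι) (c : J → ℕ),
      ∑ a, (∑ j, if f j = a then c j else 0) = ∑ j, c j := by
    intro J _ f c
    rw [Finset.sum_comm]
    apply Finset.sum_congr rfl
    intro j _
    simp
  have e2 : ∀ {J : Type} [Fintype J] (f : J → ι) (c : J → ℕ),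
      ∏ a, v a ^ (∑ j, if f j = a then c j else 0) = ∏ j, v (f j) ^ (c j) := by
    intro J _ f c
    have : ∀ a, v a ^ (∑ j, if f j = a then c j else 0) =
        ∏ j, (if f j = a then v a ^ (c j) else 1) := by
      intro a
      rw [← Finset.prod_pow_eq_pow_sum]
      apply Finset.prod_congr rfl
      intro j _
      split_ifs <;> simp
    rw [Finset.prod_congr rfl fun a _ => this a, Finset.prod_comm]
    apply Finset.prod_congr rfl
    intro j _
    simp
  have e3 : ∀ {J : Type} [Fintype J] (f : J → ι) (c : J → ℕ),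
      ∑ a, (∑ j, if f j = a then c j else 0) * w a = ∑ j, c j * w (f j) := by
    intro J _ f c
    have : ∀ a, (∑ j, if f j = a then c j else 0) * w a =
        ∑ j, (if f j = a then c j * w a else 0) := by
      intro a
      rw [Finset.sum_mul]
      apply Finset.sum_congr rfl
      intro j _
      split_ifs <;> simp
    rw [Finset.sum_congr rfl fun a _ => this a, Finset.sum_comm]
    apply Finset.sum_congr rfl
    intro j _
    simp
  have h2 := h1 (fun a => ∑ j, if f j = a then c j else 0)
    (fun a => ∑ j, if f' j = a then c' j else 0) (by rw [e1, e1, hc])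
    (by rw [e2, e2]; exact hq)
  rw [e3, e3] at h2
  exact h2

end FWaux

theorem fw (hwt : WTStmt) : FwStmt := by
  classical
  intro L hL r u hu d
  rcases Nat.eq_zero_or_pos d with hd | hd
  · subst hd
    refine ⟨fun _ => 0, ?_⟩
    intro α β hαβ hα
    have ha : ∀ j, α j = 0 := by
      intro j
      have h1 : α j ≤ ∑ j, α j := Finset.single_le_sum (fun _ _ => Nat.zero_le _) (Finset.mem_univ j)
      omega
    have hb : ∀ j, β j = 0 := by
      intro j
      have h1 : β j ≤ ∑ j, β j := Finset.single_le_sum (fun _ _ => Nat.zero_le _) (Finset.mem_univ j)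
      omega
    simp only [ha, hb, pow_zero, Finset.prod_const_one, div_one, mul_zero, Finset.sum_const_zero,
      iff_true]
    exact (KK L hL).one_mem
  -- the monomials of degree `d`
  let Mon : Type := {a : Fin (r + 1) → Fin (d + 1) // ∑ j, ((a j : ℕ)) = d}
  let mon : (Fin (r + 1) → ℕ) → GG := fun α => ∏ j, u j ^ (α j)
  let v : Mon → GG := fun a => mon fun j => (a.1 j : ℕ)
  have hv0 : ∀ a, v a ≠ 0 := fun a => Finset.prod_ne_zero_iff.mpr fun j _ => pow_ne_zero _ (hu j)
  let e : Mon ≃ Fin (Fintype.card Mon) := Fintype.equivFin Mon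
  obtain ⟨Lam, h1, h2⟩ := hwt L hL (Fintype.card Mon) (fun i => v (e.symm i)) (fun i => hv0 _)
  let w : Mon → ℕ := fun a => Lam (e a)
  have h1' : ∀ A B : Mon → ℕ, ∑ a, A a = ∑ a, B a →
      (∏ a, v a ^ (A a)) / (∏ a, v a ^ (B a)) ∈ KK L hL → ∑ a, A a * w a = ∑ a, B a * w a := by
    intro A B hAB hq
    have s1 : ∀ A : Mon → ℕ, ∑ i, A (e.symm i) = ∑ a, A a := fun A => Equiv.sum_comp e.symm A
    have s2 : ∀ A : Mon → ℕ, ∏ i, v (e.symm i) ^ (A (e.symm i)) = ∏ a, v a ^ (A a) :=
      fun A => Equiv.prod_comp e.symm (fun a => v a ^ (A a))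
    have s3 : ∀ A : Mon → ℕ, ∑ i, A (e.symm i) * Lam i = ∑ a, A a * w a := by
      intro A
      rw [← Equiv.sum_comp e.symm (fun a => A a * w a)]
      apply Finset.sum_congr rfl
      intro i _
      simp [w]
    have h3 := h1 (fun i => A (e.symm i)) (fun i => B (e.symm i)) (by rw [s1, s1, hAB])
      (by rw [s2, s2]; exact hq)
    rw [s3, s3] at h3
    exact h3
  -- turn an exponent vector of sum `d` into an element of `Mon`
  have hbd : ∀ α : Fin (r + 1) → ℕ, ∑ j, α j = d → ∀ j, α j < d + 1 := by
    intro α hα j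
    have h1 : α j ≤ ∑ j, α j := Finset.single_le_sum (fun _ _ => Nat.zero_le _) (Finset.mem_univ j)
    omega
  let mk : ∀ α : Fin (r + 1) → ℕ, ∑ j, α j = d → Mon := fun α hα => ⟨fun j => ⟨α j, hbd α hα j⟩, hα⟩
  have hvmk : ∀ α hα, v (mk α hα) = mon α := fun α hα => rfl
  -- the exponent vectors of `u_j u_0 ^ (d-1)`
  let E : Fin (r + 1) → Fin (r + 1) → ℕ := fun j i => (if i = j then 1 else 0) + (if i = 0 then d - 1 else 0)
  have hE : ∀ j, ∑ i, E j i = d := by
    intro j
    simp only [E]
    rw [Finset.sum_add_distrib, Finset.sum_ite_eq' Finset.univ j, Finset.sum_ite_eq' Finset.univ 0]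
    simp only [Finset.mem_univ, if_true]
    omega
  have hmonE : ∀ j, mon (E j) = u j * u 0 ^ (d - 1) := by
    intro j
    simp only [mon, E]
    simp_rw [pow_add]
    rw [Finset.prod_mul_distrib]
    congr 1
    · rw [Finset.prod_eq_single j]
      · simp
      · intro i _ hi
        simp [hi]
      · intro h
        exact absurd (Finset.mem_univ j) h
    · rw [Finset.prod_eq_single 0]
      · simp
      · intro i _ hi
        simp [hi]
      · intro h
        exact absurd (Finset.mem_univ 0) h
  let l : Fin (r + 1) → ℕ := fun j => w (mk (E j) (hE j))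
  have hlin : ∀ α hα, w (mk α hα) + (d - 1) * l 0 = ∑ j, α j * l j := by
    intro α hα
    have h3 := fw_fam (F := KK L hL) v w h1' (J := Fin 2) (J' := Fin (r + 1))
      ![mk α hα, mk (E 0) (hE 0)] ![1, d - 1] (fun j => mk (E j) (hE j)) α
      (by rw [Fin.sum_univ_two, hα]; simp; omega)
      (by
        rw [Fin.prod_univ_two]
        simp only [Matrix.cons_val_zero, Matrix.cons_val_one, pow_one]
        simp_rw [hvmk, hmonE]
        have e1 : ∏ j, (u j * u 0 ^ (d - 1)) ^ (α j) = mon α * (u 0 ^ (d - 1)) ^ d := by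
          simp_rw [mul_pow]
          rw [Finset.prod_mul_distrib, Finset.prod_pow_eq_pow_sum, hα]
        rw [e1]
        have e2 : mon α * (u 0 * u 0 ^ (d - 1)) ^ (d - 1) = mon α * (u 0 ^ (d - 1)) ^ d := by
          congr 1
          rw [← pow_succ', ← pow_mul, ← pow_mul]
          congr 1
          obtain ⟨q, hq⟩ : ∃ q, d = q + 1 := ⟨d - 1, by omega⟩
          subst hq
          simp [Nat.mul_comm]
        rw [e2, div_self]
        · exact (KK L hL).one_mem
        · refine mul_ne_zero (Finset.prod_ne_zero_iff.mpr fun j _ => pow_ne_zero _ (hu j)) ?_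
          exact pow_ne_zero _ (pow_ne_zero _ (hu 0)))
    rw [Fin.sum_univ_two] at h3
    simp only [Matrix.cons_val_zero, Matrix.cons_val_one, one_mul] at h3
    exact h3
  have hiff : ∀ α β hα hβ, mon α / mon β ∈ KK L hL ↔ w (mk α hα) = w (mk β hβ) := by
    intro α β hα hβ
    constructor
    · intro hq
      have h3 := fw_fam (F := KK L hL) v w h1' (J := Unit) (J' := Unit)
        (fun _ => mk α hα) (fun _ => 1) (fun _ => mk β hβ) (fun _ => 1) rfl
        (by simpa [hvmk] using hq)
      simpa using h3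
    · intro hw
      have h3 := h2 (e (mk α hα)) (e (mk β hβ)) hw
      simp only [Equiv.symm_apply_apply] at h3
      exact h3
  refine ⟨l, ?_⟩
  intro α β hαβ hαd
  -- make the degrees equal to `d`
  let α' : Fin (r + 1) → ℕ := fun i => α i + (if i = 0 then d - ∑ j, α j else 0)
  let β' : Fin (r + 1) → ℕ := fun i => β i + (if i = 0 then d - ∑ j, α j else 0)
  have hα' : ∑ j, α' j = d := by
    simp only [α']
    rw [Finset.sum_add_distrib, Finset.sum_ite_eq' Finset.univ 0]
    simp only [Finset.mem_univ, if_true]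
    omega
  have hβ' : ∑ j, β' j = d := by
    simp only [β']
    rw [Finset.sum_add_distrib, Finset.sum_ite_eq' Finset.univ 0]
    simp only [Finset.mem_univ, if_true]
    omega
  have hpad : ∀ γ : Fin (r + 1) → ℕ, mon (fun i => γ i + (if i = 0 then d - ∑ j, α j else 0)) =
      mon γ * u 0 ^ (d - ∑ j, α j) := by
    intro γ
    simp only [mon]
    simp_rw [pow_add]
    rw [Finset.prod_mul_distrib]
    congr 1
    rw [Finset.prod_eq_single 0]
    · simp
    · intro i _ hi
      simp [hi]
    · intro h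
      exact absurd (Finset.mem_univ 0) h
  have hquot : mon α' / mon β' = mon α / mon β := by
    rw [hpad α, hpad β, mul_div_mul_right _ _ (pow_ne_zero _ (hu 0))]
  have hsum : ∀ γ : Fin (r + 1) → ℕ,
      ∑ j, (γ j + (if j = 0 then d - ∑ j, α j else 0)) * l j =
        ∑ j, γ j * l j + (d - ∑ j, α j) * l 0 := by
    intro γ
    simp_rw [add_mul]
    rw [Finset.sum_add_distrib]
    congr 1
    simp_rw [ite_mul, zero_mul]
    rw [Finset.sum_ite_eq' Finset.univ 0]
    simp
  have hmain := hiff α' β' hα' hβ'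
  rw [hquot] at hmain
  have l1 := hlin α' hα'
  have l2 := hlin β' hβ'
  rw [hsum α] at l1
  rw [hsum β] at l2
  show mon α / mon β ∈ KK L hL ↔ _
  rw [hmain]
  constructor
  · intro h
    omega
  · intro h
    omega

end Pool.Agent.TH551.HA
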