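import Mathlib
import Pool.Agent.TH551.HA.Basic

set_option autoImplicit false

namespace Pool.Agent.TH551.HA

open Filter Topology Pool.Agent.TH932.Germs Pool.Agent.TH551.SU

/-- a shortest representation has nonzero coefficients and inequivalent terms -/
lemma hb_minrep {G : Type*} [Field G] (K : Subfield G) (P : G → Prop) (hP : ∀ g, P g → g ≠ 0)
    (x : G) (m : ℕ) (u : Fin m → G) (c : Fin m → K) (hu : ∀ i, P (u i))
    (hx : ∑ i, (c i : G) * u i = x) :
    ∃ (m' : ℕ) (u' : Fin m' → G) (c' : Fin m' → K), (∀ i, P (u' i)) ∧ (∀ i, c' i ≠ 0) ∧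
      (∀ i j, i ≠ j → u' i / u' j ∉ K) ∧ ∑ i, (c' i : G) * u' i = x := by
  classical
  have hex : ∃ m : ℕ, ∃ (u : Fin m → G) (c : Fin m → K), (∀ i, P (u i)) ∧
      ∑ i, (c i : G) * u i = x := ⟨m, u, c, hu, hx⟩
  obtain ⟨u', c', hu', hx'⟩ := Nat.find_spec hex
  refine ⟨Nat.find hex, u', c', hu', ?_, ?_, hx'⟩
  · have hmin : ∀ k, k < Nat.find hex → ¬ ∃ (u : Fin k → G) (c : Fin k → K), (∀ i, P (u i)) ∧
        ∑ i, (c i : G) * u i = x := fun k hk => Nat.find_min hex hk
    generalize hN : Nat.find hex = N at u' c' hmin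
    intro i hi
    cases N with
    | zero => exact i.elim0
    | succ k =>
      refine hmin k (Nat.lt_succ_self k) ⟨fun j => u' (i.succAbove j), fun j => c' (i.succAbove j),
        fun j => hu' _, ?_⟩
      rw [Fin.sum_univ_succAbove _ i, hi] at hx'
      simpa using hx'
  · have hmin : ∀ k, k < Nat.find hex → ¬ ∃ (u : Fin k → G) (c : Fin k → K), (∀ i, P (u i)) ∧
        ∑ i, (c i : G) * u i = x := fun k hk => Nat.find_min hex hk
    generalize hN : Nat.find hex = N at u' c' hmin
    intro i j hij hK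
    cases N with
    | zero => exact i.elim0
    | succ k =>
      obtain ⟨j0, hj0⟩ := Fin.exists_succAbove_eq (Ne.symm hij)
      refine hmin k (Nat.lt_succ_self k) ⟨fun l => u' (i.succAbove l),
        fun l => c' (i.succAbove l) + (if l = j0 then c' i * ⟨u' i / u' j, hK⟩ else 0),
        fun l => hu' _, ?_⟩
      rw [Fin.sum_univ_succAbove _ i] at hx'
      have h1 : ∀ l : Fin k, ((c' (i.succAbove l) +
          (if l = j0 then c' i * ⟨u' i / u' j, hK⟩ else 0) : K) : G) * u' (i.succAbove l) =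
          (c' (i.succAbove l) : G) * u' (i.succAbove l) +
            if l = j0 then (c' i : G) * u' i else 0 := by
        intro l
        by_cases hl : l = j0
        · subst hl
          simp only [if_true]
          have h2 : u' j ≠ 0 := hP _ (hu' _)
          rw [hj0]
          push_cast
          field_simp
        · simp only [if_neg hl]
          simp
      rw [Finset.sum_congr rfl fun l _ => h1 l, Finset.sum_add_distrib,
        Finset.sum_ite_eq' Finset.univ j0]
      simp only [Finset.mem_univ, if_true]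
      rw [add_comm]
      exact hx'

/-- grouping into classes modulo a subfield -/
lemma hb_group {G : Type*} [Field G] (K : Subfield G) (n : ℕ) (a : Fin n → K) (g : Fin n → G)
    (hg : ∀ i, g i ≠ 0) :
    ∃ (m : ℕ) (f : Fin m → Fin n) (p : Fin n → Fin m) (c : Fin m → K),
      (∀ i j, i ≠ j → g (f i) / g (f j) ∉ K) ∧ (∀ i, g i / g (f (p i)) ∈ K) ∧
      (∀ q, p (f q) = q) ∧
      (∀ q, (c q : G) * g (f q) = ∑ i with p i = q, (a i : G) * g i) := by
  classical
  let s : Setoid (Fin n) := ⟨fun i j => g i / g j ∈ K,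
    ⟨fun i => by rw [div_self (hg i)]; exact K.one_mem,
     fun {i j} h => by rw [← inv_div]; exact K.inv_mem h,
     fun {i j k} h1 h2 => by
      rw [← div_mul_div_cancel₀ (hg j)]; exact K.mul_mem h1 h2⟩⟩
  have hs : ∀ i j : Fin n, (Quotient.mk s i = Quotient.mk s j) ↔ g i / g j ∈ K :=
    fun i j => Quotient.eq
  have hfin : Finite (Quotient s) := inferInstance
  have hft : Fintype (Quotient s) := Fintype.ofFinite _
  let e := Fintype.equivFin (Quotient s)
  have hrp : ∀ i : Fin n, g i / g (Quotient.mk s i).out ∈ K := by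
    intro i
    rw [← hs, Quotient.out_eq]
  refine ⟨Fintype.card (Quotient s), fun q => (e.symm q).out, fun i => e (Quotient.mk s i),
    fun q => ∑ i : Fin n with Quotient.mk s i = e.symm q,
      a i * ⟨g i / g (Quotient.mk s i).out, hrp i⟩, ?_, ?_, ?_, ?_⟩
  · intro i j hij h
    apply hij
    rw [← hs, Quotient.out_eq, Quotient.out_eq] at h
    exact e.symm.injective h
  · intro i
    simp only [Equiv.symm_apply_apply]
    exact hrp i
  · intro q
    simp only [Quotient.out_eq, Equiv.apply_symm_apply]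
  · intro q
    simp only
    rw [AddSubmonoidClass.coe_finsetSum, Finset.sum_mul]
    refine Finset.sum_congr ?_ fun i hi => ?_
    · ext i
      simp only [Finset.mem_filter, Finset.mem_univ, true_and]
      rw [← Equiv.eq_symm_apply]
    · rw [Finset.mem_filter] at hi
      obtain ⟨-, hi⟩ := hi
      rw [← hi, Equiv.symm_apply_apply, MulMemClass.coe_mul, mul_assoc]
      congr 1
      exact div_mul_cancel₀ _ (hg _)

section

variable {s : ℕ} {b : Fin s → ℕ} (hb : ∀ v, (b v).Prime) (hbi : Function.Injective b)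
include hb

lemma hb_ne_zero {g : GG} (hg : GSU b g) : g ≠ 0 := by
  obtain ⟨a, rfl, ha⟩ := hg
  rw [gm_ne_zero]
  refine Eventually.of_forall fun n => ?_
  obtain ⟨σ, e, hσ, he⟩ := ha n
  rw [he]
  refine mul_ne_zero ?_ (Finset.prod_ne_zero_iff.mpr fun v _ => zpow_ne_zero _ ?_)
  · rcases hσ with rfl | rfl <;> norm_num
  · exact_mod_cast (hb v).ne_zero

include hbi

/-- an S-unit as a fraction whose terms are controlled by its sizes -/
lemma hb_frac {x : ℚ} (hx : IsSU b x) :
    ∃ M D : ℤ, D ≠ 0 ∧ x = M / D ∧ |(D : ℝ)| ≤ ∏ v, max 1 (av b (some v) x) ∧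
      |(M : ℝ)| = |(D : ℝ)| * av b none x := by
  classical
  obtain ⟨σ, e, hσ, hx⟩ := hx
  have hb0 : ∀ v, (b v : ℚ) ≠ 0 := fun v => by exact_mod_cast (hb v).ne_zero
  have hb1 : ∀ v, (1 : ℝ) < b v := fun v => by exact_mod_cast (hb v).one_lt
  have hbZ : ∀ v, (b v : ℤ) ≠ 0 := fun v => by exact_mod_cast (hb v).ne_zero
  have hD : (∏ v, (b v : ℤ) ^ ((-e v).toNat)) ≠ 0 :=
    Finset.prod_ne_zero_iff.2 fun v _ => pow_ne_zero _ (hbZ v)
  have hxe : x = ((σ * ∏ v, (b v : ℤ) ^ ((e v).toNat) : ℤ) : ℚ) /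
      ((∏ v, (b v : ℤ) ^ ((-e v).toNat) : ℤ) : ℚ) := by
    rw [hx]
    push_cast
    rw [mul_div_assoc, ← Finset.prod_div_distrib]
    congr 1
    refine Finset.prod_congr rfl fun v _ => ?_
    rw [← zpow_natCast, ← zpow_natCast, ← zpow_sub₀ (hb0 v), Int.toNat_sub_toNat_neg]
  refine ⟨σ * ∏ v, (b v : ℤ) ^ ((e v).toNat), ∏ v, (b v : ℤ) ^ ((-e v).toNat), hD, hxe, ?_, ?_⟩
  · push_cast
    rw [Finset.abs_prod]
    refine Finset.prod_le_prod (fun v _ => abs_nonneg _) fun v _ => ?_
    rw [abs_pow, Nat.abs_cast]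
    have hw := Fact.mk (hb v)
    have hx0 : x ≠ 0 := by
      rw [hx]
      refine mul_ne_zero ?_ (Finset.prod_ne_zero_iff.2 fun v _ => zpow_ne_zero _ (hb0 v))
      rcases hσ with h | h <;> simp [h]
    have h2 : av b (some v) x = (b v : ℝ) ^ (-e v) := by
      have h3 : padicNorm (b v) x = (b v : ℚ) ^ (-e v) := by
        rw [padicNorm.eq_zpow_of_nonzero hx0, hx,
          Pool.Agent.TH551.ZP.AR.val_SU_in hb hbi hσ e v]
      simp only [av]
      rw [h3]
      push_cast
      rfl
    rw [h2]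
    rcases le_total 0 (e v) with h | h
    · have h4 : (-e v).toNat = 0 := Int.toNat_of_nonpos (by linarith)
      rw [h4, pow_zero]
      exact le_max_left _ _
    · refine le_trans (le_of_eq ?_) (le_max_right _ _)
      rw [← zpow_natCast, Int.toNat_of_nonneg (by linarith)]
  · have hD' : ((∏ v, (b v : ℤ) ^ ((-e v).toNat) : ℤ) : ℝ) ≠ 0 := by exact_mod_cast hD
    have h1 : (x : ℝ) = ((σ * ∏ v, (b v : ℤ) ^ ((e v).toNat) : ℤ) : ℝ) /
        ((∏ v, (b v : ℤ) ^ ((-e v).toNat) : ℤ) : ℝ) := by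
      have h0 : (x : ℝ) = (((σ * ∏ v, (b v : ℤ) ^ ((e v).toNat) : ℤ) : ℚ) /
          ((∏ v, (b v : ℤ) ^ ((-e v).toNat) : ℤ) : ℚ) : ℚ) := by rw [← hxe]
      rw [h0, Rat.cast_div, Rat.cast_intCast, Rat.cast_intCast]
    simp only [av]
    rw [← abs_mul, h1, mul_div_cancel₀ _ hD']

/-- a germ of S-units of size at most 1 at all places is negligible -/
lemma hb_mem_KK {T : ℕ → ℝ} (hT : Tendsto T atTop atTop) {g : GG} (hg : GSU b g)
    (h : ∀ v, Dom b T v g 1) : g ∈ KK T hT := by
  classical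
  obtain ⟨a, rfl, ha⟩ := hg
  choose M D hD hx hDle hM using fun n => hb_frac hb hbi (ha n)
  have h1 : ∀ δ : ℝ, 0 < δ → ∀ᶠ n in (UU : Filter ℕ), ∀ v,
      av b v (a n) ≤ Real.exp (δ * T n) := by
    intro δ hδ
    rw [eventually_all]
    intro v
    have h2 := h v
    rw [← gm_one, dom_gm] at h2
    filter_upwards [h2 δ hδ] with n h3
    rwa [av_one hb, mul_one] at h3
  have h2 : ∀ δ : ℝ, 0 < δ → ∀ᶠ n in (UU : Filter ℕ),
      |(D n : ℝ)| ≤ Real.exp (s * δ * T n) := by
    intro δ hδ
    filter_upwards [h1 δ hδ, L_nonneg hT] with n h3 h4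
    refine (hDle n).trans ?_
    calc ∏ v, max 1 (av b (some v) (a n)) ≤ ∏ v : Fin s, Real.exp (δ * T n) := by
          refine Finset.prod_le_prod (fun v _ => le_trans zero_le_one (le_max_left _ _))
            fun v _ => max_le (Real.one_le_exp (by positivity)) (h3 _)
      _ = Real.exp (s * δ * T n) := by
          rw [Finset.prod_const, Finset.card_univ, Fintype.card_fin, ← Real.exp_nat_mul]
          ring_nf
  have hs : (0 : ℝ) < s + 1 := by positivity
  refine ⟨M, D, ?_, ?_, Eventually.of_forall hD, ?_⟩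
  · intro ε hε
    filter_upwards [h1 (ε / (s + 1)) (by positivity), h2 (ε / (s + 1)) (by positivity)]
      with n h3 h4
    rw [hM]
    calc |(D n : ℝ)| * av b none (a n) ≤
        Real.exp (s * (ε / (s + 1)) * T n) * Real.exp (ε / (s + 1) * T n) :=
          mul_le_mul h4 (h3 _) (av_nonneg hb _ _) (Real.exp_pos _).le
      _ = Real.exp (ε * T n) := by
          rw [← Real.exp_add]
          congr 1
          field_simp
  · intro ε hε
    filter_upwards [h2 (ε / (s + 1)) (by positivity), L_nonneg hT] with n h4 h5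
    refine h4.trans (Real.exp_le_exp.2 (mul_le_mul_of_nonneg_right ?_ h5))
    rw [mul_div_assoc', div_le_iff₀ hs]
    nlinarith
  · congr 1
    funext n
    exact hx n

end

theorem hbound (hss : SsuiStmt) (hsui : SUIStmt) : HbStmt := by
  classical
  intro s b hb hbi L hL m u hu c K hK
  obtain ⟨m', V, c', hV, hc', hVV, hx⟩ := hb_minrep (KK L hL) (GSU b)
    (fun g hg => hb_ne_zero hb hg) _ m u c hu rfl
  refine ⟨m', V, c', hV, ?_, hx⟩
  by_contra hcon
  rw [not_forall] at hcon
  obtain ⟨k0, hk0⟩ := hcon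
  generalize hxx : ∑ j, (c j : GG) * u j = x at hK hx
  have hVne : ∀ k, V k ≠ 0 := fun k => hb_ne_zero hb (hV k)
  have hrep : ∀ᶠ n in (UU : Filter ℕ), ∀ k, rep (V k) n ≠ 0 :=
    eventually_all.2 fun k => rep_ne_zero (hVne k)
  obtain ⟨S, hS⟩ : ∃ S : ℕ → ℝ, ∀ n, S n = ∑ k, ∑ v, |Real.log (av b v (rep (V k) n))| :=
    ⟨_, fun _ => rfl⟩
  obtain ⟨T, hTd⟩ : ∃ T : ℕ → ℝ, ∀ n, T n = max (L n) (S n) := ⟨_, fun _ => rfl⟩
  have hLT : ∀ n, L n ≤ T n := fun n => by rw [hTd]; exact le_max_left _ _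
  have hST : ∀ n, S n ≤ T n := fun n => by rw [hTd]; exact le_max_right _ _
  have hlogS : ∀ n k v, |Real.log (av b v (rep (V k) n))| ≤ S n := by
    intro n k v
    rw [hS]
    exact (Finset.single_le_sum (f := fun v => |Real.log (av b v (rep (V k) n))|)
      (fun _ _ => abs_nonneg _) (Finset.mem_univ v)).trans
      (Finset.single_le_sum (f := fun k => ∑ v, |Real.log (av b v (rep (V k) n))|)
      (fun _ _ => Finset.sum_nonneg fun _ _ => abs_nonneg _) (Finset.mem_univ k))
  have hT : Tendsto T atTop atTop := tendsto_atTop_mono hLT hL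
  have hneg : ∀ a : ℕ → ℤ, Negl L a → Negl T a := by
    intro a ha ε hε
    filter_upwards [ha ε hε] with n h1
    exact h1.trans (Real.exp_le_exp.2 (mul_le_mul_of_nonneg_left (hLT n) hε.le))
  have hle : ∀ g : GG, g ∈ KK L hL → g ∈ KK T hT := by
    rintro g ⟨a, d, ha, hd, hd0, hg⟩
    exact ⟨a, d, hneg a ha, hneg d hd, hd0, hg⟩
  have hKL : ∀ K d : ℝ, 0 < d → ∀ᶠ n in (UU : Filter ℕ), K * L n ≤ d * T n := by
    intro K d hd
    have h1 : ¬ ∀ᶠ n in (UU : Filter ℕ), ∀ v,
        Real.exp (-(|K| / d * L n)) ≤ av b v (rep (V k0) n) ∧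
          av b v (rep (V k0) n) ≤ Real.exp (|K| / d * L n) := fun h => hk0 ⟨_, h⟩
    have h2 := Ultrafilter.eventually_not.2 h1
    filter_upwards [h2, hrep, L_nonneg hL] with n h3 h4 h5
    rw [not_forall] at h3
    obtain ⟨v, h3⟩ := h3
    have h6 : |K| / d * L n ≤ |Real.log (av b v (rep (V k0) n))| := by
      have h7 := av_pos hb v (h4 k0)
      by_contra h8
      rw [not_le, abs_lt] at h8
      refine h3 ⟨?_, ?_⟩
      · rw [← Real.le_log_iff_exp_le h7]
        exact h8.1.le
      · rw [← Real.log_le_iff_le_exp h7]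
        exact h8.2.le
    have h8 : |K| / d * L n ≤ T n := h6.trans ((hlogS n k0 v).trans (hST n))
    have h9 : |K| * L n ≤ d * T n := by
      calc |K| * L n = d * (|K| / d * L n) := by field_simp
        _ ≤ _ := mul_le_mul_of_nonneg_left h8 hd.le
    exact (mul_le_mul_of_nonneg_right (le_abs_self K) h5).trans h9
  obtain ⟨r, f, p, d, hf1, hf2, hf3, hf4⟩ := hb_group (KK T hT) m'
    (fun k => ⟨c' k, hle _ (c' k).2⟩) V hVne
  have hsumq : ∑ q, (d q : GG) * V (f q) = x := by
    rw [Finset.sum_congr rfl fun q _ => hf4 q, Finset.sum_fiberwise]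
    exact hx
  have hd : ∀ q, d q ≠ 0 := by
    intro q hq
    have h1 := hf4 q
    rw [hq, ZeroMemClass.coe_zero, zero_mul] at h1
    have h2 := hsui s b hb hbi L hL m' V hV hVV (fun i => if p i = q then c' i else 0) (by
      rw [Finset.sum_filter] at h1
      rw [h1]
      refine Finset.sum_congr rfl fun i _ => ?_
      by_cases hi : p i = q
      · simp [hi]
      · simp [hi]) (f q)
    simp only [hf3 q, if_true] at h2
    exact hc' _ h2
  have hmod : ∀ q, Mod b T (V (f q)) := by
    intro q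
    refine ⟨1, ?_⟩
    filter_upwards [hrep] with n h1 v
    have h2 := av_pos hb v (h1 (f q))
    have h3 := (hlogS n (f q) v).trans (hST n)
    rw [abs_le] at h3
    rw [← Real.le_log_iff_exp_le h2, ← Real.log_le_iff_le_exp h2]
    constructor <;> linarith [h3.1, h3.2]
  have hdom : ∀ v q, Dom b T v (V (f q)) x := fun v q => by
    have h1 := hss s b hb hbi T hT r (fun q => V (f q)) (fun q => hV _) hmod hf1 d hd v q
    rwa [hsumq] at h1
  have hx1 : ∀ v, Dom b T v x 1 := by
    intro v ε hε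
    filter_upwards [hK, hKL K ε hε, rep_one] with n h1 h2 h3
    rw [h3, av_one hb, mul_one]
    exact (h1 v).trans (Real.exp_le_exp.2 h2)
  have hW : ∀ q, V (f q) ∈ KK T hT := fun q =>
    hb_mem_KK hb hbi hT (hV _) fun v => Dom.trans hb (hdom v q) (hx1 v)
  have hVK : ∀ k, V k ∈ KK T hT := by
    intro k
    have h1 := (KK T hT).mul_mem (hf2 k) (hW (p k))
    rwa [div_mul_cancel₀ _ (hVne _)] at h1
  have hlog : ∀ δ : ℝ, 0 < δ → ∀ᶠ n in (UU : Filter ℕ), ∀ k, ∀ v,
      |Real.log (av b v (rep (V k) n))| ≤ δ * T n := by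
    intro δ hδ
    rw [eventually_all]
    intro k
    rw [eventually_all]
    intro v
    filter_upwards [Dom.of_KK hb hbi hT v (hVK k) δ hδ,
      Dom.one_of_KK hb hbi hT v (hVK k) (hVne k) δ hδ, hrep, rep_one] with n h1 h2 h3 h4
    rw [h4, av_one hb, mul_one] at h1
    rw [h4, av_one hb] at h2
    have h5 := av_pos hb v (h3 k)
    rw [abs_le]
    constructor
    · rw [Real.le_log_iff_exp_le h5, Real.exp_neg, inv_le_iff_one_le_mul₀ (Real.exp_pos _)]
      rw [mul_comm]
      exact h2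
    · rw [Real.log_le_iff_le_exp h5]
      exact h1
  have hfin : ∀ᶠ n in (UU : Filter ℕ), False := by
    have hN : (0 : ℝ) < (m' : ℝ) * (s + 1) + 1 := by positivity
    filter_upwards [hlog (1 / (2 * ((m' : ℝ) * (s + 1) + 1))) (by positivity),
      hKL 1 (1 / 2) (by norm_num), ev_of_atTop (hL.eventually_gt_atTop 0)] with n h1 h2 h3
    have h0 : 0 < T n := lt_of_lt_of_le h3 (hLT n)
    have h4 : S n ≤ T n / 2 := by
      rw [hS]
      calc ∑ k, ∑ v, |Real.log (av b v (rep (V k) n))| ≤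
          ∑ k : Fin m', ∑ v : Option (Fin s), 1 / (2 * ((m' : ℝ) * (s + 1) + 1)) * T n :=
            Finset.sum_le_sum fun k _ => Finset.sum_le_sum fun v _ => h1 k v
        _ = (m' : ℝ) * (s + 1) * (1 / (2 * ((m' : ℝ) * (s + 1) + 1)) * T n) := by
            simp
            ring
        _ ≤ T n / 2 := by
            have h5 : (m' : ℝ) * (s + 1) * (1 / (2 * ((m' : ℝ) * (s + 1) + 1)) * T n) =
                (m' : ℝ) * (s + 1) / ((m' : ℝ) * (s + 1) + 1) * (T n / 2) := by
              field_simp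
            rw [h5]
            refine mul_le_of_le_one_left (by positivity) ?_
            rw [div_le_one hN]
            linarith
    have h5 : T n ≤ L n := by
      rcases max_cases (L n) (S n) with h | h
      · rw [hTd, h.1]
      · have h6 : T n = S n := by rw [hTd, h.1]
        linarith
    linarith
  exact hfin.exists.elim fun _ h => h

end Pool.Agent.TH551.HA
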