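import Mathlib
import Pool.Agent.TH551.HA.Basic

/-!
# Project HA: partial sums over unions of classes are dominated by the whole sum
-/

set_option autoImplicit false

namespace Pool.Agent.TH551.HA

open Filter Topology Pool.Agent.TH932.Germs Pool.Agent.TH551.SU

/-- grouping a sum into classes modulo a subfield -/
lemma nc_core {G : Type*} [Field G] (K : Subfield G) {ι : Type} (A : Finset ι) (a : ι → K)
    (g : ι → G) (w : ι → ℕ) (hg : ∀ i ∈ A, g i ≠ 0)
    (hw : ∀ i ∈ A, ∀ j ∈ A, g i / g j ∈ K → w i = w j) :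
    ∃ (n : ℕ) (f : Fin n → ↥A) (c : Fin n → K),
      (∀ i j, i ≠ j → g (f i) / g (f j) ∉ K) ∧
      (∑ i, (c i : G) * g (f i) = ∑ i ∈ A, (a i : G) * g i) ∧
      ∀ k, ∑ i with w (f i) = k, (c i : G) * g (f i) = ∑ i ∈ A with w i = k, (a i : G) * g i := by
  classical
  let s : Setoid ↥A := ⟨fun i j => g i / g j ∈ K,
    ⟨fun i => by rw [div_self (hg i i.2)]; exact K.one_mem,
     fun {i j} h => by rw [← inv_div]; exact K.inv_mem h,
     fun {i j k} h1 h2 => by
      rw [← div_mul_div_cancel₀ (hg j j.2)]; exact K.mul_mem h1 h2⟩⟩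
  have hs : ∀ i j : ↥A, (Quotient.mk s i = Quotient.mk s j) ↔ g i / g j ∈ K := fun i j => Quotient.eq
  have hfin : Finite (Quotient s) := inferInstance
  have hft : Fintype (Quotient s) := Fintype.ofFinite _
  let e := Fintype.equivFin (Quotient s)
  have hrp : ∀ i : ↥A, g i / g (Quotient.mk s i).out ∈ K := by
    intro i
    rw [← hs, Quotient.out_eq]
  set c : Quotient s → K := fun q => ∑ i : ↥A with Quotient.mk s i = q,
    a i * ⟨g i / g (Quotient.mk s i).out, hrp i⟩ with hc
  have hcq : ∀ q : Quotient s, (c q : G) * g q.out = ∑ i : ↥A with Quotient.mk s i = q, (a i : G) * g i := by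
    intro q
    rw [hc]
    simp only
    rw [AddSubmonoidClass.coe_finsetSum, Finset.sum_mul]
    refine Finset.sum_congr rfl fun i hi => ?_
    rw [Finset.mem_filter] at hi
    obtain ⟨-, rfl⟩ := hi
    rw [MulMemClass.coe_mul, mul_assoc]
    congr 1
    exact div_mul_cancel₀ _ (hg _ (Quotient.mk s i).out.2)
  refine ⟨Fintype.card (Quotient s), fun k => (e.symm k).out, fun k => c (e.symm k), ?_, ?_, ?_⟩
  · intro i j hij h
    apply hij
    rw [← hs, Quotient.out_eq, Quotient.out_eq] at h
    exact e.symm.injective h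
  · rw [Equiv.sum_comp e.symm (fun q => (c q : G) * g q.out)]
    simp_rw [hcq]
    rw [Finset.sum_fiberwise]
    rw [Finset.sum_coe_sort A (fun i => (a i : G) * g i)]
  · intro k
    rw [Finset.sum_filter, Finset.sum_filter]
    rw [Equiv.sum_comp e.symm (fun q => if w q.out = k then (c q : G) * g q.out else 0)]
    rw [← Finset.sum_coe_sort A (fun i => if w i = k then (a i : G) * g i else 0),
      ← Finset.sum_fiberwise (s := Finset.univ) (g := Quotient.mk s)
        (f := fun i : ↥A => if w i = k then (a i : G) * g i else 0)]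
    refine Finset.sum_congr rfl fun q _ => ?_
    have h2 : ∀ i ∈ (Finset.univ : Finset ↥A).filter (fun i => Quotient.mk s i = q),
        (if w i = k then (a i : G) * g i else 0) =
        (if w q.out = k then (a i : G) * g i else 0) := by
      intro i hi
      rw [Finset.mem_filter] at hi
      obtain ⟨-, rfl⟩ := hi
      rw [hw i i.2 _ (Quotient.mk s i).out.2 (hrp i)]
    rw [Finset.sum_congr rfl h2]
    split_ifs with h3
    · rw [hcq]
    · rw [Finset.sum_const_zero]

lemma nc_gsu_ne {s : ℕ} {b : Fin s → ℕ} (hb : ∀ v, (b v).Prime) {u : GG} (h : GSU b u) :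
    u ≠ 0 := by
  obtain ⟨x, hx, hx2⟩ := h
  rw [hx, gm_ne_zero]
  refine Eventually.of_forall fun n => ?_
  obtain ⟨σ, e, hσ, he⟩ := hx2 n
  rw [he]
  refine mul_ne_zero ?_ (Finset.prod_ne_zero_iff.mpr fun v _ => zpow_ne_zero _ ?_)
  · rcases hσ with rfl | rfl <;> norm_num
  · exact_mod_cast (hb v).ne_zero

/-- each term of the sum of nonzero multiples is dominated by the sum, also when some
coefficients vanish -/
lemma nc_term (hss : SsuiStmt) {s : ℕ} {b : Fin s → ℕ} (hb : ∀ v, (b v).Prime)
    (hbi : Function.Injective b) {L : ℕ → ℝ} (hL : Tendsto L atTop atTop) {n : ℕ}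
    (u : Fin n → GG) (hu : ∀ i, GSU b (u i)) (hm : ∀ i, Mod b L (u i))
    (hd : ∀ i j, i ≠ j → u i / u j ∉ KK L hL) (c : Fin n → KK L hL) (v : Option (Fin s))
    (i : Fin n) : Dom b L v ((c i : GG) * u i) (∑ j, (c j : GG) * u j) := by
  classical
  by_cases hi : c i = 0
  · rw [hi, ZeroMemClass.coe_zero, zero_mul]
    exact Dom.zero hb hL v _
  let e := Fintype.equivFin {j : Fin n // c j ≠ 0}
  have h1 := hss s b hb hbi L hL (Fintype.card {j : Fin n // c j ≠ 0})
    (fun k => u (e.symm k).1) (fun k => hu _) (fun k => hm _)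
    (fun k l hkl => hd _ _ fun h => hkl (e.symm.injective (Subtype.ext h)))
    (fun k => c (e.symm k).1) (fun k => (e.symm k).2) v (e ⟨i, hi⟩)
  simp only [Equiv.symm_apply_apply] at h1
  have h2 : ∑ k, (c (e.symm k).1 : GG) * u (e.symm k).1 = ∑ j, (c j : GG) * u j := by
    rw [Equiv.sum_comp e.symm (fun q : {j : Fin n // c j ≠ 0} => (c q.1 : GG) * u q.1)]
    rw [← Finset.sum_subtype ((Finset.univ : Finset (Fin n)).filter fun j => c j ≠ 0)
      (fun j => by simp) (fun j => (c j : GG) * u j), Finset.sum_filter]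
    refine Finset.sum_congr rfl fun j _ => ?_
    split_ifs with h
    · rfl
    · rw [not_not.1 h, ZeroMemClass.coe_zero, zero_mul]
  rw [h2] at h1
  exact Dom.smul hb hbi hL (c i).2 h1

theorem nc (hss : SsuiStmt) : NcStmt := by
  classical
  intro s b hb hbi L hL ι A a g w hg hmod hw v k
  obtain ⟨n, f, c, hf, hc1, hc2⟩ := nc_core (KK L hL) A a g w
    (fun i hi => nc_gsu_ne hb (hg i hi)) hw
  rw [← hc1, ← hc2 k]
  refine Dom.sum hb hL _ _ _ fun i _ => ?_
  exact nc_term hss hb hbi hL (fun i => g (f i)) (fun i => hg _ (f i).2)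
    (fun i => hmod _ (f i).2) hf c v i

end Pool.Agent.TH551.HA
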