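import Mathlib
import Pool.Agent.TH551.HA.Defs
import Pool.Agent.TH551.SU.Sui

/-!
# Project HA: no cancellation at any place in sums of S-unit germs (helper264)
-/

set_option autoImplicit false

namespace Pool.Agent.TH551.HA

open Filter Topology Pool.Agent.TH932.Germs Pool.Agent.TH551.SU Pool.Agent.TH461.SST

namespace Ssui

open Pool.Agent.TH551.SU.SUI

/-- the identity matrix; if `p` holds, the row `k` is replaced by ones -/
def MM {m : ℕ} (k : Fin m) (p : Prop) [Decidable p] : Matrix (Fin m) (Fin m) ℤ :=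
  fun l j => if p ∧ l = k then 1 else if l = j then 1 else 0

lemma MM_apply {m : ℕ} (k : Fin m) (p : Prop) [Decidable p] (x : Fin m → ℤ) (l : Fin m) :
    ∑ j, MM k p l j * x j = if p ∧ l = k then ∑ j, x j else x l := by
  unfold MM
  split_ifs with h
  · simp
  · simp

lemma MM_det {m : ℕ} (k : Fin m) (p : Prop) [Decidable p] : (MM k p).det ≠ 0 := by
  intro h
  obtain ⟨x, hx, h1⟩ := Matrix.exists_mulVec_eq_zero_iff.2 h
  apply hx
  have h2 : ∀ l, (if p ∧ l = k then ∑ j, x j else x l) = 0 := by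
    intro l
    rw [← MM_apply]
    exact congrFun h1 l
  have h3 : ∀ l, l ≠ k → x l = 0 := fun l hl => by
    have := h2 l
    rwa [if_neg (fun h => hl h.2)] at this
  have h4 : x k = 0 := by
    have h5 := h2 k
    by_cases hp : p
    · rw [if_pos ⟨hp, rfl⟩, Finset.sum_eq_single k (fun j _ hj => h3 j hj)
        (fun h => absurd (Finset.mem_univ k) h)] at h5
      exact h5
    · rwa [if_neg (fun h => hp h.1)] at h5
  funext l
  by_cases hl : l = k
  · rw [hl, h4]; rfl
  · exact h3 l hl

/-- the good indices of the sequence -/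
structure Good {s m : ℕ} (b : Fin s → ℕ) (v0 : Option (Fin s)) (η K : ℝ) (L : ℕ → ℝ)
    (C : Fin (m + 1) → ℕ → ℤ) (U : ℕ → Fin (m + 1) → ℤ) (e : ℕ → Fin s → Fin (m + 1) → ℕ)
    (kI : Fin (m + 1)) (kv : Fin s → Fin (m + 1)) (n : ℕ) : Prop where
  ne : ∀ i, C i n ≠ 0
  zero : ∀ v, e n v (kv v) = 0
  small : ∀ i, |(C i n : ℝ)| ≤ Real.exp (η / (4 * (m + 1)) * L n)
  mod : ∀ v i, (e n v i : ℝ) * Real.log (b v) ≤ K * L n
  fI : v0 = none →
    |((∑ i, C i n * U n i : ℤ) : ℝ)| ≤ Real.exp (-(η * L n)) * |(U n kI : ℝ)|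
  fv : ∀ v, v0 = some v → (b v : ℤ) ^ ⌊η * L n / Real.log (b v)⌋₊ ∣ ∑ i, C i n * U n i
  L0 : 0 ≤ L n
  Lb : ∀ v, Real.log (b v) ≤ η / 2 * L n

/-- the subspace theorem for the good indices -/
lemma apply_sst {s m : ℕ} (b : Fin s → ℕ) (hb : ∀ v, (b v).Prime)
    (hbi : Function.Injective b) (v0 : Option (Fin s)) (L : ℕ → ℝ) (hL : Tendsto L atTop atTop)
    (η K : ℝ) (hη : 0 < η) (hK : 0 ≤ K) (C : Fin (m + 1) → ℕ → ℤ)
    (U : ℕ → Fin (m + 1) → ℤ) (e : ℕ → Fin s → Fin (m + 1) → ℕ)
    (hUe : ∀ n i, |(U n i : ℝ)| = ∏ v, (b v : ℝ) ^ (e n v i))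
    (hdv : ∀ n i v, (b v : ℤ) ^ (e n v i) ∣ U n i)
    (kI : Fin (m + 1)) (kv : Fin s → Fin (m + 1)) (ν : ℕ → ℕ)
    (hν : Tendsto ν atTop atTop) (hg : ∀ t, Good b v0 η K L C U e kI kv (ν t)) :
    ∃ y : Fin (m + 1) → ℤ, y ≠ 0 ∧ ∃ᶠ t in atTop,
      ∑ l : Fin (m + 1), y l * (C l (ν t) * U (ν t) l) = 0 := by
  classical
  have hb2 : ∀ v, 2 ≤ b v := fun v => (hb v).two_le
  have hlb : ∀ v, 0 < Real.log (b v) := fun v => Real.log_pos (by exact_mod_cast hb2 v)
  have hU1 : ∀ n i, 1 ≤ |(U n i : ℝ)| := by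
    intro n i
    have h1 : U n i ≠ 0 := by
      intro h2
      have h3 := hUe n i
      rw [h2, Int.cast_zero, abs_zero] at h3
      have h4 : (0 : ℝ) < ∏ v, (b v : ℝ) ^ (e n v i) := Finset.prod_pos fun v _ => by
        have := hb2 v
        positivity
      linarith
    exact_mod_cast Int.one_le_abs h1
  have hlU : ∀ n i, Real.log |(U n i : ℝ)| = ∑ v, (e n v i : ℝ) * Real.log (b v) := by
    intro n i
    rw [hUe, Real.log_prod]
    · exact Finset.sum_congr rfl fun v _ => Real.log_pow _ _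
    · intro v _
      have := hb2 v
      positivity
  have hm1 : (0 : ℝ) < 4 * ((m : ℝ) + 1) := by positivity
  obtain ⟨δ, hδ⟩ : ∃ δ : ℝ, δ = η / (4 * ((m : ℝ) + 1)) := ⟨_, rfl⟩
  have hδ0 : 0 < δ := by rw [hδ]; positivity
  have hmδ : ((m : ℝ) + 1) * δ = η / 4 := by rw [hδ]; field_simp
  obtain ⟨c, hc⟩ : ∃ c : ℝ, c = max 1 (δ + η + s * K + K) := ⟨_, rfl⟩
  have key := sst (m + 1) s (by omega) (MM kI (v0 = none)) (fun v => MM (kv v) (v0 = some v)) b
    ⟨MM_det _ _, fun v => MM_det _ _, hb2, fun v v' hv => (Nat.coprime_primes (hb v) (hb v')).2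
      fun h => hv (hbi h)⟩ c (η / 4) (hc ▸ le_max_left _ _) (by positivity)
    (fun t => L (ν t)) (hL.comp hν)
    (fun t v l => if v0 = some v ∧ l = kv v then ⌊η * L (ν t) / Real.log (b v)⌋₊
      else e (ν t) v l)
    (fun t l => Real.exp ((δ - if v0 = none ∧ l = kI then η else 0) * L (ν t)) *
      |(U (ν t) l : ℝ)|)
    ?_ (fun t l => C l (ν t) * U (ν t) l) ?_ ?_
  · exact key
  · intro t
    have hL0 := (hg t).L0
    have hcc : (δ + η + s * K + K) * L (ν t) ≤ c * L (ν t) :=
      mul_le_mul_of_nonneg_right (hc ▸ le_max_right _ _) hL0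
    have hlA : ∀ l, Real.log (Real.exp ((δ - if v0 = none ∧ l = kI then η else 0) * L (ν t)) *
        |(U (ν t) l : ℝ)|) = (δ - if v0 = none ∧ l = kI then η else 0) * L (ν t) +
          Real.log |(U (ν t) l : ℝ)| := by
      intro l
      rw [Real.log_mul (Real.exp_pos _).ne' (by have := hU1 (ν t) l; linarith), Real.log_exp]
    have hsU : ∀ l, Real.log |(U (ν t) l : ℝ)| ≤ s * K * L (ν t) := by
      intro l
      rw [hlU]
      calc ∑ v, (e (ν t) v l : ℝ) * Real.log (b v) ≤ ∑ v : Fin s, K * L (ν t) :=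
            Finset.sum_le_sum fun v _ => (hg t).mod v l
        _ = s * K * L (ν t) := by
            rw [Finset.sum_const, Finset.card_univ, Fintype.card_fin, nsmul_eq_mul]; ring
    have hKL : 0 ≤ K * L (ν t) := mul_nonneg hK hL0
    have hsKL : 0 ≤ s * K * L (ν t) := by positivity
    have hηL : 0 ≤ η * L (ν t) := by positivity
    have hδL : 0 ≤ δ * L (ν t) := by positivity
    have hfl : ∀ v, (⌊η * L (ν t) / Real.log (b v)⌋₊ : ℝ) * Real.log (b v) ≤ η * L (ν t) := by
      intro v
      have := Nat.floor_le (div_nonneg hηL (hlb v).le)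
      calc _ ≤ (η * L (ν t) / Real.log (b v)) * Real.log (b v) :=
            mul_le_mul_of_nonneg_right this (hlb v).le
        _ = _ := div_mul_cancel₀ _ (hlb v).ne'
    have hfl' : ∀ v, η * L (ν t) - Real.log (b v) ≤
        (⌊η * L (ν t) / Real.log (b v)⌋₊ : ℝ) * Real.log (b v) := by
      intro v
      have := Nat.lt_floor_add_one (η * L (ν t) / Real.log (b v))
      rw [div_lt_iff₀ (hlb v)] at this
      nlinarith
    have hexp : (δ + η + s * K + K) * L (ν t) =
        δ * L (ν t) + η * L (ν t) + s * K * L (ν t) + K * L (ν t) := by ring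
    refine ⟨?_, ?_, ?_, ?_⟩
    · intro v l
      dsimp only
      split_ifs
      · linarith [hfl v]
      · linarith [(hg t).mod v l]
    · intro l
      have := hU1 (ν t) l
      positivity
    · intro l
      rw [hlA]
      have h1 := hsU l
      have h2 := Real.log_nonneg (hU1 (ν t) l)
      rw [abs_le]
      split_ifs <;> constructor <;> linarith
    · simp only [hlA]
      rw [Finset.sum_add_distrib]
      have h1 : ∑ l : Fin (m + 1), (δ - if v0 = none ∧ l = kI then η else 0) * L (ν t) =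
          (((m : ℝ) + 1) * δ - if v0 = none then η else 0) * L (ν t) := by
        rw [← Finset.sum_mul, Finset.sum_sub_distrib]
        congr 2
        · simp
        · by_cases h : v0 = none <;> simp [h]
      have h2 : ∀ v, ∑ l, (((if v0 = some v ∧ l = kv v then ⌊η * L (ν t) / Real.log (b v)⌋₊
          else e (ν t) v l : ℕ) : ℕ) : ℝ) * Real.log (b v) =
          ∑ l, (e (ν t) v l : ℝ) * Real.log (b v) +
            if v0 = some v then (⌊η * L (ν t) / Real.log (b v)⌋₊ : ℝ) * Real.log (b v) else 0 := by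
        intro v
        by_cases h : v0 = some v
        · rw [if_pos h]
          rw [← Finset.add_sum_erase Finset.univ _ (Finset.mem_univ (kv v)),
            ← Finset.add_sum_erase Finset.univ (fun l => (e (ν t) v l : ℝ) * Real.log (b v))
              (Finset.mem_univ (kv v)), (hg t).zero v, if_pos ⟨h, rfl⟩]
          rw [Finset.sum_congr rfl (fun l hl => by
            rw [if_neg (fun h' => Finset.ne_of_mem_erase hl h'.2)])]
          push_cast
          ring
        · simp [h]
      have h3 : ∑ l : Fin (m + 1), Real.log |(U (ν t) l : ℝ)| =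
          ∑ v, ∑ l, (e (ν t) v l : ℝ) * Real.log (b v) := by
        rw [Finset.sum_comm]
        exact Finset.sum_congr rfl fun i _ => hlU _ _
      rw [h1, Finset.sum_congr rfl fun v _ => h2 v, Finset.sum_add_distrib, h3, hmδ]
      rcases v0 with _ | v1
      · simp only [if_pos, reduceCtorEq, if_false, Finset.sum_const_zero]
        nlinarith
      · have h4 : (η * L (ν t) - Real.log (b v1)) ≤ ∑ v, if (some v1 : Option (Fin s)) = some v then
            (⌊η * L (ν t) / Real.log (b v)⌋₊ : ℝ) * Real.log (b v) else 0 := by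
          have h5 : ∀ v : Fin s, (if (some v1 : Option (Fin s)) = some v then
            (⌊η * L (ν t) / Real.log (b v)⌋₊ : ℝ) * Real.log (b v) else 0) =
            if v1 = v then (⌊η * L (ν t) / Real.log (b v)⌋₊ : ℝ) * Real.log (b v) else 0 := by
            intro v
            simp only [Option.some.injEq]
          rw [Finset.sum_congr rfl fun v _ => h5 v, Finset.sum_ite_eq, if_pos (Finset.mem_univ _)]
          exact hfl' v1
        have h6 := (hg t).Lb v1
        simp only [reduceCtorEq, if_false]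
        linarith
  · intro t h0
    have h1 := congrFun h0 0
    have h2 : U (ν t) 0 ≠ 0 := by
      intro h3
      have := hU1 (ν t) 0
      rw [h3] at this
      norm_num at this
    exact mul_ne_zero ((hg t).ne _) h2 h1
  · intro t
    have hL0 := (hg t).L0
    have hδL : 0 ≤ δ * L (ν t) := by positivity
    constructor
    · intro l
      rw [MM_apply]
      dsimp only
      by_cases h : v0 = none ∧ l = kI
      · rw [if_pos h, if_pos h]
        refine ((hg t).fI h.1).trans ?_
        rw [h.2]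
        refine mul_le_mul_of_nonneg_right (Real.exp_le_exp.2 ?_) (abs_nonneg _)
        linarith
      · rw [if_neg h, if_neg h]
        push_cast
        rw [abs_mul]
        refine mul_le_mul_of_nonneg_right ?_ (abs_nonneg _)
        refine ((hg t).small _).trans (Real.exp_le_exp.2 ?_)
        rw [← hδ]
        linarith
    · intro v l
      rw [MM_apply]
      dsimp only
      split_ifs with h
      · exact (hg t).fv v h.1
      · exact Dvd.dvd.mul_left (hdv _ _ _) _

/-- clearing denominators -/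
lemma clear2 {L : ℕ → ℝ} (hL : Tendsto L atTop atTop) {m : ℕ} (c : Fin m → KK L hL)
    (hc : ∀ i, c i ≠ 0) (a : Fin m → ℕ → ℚ) (f : ℕ → ℚ)
    (h : gm f = ∑ i, (c i : GG) * gm (a i)) :
    ∃ (C : Fin m → ℕ → ℤ) (D : ℕ → ℤ), (∀ i, Negl L (C i)) ∧ Negl L D ∧
      (∀ᶠ n in (UU : Filter ℕ), D n ≠ 0) ∧
      (∀ i, gm (fun n => (C i n : ℚ)) = gm (fun n => (D n : ℚ)) * c i) ∧
      (∀ᶠ n in (UU : Filter ℕ), ∀ i, C i n ≠ 0) ∧
      ∀ᶠ n in (UU : Filter ℕ), (D n : ℚ) * f n = ∑ i, (C i n : ℚ) * a i n := by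
  classical
  have h0 : ∀ i, ∃ m d : ℕ → ℤ, Negl L m ∧ Negl L d ∧ (∀ᶠ n in (UU : Filter ℕ), d n ≠ 0) ∧
    (c i : GG) = gm fun n => (m n : ℚ) / d n := fun i => (c i).2
  choose M d hM hd hd0 hg using h0
  have hd1 : ∀ᶠ n in (UU : Filter ℕ), ∀ i, d i n ≠ 0 := eventually_all.2 hd0
  have hM0 : ∀ᶠ n in (UU : Filter ℕ), ∀ i, M i n ≠ 0 := by
    refine eventually_all.2 fun i => ?_
    have h1 : (c i : GG) ≠ 0 := fun h2 => hc i (Subtype.ext h2)
    rw [hg, gm_ne_zero] at h1
    filter_upwards [h1] with n hn h2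
    apply hn
    rw [h2]
    simp
  have key : ∀ i n, (∀ j, d j n ≠ 0) → ((M i n * ∏ j ∈ Finset.univ.erase i, d j n : ℤ) : ℚ) =
      (∏ j, (d j n : ℚ)) * ((M i n : ℚ) / d i n) := by
    intro i n hn
    have h2 : (d i n : ℚ) ≠ 0 := by exact_mod_cast hn i
    rw [← Finset.mul_prod_erase _ _ (Finset.mem_univ i)]
    push_cast
    field_simp
  refine ⟨fun i n => M i n * ∏ j ∈ Finset.univ.erase i, d j n, fun n => ∏ j, d j n,
    fun i => (hM i).mul (Negl.prod hL _ fun j _ => hd j), Negl.prod hL _ fun j _ => hd j,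
    ?_, ?_, ?_, ?_⟩
  · filter_upwards [hd1] with n hn
    exact Finset.prod_ne_zero_iff.2 fun j _ => hn j
  · intro i
    rw [hg, gm_mul, gm_eq]
    filter_upwards [hd1] with n hn
    rw [key i n hn]
    push_cast
    rfl
  · filter_upwards [hd1, hM0] with n hn h1 i
    exact mul_ne_zero (h1 i) (Finset.prod_ne_zero_iff.2 fun j _ => hn j)
  · have h1 : gm (fun n => ∑ i, ((M i n : ℚ) / d i n) * a i n) = gm f := by
      rw [h]
      have h2 : ∀ A : Finset (Fin m), gm (fun n => ∑ i ∈ A, ((M i n : ℚ) / d i n) * a i n) =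
          ∑ i ∈ A, (c i : GG) * gm (a i) := by
        intro A
        induction A using Finset.induction_on with
        | empty => simp [gm_zero]
        | insert x A hx ih =>
          rw [Finset.sum_insert hx, ← ih, hg, gm_mul, gm_add]
          congr 1
          funext n
          rw [Finset.sum_insert hx]
      exact h2 _
    rw [gm_eq] at h1
    filter_upwards [h1, hd1] with n h2 h3
    symm
    calc ∑ i, ((M i n * ∏ j ∈ Finset.univ.erase i, d j n : ℤ) : ℚ) * a i n
        = ∑ i, (∏ j, (d j n : ℚ)) * (((M i n : ℚ) / d i n) * a i n) := by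
          refine Finset.sum_congr rfl fun i _ => ?_
          rw [key i n h3]
          ring
      _ = ((∏ j, d j n : ℤ) : ℚ) * f n := by
          rw [← Finset.mul_sum, h2]
          push_cast
          rfl

/-- integers which are small at a prime are divisible by a large power -/
lemma dvd_of_small {p : ℕ} (hp : p.Prime) (z : ℤ) {x : ℝ} (hx : 0 ≤ x)
    (h : ((padicNorm p (z : ℚ) : ℚ) : ℝ) ≤ Real.exp (-x)) :
    (p : ℤ) ^ ⌊x / Real.log p⌋₊ ∣ z := by
  have := Fact.mk hp
  by_cases hz : z = 0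
  · rw [hz]; exact dvd_zero _
  have hlp : 0 < Real.log p := Real.log_pos (by exact_mod_cast hp.one_lt)
  have hp0 : (0 : ℝ) < p := by exact_mod_cast hp.pos
  have h1 : padicNorm p (z : ℚ) ≤ (p : ℚ) ^ (-(⌊x / Real.log p⌋₊ : ℤ)) := by
    have h2 : (p : ℝ) ^ ⌊x / Real.log p⌋₊ ≤ Real.exp x := by
      rw [← Real.exp_log (pow_pos hp0 _), Real.log_pow]
      apply Real.exp_le_exp.2
      calc (⌊x / Real.log p⌋₊ : ℝ) * Real.log p ≤ (x / Real.log p) * Real.log p :=
            mul_le_mul_of_nonneg_right (Nat.floor_le (div_nonneg hx hlp.le)) hlp.le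
        _ = x := div_mul_cancel₀ _ hlp.ne'
    have h3 : Real.exp (-x) ≤ (p : ℝ) ^ (-(⌊x / Real.log p⌋₊ : ℤ)) := by
      rw [Real.exp_neg, zpow_neg, zpow_natCast]
      exact inv_anti₀ (pow_pos hp0 _) h2
    have h4 := h.trans h3
    rw [← Rat.cast_le (K := ℝ)]
    push_cast
    exact h4
  exact_mod_cast (padicNorm.dvd_iff_norm_le).2 h1

end Ssui

open Ssui Pool.Agent.TH551.SU.SUI in
/-- **No cancellation at any place in sums of S-unit germs of different classes.** -/
theorem ssui : SsuiStmt := by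
  classical
  intro s b hb hbi L hL m u hu hmod hne c hc v0 i0
  rcases m with _ | m
  · exact i0.elim0
  have hb2 : ∀ v, 2 ≤ b v := fun v => (hb v).two_le
  have hlb : ∀ v, 0 < Real.log (b v) := fun v => Real.log_pos (by exact_mod_cast hb2 v)
  intro ε hε
  by_contra hcon
  have hbad := Ultrafilter.eventually_not.2 hcon
  choose a ha hSU using hu
  have hra : ∀ᶠ n in (UU : Filter ℕ), ∀ i, rep (u i) n = a i n :=
    eventually_all.2 fun i => gm_eq.1 ((gm_rep (u i)).trans (ha i))
  obtain ⟨C, D, hCN, hDN, hD, hCD, hC0, hCa⟩ := clear2 hL c hc a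
    (rep (∑ j, (c j : GG) * u j)) (by
      rw [gm_rep]
      exact Finset.sum_congr rfl fun i _ => by rw [ha])
  choose g U e hg hU hUe hdv hz using fun n => normalise b hb2 (fun i => a i n) fun i => hSU i n
  have hU0 : ∀ n i, U n i ≠ 0 := by
    intro n i h2
    have h3 := hUe n i
    rw [h2, Int.cast_zero, abs_zero] at h3
    have h4 : (0 : ℝ) < ∏ v, (b v : ℝ) ^ (e n v i) := Finset.prod_pos fun v _ => by
      have := hb2 v
      positivity
    linarith
  -- constant indices
  obtain ⟨kI, hkI⟩ : ∃ kI : Fin (m + 1), ∀ᶠ n in (UU : Filter ℕ),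
      ∀ i, |(U n i : ℝ)| ≤ |(U n kI : ℝ)| :=
    const_of_ev (Eventually.of_forall fun n => Finite.exists_max fun i => |(U n i : ℝ)|)
  choose kv hkv using fun v : Fin s => const_of_ev (p := fun i n => e n v i = 0)
    (Eventually.of_forall fun n => hz n v)
  -- the size of the exponents
  have hpn : ∀ n v i, ((padicNorm (b v) (U n i : ℚ) : ℚ) : ℝ) ≤
      Real.exp (-((e n v i : ℝ) * Real.log (b v))) := by
    intro n v i
    have := Fact.mk (hb v)
    have h1 := (padicNorm.dvd_iff_norm_le (p := b v) (n := e n v i) (z := U n i)).1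
      (by exact_mod_cast hdv n i v)
    have hb0 : (0 : ℝ) < b v := by exact_mod_cast (hb v).pos
    have h2 : ((padicNorm (b v) (U n i : ℚ) : ℚ) : ℝ) ≤ (b v : ℝ) ^ (-(e n v i : ℤ)) := by
      have h3 := (Rat.cast_le (K := ℝ)).2 h1
      push_cast at h3
      exact h3
    refine h2.trans (le_of_eq ?_)
    rw [Real.exp_neg, zpow_neg, zpow_natCast, ← Real.log_pow, Real.exp_log (pow_pos hb0 _)]
  have hpn0 : ∀ n v i, e n v i = 0 → ((padicNorm (b v) (U n i : ℚ) : ℚ) : ℝ) = 1 := by
    intro n v i h0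
    have := Fact.mk (hb v)
    have h1 : ¬ (b v : ℤ) ∣ U n i := by
      intro h2
      have h3 : (b v : ℤ) ∣ |U n i| := (dvd_abs _ _).2 h2
      have h4 : |U n i| = ((∏ w, (b w) ^ (e n w i) : ℕ) : ℤ) := by
        have h5 := hUe n i
        exact_mod_cast h5
      rw [h4, Int.natCast_dvd_natCast, (hb v).prime.dvd_finsetProd_iff] at h3
      obtain ⟨w, _, h5⟩ := h3
      have h6 := (hb v).dvd_of_dvd_pow h5
      have h7 : v = w := hbi ((Nat.prime_dvd_prime_iff_eq (hb v) (hb w)).1 h6)
      rw [← h7, h0, pow_zero] at h5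
      exact (hb v).one_lt.ne' (Nat.dvd_one.1 h5)
    have h2 := (padicNorm.int_eq_one_iff (p := b v) (U n i)).2 h1
    rw [h2]
    simp
  choose K hKm using hmod
  obtain ⟨K', hK'0, hK'⟩ : ∃ K' : ℝ, 0 ≤ K' ∧ ∀ i, K i ≤ K' :=
    ⟨∑ i, |K i|, Finset.sum_nonneg fun i _ => abs_nonneg _, fun i =>
      (le_abs_self _).trans (Finset.single_le_sum (f := fun i => |K i|)
        (fun i _ => abs_nonneg _) (Finset.mem_univ i))⟩
  have hmodev : ∀ᶠ n in (UU : Filter ℕ), ∀ v i, (e n v i : ℝ) * Real.log (b v) ≤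
      (2 * K') * L n := by
    filter_upwards [eventually_all.2 hKm, hra, L_nonneg hL, eventually_all.2 hkv]
      with n h1 h2 h3 h4 v i
    have h5 : ∀ i, av b (some v) (a i n) = av b (some v) (g n) * av b (some v) (U n i : ℚ) := by
      intro i
      rw [hU n i, av_mul hb]
    have hg0 := av_pos hb (some v) (hg n)
    have h6 := (h1 i (some v)).1
    have h7 := (h1 (kv v) (some v)).2
    rw [h2, h5] at h6 h7
    have h8 : av b (some v) (U n (kv v) : ℚ) = 1 := hpn0 n v _ (h4 v)
    rw [h8, mul_one] at h7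
    have h9 : av b (some v) (U n i : ℚ) ≤ Real.exp (-((e n v i : ℝ) * Real.log (b v))) :=
      hpn n v i
    have h10 : Real.exp (-(K' * L n)) ≤ Real.exp (K' * L n) *
        Real.exp (-((e n v i : ℝ) * Real.log (b v))) := by
      calc Real.exp (-(K' * L n)) ≤ Real.exp (-(K i * L n)) := by
            apply Real.exp_le_exp.2
            nlinarith [hK' i]
        _ ≤ _ := h6
        _ ≤ Real.exp (K' * L n) * Real.exp (-((e n v i : ℝ) * Real.log (b v))) := by
            refine mul_le_mul (h7.trans (Real.exp_le_exp.2 ?_)) h9 (av_nonneg hb _ _)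
              (Real.exp_pos _).le
            nlinarith [hK' (kv v)]
    rw [← Real.exp_add, Real.exp_le_exp] at h10
    linarith
  -- the sum is small at `v0`
  have hF : ∀ᶠ n in (UU : Filter ℕ), av b v0 ((∑ i, C i n * U n i : ℤ) : ℚ) ≤
      Real.exp (-(ε / 2 * L n)) * av b v0 (U n i0 : ℚ) := by
    filter_upwards [hbad, hra, hCa, hD, hDN (ε / 2) (by positivity), L_nonneg hL]
      with n h1 h2 h3 h4 h5 h6
    rw [not_le, h2 i0, hU n i0, av_mul hb] at h1
    have h7 : (D n : ℚ) * rep (∑ j, (c j : GG) * u j) n =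
        g n * ((∑ i, C i n * U n i : ℤ) : ℚ) := by
      rw [h3]
      push_cast
      rw [Finset.mul_sum]
      refine Finset.sum_congr rfl fun i _ => ?_
      rw [hU n i]
      ring
    have h8 : av b v0 (D n : ℚ) ≤ Real.exp (ε / 2 * L n) := by
      cases v0 with
      | none =>
        simp only [av]
        exact_mod_cast h5
      | some v =>
        have := Fact.mk (hb v)
        have h9 : padicNorm (b v) (D n : ℚ) ≤ 1 := padicNorm.of_int _
        have h10 : ((padicNorm (b v) (D n : ℚ) : ℚ) : ℝ) ≤ 1 := by exact_mod_cast h9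
        exact h10.trans (Real.one_le_exp (by positivity))
    have h9 : av b v0 (D n : ℚ) * av b v0 (rep (∑ j, (c j : GG) * u j) n) =
        av b v0 (g n) * av b v0 ((∑ i, C i n * U n i : ℤ) : ℚ) := by
      rw [← av_mul hb, h7, av_mul hb]
    have hg0 := av_pos hb v0 (hg n)
    have hU' := av_nonneg hb v0 (U n i0 : ℚ)
    have hf0 := av_nonneg hb v0 (rep (∑ j, (c j : GG) * u j) n)
    have h10 : av b v0 (g n) * av b v0 ((∑ i, C i n * U n i : ℤ) : ℚ) ≤
        av b v0 (g n) * (Real.exp (-(ε / 2 * L n)) * av b v0 (U n i0 : ℚ)) := by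
      rw [← h9]
      calc av b v0 (D n : ℚ) * av b v0 (rep (∑ j, (c j : GG) * u j) n)
          ≤ Real.exp (ε / 2 * L n) * av b v0 (rep (∑ j, (c j : GG) * u j) n) :=
            mul_le_mul_of_nonneg_right h8 hf0
        _ = Real.exp (-(ε / 2 * L n)) *
            (Real.exp (ε * L n) * av b v0 (rep (∑ j, (c j : GG) * u j) n)) := by
            rw [← mul_assoc, ← Real.exp_add]
            congr 2
            ring
        _ ≤ Real.exp (-(ε / 2 * L n)) * (av b v0 (g n) * av b v0 (U n i0 : ℚ)) :=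
            mul_le_mul_of_nonneg_left h1.le (Real.exp_pos _).le
        _ = _ := by ring
    exact le_of_mul_le_mul_left h10 hg0
  have hη : 0 < ε / 2 := by positivity
  have hgood : ∀ᶠ n in (UU : Filter ℕ), Good b v0 (ε / 2) (2 * K') L C U e kI kv n := by
    have hsm : ∀ᶠ n in (UU : Filter ℕ), ∀ i, |(C i n : ℝ)| ≤
        Real.exp (ε / 2 / (4 * ((m : ℝ) + 1)) * L n) :=
      eventually_all.2 fun i => hCN i _ (by positivity)
    have hLb : ∀ᶠ n in (UU : Filter ℕ), ∀ v, Real.log (b v) ≤ ε / 2 / 2 * L n := by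
      refine eventually_all.2 fun v => ev_of_atTop ?_
      filter_upwards [hL.eventually_ge_atTop (Real.log (b v) / (ε / 2 / 2))] with n hn
      rw [div_le_iff₀ (by positivity)] at hn
      linarith
    filter_upwards [hkI, eventually_all.2 hkv, hC0, hsm, hmodev, hF, L_nonneg hL, hLb]
      with n h1 h2 h3 h4 h5 h6 h7 h8
    refine ⟨h3, h2, h4, h5, ?_, ?_, h7, h8⟩
    · rintro rfl
      simp only [av] at h6
      refine le_trans (by exact_mod_cast h6) (mul_le_mul_of_nonneg_left ?_ (Real.exp_pos _).le)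
      exact_mod_cast h1 i0
    · rintro v rfl
      have := Fact.mk (hb v)
      apply dvd_of_small (hb v) _ (by positivity)
      refine h6.trans ?_
      have h9 : padicNorm (b v) (U n i0 : ℚ) ≤ 1 := padicNorm.of_int _
      have h10 : av b (some v) (U n i0 : ℚ) ≤ 1 := by
        simp only [av]
        exact_mod_cast h9
      calc Real.exp (-(ε / 2 * L n)) * av b (some v) (U n i0 : ℚ) ≤
          Real.exp (-(ε / 2 * L n)) * 1 := mul_le_mul_of_nonneg_left h10 (Real.exp_pos _).le
        _ = _ := mul_one _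
  -- no fixed relation
  have hno : ∀ y : Fin (m + 1) → ℤ, y ≠ 0 → ∀ᶠ n in (UU : Filter ℕ),
      ∑ l : Fin (m + 1), y l * (C l n * U n l) ≠ 0 := by
    intro y hy
    by_contra hcon
    have h1 : ∀ᶠ n in (UU : Filter ℕ), ∑ l : Fin (m + 1), y l * (C l n * U n l) = 0 := by
      have h2 := Ultrafilter.eventually_not.2 hcon
      filter_upwards [h2] with n hn using not_not.1 hn
    apply hy
    have h3 : ∑ l : Fin (m + 1), ((((y l : ℤ) : KK L hL) * c l : KK L hL) : GG) * u l = 0 := by
      have h4 : gm (fun n => (D n : ℚ)) * ∑ l : Fin (m + 1),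
          ((((y l : ℤ) : KK L hL) * c l : KK L hL) : GG) * u l = 0 := by
        have h5 : gm (fun n => ∑ l : Fin (m + 1), (y l : ℚ) * ((C l n : ℚ) * a l n)) = 0 := by
          rw [← gm_zero, gm_eq]
          filter_upwards [h1] with n hn
          calc ∑ l : Fin (m + 1), (y l : ℚ) * ((C l n : ℚ) * a l n) =
              g n * ((∑ l : Fin (m + 1), y l * (C l n * U n l) : ℤ) : ℚ) := by
                push_cast
                rw [Finset.mul_sum]
                refine Finset.sum_congr rfl fun l _ => ?_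
                rw [hU n l]
                ring
            _ = 0 := by rw [hn]; simp
        rw [← h5, Finset.mul_sum]
        have h6 : ∀ A : Finset (Fin (m + 1)), ∑ l ∈ A, gm (fun n => (D n : ℚ)) *
            (((((y l : ℤ) : KK L hL) * c l : KK L hL) : GG) * u l) =
            gm (fun n => ∑ l ∈ A, (y l : ℚ) * ((C l n : ℚ) * a l n)) := by
          intro A
          induction A using Finset.induction_on with
          | empty => simp [gm_zero]
          | insert x A hx ih =>
            rw [Finset.sum_insert hx, ih]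
            have h7 : gm (fun n => (D n : ℚ)) *
                (((((y x : ℤ) : KK L hL) * c x : KK L hL) : GG) * u x) =
                gm (fun n => (y x : ℚ) * ((C x n : ℚ) * a x n)) := by
              have h8 : (((y x : ℤ) : KK L hL) : GG) = gm (fun _ => (y x : ℚ)) := by
                rw [SubringClass.coe_intCast]
                rfl
              rw [ha, Subfield.coe_mul, h8, ← gm_mul, ← gm_mul, hCD]
              ring
            rw [h7, gm_add]
            congr 1
            funext n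
            rw [Finset.sum_insert hx]
        exact h6 _
      refine (mul_eq_zero.1 h4).resolve_left (gm_ne_zero.2 ?_)
      filter_upwards [hD] with n hn
      exact_mod_cast hn
    have h4 := Pool.Agent.TH551.SU.SUI.sui s b hb hbi L hL (m + 1) u (fun i => ⟨a i, ha i, hSU i⟩)
      hne _ h3
    funext l
    have h5 := (mul_eq_zero.1 (h4 l)).resolve_right (hc _)
    exact_mod_cast h5
  -- the diagonal sequence
  obtain ⟨f, hf⟩ := exists_surjective_nat (Fin (m + 1) → ℤ)
  have hex : ∀ t : ℕ, ∃ n, t ≤ n ∧ Good b v0 (ε / 2) (2 * K') L C U e kI kv n ∧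
      ∀ q ≤ t, f q ≠ 0 → ∑ l : Fin (m + 1), f q l * (C l n * U n l) ≠ 0 := by
    intro t
    have h1 : ∀ᶠ n in (UU : Filter ℕ), ∀ q ∈ Finset.range (t + 1), f q ≠ 0 →
        ∑ l : Fin (m + 1), f q l * (C l n * U n l) ≠ 0 := by
      rw [Finset.eventually_all]
      intro q _
      by_cases h2 : f q = 0
      · exact Eventually.of_forall fun n h3 => absurd h2 h3
      · filter_upwards [hno _ h2] with n hn _ using hn
    have h2 : ∀ᶠ n in (UU : Filter ℕ), t ≤ n := ev_of_atTop (eventually_ge_atTop t)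
    obtain ⟨n, h3, h4, h5⟩ := (h2.and (hgood.and h1)).exists
    exact ⟨n, h3, h4, fun q hq => h5 q (Finset.mem_range_succ_iff.2 hq)⟩
  choose ν hν1 hν2 hν3 using hex
  obtain ⟨y, hy, hfr⟩ := apply_sst b hb hbi v0 L hL (ε / 2) (2 * K') hη (by positivity) C U e
    hUe hdv kI kv ν (tendsto_atTop_mono hν1 tendsto_id) hν2
  obtain ⟨q, rfl⟩ := hf y
  obtain ⟨t, h1, h2⟩ := (hfr.and_eventually (eventually_ge_atTop q)).exists
  exact hν3 t q h2 hy h1

end Pool.Agent.TH551.HA
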