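import Mathlib
import Pool.Agent.TH551.SU.Sui
import Pool.Agent.TH551.SU.CS
import Pool.Agent.TH551.SU.WT
import Pool.Agent.TH551.HA.SSUI
import Pool.Agent.TH551.HA.NC
import Pool.Agent.TH551.HA.HB
import Pool.Agent.TH551.HA.FW
import Pool.Agent.TH551.HA.HallMain

/-!
# Project HA: the inequality of Hall for sums of S-units, without hypotheses
-/

set_option autoImplicit false

namespace Pool.Agent.TH551.HA

open Pool.Agent.TH551.SU

theorem ncF : NcStmt := nc ssui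

theorem csF : CSStmt := CS.cs SUI.sui

theorem hbF : HbStmt := hbound ssui SUI.sui

theorem fwF : FwStmt := fw WT.wt

/-- the inequality with powers -/
theorem hallPow (p q k : ℕ) (hp : 1 ≤ p) (hq : 1 ≤ q) (Γ : Subgroup ℚˣ) (hΓ : Γ.FG) (ε : ℝ)
    (hε : 0 < ε) :
    ∃ K : ℝ, 0 < K ∧ ∀ M : ℝ, 1 ≤ M → ∀ (u : Fin k → Γ) (a c : Fin k → ℤ),
      (∀ j, |(a j : ℝ)| ≤ M) → (∀ j, |(c j : ℝ)| ≤ M) → ∀ x y : ℤ,
      (x : ℚ) = ∑ j, ((u j : ℚˣ) : ℚ) * a j → (y : ℚ) = ∑ j, ((u j : ℚˣ) : ℚ) * c j →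
      y ^ q ≠ x ^ p →
      (max (|(x : ℝ)| ^ p) (|(y : ℝ)| ^ q)) ^ (1 - 1 / (p : ℝ) - 1 / (q : ℝ) - ε) ≤
        (K * M) ^ K * |(y : ℝ) ^ q - (x : ℝ) ^ p| := by
  obtain ⟨m, rfl⟩ : ∃ m, p = m + 1 := ⟨p - 1, (Nat.sub_add_cancel hp).symm⟩
  obtain ⟨n, rfl⟩ : ∃ n, q = n + 1 := ⟨q - 1, (Nat.sub_add_cancel hq).symm⟩
  obtain ⟨C, hC⟩ := hall ncF csF hbF fwF m n k Γ hΓ ε hε
  refine ⟨max C 0 + Real.exp 1, by positivity, ?_⟩
  intro M hM u a c ha hc x y hx hy hne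
  have h := hC M hM u a c ha hc x y hx hy hne
  set K : ℝ := max C 0 + Real.exp 1 with hK
  set Z : ℝ := max (|(x : ℝ)| ^ (m + 1)) (|(y : ℝ)| ^ (n + 1)) with hZ
  set D : ℝ := |(y : ℝ) ^ (n + 1) - (x : ℝ) ^ (m + 1)| with hD
  have hD1 : 1 ≤ D := by
    have h1 : (1 : ℤ) ≤ |y ^ (n + 1) - x ^ (m + 1)| := Int.one_le_abs (sub_ne_zero.2 hne)
    have h2 : ((1 : ℤ) : ℝ) ≤ ((|y ^ (n + 1) - x ^ (m + 1)| : ℤ) : ℝ) := by exact_mod_cast h1
    push_cast at h2
    exact h2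
  have hZ0 : 0 < Z := by
    by_contra h0
    have h1 : |(x : ℝ)| ^ (m + 1) ≤ Z := le_max_left _ _
    have h2 : |(y : ℝ)| ^ (n + 1) ≤ Z := le_max_right _ _
    have h3 : |(x : ℝ)| ^ (m + 1) = 0 := le_antisymm (by linarith) (by positivity)
    have h4 : |(y : ℝ)| ^ (n + 1) = 0 := le_antisymm (by linarith) (by positivity)
    have h5 : x = 0 := by
      have := (pow_eq_zero_iff (Nat.succ_ne_zero m)).1 h3
      exact_mod_cast abs_eq_zero.1 this
    have h6 : y = 0 := by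
      have := (pow_eq_zero_iff (Nat.succ_ne_zero n)).1 h4
      exact_mod_cast abs_eq_zero.1 this
    exact hne (by rw [h5, h6, zero_pow (Nat.succ_ne_zero n), zero_pow (Nat.succ_ne_zero m)])
  have he1 : (1 : ℝ) < Real.exp 1 := by
    have := Real.add_one_lt_exp (show (1 : ℝ) ≠ 0 by norm_num)
    linarith
  have hKe : Real.exp 1 ≤ K := by rw [hK]; linarith [le_max_right C 0]
  have hKM : 0 < K * M := by
    have : 0 < K := by linarith
    positivity
  have hlogKM : 1 + Real.log M ≤ Real.log (K * M) := by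
    rw [Real.log_mul (by linarith) (by linarith)]
    have h1 : 1 ≤ Real.log K := by
      rw [← Real.log_exp 1]
      exact Real.log_le_log (Real.exp_pos _) hKe
    linarith
  have hlM : 0 ≤ 1 + Real.log M := by linarith [Real.log_nonneg hM]
  have h1 : C * (1 + Real.log M) ≤ K * Real.log (K * M) := by
    have h2 : C ≤ K := by rw [hK]; linarith [le_max_left C 0]
    have h3 : 0 ≤ K := by linarith
    calc C * (1 + Real.log M) ≤ K * (1 + Real.log M) := mul_le_mul_of_nonneg_right h2 hlM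
      _ ≤ K * Real.log (K * M) := mul_le_mul_of_nonneg_left hlogKM h3
  rw [Real.rpow_def_of_pos hZ0, Real.rpow_def_of_pos hKM]
  have h2 : D = Real.exp (Real.log D) := (Real.exp_log (by linarith)).symm
  rw [h2, ← Real.exp_add]
  refine Real.exp_le_exp.2 ?_
  push_cast at h ⊢
  linarith

end Pool.Agent.TH551.HA
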