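import Mathlib
import Pool.Agent.TH551.HA.Fin
import Pool.Agent.TH551.HA.AbcMain

/-!
# Project HA: the inequality of Mason and Stothers for sums of S-units, without hypotheses
-/

set_option autoImplicit false

namespace Pool.Agent.TH551.HA

open Pool.Agent.TH551.SU

/-- from logarithms to powers -/
lemma pow_form (C : ℝ) : ∃ K : ℝ, 0 < K ∧ ∀ M : ℝ, 1 ≤ M → ∀ Z D ε : ℝ, 1 ≤ Z → 1 ≤ D →
    (1 - ε) * Real.log Z ≤ C * (1 + Real.log M) + Real.log D →
    Z ^ (1 - ε) ≤ (K * M) ^ K * D := by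
  refine ⟨max C 0 + Real.exp 1, by positivity, ?_⟩
  intro M hM Z D ε hZ hD h
  set K : ℝ := max C 0 + Real.exp 1 with hK
  have he1 : (1 : ℝ) < Real.exp 1 := by
    have := Real.add_one_lt_exp (show (1 : ℝ) ≠ 0 by norm_num)
    linarith
  have hKe : Real.exp 1 ≤ K := by rw [hK]; linarith [le_max_right C 0]
  have hKM : 0 < K * M := by
    have : 0 < K := by linarith
    positivity
  have hlogKM : 1 + Real.log M ≤ Real.log (K * M) := by
    rw [Real.log_mul (by linarith) (by linarith)]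
    have h1 : 1 ≤ Real.log K := by
      rw [← Real.log_exp 1]
      exact Real.log_le_log (Real.exp_pos _) hKe
    linarith
  have hlM : 0 ≤ 1 + Real.log M := by linarith [Real.log_nonneg hM]
  have h1 : C * (1 + Real.log M) ≤ K * Real.log (K * M) := by
    have h2 : C ≤ K := by rw [hK]; linarith [le_max_left C 0]
    have h3 : 0 ≤ K := by linarith
    calc C * (1 + Real.log M) ≤ K * (1 + Real.log M) := mul_le_mul_of_nonneg_right h2 hlM
      _ ≤ K * Real.log (K * M) := mul_le_mul_of_nonneg_left hlogKM h3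
  rw [Real.rpow_def_of_pos (by linarith), Real.rpow_def_of_pos hKM]
  have h2 : D = Real.exp (Real.log D) := (Real.exp_log (by linarith)).symm
  rw [h2, ← Real.exp_add]
  refine Real.exp_le_exp.2 ?_
  linarith

/-- the inequality with powers -/
theorem abcPow (p k : ℕ) (τ : Fin p → Fin 3) (e : Fin p → ℕ) (he : ∀ i, 1 ≤ e i)
    (Γ : Subgroup ℚˣ) (hΓ : Γ.FG) (ε : ℝ) (hε : 0 < ε) :
    ∃ K : ℝ, 0 < K ∧ ∀ M : ℝ, 1 ≤ M → ∀ (u : Fin p → Fin k → Γ) (c : Fin p → Fin k → ℤ),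
      (∀ i j, |(c i j : ℝ)| ≤ M) → ∀ x : Fin p → ℤ,
      (∀ i, (x i : ℚ) = ∑ j, ((u i j : ℚˣ) : ℚ) * c i j) →
      ∀ w A : Fin 3 → ℤ, (∀ σ, ∃ g ∈ Γ, (w σ : ℚ) = (g : ℚ)) →
      (∀ σ, A σ = w σ * ∏ i with τ i = σ, x i ^ (e i)) → (∀ σ, A σ ≠ 0) →
      A 0 + A 1 + A 2 = 0 → (∀ σ σ', σ ≠ σ' → IsCoprime (A σ) (A σ')) →
      (max (max |(A 0 : ℝ)| |(A 1 : ℝ)|) |(A 2 : ℝ)|) ^ (1 - ε) ≤
        (K * M) ^ K * ∏ i, |(x i : ℝ)| := by
  obtain ⟨C, hC⟩ := abcMain ncF csF hbF fwF p k τ e he Γ hΓ ε hε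
  obtain ⟨K, hK0, hK⟩ := pow_form C
  refine ⟨K, hK0, ?_⟩
  intro M hM u c hc x hx w A hw hA hA0 hsum hcop
  have h := hC M hM u c hc x hx w A hw hA hA0 hsum hcop
  have hx0 : ∀ i, x i ≠ 0 := by
    intro i h0
    have h1 := hA0 (τ i)
    rw [hA] at h1
    apply h1
    have h2 : ∏ j with τ j = τ i, x j ^ (e j) = 0 :=
      Finset.prod_eq_zero (i := i) (Finset.mem_filter.2 ⟨Finset.mem_univ _, rfl⟩)
        (by rw [h0, zero_pow (by have := he i; omega)])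
    rw [h2, mul_zero]
  have hx1 : ∀ i, (1 : ℝ) ≤ |(x i : ℝ)| := fun i => by
    exact_mod_cast Int.one_le_abs (hx0 i)
  have hD : (1 : ℝ) ≤ ∏ i, |(x i : ℝ)| := by
    calc (1 : ℝ) = ∏ _i : Fin p, (1 : ℝ) := by simp
      _ ≤ _ := Finset.prod_le_prod (fun _ _ => zero_le_one) fun i _ => hx1 i
  refine hK M hM _ _ ε ?_ hD ?_
  · refine le_max_of_le_right ?_
    exact_mod_cast Int.one_le_abs (hA0 2)
  · rw [Real.log_prod (fun i _ => by have := hx1 i; linarith)]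
    exact h

end Pool.Agent.TH551.HA
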