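import Mathlib
import Pool.Agent.TH551.HA.Orb
import Pool.Agent.TH551.HA.Fin

/-!
# Project HA: sparse Campana points and orbifold curves
-/

set_option autoImplicit false
set_option linter.unusedSectionVars false
set_option linter.unusedVariables false

namespace Pool.Agent.TH551.HA

open Height

/-- The C-pair `(X, ∑ (1 - 1 / m i) D i)`, `X` the projective variety over `ℚ` with (prime,
homogeneous) ideal `I`, `D i` the intersection of `X` with the hypersurface `B i = 0`, is covered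
by orbifold `𝔾_m`-curves: over some extension field `L` of `ℚ` there is a nonconstant map `P` from
the line to `X`, given by polynomials without common root outside `0`, such that `P 1` is a
generic point of `X` over `ℚ`, and which meets each `D i`, outside `0` and `∞`, only with
multiplicities at least `m i` (not at all, if `m i = ∞`). -/
def OrbUniruled {n q : ℕ} (I : Ideal (MvPolynomial (Fin (n + 1)) ℚ))
    (B : Fin q → MvPolynomial (Fin (n + 1)) ℚ) (m : Fin q → ℕ∞) : Prop :=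
  ∃ (L : Type) (_ : Field L) (_ : Algebra ℚ L) (P : Fin (n + 1) → Polynomial L),
    (∀ F ∈ I, MvPolynomial.aeval P F = 0) ∧
    (∀ G : MvPolynomial (Fin (n + 1)) ℚ, (∃ e, G.IsHomogeneous e) → G ∉ I →
      MvPolynomial.aeval (fun i => (P i).eval 1) G ≠ 0) ∧
    (∃ i j, P i * Polynomial.C ((P j).eval 1) ≠ P j * Polynomial.C ((P i).eval 1)) ∧
    (∀ g : Polynomial L, Irreducible g → (∀ i, g ∣ P i) → g ∣ Polynomial.X) ∧
    ∀ i, MvPolynomial.aeval P (B i) ≠ 0 ∧
      ∀ g : Polynomial L, Irreducible g → ¬ g ∣ Polynomial.X →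
      g ∣ MvPolynomial.aeval P (B i) →
      ∀ N : ℕ, (N : ℕ∞) ≤ m i → g ^ N ∣ MvPolynomial.aeval P (B i)

lemma aeval_dvd {A : Type} [CommRing A] [Algebra ℚ A] {n e : ℕ}
    (F : MvPolynomial (Fin (n + 1)) ℚ) (hF : F.IsHomogeneous e) (he : 1 ≤ e)
    (P : Fin (n + 1) → A) (g : A) (hg : ∀ i, g ∣ P i) : g ∣ MvPolynomial.aeval P F := by
  rw [MvPolynomial.aeval_def, MvPolynomial.eval₂_eq']
  refine Finset.dvd_sum fun α hα => Dvd.dvd.mul_left ?_ _
  have h3 := hF (MvPolynomial.mem_support_iff.1 hα)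
  rw [Finsupp.weight_apply, Finsupp.sum_fintype _ _ (by simp)] at h3
  have h4 : ∑ i, α i = e := by simpa using h3
  obtain ⟨i, hi⟩ : ∃ i, α i ≠ 0 := by
    by_contra hno
    push Not at hno
    rw [Finset.sum_eq_zero fun i _ => hno i] at h4
    omega
  exact ((hg i).trans (dvd_pow_self _ hi)).trans
    (Finset.dvd_prod_of_mem (fun i => P i ^ (α i)) (Finset.mem_univ i))

/-- **Sparse Campana points are not dense, unless there are many orbifold curves.** -/
theorem campana (n q p k : ℕ)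
    (FF : Finset (MvPolynomial (Fin (n + 1)) ℚ)) (hhom : ∀ F ∈ FF, ∃ e, F.IsHomogeneous e)
    (hprime : (Ideal.span (FF : Set (MvPolynomial (Fin (n + 1)) ℚ))).IsPrime)
    (B : Fin q → MvPolynomial (Fin (n + 1)) ℚ)
    (hB : ∀ i, B i ∉ Ideal.span (FF : Set (MvPolynomial (Fin (n + 1)) ℚ)) ∧
      ∃ e, 1 ≤ e ∧ (B i).IsHomogeneous e)
    (m : Fin q → ℕ∞) (hm : ∃ i, m i = ⊤)
    (hnu : ¬ OrbUniruled (Ideal.span (FF : Set (MvPolynomial (Fin (n + 1)) ℚ))) B m)
    (τ : Fin p → Fin q) (e : Fin p → ℕ) (he : ∀ j, m (τ j) ≤ (e j : ℕ∞))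
    (Γ : Subgroup ℚˣ) (hΓ : Γ.FG) :
    ∃ (G : MvPolynomial (Fin (n + 1)) ℚ) (C : ℝ), (∃ e, G.IsHomogeneous e) ∧
      G ∉ Ideal.span (FF : Set (MvPolynomial (Fin (n + 1)) ℚ)) ∧
      ∀ M : ℝ, 1 ≤ M → ∀ (u : Fin (n + 1) → Fin k → Γ) (v : Fin p → Fin k → Γ)
        (a : Fin (n + 1) → Fin k → ℤ) (c : Fin p → Fin k → ℤ),
        (∀ i j, |(a i j : ℝ)| ≤ M) → (∀ i j, |(c i j : ℝ)| ≤ M) →
        ∀ (x : Fin (n + 1) → ℚ) (z : Fin p → ℚ) (w : Fin q → ℚ),
        (∀ i, x i = ∑ j, ((u i j : ℚˣ) : ℚ) * a i j) →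
        (∀ i, z i = ∑ j, ((v i j : ℚˣ) : ℚ) * c i j) →
        (∀ i, ∃ g ∈ Γ, w i = ((g : ℚˣ) : ℚ)) →
        (∀ F ∈ FF, MvPolynomial.aeval x F = 0) →
        (∀ i, MvPolynomial.aeval x (B i) = w i * ∏ j with τ j = i, z j ^ (e j)) →
        MvPolynomial.aeval x G ≠ 0 → logHeight x ≤ C * (1 + Real.log M) := by
  refine orbMain csF fwF n q p k FF hhom hprime B (fun i => ?_) m ?_ τ e he Γ hΓ
  · obtain ⟨e, _, h⟩ := (hB i).2
    exact ⟨e, h⟩
  · rintro ⟨L, hL1, hL2, P, h1, h2, h3, h4⟩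
    apply hnu
    have hB0 : ∀ i, MvPolynomial.aeval P (B i) ≠ 0 := by
      intro i h0
      obtain ⟨e, _, h⟩ := (hB i).2
      apply h2 (B i) ⟨e, h⟩ (hB i).1
      have h5 := congrArg (Polynomial.eval 1) h0
      rw [Polynomial.eval_zero, ← Polynomial.coe_evalRingHom, MvPolynomial.aeval_def,
        MvPolynomial.hom_eval₂] at h5
      rw [MvPolynomial.aeval_def, ← h5]
      congr 1
      exact Subsingleton.elim _ _
    refine ⟨L, hL1, hL2, P, h1, h2, h3, ?_, fun i => ⟨hB0 i, h4 i⟩⟩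
    intro g hg hgP
    by_contra hgX
    obtain ⟨i, hi⟩ := hm
    obtain ⟨e, he1, he2⟩ := (hB i).2
    have h5 : g ∣ MvPolynomial.aeval P (B i) := aeval_dvd (B i) he2 he1 P g hgP
    have h6 := h4 i g hg hgX h5 ((MvPolynomial.aeval P (B i)).natDegree + 1)
      (by rw [hi]; exact le_top)
    have h7 : 1 ≤ g.natDegree := hg.natDegree_pos
    have h8 := Polynomial.natDegree_le_of_dvd h6 (hB0 i)
    rw [Polynomial.natDegree_pow] at h8
    nlinarith

end Pool.Agent.TH551.HA
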