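import Mathlib

/-!
# Project HA: a Jacobian criterion

The lemmas `alg_of_basis` and `exists_der` are taken from `Pool.Agent.W602.GT.Der`.
-/

set_option autoImplicit false
set_option linter.unusedSectionVars false
set_option linter.unusedVariables false

namespace Pool.Agent.TH551.HA

open MvPolynomial

section ext

variable {L K : Type} [Field L] [Field K] [Algebra L K]

/-- the algebra structure given by a family of elements -/
theorem alg_of_basis {ι : Type} (t : ι → K) (ht : IsTranscendenceBasis L t) :
    letI : Algebra (MvPolynomial ι L) K :=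
      ((aeval t : MvPolynomial ι L →ₐ[L] K) : MvPolynomial ι L →+* K).toAlgebra
    Algebra.IsAlgebraic (MvPolynomial ι L) K := by
  let _ : Algebra (MvPolynomial ι L) K :=
    ((aeval t : MvPolynomial ι L →ₐ[L] K) : MvPolynomial ι L →+* K).toAlgebra
  have h1 := ht.isAlgebraic
  refine Algebra.IsAlgebraic.of_ringHom_of_comp_eq
    (f := (ht.1.aevalEquiv : MvPolynomial ι L ≃ₐ[L] Algebra.adjoin L (Set.range t)))
    (g := RingHom.id K) ?_ Function.injective_id ?_
  · exact ht.1.aevalEquiv.surjective
  · ext x
    · simp [RingHom.algebraMap_toAlgebra]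
    · simp [RingHom.algebraMap_toAlgebra]

variable [CharZero L]

/-- derivations can be prescribed on a transcendence basis -/
theorem exists_der {ι : Type} (t : ι → K) (ht : IsTranscendenceBasis L t) (c : ι → K) :
    ∃ D : Derivation L K K, ∀ i, D (t i) = c i := by
  have hinj : Function.Injective (aeval t : MvPolynomial ι L →ₐ[L] K) :=
    ht.1
  have halg := alg_of_basis t ht
  let _ : Algebra (MvPolynomial ι L) K :=
    ((aeval t : MvPolynomial ι L →ₐ[L] K) : MvPolynomial ι L →+* K).toAlgebra
  have hst : IsScalarTower L (MvPolynomial ι L) K := IsScalarTower.of_algebraMap_eq' (by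
    ext c
    simp [RingHom.algebraMap_toAlgebra])
  have hfs : FaithfulSMul (MvPolynomial ι L) K := (faithfulSMul_iff_algebraMap_injective _ _).2 hinj
  let _ : Algebra (FractionRing (MvPolynomial ι L)) K := FractionRing.liftAlgebra (MvPolynomial ι L) K
  have hst2 : IsScalarTower (MvPolynomial ι L) (FractionRing (MvPolynomial ι L)) K := inferInstance
  have halg2 : Algebra.IsAlgebraic (FractionRing (MvPolynomial ι L)) K :=
    (IsFractionRing.comap_isAlgebraic_iff (A := MvPolynomial ι L)
      (K := FractionRing (MvPolynomial ι L)) (C := K)).1 halg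
  have hchar : CharZero (FractionRing (MvPolynomial ι L)) := inferInstance
  have hsep : Algebra.IsSeparable (FractionRing (MvPolynomial ι L)) K := inferInstance
  have h1 : Algebra.FormallyEtale (FractionRing (MvPolynomial ι L)) K :=
    Algebra.FormallyEtale.of_isSeparable _ _
  have h2 : Algebra.FormallyEtale (MvPolynomial ι L) (FractionRing (MvPolynomial ι L)) :=
    Algebra.FormallyEtale.of_isLocalization (nonZeroDivisors (MvPolynomial ι L))
  have h3 : Algebra.FormallyEtale (MvPolynomial ι L) K :=
    Algebra.FormallyEtale.comp (MvPolynomial ι L) (FractionRing (MvPolynomial ι L)) K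
  let e := KaehlerDifferential.tensorKaehlerEquivOfFormallyEtale L (MvPolynomial ι L) K
  let d : Derivation L (MvPolynomial ι L) K := MvPolynomial.mkDerivation L c
  let l : Ω[MvPolynomial ι L⁄L] →ₗ[MvPolynomial ι L] K := d.liftKaehlerDifferential
  let Λ : Ω[K⁄L] →ₗ[K] K := (LinearMap.liftBaseChange K l).comp e.symm.toLinearMap
  let D : Derivation L K K := Λ.compDer (KaehlerDifferential.D L K)
  refine ⟨D, fun i => ?_⟩
  have h5 : t i = algebraMap (MvPolynomial ι L) K (X i) := by
    simp [RingHom.algebraMap_toAlgebra]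
  change Λ (KaehlerDifferential.D L K (t i)) = c i
  change LinearMap.liftBaseChange K l (e.symm (KaehlerDifferential.D L K (t i))) = c i
  rw [h5, KaehlerDifferential.tensorKaehlerEquivOfFormallyEtale_symm_D_algebraMap]
  simp [l, d]

end ext

/-- derivations of a field over the rational numbers -/
abbrev DerQ (K : Type) [Field K] [Algebra ℚ K] : Type := Derivation ℚ K K

section

variable {K : Type} [Field K] [Algebra ℚ K] {m : ℕ}

lemma der_mul (δ : DerQ K) (x y : K) : δ (x * y) = x * δ y + y * δ x := by
  rw [Derivation.leibniz, smul_eq_mul, smul_eq_mul]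

/-- derivations dual to independent elements -/
theorem exists_dual_der (y : Fin m → K) (hy : AlgebraicIndependent ℚ y) :
    ∃ δ : Fin m → DerQ K, ∀ i k, δ i (y k) = if i = k then 1 else 0 := by
  classical
  obtain ⟨t, ht1, ht2⟩ := exists_isTranscendenceBasis_superset (AlgebraicIndependent.coe_range hy)
  choose δ hδ using fun i : Fin m => exists_der (fun z : t => (z : K)) ht2
    (fun z => if (z : K) = y i then 1 else 0)
  refine ⟨δ, fun i k => ?_⟩
  have h1 := hδ i ⟨y k, ht1 ⟨k, rfl⟩⟩
  simp only at h1
  rw [h1]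
  by_cases h : i = k
  · subst h
    simp
  · rw [if_neg, if_neg h]
    intro h2
    exact h (hy.injective h2).symm

/-- quotients of generic elements are independent -/
theorem algInd_of_generic (A : Fin (m + 1) → K)
    (hgen : ∀ G : MvPolynomial (Fin (m + 1)) ℚ, (∃ e, G.IsHomogeneous e) → G ≠ 0 →
      MvPolynomial.aeval A G ≠ 0) :
    AlgebraicIndependent ℚ (fun k : Fin m => A k.succ / A 0) := by
  classical
  have hA0 : A 0 ≠ 0 := by
    have h := hgen (X 0) ⟨1, isHomogeneous_X _ _⟩ (X_ne_zero _)
    simpa using h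
  rw [algebraicIndependent_iff]
  intro p hp
  by_contra hp0
  set D := p.totalDegree with hD
  have hle : ∀ α ∈ p.support, ∑ k, α k ≤ D := by
    intro α hα
    have h1 := MvPolynomial.le_totalDegree hα
    rwa [Finsupp.sum_fintype _ _ (by simp)] at h1
  set G : MvPolynomial (Fin (m + 1)) ℚ := ∑ α ∈ p.support, C (coeff α p) *
    ((∏ k : Fin m, X k.succ ^ (α k)) * X 0 ^ (D - ∑ k, α k)) with hG
  have hGh : G.IsHomogeneous D := by
    refine IsHomogeneous.sum _ _ _ fun α hα => ?_
    have h1 : (C (coeff α p) * ((∏ k : Fin m, X k.succ ^ (α k)) *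
        X 0 ^ (D - ∑ k, α k)) : MvPolynomial (Fin (m + 1)) ℚ).IsHomogeneous
        (0 + ((∑ k, 1 * α k) + 1 * (D - ∑ k, α k))) :=
      (isHomogeneous_C _ _).mul ((IsHomogeneous.prod _ _ _ fun k _ =>
        (isHomogeneous_X _ _).pow _).mul ((isHomogeneous_X _ _).pow _))
    have h2 : 0 + ((∑ k, 1 * α k) + 1 * (D - ∑ k, α k)) = D := by
      have := hle α hα
      simp only [one_mul]
      omega
    rwa [h2] at h1
  have hG0 : G ≠ 0 := by
    intro h0
    apply hp0
    have h1 := congrArg (aeval (Fin.cons 1 X : Fin (m + 1) → MvPolynomial (Fin m) ℚ)) h0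
    rw [map_zero, hG, map_sum] at h1
    rw [← h1, p.as_sum]
    refine Finset.sum_congr (by rw [← p.as_sum]) fun α _ => ?_
    rw [← p.as_sum]
    simp only [map_mul, map_prod, map_pow, aeval_X, aeval_C, Fin.cons_succ, Fin.cons_zero,
      one_pow, mul_one]
    rw [MvPolynomial.monomial_eq, Finsupp.prod_fintype _ _ (by simp)]
    rfl
  refine hgen G ⟨D, hGh⟩ hG0 ?_
  rw [aeval_def, eval₂_eq'] at hp
  rw [hG, map_sum]
  have h1 : ∀ α ∈ p.support, aeval A (C (coeff α p) * ((∏ k : Fin m, X k.succ ^ (α k)) *
      X 0 ^ (D - ∑ k, α k))) = A 0 ^ D *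
      (algebraMap ℚ K (coeff α p) * ∏ k, (A k.succ / A 0) ^ (α k)) := by
    intro α hα
    simp only [map_mul, map_prod, map_pow, aeval_X, aeval_C, div_pow, Finset.prod_div_distrib,
      Finset.prod_pow_eq_pow_sum]
    have h2 : A 0 ^ D = A 0 ^ (∑ k, α k) * A 0 ^ (D - ∑ k, α k) := by
      rw [← pow_add]
      congr 1
      have := hle α hα
      omega
    rw [h2]
    have h3 : A 0 ^ (∑ k, α k) ≠ 0 := pow_ne_zero _ hA0
    field_simp
  rw [Finset.sum_congr rfl h1, ← Finset.mul_sum, hp, mul_zero]

/-- the Jacobian determinant -/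
theorem det_ne (A : Fin (m + 1) → K) (hA0 : A 0 ≠ 0) (δ : Fin m → DerQ K)
    (h : ∀ i k : Fin m, δ i (A k.succ / A 0) = if i = k then 1 else 0) :
    (Matrix.of fun i c : Fin (m + 1) =>
      (Fin.cases (A c) (fun i => δ i (A c)) i : K)).det ≠ 0 := by
  classical
  intro h0
  obtain ⟨v, hv, hM⟩ := Matrix.exists_mulVec_eq_zero_iff.2 h0
  have h1 : ∑ c, A c * v c = 0 := by
    have := congrFun hM 0
    simpa [Matrix.mulVec, dotProduct] using this
  have h2 : ∀ i : Fin m, ∑ c, δ i (A c) * v c = 0 := by
    intro i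
    have := congrFun hM i.succ
    simpa [Matrix.mulVec, dotProduct] using this
  rw [Fin.sum_univ_succ] at h1
  have hAk : ∀ k : Fin m, A k.succ = A k.succ / A 0 * A 0 := fun k => by field_simp
  have h3 : ∀ i k : Fin m, δ i (A k.succ) = A k.succ / A 0 * δ i (A 0) +
      A 0 * (if i = k then 1 else 0) := by
    intro i k
    conv_lhs => rw [hAk k]
    rw [Derivation.leibniz, h, smul_eq_mul, smul_eq_mul]
  have h4 : ∀ i : Fin m, v i.succ = 0 := by
    intro i
    have h5 := h2 i
    rw [Fin.sum_univ_succ] at h5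
    have h6 : ∑ k : Fin m, δ i (A k.succ) * v k.succ =
        δ i (A 0) / A 0 * (∑ k : Fin m, A k.succ * v k.succ) + A 0 * v i.succ := by
      rw [Finset.mul_sum]
      have h7 : ∀ k : Fin m, δ i (A k.succ) * v k.succ =
          δ i (A 0) / A 0 * (A k.succ * v k.succ) + (if i = k then A 0 * v k.succ else 0) := by
        intro k
        rw [h3]
        by_cases hik : i = k
        · rw [if_pos hik, if_pos hik]
          field_simp
        · rw [if_neg hik, if_neg hik]
          field_simp
          ring
      rw [Finset.sum_congr rfl fun k _ => h7 k, Finset.sum_add_distrib]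
      simp
    rw [h6] at h5
    have h8 : ∑ k : Fin m, A k.succ * v k.succ = -(A 0 * v 0) := by linear_combination h1
    rw [h8] at h5
    have h9 : A 0 * v i.succ = 0 := by
      have h10 : δ i (A 0) / A 0 * -(A 0 * v 0) = -(δ i (A 0) * v 0) := by field_simp
      rw [h10] at h5
      linear_combination h5
    exact (mul_eq_zero.1 h9).resolve_left hA0
  apply hv
  funext c
  refine Fin.cases ?_ (fun c => h4 c) c
  have h5 : ∑ k : Fin m, A k.succ * v k.succ = 0 :=
    Finset.sum_eq_zero fun k _ => by rw [h4 k, mul_zero]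
  rw [h5, add_zero] at h1
  exact (mul_eq_zero.1 h1).resolve_left hA0

/-- choice of rows -/
lemma det_pick {n : ℕ} {J : Type} [Fintype J] (V : Fin n → Fin n → K) (β : Fin n → J → K)
    (R : J → Fin n → K) (hV : ∀ i, V i = ∑ j, β i j • R j) (h : (Matrix.of V).det ≠ 0) :
    ∃ ρ : Fin n → J, (Matrix.of fun i => R (ρ i)).det ≠ 0 := by
  classical
  by_contra hno
  push Not at hno
  apply h
  have h1 : (Matrix.of V).det =
      (Matrix.detRowAlternating : (Fin n → K) [⋀^Fin n]→ₗ[K] K).toMultilinearMap
        (fun i => ∑ j, β i j • R j) := by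
    have : V = fun i => ∑ j, β i j • R j := funext hV
    rw [this]
    rfl
  rw [h1, MultilinearMap.map_sum]
  refine Finset.sum_eq_zero fun ρ _ => ?_
  rw [MultilinearMap.map_smul_univ]
  have h2 := hno ρ
  have h3 : (Matrix.detRowAlternating : (Fin n → K) [⋀^Fin n]→ₗ[K] K).toMultilinearMap
      (fun i => R (ρ i)) = 0 := h2
  rw [h3, smul_zero]

end

/-- finitely many functionals which detect a finite set -/
lemma exists_functionals {F V : Type*} [Field F] [AddCommGroup V] [Module F V] (S : Set V)
    (hS : S.Finite) : ∃ (q : ℕ) (β : Fin q → V) (ψ : Fin q → (V →ₗ[F] F)),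
      ∀ γ ∈ S, ∑ j, ψ j γ • β j = γ := by
  classical
  have hfin : FiniteDimensional F (Submodule.span F S) := FiniteDimensional.span_of_finite F hS
  let e := Module.finBasis F (Submodule.span F S)
  choose ψ hψ using fun j => LinearMap.exists_extend (e.coord j)
  refine ⟨_, fun j => (e j : V), ψ, fun γ hγ => ?_⟩
  have h1 : ∀ j, ψ j γ = e.repr ⟨γ, Submodule.subset_span hγ⟩ j := by
    intro j
    have h2 := LinearMap.congr_fun (hψ j) ⟨γ, Submodule.subset_span hγ⟩
    exact h2
  simp only [h1]
  have h3 := e.sum_repr ⟨γ, Submodule.subset_span hγ⟩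
  have h4 := congrArg (Submodule.subtype (Submodule.span F S)) h3
  rw [map_sum] at h4
  exact h4

end Pool.Agent.TH551.HA
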