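import Mathlib
import Pool.Agent.TH551.HA.Hall

/-!
# Project HA: Wronskians of several polynomials
-/

set_option autoImplicit false
set_option linter.unusedSectionVars false
set_option linter.unusedVariables false

namespace Pool.Agent.TH551.HA

open Pool.Agent.TH932.Germs Pool.Agent.TH551.SU

/-- a singular Wronskian matrix gives a linear dependence over the constants -/
theorem wronskian_dep {R A F : Type*} [CommRing R] [CommRing A] [IsDomain A] [Algebra R A]
    [Field F] (δ : Derivation R A A) (φ : F →+* A)
    (hprop : ∀ b : A, b ≠ 0 → ∀ a : A, a * δ b = b * δ a → ∃ x : F, a = φ x * b) :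
    ∀ (r : ℕ) (f : Fin r → A),
      (Matrix.of fun b l : Fin r => (δ^[(l : ℕ)]) (f b)).det = 0 →
      ∃ c : Fin r → F, c ≠ 0 ∧ ∑ b, φ (c b) * f b = 0 := by
  intro r
  induction r with
  | zero => intro f h; simp at h
  | succ r ih =>
    intro f h
    by_cases hW : (Matrix.of fun b l : Fin r => (δ^[(l : ℕ)]) (f b.succ)).det = 0
    · obtain ⟨c, hc, hs⟩ := ih (fun b => f b.succ) hW
      refine ⟨Fin.cons 0 c, ?_, ?_⟩
      · intro h0
        apply hc
        funext b
        have := congrFun h0 b.succ
        simpa using this
      · rw [Fin.sum_univ_succ]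
        simp [hs]
    · obtain ⟨a, ha, hM⟩ := Matrix.exists_vecMul_eq_zero_iff.2 h
      have hrel : ∀ l : ℕ, l < r + 1 → ∑ b, a b * (δ^[l]) (f b) = 0 := by
        intro l hl
        have := congrFun hM ⟨l, hl⟩
        simpa [Matrix.vecMul, dotProduct] using this
      have hker : ∀ u : Fin r → A, (∀ l : ℕ, l < r → ∑ b, u b * (δ^[l]) (f b.succ) = 0) →
          u = 0 := by
        intro u hu
        by_contra hne
        apply hW
        refine Matrix.exists_vecMul_eq_zero_iff.1 ⟨u, hne, ?_⟩
        funext l
        simpa [Matrix.vecMul, dotProduct] using hu l l.2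
      have ha0 : a 0 ≠ 0 := by
        intro h0
        have h1 : (fun b : Fin r => a b.succ) = 0 := by
          apply hker
          intro l hl
          have := hrel l (by omega)
          rw [Fin.sum_univ_succ, h0] at this
          simpa using this
        apply ha
        funext b
        refine Fin.cases h0 (fun b => ?_) b
        exact congrFun h1 b
      have hrel' : ∀ l : ℕ, l < r → ∑ b, δ (a b) * (δ^[l]) (f b) = 0 := by
        intro l hl
        have h1 := hrel l (by omega)
        have h2 := hrel (l + 1) (by omega)
        have h3 := congrArg δ h1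
        rw [map_sum, map_zero] at h3
        simp only [Derivation.leibniz, smul_eq_mul] at h3
        rw [Finset.sum_add_distrib] at h3
        simp only [Function.iterate_succ_apply'] at h2
        rw [h2, zero_add] at h3
        rw [← h3]
        exact Finset.sum_congr rfl fun b _ => mul_comm _ _
      have hu : (fun b : Fin r => a 0 * δ (a b.succ) - a b.succ * δ (a 0)) = 0 := by
        apply hker
        intro l hl
        have h1 := hrel l (by omega)
        have h2 := hrel' l hl
        rw [Fin.sum_univ_succ] at h1 h2
        have e : ∑ b : Fin r, (a 0 * δ (a b.succ) - a b.succ * δ (a 0)) * (δ^[l]) (f b.succ)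
            = a 0 * ∑ b : Fin r, δ (a b.succ) * (δ^[l]) (f b.succ)
              - δ (a 0) * ∑ b : Fin r, a b.succ * (δ^[l]) (f b.succ) := by
          rw [Finset.mul_sum, Finset.mul_sum, ← Finset.sum_sub_distrib]
          exact Finset.sum_congr rfl fun b _ => by ring
        rw [e]
        have e1 : ∑ b : Fin r, δ (a b.succ) * (δ^[l]) (f b.succ) =
            - (δ (a 0) * (δ^[l]) (f 0)) := by
          linear_combination h2
        have e2 : ∑ b : Fin r, a b.succ * (δ^[l]) (f b.succ) = - (a 0 * (δ^[l]) (f 0)) := by
          linear_combination h1
        rw [e1, e2]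
        ring
      have hx' : ∀ b : Fin r, ∃ x : F, a b.succ = φ x * a 0 := by
        intro b
        apply hprop (a 0) ha0
        have := congrFun hu b
        simp only [Pi.zero_apply] at this
        linear_combination -this
      choose x hx' using hx'
      refine ⟨Fin.cons 1 x, ?_, ?_⟩
      · intro h0
        have := congrFun h0 0
        simp at this
      · apply mul_left_cancel₀ ha0
        rw [mul_zero, Fin.sum_univ_succ]
        simp only [Fin.cons_zero, Fin.cons_succ, map_one, one_mul]
        have h1 := hrel 0 (by omega)
        simp only [Function.iterate_zero, id_eq] at h1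
        rw [Fin.sum_univ_succ] at h1
        have e : a 0 * ∑ b : Fin r, φ (x b) * f b.succ = ∑ b : Fin r, a b.succ * f b.succ := by
          rw [Finset.mul_sum]
          refine Finset.sum_congr rfl fun b _ => ?_
          have := hx' b
          linear_combination (-f b.succ) * this
        rw [mul_add, e]
        linear_combination h1

/-- the Euler derivation as a derivation -/
noncomputable def thD : Derivation GG (Polynomial GG) (Polynomial GG) :=
  (Polynomial.X : Polynomial GG) • Polynomial.derivative'

lemma thD_eq : (thD : Polynomial GG → Polynomial GG) = th := by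
  funext p
  simp [thD, th]

/-- polynomials with vanishing Wronskian are linearly dependent -/
theorem wr_dep (r : ℕ) (f : Fin r → Polynomial GG)
    (h : (Matrix.of fun b l : Fin r => (th^[(l : ℕ)]) (f b)).det = 0) :
    ∃ c : Fin r → GG, c ≠ 0 ∧ ∑ b, Polynomial.C (c b) * f b = 0 := by
  refine wronskian_dep thD (Polynomial.C : GG →+* Polynomial GG) ?_ r f ?_
  · intro b hb a h1
    refine prop_of_wr a b hb ?_
    rw [thD_eq] at h1
    unfold th at h1
    have h2 : Polynomial.X * (Polynomial.derivative a * b - a * Polynomial.derivative b) = 0 := by
      linear_combination -h1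
    exact sub_eq_zero.1 ((mul_eq_zero.1 h2).resolve_left Polynomial.X_ne_zero)
  · rw [thD_eq]
    exact h

end Pool.Agent.TH551.HA
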