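import Mathlib
import Pool.Agent.TH551.HA.Wr
import Pool.Agent.TH551.HA.Abc

/-!
# Project HA: Wronskians of lifts
-/

set_option autoImplicit false
set_option linter.unusedSectionVars false
set_option linter.unusedVariables false

namespace Pool.Agent.TH551.HA

open Filter Topology Pool.Agent.TH932.Germs Pool.Agent.TH551.SU Pool.Agent.TH551.ZP
open Pool.Agent.TH551.SU.CRV Pool.Agent.TH551.ZP.GT

variable {s : ℕ} {b : Fin s → ℕ} {L : ℕ → ℝ} {r : ℕ} {hL : Tendsto L atTop atTop}
  {U : Fin r → GG} {l : Fin r → ℕ} {d : ℕ}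

/-! ## sums of lifts of different degrees -/

/-- the polynomials obtained from all polynomials over the negligible field -/
def Sb (hL : Tendsto L atTop atTop) (U : Fin r → GG) (l : Fin r → ℕ) (p : Polynomial GG) : Prop :=
  ∃ P : MvPolynomial (Fin r) (KK L hL), psi hL U l P = p

lemma Lift.sb {e : ℕ} {p : Polynomial GG} (h : Lift hL U l e p) : Sb hL U l p := by
  obtain ⟨P, _, h⟩ := h
  exact ⟨P, h⟩

lemma Sb.add {p q : Polynomial GG} (hp : Sb hL U l p) (hq : Sb hL U l q) :
    Sb hL U l (p + q) := by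
  obtain ⟨P, rfl⟩ := hp
  obtain ⟨Q, rfl⟩ := hq
  exact ⟨P + Q, map_add _ _ _⟩

lemma Sb.mul {p q : Polynomial GG} (hp : Sb hL U l p) (hq : Sb hL U l q) :
    Sb hL U l (p * q) := by
  obtain ⟨P, rfl⟩ := hp
  obtain ⟨Q, rfl⟩ := hq
  exact ⟨P * Q, map_mul _ _ _⟩

lemma Sb.zero : Sb hL U l 0 := ⟨0, map_zero _⟩

lemma Sb.one : Sb hL U l 1 := ⟨1, map_one _⟩

lemma Sb.natCast (n : ℕ) : Sb hL U l (n : Polynomial GG) := ⟨n, map_natCast _ _⟩

lemma Sb.sum {ι : Type} (A : Finset ι) (p : ι → Polynomial GG)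
    (h : ∀ i ∈ A, Sb hL U l (p i)) : Sb hL U l (∑ i ∈ A, p i) := by
  classical
  induction A using Finset.induction_on with
  | empty => rw [Finset.sum_empty]; exact Sb.zero
  | insert a A ha ih =>
    rw [Finset.sum_insert ha]
    exact Sb.add (h a (Finset.mem_insert_self _ _))
      (ih fun i hi => h i (Finset.mem_insert_of_mem hi))

lemma Sb.prod {ι : Type} (A : Finset ι) (p : ι → Polynomial GG)
    (h : ∀ i ∈ A, Sb hL U l (p i)) : Sb hL U l (∏ i ∈ A, p i) := by
  classical
  induction A using Finset.induction_on with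
  | empty => rw [Finset.prod_empty]; exact Sb.one
  | insert a A ha ih =>
    rw [Finset.prod_insert ha]
    exact Sb.mul (h a (Finset.mem_insert_self _ _))
      (ih fun i hi => h i (Finset.mem_insert_of_mem hi))

lemma Sb.pow {p : Polynomial GG} (hp : Sb hL U l p) (k : ℕ) : Sb hL U l (p ^ k) := by
  obtain ⟨P, rfl⟩ := hp
  exact ⟨P ^ k, map_pow _ _ _⟩

lemma Sb.th {p : Polynomial GG} (hp : Sb hL U l p) : Sb hL U l (th p) := by
  classical
  obtain ⟨P, rfl⟩ := hp
  rw [P.as_sum, map_sum]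
  have h1 : ∀ A : Finset (Fin r →₀ ℕ), HA.th (∑ α ∈ A,
      psi hL U l (MvPolynomial.monomial α (MvPolynomial.coeff α P))) =
      ∑ α ∈ A, HA.th (psi hL U l (MvPolynomial.monomial α (MvPolynomial.coeff α P))) := by
    intro A
    induction A using Finset.induction_on with
    | empty => simp [HA.th]
    | insert a A ha ih => rw [Finset.sum_insert ha, Finset.sum_insert ha, th_add, ih]
  rw [h1]
  refine Sb.sum _ _ fun α _ => ?_
  have h2 : Lift hL U l α.degree (psi hL U l (MvPolynomial.monomial α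
      (MvPolynomial.coeff α P))) := ⟨_, MvPolynomial.isHomogeneous_monomial _ rfl, rfl⟩
  exact h2.th.sb

lemma Sb.qi (hb : ∀ v, (b v).Prime) (hs : Setup b hL U l d) {p : Polynomial GG}
    (hp : Sb hL U l p) : QI b L (p.eval 1) := by
  obtain ⟨P, rfl⟩ := hp
  rw [psi_eval]
  exact QI.sum hb hL _ _ fun α _ => QI.mul hb (QI.of_KK hb hL (MvPolynomial.coeff α P).2)
    (QI.of_GSU hb hL (hs.mono_gsu hb α))

/-! ## iterated derivatives -/

lemma th_sb_prod {ι : Type} (A : Finset ι) (e : ι → ℕ) (X : ι → Polynomial GG)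
    (hX : ∀ i ∈ A, Sb hL U l (X i)) (R : Polynomial GG) (hR : Sb hL U l R) :
    ∃ R', Sb hL U l R' ∧ th ((∏ i ∈ A, X i ^ (e i)) * R) =
      (∏ i ∈ A, X i ^ (e i - 1)) * R' := by
  classical
  induction A using Finset.induction_on with
  | empty => exact ⟨th R, hR.th, by simp⟩
  | insert a A ha ih =>
    obtain ⟨R', hR', h⟩ := ih (fun i hi => hX i (Finset.mem_insert_of_mem hi))
    have hXa := hX a (Finset.mem_insert_self _ _)
    rw [Finset.prod_insert ha, Finset.prod_insert ha, mul_assoc]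
    rcases Nat.eq_zero_or_pos (e a) with h0 | h0
    · refine ⟨R', hR', ?_⟩
      rw [h0, pow_zero, one_mul, h]
      simp
    · obtain ⟨k, hk⟩ : ∃ k, e a = k + 1 := ⟨e a - 1, (Nat.sub_add_cancel h0).symm⟩
      have h1 : (∏ i ∈ A, X i ^ (e i)) = (∏ i ∈ A, X i ^ (e i - 1)) *
          ∏ i ∈ A, X i ^ (e i - (e i - 1)) := by
        rw [← Finset.prod_mul_distrib]
        refine Finset.prod_congr rfl fun i _ => ?_
        rw [← pow_add]
        congr 1
        omega
      refine ⟨((k + 1 : ℕ) : Polynomial GG) * th (X a) *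
        ((∏ i ∈ A, X i ^ (e i - (e i - 1))) * R) + X a * R', ?_, ?_⟩
      · refine Sb.add (Sb.mul (Sb.mul (Sb.natCast _) hXa.th) (Sb.mul (Sb.prod _ _ fun i hi =>
          (hX i (Finset.mem_insert_of_mem hi)).pow _) hR)) (Sb.mul hXa hR')
      · rw [th_mul, hk, th_pow, h, h1, Nat.add_sub_cancel]
        ring

lemma th_iter_prod {ι : Type} (A : Finset ι) (e : ι → ℕ) (X : ι → Polynomial GG)
    (hX : ∀ i ∈ A, Sb hL U l (X i)) (R : Polynomial GG) (hR : Sb hL U l R) (k : ℕ) :
    ∃ R', Sb hL U l R' ∧ (th^[k]) ((∏ i ∈ A, X i ^ (e i)) * R) =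
      (∏ i ∈ A, X i ^ (e i - k)) * R' := by
  induction k with
  | zero => exact ⟨R, hR, by simp⟩
  | succ k ih =>
    obtain ⟨R', hR', h⟩ := ih
    obtain ⟨R2, hR2, h2⟩ := th_sb_prod A (fun i => e i - k) X hX R' hR'
    refine ⟨R2, hR2, ?_⟩
    rw [Function.iterate_succ_apply', h, h2]
    simp only [Nat.sub_sub]

lemma th_iter_coeff (p : Polynomial GG) (k n : ℕ) :
    ((th^[k]) p).coeff n = (n : GG) ^ k * p.coeff n := by
  induction k with
  | zero => simp
  | succ k ih =>
    rw [Function.iterate_succ_apply', th_coeff, ih]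
    ring

lemma th_zero : th 0 = 0 := by simp [th]

lemma th_C_mul (c : GG) (p : Polynomial GG) : th (Polynomial.C c * p) = Polynomial.C c * th p := by
  unfold th
  rw [Polynomial.derivative_C_mul]
  ring

lemma th_iter_zero (k : ℕ) : (th^[k]) 0 = 0 := by
  induction k with
  | zero => rfl
  | succ k ih => rw [Function.iterate_succ_apply', ih, th_zero]

lemma th_iter_add (p q : Polynomial GG) (k : ℕ) :
    (th^[k]) (p + q) = (th^[k]) p + (th^[k]) q := by
  induction k with
  | zero => rfl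
  | succ k ih => rw [Function.iterate_succ_apply', Function.iterate_succ_apply',
      Function.iterate_succ_apply', ih, th_add]

lemma th_iter_C_mul (c : GG) (p : Polynomial GG) (k : ℕ) :
    (th^[k]) (Polynomial.C c * p) = Polynomial.C c * (th^[k]) p := by
  induction k with
  | zero => rfl
  | succ k ih => rw [Function.iterate_succ_apply', Function.iterate_succ_apply', ih, th_C_mul]

lemma th_iter_sum {ι : Type} (A : Finset ι) (p : ι → Polynomial GG) (k : ℕ) :
    (th^[k]) (∑ i ∈ A, p i) = ∑ i ∈ A, (th^[k]) (p i) := by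
  classical
  induction A using Finset.induction_on with
  | empty => simp [th_iter_zero]
  | insert a A ha ih => rw [Finset.sum_insert ha, Finset.sum_insert ha, th_iter_add, ih]

lemma Lift.th_iter {e : ℕ} {p : Polynomial GG} (hp : Lift hL U l e p) (k : ℕ) :
    Lift hL U l e ((HA.th^[k]) p) := by
  induction k with
  | zero => exact hp
  | succ k ih => rw [Function.iterate_succ_apply']; exact ih.th

lemma Lift.th_iter_dom (hnc : NcStmt) (hb : ∀ v, (b v).Prime) (hbi : Function.Injective b)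
    (hs : Setup b hL U l d) {e : ℕ} (he : e ≤ d) {p : Polynomial GG} (hp : Lift hL U l e p)
    (v : Option (Fin s)) (k : ℕ) : Dom b L v (((HA.th^[k]) p).eval 1) (p.eval 1) := by
  rw [eval_one_eq ((HA.th^[k]) p) (((HA.th^[k]) p).natDegree + 1) (Nat.lt_succ_self _)]
  refine Dom.sum hb hL _ _ _ fun n _ => ?_
  rw [th_iter_coeff]
  refine Dom.smul hb hbi hL ?_ (hp.dom hnc hb hbi hs he v n)
  exact pow_mem (natCast_mem _ n) k

lemma Dom.prod (hb : ∀ v, (b v).Prime) (hL : Tendsto L atTop atTop) {v : Option (Fin s)}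
    {ι : Type} (A : Finset ι) (f g : ι → GG) (h : ∀ i ∈ A, Dom b L v (f i) (g i)) :
    Dom b L v (∏ i ∈ A, f i) (∏ i ∈ A, g i) := by
  classical
  induction A using Finset.induction_on with
  | empty => rw [Finset.prod_empty, Finset.prod_empty]; exact Dom.refl hb hL v 1
  | insert a A ha ih =>
    rw [Finset.prod_insert ha, Finset.prod_insert ha]
    exact Dom.mul hb (h a (Finset.mem_insert_self _ _))
      (ih fun i hi => h i (Finset.mem_insert_of_mem hi))

/-! ## the Wronskian of some of the lifts, at 1 -/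

/-- the Wronskian at 1 of the polynomials `a (g 0), a (g 1), …` -/
noncomputable def WD {N m : ℕ} (a : Fin N → Polynomial GG) (g : Fin m → Fin N) : GG :=
  (Matrix.of fun c i : Fin m => (((th^[(i : ℕ)]) (a (g c))).eval 1)).det

lemma WD_dom (hnc : NcStmt) (hb : ∀ v, (b v).Prime) (hbi : Function.Injective b)
    (hs : Setup b hL U l d) {N m e : ℕ} (he : e ≤ d) (a : Fin N → Polynomial GG)
    (haL : ∀ σ, Lift hL U l e (a σ)) (g : Fin m → Fin N) (v : Option (Fin s)) :
    Dom b L v (WD a g) (∏ c, (a (g c)).eval 1) := by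
  unfold WD
  rw [Matrix.det_apply']
  refine Dom.sum hb hL _ _ _ fun σ _ => ?_
  refine Dom.smul hb hbi hL (intCast_mem _ _) ?_
  have h1 : ∏ c, (a (g c)).eval 1 = ∏ i, (a (g (σ i))).eval 1 :=
    (Equiv.prod_comp σ (fun c => (a (g c)).eval 1)).symm
  rw [h1]
  exact Dom.prod hb hL _ _ _ fun i _ => (haL (g (σ i))).th_iter_dom hnc hb hbi hs he v i

lemma WD_qi (hb : ∀ v, (b v).Prime) (hL : Tendsto L atTop atTop) {N m : ℕ}
    (a : Fin N → Polynomial GG) (g : Fin m → Fin N) (Q : Fin N → GG)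
    (hQ : ∀ c : Fin m, ∀ k < m, ∃ ω, QI b L ω ∧ ((th^[k]) (a (g c))).eval 1 = Q (g c) * ω) :
    ∃ ω, QI b L ω ∧ WD a g = (∏ c, Q (g c)) * ω := by
  have hQ' : ∀ c i : Fin m, ∃ ω, QI b L ω ∧
      ((th^[(i : ℕ)]) (a (g c))).eval 1 = Q (g c) * ω := fun c i => hQ c i i.2
  choose ω hω h using hQ'
  refine ⟨(Matrix.of ω).det, ?_, ?_⟩
  · rw [Matrix.det_apply']
    refine QI.sum hb hL _ _ fun σ _ => ?_
    exact QI.mul hb (QI.of_KK hb hL (intCast_mem _ _)) (QI.prod hb hL _ _ fun i _ => hω _ _)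
  · unfold WD
    simp only [h]
    exact Matrix.det_mul_column (fun c => Q (g c)) (Matrix.of ω)

lemma WD_ne (hcs : CSStmt) (hb : ∀ v, (b v).Prime) (hbi : Function.Injective b)
    (hs : Setup b hL U l d) {N m e : ℕ} (he : m * e ≤ d) (he' : e ≤ d)
    (a : Fin N → Polynomial GG)
    (haL : ∀ σ, Lift hL U l e (a σ)) (g : Fin m → Fin N) (h0 : WD a g = 0) :
    ∃ c : Fin m → GG, (∀ i, c i ∈ KK L hL) ∧ c ≠ 0 ∧
      ∑ i, c i * (a (g i)).eval 1 = 0 := by
  classical
  set D : Polynomial GG := (Matrix.of fun c i : Fin m => (th^[(i : ℕ)]) (a (g c))).det with hD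
  have hD1 : D.eval 1 = WD a g := by
    rw [hD, ← Polynomial.coe_evalRingHom, RingHom.map_det]
    unfold WD
    congr 1
  have hDL : Lift hL U l (m * e) D := by
    rw [hD, Matrix.det_apply']
    refine Lift.sum _ _ _ fun σ _ => ?_
    have h1 : Lift hL U l (∑ _i : Fin m, e) (∏ i, (Matrix.of fun c i : Fin m =>
        (th^[(i : ℕ)]) (a (g c))) (σ i) i) :=
      Lift.prod _ _ _ fun i _ => (haL (g (σ i))).th_iter i
    rw [Finset.sum_const, Finset.card_univ, Fintype.card_fin, smul_eq_mul] at h1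
    have h2 : (((Equiv.Perm.sign σ : ℤˣ) : ℤ) : Polynomial GG) =
        Polynomial.C (((Equiv.Perm.sign σ : ℤˣ) : ℤ) : GG) := by simp
    rw [h2]
    exact h1.smul (intCast_mem _ _)
  have hD0 : D = 0 := hDL.eq_zero hcs hb hbi hs he (by rw [hD1, h0])
  obtain ⟨c, hc0, hc⟩ := wr_dep m (fun i => a (g i)) hD0
  obtain ⟨i0, hi0⟩ := Function.ne_iff.1 hc0
  simp only [Pi.zero_apply] at hi0
  obtain ⟨φ, hφ⟩ : ∃ φ : Module.Dual (KK L hL) GG, φ (c i0) ≠ 0 := by
    by_contra hno
    push Not at hno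
    exact hi0 ((Module.forall_dual_apply_eq_zero_iff (KK L hL) (c i0)).1 hno)
  refine ⟨fun i => ((φ (c i) : KK L hL) : GG), fun i => (φ (c i)).2, ?_, ?_⟩
  · intro h
    apply hφ
    have := congrFun h i0
    simpa using this
  · have key : ∀ k : ℕ, ∑ i, ((φ (c i) : KK L hL) : GG) * (a (g i)).coeff k = 0 := by
      intro k
      by_cases hall : ∀ i, (a (g i)).coeff k = 0
      · exact Finset.sum_eq_zero fun i _ => by rw [hall i, mul_zero]
      push Not at hall
      obtain ⟨i1, hi1⟩ := hall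
      have hq : ∀ i, (a (g i)).coeff k / (a (g i1)).coeff k ∈ KK L hL := fun i =>
        Lift.coeff_div hb hs he' (haL _) (haL _) k hi1
      have h1 : ∑ i, c i * ((a (g i)).coeff k / (a (g i1)).coeff k) = 0 := by
        have h2 := congrArg (fun p => p.coeff k) hc
        simp only [Polynomial.finsetSum_coeff, Polynomial.coeff_C_mul, Polynomial.coeff_zero] at h2
        simp only [← mul_div_assoc]
        rw [← Finset.sum_div, h2, zero_div]
      have h3 : ∑ i, (⟨_, hq i⟩ : KK L hL) • c i = 0 := by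
        rw [← h1]
        refine Finset.sum_congr rfl fun i _ => ?_
        rw [Subfield.smul_def, smul_eq_mul, mul_comm]
      have h4 := congrArg φ h3
      rw [map_sum, map_zero] at h4
      simp only [map_smul, smul_eq_mul] at h4
      have h5 := congrArg (fun x : KK L hL => (x : GG)) h4
      simp only [ZeroMemClass.coe_zero] at h5
      rw [AddSubmonoidClass.coe_finsetSum] at h5
      simp only [MulMemClass.coe_mul] at h5
      have h6 : ∑ i, ((φ (c i) : KK L hL) : GG) * (a (g i)).coeff k =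
          (∑ i, (a (g i)).coeff k / (a (g i1)).coeff k * ((φ (c i) : KK L hL) : GG)) *
            (a (g i1)).coeff k := by
        rw [Finset.sum_mul]
        refine Finset.sum_congr rfl fun i _ => ?_
        field_simp
      rw [h6, h5, zero_mul]
    have h1 : ∑ i, Polynomial.C ((φ (c i) : KK L hL) : GG) * a (g i) = 0 := by
      ext k
      rw [Polynomial.finsetSum_coeff, Polynomial.coeff_zero]
      simp only [Polynomial.coeff_C_mul]
      exact key k
    have h2 := congrArg (Polynomial.eval 1) h1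
    rw [Polynomial.eval_finsetSum, Polynomial.eval_zero] at h2
    simpa using h2

/-- exchanging one of the functions -/
lemma WD_update {N m : ℕ} (a : Fin N → Polynomial GG) (g : Fin m → Fin N) (j0 : Fin N)
    (κ : Fin m → GG) (κ0 : GG)
    (hrel : ∀ i : Fin m, κ0 * ((th^[(i : ℕ)]) (a j0)).eval 1 +
      ∑ c, κ c * ((th^[(i : ℕ)]) (a (g c))).eval 1 = 0) (c : Fin m) :
    WD a g * κ c = -κ0 * WD a (Function.update g c j0) := by
  classical
  set M : Matrix (Fin m) (Fin m) GG :=
    Matrix.of fun c i : Fin m => (((th^[(i : ℕ)]) (a (g c))).eval 1) with hM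
  set row : Fin m → GG := fun i => ((th^[(i : ℕ)]) (a j0)).eval 1 with hrow
  have h1 : M.transpose.mulVec κ = (-κ0) • row := by
    funext i
    have h2 := hrel i
    simp only [Matrix.mulVec, dotProduct, Matrix.transpose_apply, hM, Matrix.of_apply,
      Pi.smul_apply, smul_eq_mul, hrow]
    have h3 : ∑ c, ((th^[(i : ℕ)]) (a (g c))).eval 1 * κ c =
        ∑ c, κ c * ((th^[(i : ℕ)]) (a (g c))).eval 1 :=
      Finset.sum_congr rfl fun c _ => mul_comm _ _
    rw [h3]
    linear_combination h2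
  have h2 : M.transpose.cramer (M.transpose.mulVec κ) = M.det • κ := by
    rw [Matrix.cramer_eq_adjugate_mulVec, Matrix.mulVec_mulVec, Matrix.adjugate_mul,
      Matrix.det_transpose, Matrix.smul_mulVec, Matrix.one_mulVec]
  have h3 := congrFun h2 c
  rw [h1, Matrix.cramer_transpose_apply, Matrix.det_updateRow_smul, Pi.smul_apply,
    smul_eq_mul] at h3
  have h4 : (M.updateRow c row).det = WD a (Function.update g c j0) := by
    unfold WD
    congr 1
    ext c' i
    rw [Matrix.updateRow_apply, Matrix.of_apply]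
    by_cases h : c' = c
    · subst h
      rw [if_pos rfl, Function.update_self]
    · rw [if_neg h, Function.update_of_ne h, hM, Matrix.of_apply]
  rw [h4] at h3
  exact h3.symm

end Pool.Agent.TH551.HA
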