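import Mathlib
import Pool.Agent.TH551.HA.NT1

/-!
# Project HA: circuits
-/

set_option autoImplicit false
set_option linter.unusedSectionVars false
set_option linter.unusedVariables false

namespace Pool.Agent.TH551.HA

open Filter Topology Pool.Agent.TH932.Germs Pool.Agent.TH551.SU Pool.Agent.TH551.ZP
open Pool.Agent.TH551.SU.CRV Pool.Agent.TH551.ZP.GT

variable {s : ℕ} {b : Fin s → ℕ} {L : ℕ → ℝ} {r : ℕ} {hL : Tendsto L atTop atTop}
  {U : Fin r → GG} {l : Fin r → ℕ} {d : ℕ}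

/-- a minimal relation which is not contained in a given set -/
lemma exists_circuit {K V : Type*} [Field K] [AddCommGroup V] [Module K V] {N : ℕ}
    (v : Fin N → V) (T0 T : Finset (Fin N)) (h0 : ∑ i ∈ T0, v i = 0)
    (hTT : T ⊆ T0) (h1 : ∑ i ∈ T, v i ≠ 0) :
    ∃ κ : Fin N → K, (∀ i, κ i ≠ 0 → i ∈ T0) ∧ ∑ i, κ i • v i = 0 ∧
      ∑ i ∈ T, κ i • v i ≠ 0 ∧
      ∀ lam : Fin N → K, ∑ i, lam i • v i = 0 → (∀ i, κ i = 0 → lam i = 0) →
        (∃ i, κ i ≠ 0 ∧ lam i = 0) → lam = 0 := by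
  classical
  set P : (Fin N → K) → Prop := fun κ => (∀ i, κ i ≠ 0 → i ∈ T0) ∧ ∑ i, κ i • v i = 0 ∧
      ∑ i ∈ T, κ i • v i ≠ 0 with hP
  set cd : (Fin N → K) → ℕ := fun κ => (Finset.univ.filter (fun i => κ i ≠ 0)).card with hcd
  have hex : ∃ n, ∃ κ, P κ ∧ cd κ = n := by
    refine ⟨_, fun i => if i ∈ T0 then 1 else 0, ⟨?_, ?_, ?_⟩, rfl⟩
    · intro i hi
      by_contra hno
      exact hi (if_neg hno)
    · simp only [ite_smul, one_smul, zero_smul]
      rw [Finset.sum_ite_mem, Finset.univ_inter]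
      exact h0
    · have h2 : ∑ i ∈ T, (if i ∈ T0 then (1 : K) else 0) • v i = ∑ i ∈ T, v i :=
        Finset.sum_congr rfl fun i hi => by rw [if_pos (hTT hi), one_smul]
      rw [h2]
      exact h1
  obtain ⟨κ, hκ, hκc⟩ := Nat.find_spec hex
  have hmin : ∀ κ', P κ' → cd κ ≤ cd κ' := fun κ' hκ' => by
    rw [hκc]
    exact Nat.find_min' hex ⟨κ', hκ', rfl⟩
  have hlt : ∀ (κ' : Fin N → K), P κ' → (∀ i, κ i = 0 → κ' i = 0) →
      (∃ i, κ i ≠ 0 ∧ κ' i = 0) → False := by
    intro κ' h2 h3 h4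
    have h5 := hmin κ' h2
    obtain ⟨i, hi1, hi2⟩ := h4
    have h6 : cd κ' < cd κ := by
      refine Finset.card_lt_card ?_
      rw [Finset.ssubset_iff_of_subset]
      · exact ⟨i, Finset.mem_filter.2 ⟨Finset.mem_univ _, hi1⟩, fun h7 =>
          (Finset.mem_filter.1 h7).2 hi2⟩
      · intro j hj
        rw [Finset.mem_filter] at hj ⊢
        exact ⟨hj.1, fun h7 => hj.2 (h3 j h7)⟩
    omega
  refine ⟨κ, hκ.1, hκ.2.1, hκ.2.2, ?_⟩
  intro lam hl1 hl2 hl3
  by_contra hlam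
  by_cases hT : ∑ i ∈ T, lam i • v i = 0
  · obtain ⟨i0, hi0⟩ := Function.ne_iff.1 hlam
    simp only [Pi.zero_apply] at hi0
    have hκ0 : κ i0 ≠ 0 := fun h => hi0 (hl2 i0 h)
    refine hlt (fun i => κ i - κ i0 / lam i0 * lam i) ⟨?_, ?_, ?_⟩ ?_ ⟨i0, hκ0, ?_⟩
    · intro i hi
      refine hκ.1 i fun h => hi ?_
      show κ i - κ i0 / lam i0 * lam i = 0
      rw [h, hl2 i h]
      ring
    · have h2 : ∑ i, (κ i - κ i0 / lam i0 * lam i) • v i =
          ∑ i, κ i • v i - (κ i0 / lam i0) • ∑ i, lam i • v i := by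
        rw [Finset.smul_sum, ← Finset.sum_sub_distrib]
        refine Finset.sum_congr rfl fun i _ => ?_
        rw [sub_smul, mul_smul]
      rw [h2, hκ.2.1, hl1, smul_zero, sub_zero]
    · have h2 : ∑ i ∈ T, (κ i - κ i0 / lam i0 * lam i) • v i =
          ∑ i ∈ T, κ i • v i - (κ i0 / lam i0) • ∑ i ∈ T, lam i • v i := by
        rw [Finset.smul_sum, ← Finset.sum_sub_distrib]
        refine Finset.sum_congr rfl fun i _ => ?_
        rw [sub_smul, mul_smul]
      rw [h2, hT, smul_zero, sub_zero]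
      exact hκ.2.2
    · intro i h
      show κ i - κ i0 / lam i0 * lam i = 0
      rw [h, hl2 i h]
      ring
    · field_simp
      ring
  · refine hlt lam ⟨?_, hl1, hT⟩ hl2 hl3
    intro i hi
    exact hκ.1 i fun h => hi (hl2 i h)

lemma prod_enum {N m : ℕ} (J : Finset (Fin N)) (h : J.card = m) {M : Type*} [CommMonoid M]
    (f : Fin N → M) : ∏ c, f (J.orderEmbOfFin h c) = ∏ σ ∈ J, f σ := by
  conv_rhs => rw [← Finset.map_orderEmbOfFin_univ J h, Finset.prod_map]
  rfl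

lemma prod_enum_update {N m : ℕ} (J : Finset (Fin N)) (j0 : Fin N) (hj0 : j0 ∈ J)
    (h : (J.erase j0).card = m) {M : Type*} [CommMonoid M] (f : Fin N → M) (c : Fin m) :
    ∏ c', f (Function.update (fun c => (J.erase j0).orderEmbOfFin h c) c j0 c') =
      ∏ σ ∈ J.erase ((J.erase j0).orderEmbOfFin h c), f σ := by
  classical
  set g : Fin m ↪o Fin N := (J.erase j0).orderEmbOfFin h with hg
  have hgc : g c ∈ J.erase j0 := Finset.orderEmbOfFin_mem _ h c
  have hne : g c ≠ j0 := (Finset.mem_erase.1 hgc).1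
  have h1 : ∏ c', f (Function.update (fun c => g c) c j0 c') =
      f j0 * ∏ c' ∈ Finset.univ.erase c, f (g c') := by
    rw [← Finset.mul_prod_erase _ _ (Finset.mem_univ c), Function.update_self]
    congr 1
    refine Finset.prod_congr rfl fun c' hc' => ?_
    rw [Function.update_of_ne (Finset.mem_erase.1 hc').1]
  have h2 : J.erase (g c) = insert j0 ((J.erase j0).erase (g c)) := by
    ext σ
    simp only [Finset.mem_erase, Finset.mem_insert]
    constructor
    · rintro ⟨h3, h4⟩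
      by_cases h5 : σ = j0
      · exact Or.inl h5
      · exact Or.inr ⟨h3, h5, h4⟩
    · rintro (rfl | ⟨h3, h4, h5⟩)
      · exact ⟨fun h6 => hne h6.symm, hj0⟩
      · exact ⟨h3, h5⟩
  have h3 : j0 ∉ (J.erase j0).erase (g c) := fun h4 =>
    (Finset.mem_erase.1 (Finset.mem_erase.1 h4).2).1 rfl
  rw [h1, h2, Finset.prod_insert h3]
  congr 1
  have h4 : (J.erase j0).erase (g c) = (Finset.univ.erase c).map g.toEmbedding := by
    rw [Finset.map_erase, hg, Finset.map_orderEmbOfFin_univ]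
    rfl
  rw [h4, Finset.prod_map]
  rfl

/-- the Wronskian of a circuit -/
theorem circuit (hnc : NcStmt) (hcs : CSStmt) (hb : ∀ v, (b v).Prime)
    (hbi : Function.Injective b) (hs : Setup b hL U l d) {N e m : ℕ} (hd : m * e ≤ d)
    (hd' : e ≤ d) (a : Fin N → Polynomial GG) (haL : ∀ σ, Lift hL U l e (a σ))
    (κ : Fin N → KK L hL) (hrel : ∑ σ, (κ σ : GG) * (a σ).eval 1 = 0)
    (hmin : ∀ lam : Fin N → KK L hL, ∑ σ, (lam σ : GG) * (a σ).eval 1 = 0 →
      (∀ σ, κ σ = 0 → lam σ = 0) → (∃ σ, κ σ ≠ 0 ∧ lam σ = 0) → lam = 0)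
    (J : Finset (Fin N)) (hJ : ∀ σ, σ ∈ J ↔ κ σ ≠ 0) (hm : J.card = m + 1) (Q : Fin N → GG)
    (hQ : ∀ σ, ∀ k < m, ∃ ω, QI b L ω ∧ ((th^[k]) (a σ)).eval 1 = Q σ * ω) :
    ∃ W : GG, W ≠ 0 ∧ ∀ j ∈ J, (∀ v, Dom b L v W (∏ σ ∈ J.erase j, (a σ).eval 1)) ∧
      ∃ ω, QI b L ω ∧ W = (∏ σ ∈ J.erase j, Q σ) * ω := by
  classical
  obtain ⟨j0, hj0⟩ : J.Nonempty := by
    rw [← Finset.card_pos, hm]
    omega
  have hcard : (J.erase j0).card = m := by
    rw [Finset.card_erase_of_mem hj0, hm]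
    rfl
  set g : Fin m ↪o Fin N := (J.erase j0).orderEmbOfFin hcard with hg
  have hgm : ∀ c, g c ∈ J.erase j0 := fun c => Finset.orderEmbOfFin_mem _ hcard c
  have hgs : ∀ σ ∈ J.erase j0, ∃ c, g c = σ := by
    intro σ hσ
    rw [← Finset.map_orderEmbOfFin_univ (J.erase j0) hcard, Finset.mem_map] at hσ
    obtain ⟨c, _, hc⟩ := hσ
    exact ⟨c, hc⟩
  have hprod : ∀ f : Fin N → GG, ∏ c, f (g c) = ∏ σ ∈ J.erase j0, f σ := fun f =>
    prod_enum (J.erase j0) hcard f
  have hW0 : WD a (fun c => g c) ≠ 0 := by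
    intro h0
    obtain ⟨c, hcK, hc0, hc⟩ := WD_ne hcs hb hbi hs hd hd' a haL (fun c => g c) h0
    set lam : Fin N → KK L hL := fun σ => if h : ∃ i, g i = σ then ⟨c h.choose, hcK _⟩ else 0
      with hlam
    have hlg : ∀ i, ((lam (g i) : KK L hL) : GG) = c i := by
      intro i
      have h : ∃ i', g i' = g i := ⟨i, rfl⟩
      simp only [hlam]
      rw [dif_pos h]
      have h2 := g.injective h.choose_spec
      simp only [h2]
    have hln : ∀ σ, (¬ ∃ i, g i = σ) → lam σ = 0 := fun σ h => by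
      simp only [hlam]
      rw [dif_neg h]
    have h1 : lam = 0 := by
      refine hmin lam ?_ ?_ ?_
      · rw [← hc]
        have h2 : ∑ σ, (lam σ : GG) * (a σ).eval 1 =
            ∑ σ ∈ Finset.univ.map g.toEmbedding, (lam σ : GG) * (a σ).eval 1 := by
          symm
          refine Finset.sum_subset (Finset.subset_univ _) fun σ _ hσ => ?_
          rw [hln σ (fun ⟨i, hi⟩ => hσ (Finset.mem_map.2 ⟨i, Finset.mem_univ _, hi⟩))]
          simp
        rw [h2, Finset.sum_map]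
        refine Finset.sum_congr rfl fun i _ => ?_
        have h3 := hlg i
        simp only [RelEmbedding.coe_toEmbedding] at h3 ⊢
        rw [h3]
      · intro σ hσ
        refine hln σ fun ⟨i, hi⟩ => ?_
        have h2 := (Finset.mem_erase.1 (hgm i)).2
        rw [hi] at h2
        exact (hJ σ).1 h2 hσ
      · refine ⟨j0, (hJ j0).1 hj0, hln j0 fun ⟨i, hi⟩ => ?_⟩
        exact (Finset.mem_erase.1 (hgm i)).1 hi
    apply hc0
    funext i
    rw [← hlg i, h1]
    simp
  -- the relation for the derivatives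
  have hpoly : ∑ σ, Polynomial.C ((κ σ : KK L hL) : GG) * a σ = 0 := by
    have h1 : Lift hL U l e (∑ σ, Polynomial.C ((κ σ : KK L hL) : GG) * a σ) :=
      Lift.sum _ _ _ fun σ _ => (haL σ).smul (κ σ).2
    refine h1.eq_zero hcs hb hbi hs hd' ?_
    rw [Polynomial.eval_finsetSum, ← hrel]
    simp
  have hrow : ∀ k : ℕ, ∑ σ, ((κ σ : KK L hL) : GG) * ((th^[k]) (a σ)).eval 1 = 0 := by
    intro k
    have h1 := congrArg (fun p => ((th^[k]) p).eval 1) hpoly
    simp only [th_iter_zero, Polynomial.eval_zero] at h1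
    rw [th_iter_sum, Polynomial.eval_finsetSum] at h1
    rw [← h1]
    refine Finset.sum_congr rfl fun σ _ => ?_
    rw [th_iter_C_mul, Polynomial.eval_mul, Polynomial.eval_C]
  have hrow' : ∀ k : ℕ, ((κ j0 : KK L hL) : GG) * ((th^[k]) (a j0)).eval 1 +
      ∑ c, ((κ (g c) : KK L hL) : GG) * ((th^[k]) (a (g c))).eval 1 = 0 := by
    intro k
    have h1 : ∑ σ, ((κ σ : KK L hL) : GG) * ((th^[k]) (a σ)).eval 1 =
        ∑ σ ∈ J, ((κ σ : KK L hL) : GG) * ((th^[k]) (a σ)).eval 1 := by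
      symm
      refine Finset.sum_subset (Finset.subset_univ _) fun σ _ hσ => ?_
      have h2 : κ σ = 0 := by
        by_contra h3
        exact hσ ((hJ σ).2 h3)
      rw [h2]
      simp
    have h2 := hrow k
    rw [h1, ← Finset.add_sum_erase _ _ hj0] at h2
    rw [← h2]
    congr 1
    conv_rhs => rw [← Finset.map_orderEmbOfFin_univ (J.erase j0) hcard, Finset.sum_map]
    rfl
  refine ⟨WD a (fun c => g c), hW0, ?_⟩
  intro j hj
  by_cases hjj : j = j0
  · subst hjj
    constructor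
    · intro v
      have h1 := WD_dom hnc hb hbi hs hd' a haL (fun c => g c) v
      rwa [hprod (fun σ => (a σ).eval 1)] at h1
    · obtain ⟨ω, hω, h1⟩ := WD_qi hb hL a (fun c => g c) Q (fun c k hk => hQ _ k hk)
      exact ⟨ω, hω, by rw [h1, hprod Q]⟩
  · obtain ⟨c, hc⟩ := hgs j (Finset.mem_erase.2 ⟨hjj, hj⟩)
    have hup := WD_update a (fun c => g c) j0 (fun c => ((κ (g c) : KK L hL) : GG))
      ((κ j0 : KK L hL) : GG) (fun i => hrow' i) c
    have hκj : ((κ (g c) : KK L hL) : GG) ≠ 0 := by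
      rw [hc]
      have := (hJ j).1 hj
      intro h
      exact this (Subtype.ext h)
    have hWeq : WD a (fun c => g c) = (-((κ j0 : KK L hL) : GG) / ((κ (g c) : KK L hL) : GG)) *
        WD a (Function.update (fun c => g c) c j0) := by
      field_simp
      rw [hup]
      ring
    have hKc : -((κ j0 : KK L hL) : GG) / ((κ (g c) : KK L hL) : GG) ∈ KK L hL :=
      div_mem (neg_mem (κ j0).2) (κ (g c)).2
    have hpu : ∀ f : Fin N → GG, ∏ c', f (Function.update (fun c => g c) c j0 c') =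
        ∏ σ ∈ J.erase j, f σ := by
      intro f
      rw [← hc]
      exact prod_enum_update J j0 hj0 hcard f c
    constructor
    · intro v
      rw [hWeq]
      refine Dom.smul hb hbi hL hKc ?_
      have h1 := WD_dom hnc hb hbi hs hd' a haL (Function.update (fun c => g c) c j0) v
      rwa [hpu (fun σ => (a σ).eval 1)] at h1
    · obtain ⟨ω, hω, h1⟩ := WD_qi hb hL a (Function.update (fun c => g c) c j0) Q
        (fun c' k hk => hQ _ k hk)
      refine ⟨(-((κ j0 : KK L hL) : GG) / ((κ (g c) : KK L hL) : GG)) * ω,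
        QI.mul hb (QI.of_KK hb hL hKc) hω, ?_⟩
      rw [hWeq, h1, hpu Q]
      ring

/-- Bezout -/
lemma exists_gcd_comb {ι : Type*} (J : Finset ι) (f : ι → ℤ) :
    ∃ c : ι → ℤ, ∑ j ∈ J, c j * f j = J.gcd f := by
  classical
  induction J using Finset.induction_on with
  | empty => exact ⟨0, by simp⟩
  | insert a J ha ih =>
    obtain ⟨c, hc⟩ := ih
    rw [Finset.gcd_insert]
    refine ⟨fun j => if j = a then Int.gcdA (f a) (J.gcd f) else
      Int.gcdB (f a) (J.gcd f) * c j, ?_⟩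
    rw [Finset.sum_insert ha]
    beta_reduce
    rw [if_pos rfl]
    have h1 : ∑ j ∈ J, (if j = a then Int.gcdA (f a) (J.gcd f) else
        Int.gcdB (f a) (J.gcd f) * c j) * f j = Int.gcdB (f a) (J.gcd f) * ∑ j ∈ J, c j * f j := by
      rw [Finset.mul_sum]
      refine Finset.sum_congr rfl fun j hj => ?_
      have h2 : j ≠ a := fun h => ha (by rw [← h]; exact hj)
      rw [if_neg h2, mul_assoc]
    rw [hc] at h1
    rw [h1, ← Int.coe_gcd, Int.gcd_eq_gcd_ab]
    ring

end Pool.Agent.TH551.HA
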