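import Mathlib
import Pool.Agent.TH551.HA.NT2

/-!
# Project HA: the inequality for a circuit
-/

set_option autoImplicit false
set_option linter.unusedSectionVars false
set_option linter.unusedVariables false

namespace Pool.Agent.TH551.HA

open Filter Topology Pool.Agent.TH932.Germs Pool.Agent.TH551.SU Pool.Agent.TH551.ZP
open Pool.Agent.TH551.SU.CRV Pool.Agent.TH551.ZP.GT

variable {s : ℕ} {b : Fin s → ℕ} {L : ℕ → ℝ} {r : ℕ} {hL : Tendsto L atTop atTop}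
  {U : Fin r → GG} {l : Fin r → ℕ} {d : ℕ}

lemma IntS.sum {ι : Type} (A : Finset ι) (f : ι → ℚ) (h : ∀ i ∈ A, IntS b (f i)) :
    IntS b (∑ i ∈ A, f i) := by
  classical
  induction A using Finset.induction_on with
  | empty => rw [Finset.sum_empty]; simpa using IntS.int b 0
  | insert a A ha ih =>
    rw [Finset.sum_insert ha]
    exact IntS.add (h a (Finset.mem_insert_self _ _))
      (ih fun i hi => h i (Finset.mem_insert_of_mem hi))

/-- the common multiple -/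
lemma qi_lcm (hb : ∀ v, (b v).Prime) (hL : Tendsto L atTop atTop) {N : ℕ} (W : GG)
    (J : Finset (Fin N)) (P A : Fin N → ℕ → ℤ) (hP0 : ∀ σ t, P σ t ≠ 0)
    (hPA : ∀ σ t, P σ t ∣ A σ t) (ω : Fin N → GG)
    (hω : ∀ j ∈ J, QI b L (ω j) ∧ W = (∏ σ ∈ J.erase j, gm (fun t => (P σ t : ℚ))) * ω j) :
    QI b L (W * gm (fun t => ((J.gcd (fun σ => A σ t) : ℤ) : ℚ)) /
      gm (fun t => ((∏ σ ∈ J, P σ t : ℤ) : ℚ))) := by
  classical
  have hN : ∀ j, ∃ Nj : ℕ → ℤ, Negl L Nj ∧ (∀ᶠ n in (UU : Filter ℕ), Nj n ≠ 0) ∧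
      (j ∈ J → ∀ᶠ n in (UU : Filter ℕ), IntS b ((Nj n : ℚ) * rep (ω j) n)) := by
    intro j
    by_cases hj : j ∈ J
    · obtain ⟨Nj, h1, h2, h3⟩ := (hω j hj).1
      exact ⟨Nj, h1, h2, fun _ => h3⟩
    · exact ⟨fun _ => 1, Negl.one hL, by simp, fun h => absurd h hj⟩
  choose Nf hNf hNf0 hNfi using hN
  refine ⟨fun t => ∏ j, Nf j t, Pool.Agent.TH551.SU.SUI.Negl.prod hL _ fun j _ => hNf j, ?_, ?_⟩
  · filter_upwards [eventually_all.2 hNf0] with t ht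
    exact Finset.prod_ne_zero_iff.2 fun j _ => ht j
  · have hrep : ∀ᶠ t in (UU : Filter ℕ), rep (W *
        gm (fun t => ((J.gcd (fun σ => A σ t) : ℤ) : ℚ)) /
        gm (fun t => ((∏ σ ∈ J, P σ t : ℤ) : ℚ))) t =
        rep W t * ((J.gcd (fun σ => A σ t) : ℤ) : ℚ) / ((∏ σ ∈ J, P σ t : ℤ) : ℚ) := by
      have h1 := rep_gm (fun t => rep W t * ((J.gcd (fun σ => A σ t) : ℤ) : ℚ) /
        ((∏ σ ∈ J, P σ t : ℤ) : ℚ))
      rw [← gm_div, ← gm_mul, gm_rep] at h1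
      exact h1
    have hWr : ∀ j, j ∈ J → ∀ᶠ t in (UU : Filter ℕ), rep W t =
        ((∏ σ ∈ J.erase j, P σ t : ℤ) : ℚ) * rep (ω j) t := by
      intro j hj
      have h1 := rep_mul (∏ σ ∈ J.erase j, gm (fun t => (P σ t : ℚ))) (ω j)
      rw [← (hω j hj).2] at h1
      have h2 := rep_gm (fun t => ∏ σ ∈ J.erase j, (P σ t : ℚ))
      rw [← gm_prod'] at h2
      filter_upwards [h1, h2] with t h3 h4
      rw [h3, h4]
      push_cast
      rfl
    have hall : ∀ᶠ t in (UU : Filter ℕ), ∀ j, j ∈ J →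
        (rep W t = ((∏ σ ∈ J.erase j, P σ t : ℤ) : ℚ) * rep (ω j) t ∧
          IntS b ((Nf j t : ℚ) * rep (ω j) t)) := by
      refine eventually_all.2 fun j => ?_
      by_cases hj : j ∈ J
      · filter_upwards [hWr j hj, hNfi j hj] with t h1 h2 _
        exact ⟨h1, h2⟩
      · exact Eventually.of_forall fun t h => absurd h hj
    filter_upwards [hrep, hall] with t h1 h2
    rw [h1]
    -- Bezout
    have hg : (J.gcd (fun σ => P σ t)) ∣ J.gcd (fun σ => A σ t) :=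
      Finset.dvd_gcd fun σ hσ => (Finset.gcd_dvd hσ).trans (hPA σ t)
    obtain ⟨q, hq⟩ := hg
    obtain ⟨c, hc⟩ := exists_gcd_comb J (fun σ => P σ t)
    have hG : ((J.gcd (fun σ => A σ t) : ℤ) : ℚ) = ∑ j ∈ J, (q * c j : ℤ) * (P j t : ℚ) := by
      rw [hq, ← hc, mul_comm, Finset.mul_sum]
      push_cast
      refine Finset.sum_congr rfl fun j _ => ?_
      ring
    have hPi : ((∏ σ ∈ J, P σ t : ℤ) : ℚ) ≠ 0 := by
      exact_mod_cast Finset.prod_ne_zero_iff.2 fun σ _ => hP0 σ t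
    have hfin : ((∏ j, Nf j t : ℤ) : ℚ) * (rep W t * ((J.gcd (fun σ => A σ t) : ℤ) : ℚ) /
        ((∏ σ ∈ J, P σ t : ℤ) : ℚ)) = ∑ j ∈ J, (((∏ i ∈ Finset.univ.erase j, Nf i t) *
          (q * c j) : ℤ) : ℚ) * ((Nf j t : ℚ) * rep (ω j) t) := by
      rw [hG, Finset.mul_sum, Finset.sum_div, Finset.mul_sum]
      refine Finset.sum_congr rfl fun j hj => ?_
      have h3 := (h2 j hj).1
      have h4 : ((∏ σ ∈ J, P σ t : ℤ) : ℚ) = (P j t : ℚ) *
          ((∏ σ ∈ J.erase j, P σ t : ℤ) : ℚ) := by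
        rw [← Finset.mul_prod_erase _ _ hj]
        push_cast
        rfl
      have h5 : ((∏ j, Nf j t : ℤ) : ℚ) = (Nf j t : ℚ) *
          ((∏ i ∈ Finset.univ.erase j, Nf i t : ℤ) : ℚ) := by
        rw [← Finset.mul_prod_erase _ _ (Finset.mem_univ j)]
        push_cast
        rfl
      have h6 : (P j t : ℚ) ≠ 0 := by exact_mod_cast hP0 j t
      have h7 : ((∏ σ ∈ J.erase j, P σ t : ℤ) : ℚ) ≠ 0 := by
        exact_mod_cast Finset.prod_ne_zero_iff.2 fun σ _ => hP0 σ t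
      rw [h3, h4, h5, Int.cast_mul ((∏ i ∈ Finset.univ.erase j, Nf i t)) (q * c j)]
      field_simp
    rw [hfin]
    exact IntS.sum _ _ fun j hj => IntS.mul (IntS.int b _) (h2 j hj).2

lemma av_gcd_le (hb : ∀ v, (b v).Prime) (v : Fin s) {N : ℕ} (J : Finset (Fin N))
    (hJ : J.Nonempty) (A : Fin N → ℤ) :
    ∃ j ∈ J, av b (some v) ((J.gcd A : ℤ) : ℚ) ≤ av b (some v) (A j : ℚ) := by
  have := Fact.mk (hb v)
  obtain ⟨j, hj, hmax⟩ := Finset.exists_max_image J (fun j => padicNorm (b v) (A j : ℚ)) hJ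
  refine ⟨j, hj, ?_⟩
  simp only [av]
  obtain ⟨c, hc⟩ := exists_gcd_comb J A
  have h1 : ((J.gcd A : ℤ) : ℚ) = ∑ i ∈ J, (c i : ℚ) * (A i : ℚ) := by
    rw [← hc]
    push_cast
    rfl
  rw [h1]
  have h2 : padicNorm (b v) (∑ i ∈ J, (c i : ℚ) * (A i : ℚ)) ≤ padicNorm (b v) (A j : ℚ) := by
    refine padicNorm.sum_le hJ fun i hi => ?_
    rw [padicNorm.mul]
    have h3 := padicNorm.of_int (p := b v) (c i)
    have h4 : 0 ≤ padicNorm (b v) (A i : ℚ) := padicNorm.nonneg _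
    calc padicNorm (b v) (c i : ℚ) * padicNorm (b v) (A i : ℚ) ≤
        1 * padicNorm (b v) (A i : ℚ) := mul_le_mul_of_nonneg_right h3 h4
      _ ≤ _ := by rw [one_mul]; exact hmax i hi
  exact_mod_cast h2

/-- the places together -/
lemma placesJ (hb : ∀ v, (b v).Prime) {N : ℕ} (J : Finset (Fin N)) (hJ : J.Nonempty)
    (A : Fin N → ℤ) (hA0 : ∀ σ, A σ ≠ 0) (Pi : ℤ) (W ω : ℚ) (L ε1 : ℝ)
    (hup : ∀ v, ∀ j ∈ J, av b v W * av b v (A j : ℚ) ≤
      Real.exp (ε1 * L) * ∏ σ ∈ J, av b v (A σ : ℚ))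
    (hW : W * ((J.gcd A : ℤ) : ℚ) = (Pi : ℚ) * ω)
    (hω : Real.exp (-(ε1 * L)) ≤ ∏ v, av b v ω) (j : Fin N) (hj : j ∈ J) :
    |(A j : ℝ)| * ∏ v, av b v (Pi : ℚ) ≤ Real.exp (((s : ℝ) + 2) * ε1 * L) *
      (|((J.gcd A : ℤ) : ℝ)| * ∏ v, ∏ σ ∈ J, av b v (A σ : ℚ)) := by
  have hfin : ∀ v : Fin s, av b (some v) W * av b (some v) ((J.gcd A : ℤ) : ℚ) ≤
      Real.exp (ε1 * L) * ∏ σ ∈ J, av b (some v) (A σ : ℚ) := by
    intro v
    obtain ⟨i, hi, h1⟩ := av_gcd_le hb v J hJ A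
    exact (mul_le_mul_of_nonneg_left h1 (av_nonneg hb _ _)).trans (hup (some v) i hi)
  have h1 : (av b none W * av b none (A j : ℚ)) *
      ∏ v : Fin s, (av b (some v) W * av b (some v) ((J.gcd A : ℤ) : ℚ)) ≤
      (Real.exp (ε1 * L) * ∏ σ ∈ J, av b none (A σ : ℚ)) *
      ∏ v : Fin s, (Real.exp (ε1 * L) * ∏ σ ∈ J, av b (some v) (A σ : ℚ)) := by
    refine mul_le_mul (hup none j hj) (Finset.prod_le_prod (fun v _ =>
      mul_nonneg (av_nonneg hb _ _) (av_nonneg hb _ _)) fun v _ => hfin v)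
      (Finset.prod_nonneg fun v _ => mul_nonneg (av_nonneg hb _ _) (av_nonneg hb _ _)) ?_
    exact mul_nonneg (Real.exp_pos _).le (Finset.prod_nonneg fun _ _ => av_nonneg hb _ _)
  have h2 : (Real.exp (ε1 * L) * ∏ σ ∈ J, av b none (A σ : ℚ)) *
      ∏ v : Fin s, (Real.exp (ε1 * L) * ∏ σ ∈ J, av b (some v) (A σ : ℚ)) =
      Real.exp (((s : ℝ) + 1) * (ε1 * L)) * ∏ v, ∏ σ ∈ J, av b v (A σ : ℚ) := by
    rw [Finset.prod_mul_distrib, Finset.prod_const, Finset.card_univ, Fintype.card_fin,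
      Fintype.prod_option, ← Real.exp_nat_mul]
    have h3 : ((s : ℝ) + 1) * (ε1 * L) = ε1 * L + (s : ℝ) * (ε1 * L) := by ring
    rw [h3, Real.exp_add]
    ring
  rw [h2, Finset.prod_mul_distrib] at h1
  -- the equation for `W`
  have h3 : (∏ v, av b v W) * ∏ v, av b v ((J.gcd A : ℤ) : ℚ) =
      (∏ v, av b v (Pi : ℚ)) * ∏ v, av b v ω := by
    rw [← Finset.prod_mul_distrib, ← Finset.prod_mul_distrib]
    refine Finset.prod_congr rfl fun v _ => ?_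
    rw [← av_mul hb, hW, av_mul hb]
  have h4 : |(A j : ℝ)| = av b none (A j : ℚ) := by
    simp only [av]
    push_cast
    rfl
  have h5 : |((J.gcd A : ℤ) : ℝ)| = av b none ((J.gcd A : ℤ) : ℚ) := by
    simp only [av]
    push_cast
    rfl
  rw [h4, h5]
  rw [Fintype.prod_option (f := fun v => av b v W),
    Fintype.prod_option (f := fun v => av b v ((J.gcd A : ℤ) : ℚ))] at h3
  set a0 := av b none (A j : ℚ) with ha0
  set g0 := av b none ((J.gcd A : ℤ) : ℚ) with hg0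
  set w0 := av b none W with hw0
  set w1 := ∏ v : Fin s, av b (some v) W with hw1
  set g1 := ∏ v : Fin s, av b (some v) ((J.gcd A : ℤ) : ℚ) with hg1
  set PP := ∏ v, av b v (Pi : ℚ) with hPP
  set OO := ∏ v, av b v ω with hOO
  set AA := ∏ v, ∏ σ ∈ J, av b v (A σ : ℚ) with hAA
  have n1 : 0 ≤ a0 := av_nonneg hb _ _
  have n2 : 0 ≤ g0 := av_nonneg hb _ _
  have n3 : 0 ≤ PP := Finset.prod_nonneg fun v _ => av_nonneg hb _ _
  have n4 : 0 ≤ AA := Finset.prod_nonneg fun v _ => Finset.prod_nonneg fun _ _ => av_nonneg hb _ _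
  have h6 : a0 * PP * Real.exp (-(ε1 * L)) ≤ g0 * (Real.exp (((s : ℝ) + 1) * (ε1 * L)) * AA) := by
    calc a0 * PP * Real.exp (-(ε1 * L)) ≤ a0 * PP * OO :=
          mul_le_mul_of_nonneg_left hω (mul_nonneg n1 n3)
      _ = g0 * (w0 * a0 * (w1 * g1)) := by
          have h7 : a0 * PP * OO = a0 * (PP * OO) := by ring
          rw [h7, ← h3]
          ring
      _ ≤ _ := mul_le_mul_of_nonneg_left h1 n2
  have h7 : Real.exp (((s : ℝ) + 2) * ε1 * L) =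
      Real.exp (ε1 * L) * Real.exp (((s : ℝ) + 1) * (ε1 * L)) := by
    rw [← Real.exp_add]
    congr 1
    ring
  have h8 : Real.exp (ε1 * L) * Real.exp (-(ε1 * L)) = 1 := by
    rw [← Real.exp_add]
    simp
  calc a0 * PP = Real.exp (ε1 * L) * (a0 * PP * Real.exp (-(ε1 * L))) := by
        have h9 : Real.exp (ε1 * L) * (a0 * PP * Real.exp (-(ε1 * L))) =
          (Real.exp (ε1 * L) * Real.exp (-(ε1 * L))) * (a0 * PP) := by ring
        rw [h9, h8, one_mul]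
    _ ≤ Real.exp (ε1 * L) * (g0 * (Real.exp (((s : ℝ) + 1) * (ε1 * L)) * AA)) :=
        mul_le_mul_of_nonneg_left h6 (Real.exp_pos _).le
    _ = _ := by
        rw [h7]
        ring

/-- **the inequality for a circuit** -/
theorem circuitIneq (hnc : NcStmt) (hcs : CSStmt) (hb : ∀ v, (b v).Prime)
    (hbi : Function.Injective b) (hs : Setup b hL U l d) {N e m : ℕ} (hd : m * e ≤ d)
    (hd' : e ≤ d) (a : Fin N → Polynomial GG) (haL : ∀ σ, Lift hL U l e (a σ))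
    (A : Fin N → ℕ → ℤ) (ha1 : ∀ σ, (a σ).eval 1 = gm (fun t => (A σ t : ℚ)))
    (hA0 : ∀ σ t, A σ t ≠ 0)
    (κ : Fin N → KK L hL) (hrel : ∑ σ, (κ σ : GG) * (a σ).eval 1 = 0)
    (hmin : ∀ lam : Fin N → KK L hL, ∑ σ, (lam σ : GG) * (a σ).eval 1 = 0 →
      (∀ σ, κ σ = 0 → lam σ = 0) → (∃ σ, κ σ ≠ 0 ∧ lam σ = 0) → lam = 0)
    (J : Finset (Fin N)) (hJ : ∀ σ, σ ∈ J ↔ κ σ ≠ 0) (hm : J.card = m + 1)
    (P : Fin N → ℕ → ℤ) (hP0 : ∀ σ t, P σ t ≠ 0) (hPA : ∀ σ t, P σ t ∣ A σ t)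
    (hQ : ∀ σ, ∀ k < m, ∃ ω, QI b L ω ∧
      ((th^[k]) (a σ)).eval 1 = gm (fun t => (P σ t : ℚ)) * ω)
    (ε : ℝ) (hε : 0 < ε) :
    ∀ᶠ t in (UU : Filter ℕ), ∀ j ∈ J, |(A j t : ℝ)| * ∏ v, av b v ((∏ σ ∈ J, P σ t : ℤ) : ℚ) ≤
      Real.exp (ε * L t) * (|((J.gcd (fun σ => A σ t) : ℤ) : ℝ)| *
        ∏ v, ∏ σ ∈ J, av b v (A σ t : ℚ)) := by
  classical
  obtain ⟨W, hW0, hW⟩ := circuit hnc hcs hb hbi hs hd hd' a haL κ hrel hmin J hJ hm
    (fun σ => gm (fun t => (P σ t : ℚ))) hQ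
  have hJne : J.Nonempty := by
    rw [← Finset.card_pos, hm]
    omega
  have hω : ∀ j, ∃ ω : GG, j ∈ J → QI b L ω ∧
      W = (∏ σ ∈ J.erase j, gm (fun t => (P σ t : ℚ))) * ω := by
    intro j
    by_cases hj : j ∈ J
    · obtain ⟨ω, h1, h2⟩ := (hW j hj).2
      exact ⟨ω, fun _ => ⟨h1, h2⟩⟩
    · exact ⟨0, fun h => absurd h hj⟩
  choose ω hω using hω
  have hQI := qi_lcm hb hL W J P A hP0 hPA ω hω
  set gG : GG := gm (fun t => ((J.gcd (fun σ => A σ t) : ℤ) : ℚ)) with hgG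
  set gP : GG := gm (fun t => ((∏ σ ∈ J, P σ t : ℤ) : ℚ)) with hgP
  have hgG0 : gG ≠ 0 := by
    rw [hgG, gm_ne_zero]
    refine Eventually.of_forall fun t => ?_
    obtain ⟨j, hj⟩ := hJne
    have h1 : J.gcd (fun σ => A σ t) ≠ 0 := fun h => hA0 j t (Finset.gcd_eq_zero_iff.1 h j hj)
    exact_mod_cast h1
  have hgP0 : gP ≠ 0 := by
    rw [hgP, gm_ne_zero]
    refine Eventually.of_forall fun t => ?_
    exact_mod_cast Finset.prod_ne_zero_iff.2 fun σ _ => hP0 σ t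
  set Ω : GG := W * gG / gP with hΩ
  have hΩ0 : Ω ≠ 0 := div_ne_zero (mul_ne_zero hW0 hgG0) hgP0
  have hs2 : (0 : ℝ) < (s : ℝ) + 2 := by positivity
  obtain ⟨ε1, hε1⟩ : ∃ ε1 : ℝ, ε1 = ε / (s + 2) := ⟨_, rfl⟩
  have hε1' : 0 < ε1 := by rw [hε1]; positivity
  have hdom : ∀ v, ∀ j, j ∈ J → ∀ᶠ t in (UU : Filter ℕ),
      av b v (rep W t) * av b v (A j t : ℚ) ≤
        Real.exp (ε1 * L t) * ∏ σ ∈ J, av b v (A σ t : ℚ) := by
    intro v j hj
    have h1 := (hW j hj).1 v ε1 hε1'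
    have h2 : ∏ σ ∈ J.erase j, (a σ).eval 1 = gm (fun t => ∏ σ ∈ J.erase j, (A σ t : ℚ)) := by
      rw [← gm_prod']
      exact Finset.prod_congr rfl fun σ _ => ha1 σ
    rw [h2] at h1
    filter_upwards [h1, rep_gm (fun t => ∏ σ ∈ J.erase j, (A σ t : ℚ))] with t h3 h4
    rw [h4, av_prod hb] at h3
    rw [← Finset.mul_prod_erase _ _ hj]
    have h5 := av_nonneg hb v (A j t : ℚ)
    calc av b v (rep W t) * av b v (A j t : ℚ) ≤
        (Real.exp (ε1 * L t) * ∏ σ ∈ J.erase j, av b v (A σ t : ℚ)) * av b v (A j t : ℚ) :=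
          mul_le_mul_of_nonneg_right h3 h5
      _ = _ := by ring
  have hdom' : ∀ᶠ t in (UU : Filter ℕ), ∀ v, ∀ j, j ∈ J →
      av b v (rep W t) * av b v (A j t : ℚ) ≤
        Real.exp (ε1 * L t) * ∏ σ ∈ J, av b v (A σ t : ℚ) := by
    refine eventually_all.2 fun v => eventually_all.2 fun j => ?_
    by_cases hj : j ∈ J
    · filter_upwards [hdom v j hj] with t ht _
      exact ht
    · exact Eventually.of_forall fun t h => absurd h hj
  have hWΩ : ∀ᶠ t in (UU : Filter ℕ), rep W t * ((J.gcd (fun σ => A σ t) : ℤ) : ℚ) =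
      ((∏ σ ∈ J, P σ t : ℤ) : ℚ) * rep Ω t := by
    have h1 : W * gG = gP * Ω := by
      rw [hΩ, mul_div_cancel₀ _ hgP0]
    have h2 := rep_mul W gG
    have h3 := rep_mul gP Ω
    rw [← h1] at h3
    filter_upwards [h2, h3, rep_gm (fun t => ((J.gcd (fun σ => A σ t) : ℤ) : ℚ)),
      rep_gm (fun t => ((∏ σ ∈ J, P σ t : ℤ) : ℚ))] with t h4 h5 h6 h7
    rw [← h6, ← h7, ← h4, ← h5]
  filter_upwards [hdom', hWΩ, QI.lower hb hbi hL hQI hΩ0 ε1 hε1'] with t h1 h2 h3 j hj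
  have h4 := placesJ hb J hJne (fun σ => A σ t) (fun σ => hA0 σ t) (∏ σ ∈ J, P σ t)
    (rep W t) (rep Ω t) (L t) ε1 h1 h2 h3 j hj
  have h5 : ((s : ℝ) + 2) * ε1 = ε := by
    rw [hε1]
    field_simp
  rw [h5] at h4
  exact h4

end Pool.Agent.TH551.HA
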