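import Mathlib

/-!
# Project HA: exponential polynomials with generic coefficients have only simple zeros
-/

set_option autoImplicit false
set_option linter.unusedSectionVars false
set_option linter.unusedVariables false

namespace Pool.Agent.TH551.HA

open Polynomial

section

variable {K : Type} [Field K] [Algebra ℚ K] {N : ℕ}

lemma aeval_scale (G : MvPolynomial (Fin N) ℚ) (e : ℕ) (hG : G.IsHomogeneous e) (z : Fin N → K)
    (c : K) : MvPolynomial.aeval (fun i => c * z i) G = c ^ e * MvPolynomial.aeval z G := by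
  rw [MvPolynomial.aeval_def, MvPolynomial.aeval_def, MvPolynomial.eval₂_eq',
    MvPolynomial.eval₂_eq', Finset.mul_sum]
  refine Finset.sum_congr rfl fun α hα => ?_
  have h3 := hG (MvPolynomial.mem_support_iff.1 hα)
  rw [Finsupp.weight_apply, Finsupp.sum_fintype _ _ (by simp)] at h3
  have h4 : ∑ i, α i = e := by simpa using h3
  simp only [mul_pow, Finset.prod_mul_distrib, Finset.prod_pow_eq_pow_sum]
  rw [h4]
  ring

/-- if a polynomial vanishes at all rational multiples of a point, so do its homogeneous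
components -/
lemma comp_zero (D : MvPolynomial (Fin N) ℚ) (z : Fin N → K)
    (h : ∀ c : ℚ, MvPolynomial.aeval (fun i => algebraMap ℚ K c * z i) D = 0)
    (k : ℕ) : MvPolynomial.aeval z (MvPolynomial.homogeneousComponent k D) = 0 := by
  classical
  set P : K[X] := ∑ i ∈ Finset.range (D.totalDegree + 1),
    C (MvPolynomial.aeval z (MvPolynomial.homogeneousComponent i D)) * X ^ i with hP
  have h2 : ∀ c : ℚ, P.eval (algebraMap ℚ K c) = 0 := by
    intro c
    rw [hP, eval_finsetSum, ← h c]
    conv_rhs => rw [← MvPolynomial.sum_homogeneousComponent D]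
    rw [map_sum]
    refine Finset.sum_congr rfl fun i _ => ?_
    rw [aeval_scale _ i (MvPolynomial.homogeneousComponent_isHomogeneous i D), eval_mul, eval_C,
      eval_pow, eval_X, mul_comm]
  have h3 : P = 0 := by
    have hinj : Function.Injective (algebraMap ℚ K) := (algebraMap ℚ K).injective
    refine Polynomial.eq_zero_of_infinite_isRoot P ?_
    refine (Set.infinite_range_of_injective hinj).mono ?_
    rintro _ ⟨c, rfl⟩
    exact h2 c
  by_cases hk : k < D.totalDegree + 1
  · have h4 := congrArg (fun p => Polynomial.coeff p k) h3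
    simp only [hP, finsetSum_coeff, coeff_C_mul, coeff_X_pow, coeff_zero] at h4
    rw [Finset.sum_eq_single_of_mem k (Finset.mem_range.2 hk)] at h4
    · simpa using h4
    · intro i _ hik
      rw [if_neg (Ne.symm hik), mul_zero]
  · rw [MvPolynomial.homogeneousComponent_eq_zero _ _ (by omega), map_zero]

/-- a polynomial with generic coefficients and constant term has only simple roots -/
theorem sqfree_gen (n : Fin N → ℕ) (i0 i1 : Fin N)
    (h0 : n i0 = 0) (hm : ∀ i, n i ≤ n i1) (hpos : 0 < n i1) (z : Fin N → K)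
    (hz : ∀ G : MvPolynomial (Fin N) ℚ, (∃ e, G.IsHomogeneous e) → G ≠ 0 →
      MvPolynomial.aeval z G ≠ 0)
    (g : K[X]) (hg : Irreducible g) : ¬ g ^ 2 ∣ ∑ i, C (z i) * X ^ (n i) := by
  classical
  intro hdvd
  set FZ : (MvPolynomial (Fin N) ℚ)[X] := ∑ i, C (MvPolynomial.X i) * X ^ (n i) with hFZ
  have hdeg : FZ.natDegree ≤ n i1 := by
    refine natDegree_sum_le_of_forall_le _ _ fun i _ => ?_
    exact (natDegree_C_mul_X_pow_le _ _).trans (hm i)
  have hdeg' : (derivative FZ).natDegree ≤ n i1 - 1 :=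
    (natDegree_derivative_le FZ).trans (by omega)
  obtain ⟨p, q, _, _, hpq⟩ := exists_mul_add_mul_eq_C_resultant FZ (derivative FZ) hdeg hdeg'
    (Or.inl (by omega))
  set D := resultant FZ (derivative FZ) (n i1) (n i1 - 1) with hD
  have hDz : ∀ c : ℚ, MvPolynomial.aeval (fun i => algebraMap ℚ K c * z i) D = 0 := by
    intro c
    set φ : MvPolynomial (Fin N) ℚ →+* K :=
      (MvPolynomial.aeval (fun i => algebraMap ℚ K c * z i)).toRingHom with hφ
    have h1 : FZ.map φ = C (algebraMap ℚ K c) * ∑ i, C (z i) * X ^ (n i) := by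
      rw [hFZ, Polynomial.map_sum, Finset.mul_sum]
      refine Finset.sum_congr rfl fun i _ => ?_
      rw [Polynomial.map_mul, Polynomial.map_C, Polynomial.map_pow, Polynomial.map_X,
        ← mul_assoc, ← C_mul]
      congr 2
      simp [hφ]
    have h2 : g ^ 2 ∣ FZ.map φ := by
      rw [h1]
      exact hdvd.mul_left _
    have h3 : g ∣ FZ.map φ := (dvd_pow_self g two_ne_zero).trans h2
    have h4 : g ∣ derivative (FZ.map φ) := by
      obtain ⟨w, hw⟩ := h2
      rw [hw, derivative_mul, derivative_pow]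
      refine dvd_add ?_ ?_
      · refine Dvd.dvd.mul_right ?_ _
        refine Dvd.dvd.mul_right ?_ _
        refine Dvd.dvd.mul_left ?_ _
        simp
      · exact Dvd.dvd.mul_right (dvd_pow_self g two_ne_zero) _
    have h5 := congrArg (Polynomial.map φ) hpq
    rw [Polynomial.map_add, Polynomial.map_mul, Polynomial.map_mul, ← derivative_map,
      Polynomial.map_C] at h5
    have h6 : g ∣ C (φ D) := by
      rw [← h5]
      exact dvd_add (h3.mul_right _) (h4.mul_right _)
    by_contra hne
    exact hg.not_isUnit (isUnit_of_dvd_unit h6 (isUnit_C.2 (isUnit_iff_ne_zero.2 hne)))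
  have hi01 : i0 ≠ i1 := by
    rintro rfl
    omega
  have hD0 : D ≠ 0 := by
    intro hD0
    set ψ : MvPolynomial (Fin N) ℚ →+* ℚ :=
      (MvPolynomial.aeval
        (fun i => if i = i0 then (-1 : ℚ) else if i = i1 then 1 else 0)).toRingHom with hψ
    have h1 : FZ.map ψ = X ^ (n i1) - 1 := by
      rw [hFZ, Polynomial.map_sum]
      have h2 : ∀ i, (C (MvPolynomial.X i) * X ^ (n i) : (MvPolynomial (Fin N) ℚ)[X]).map ψ =
          C (if i = i0 then (-1 : ℚ) else if i = i1 then 1 else 0) * X ^ (n i) := by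
        intro i
        rw [Polynomial.map_mul, Polynomial.map_C, Polynomial.map_pow, Polynomial.map_X]
        congr 2
        simp [hψ]
      rw [Finset.sum_congr rfl fun i _ => h2 i, ← Finset.add_sum_erase _ _ (Finset.mem_univ i0),
        ← Finset.add_sum_erase _ _ (Finset.mem_erase.2 ⟨hi01.symm, Finset.mem_univ i1⟩),
        Finset.sum_eq_zero]
      · rw [if_pos rfl, if_neg hi01.symm, if_pos rfl, h0]
        simp
        ring
      · intro i hi
        rw [Finset.mem_erase, Finset.mem_erase] at hi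
        rw [if_neg hi.2.1, if_neg hi.1]
        simp
    have h2 : resultant (FZ.map ψ) ((derivative FZ).map ψ) (n i1) (n i1 - 1) = 0 := by
      rw [resultant_map_map, ← hD, hD0, map_zero]
    rw [← derivative_map, h1] at h2
    have h3 : (X ^ (n i1) - 1 : ℚ[X]).natDegree = n i1 := by
      rw [← C_1]
      exact natDegree_X_pow_sub_C
    have h4 : (derivative (X ^ (n i1) - 1 : ℚ[X])).natDegree = n i1 - 1 := by
      rw [derivative_sub, derivative_X_pow, derivative_one, sub_zero]
      refine natDegree_C_mul_X_pow _ _ ?_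
      exact_mod_cast hpos.ne'
    have h5 : IsCoprime (X ^ (n i1) - 1 : ℚ[X]) (derivative (X ^ (n i1) - 1)) :=
      X_pow_sub_one_separable_iff.2 (by exact_mod_cast hpos.ne')
    have h6 := resultant_ne_zero _ _ h5
    rw [h3, h4] at h6
    exact h6 h2
  obtain ⟨k, hk⟩ : ∃ k, MvPolynomial.homogeneousComponent k D ≠ 0 := by
    by_contra hno
    push Not at hno
    apply hD0
    rw [← MvPolynomial.sum_homogeneousComponent D]
    exact Finset.sum_eq_zero fun k _ => hno k
  exact hz _ ⟨k, MvPolynomial.homogeneousComponent_isHomogeneous k D⟩ hk (comp_zero D z hDz k)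

/-- outside `0` there are only simple roots -/
theorem sqfree_off [NeZero N] (n : Fin N → ℕ) (z : Fin N → K)
    (hz : ∀ G : MvPolynomial (Fin N) ℚ, (∃ e, G.IsHomogeneous e) → G ≠ 0 →
      MvPolynomial.aeval z G ≠ 0)
    (g : K[X]) (hg : Irreducible g) (hgX : ¬ g ∣ X) : ¬ g ^ 2 ∣ ∑ i, C (z i) * X ^ (n i) := by
  classical
  intro hdvd
  obtain ⟨i0, hi0⟩ := Finite.exists_min n
  obtain ⟨i1, hi1⟩ := Finite.exists_max n
  have hp : Prime g := hg.prime
  have hX : ∀ k : ℕ, ¬ g ∣ (X : K[X]) ^ k := fun k hk => hgX (hp.dvd_of_dvd_pow hk)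
  rcases Nat.eq_or_lt_of_le (hi0 i1) with h1 | h1
  · -- only one exponent
    have h2 : ∀ i, n i = n i0 := fun i => le_antisymm ((hi1 i).trans h1.ge) (hi0 i)
    have h3 : ∑ i, C (z i) * X ^ (n i) = C (∑ i, z i) * X ^ (n i0) := by
      rw [map_sum, Finset.sum_mul]
      exact Finset.sum_congr rfl fun i _ => by rw [h2 i]
    rw [h3] at hdvd
    have h4 : g ∣ C (∑ i, z i) * X ^ (n i0) := (dvd_pow_self g two_ne_zero).trans hdvd
    have h5 : ∑ i, z i ≠ 0 := by
      have h6 := hz (∑ i, MvPolynomial.X i) ⟨1, MvPolynomial.IsHomogeneous.sum _ _ _ fun i _ =>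
        MvPolynomial.isHomogeneous_X _ _⟩ ?_
      · simpa using h6
      · intro h0
        have h7 := congrArg (MvPolynomial.coeff (Finsupp.single i0 1)) h0
        rw [MvPolynomial.coeff_sum, MvPolynomial.coeff_zero,
          Finset.sum_eq_single_of_mem i0 (Finset.mem_univ i0)] at h7
        · simp at h7
        · intro i _ hi
          rw [MvPolynomial.coeff_X]
          rw [if_neg]
          intro h8
          exact hi ((Finsupp.single_left_inj one_ne_zero).1 h8)
    rcases hp.dvd_or_dvd h4 with h6 | h6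
    · exact hg.not_isUnit (isUnit_of_dvd_unit h6 (isUnit_C.2 (isUnit_iff_ne_zero.2 h5)))
    · exact hX _ h6
  · have h3 : ∑ i, C (z i) * X ^ (n i) = X ^ (n i0) * ∑ i, C (z i) * X ^ (n i - n i0) := by
      rw [Finset.mul_sum]
      refine Finset.sum_congr rfl fun i _ => ?_
      have h4 : n i = n i0 + (n i - n i0) := by
        have := hi0 i
        omega
      conv_lhs => rw [h4, pow_add]
      ring
    rw [h3] at hdvd
    exact sqfree_gen (fun i => n i - n i0) i0 i1 (by simp) (fun i => Nat.sub_le_sub_right (hi1 i) _)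
      (by show 0 < n i1 - n i0; omega) z hz g hg (hp.pow_dvd_of_dvd_mul_left 2 (hX _) hdvd)

/-- a polynomial whose square divides a polynomial without multiple factors outside `0` is a
monomial -/
lemma mono_of_sq (F x : K[X]) (hF : ∀ g : K[X], Irreducible g → ¬ g ∣ X → ¬ g ^ 2 ∣ F)
    (a : ℕ) (hx : x ≠ 0) (h : x ^ 2 ∣ X ^ a * F) : ∃ (c : K) (t : ℕ), x = C c * X ^ t := by
  classical
  obtain ⟨y, hy, hxy⟩ := exists_eq_pow_rootMultiplicity_mul_and_not_dvd x hx 0
  rw [C_0, sub_zero] at hy hxy
  have hy0 : y ≠ 0 := by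
    rintro rfl
    exact hxy (dvd_zero _)
  have hyu : IsUnit y := by
    by_contra hyu
    obtain ⟨g, hg, hgy⟩ := WfDvdMonoid.exists_irreducible_factor hyu hy0
    have hgX : ¬ g ∣ X := fun h1 => hxy ((hg.dvd_symm irreducible_X h1).trans hgy)
    have hX : ∀ k : ℕ, ¬ g ∣ (X : K[X]) ^ k := fun k hk => hgX (hg.prime.dvd_of_dvd_pow hk)
    refine hF g hg hgX (hg.prime.pow_dvd_of_dvd_mul_left 2 (hX a) ?_)
    refine (pow_dvd_pow_of_dvd ?_ 2).trans h
    rw [hy]
    exact hgy.mul_left _
  obtain ⟨c, hc⟩ := isUnit_iff.1 hyu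
  exact ⟨c, rootMultiplicity 0 x, by
    conv_lhs => rw [hy, ← hc.2]
    rw [mul_comm]⟩

end

end Pool.Agent.TH551.HA
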