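import Mathlib
import Pool.Agent.TH551.HA.Tr1
import Pool.Agent.TH551.HA.NT3

/-!
# Project HA: level one truncation for sums of S-units, germs
-/

set_option autoImplicit false
set_option linter.unusedSectionVars false
set_option linter.unusedVariables false

namespace Pool.Agent.TH551.HA

open Filter Topology Pool.Agent.TH932.Germs Pool.Agent.TH551.SU Pool.Agent.TH551.ZP
open Pool.Agent.TH551.SU.CRV Pool.Agent.TH551.ZP.GT

section

variable {s : ℕ} {b : Fin s → ℕ} {L : ℕ → ℝ} {r : ℕ} {hL : Tendsto L atTop atTop}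
  {U : Fin (r + 1) → GG} {l : Fin (r + 1) → ℕ} {d : ℕ}

lemma Lift.coeff_unit (hb : ∀ v, (b v).Prime) (hs : Setup b hL U l d) {e : ℕ} (he : e ≤ d)
    {p : Polynomial GG} (hp : Lift hL U l e p) (k : ℕ) :
    ∃ κ ∈ KK L hL, ∃ g, GSU b g ∧ p.coeff k = κ * g := by
  obtain ⟨P, hP, rfl⟩ := hp
  by_cases hk : (psi hL U l P).coeff k = 0
  · exact ⟨0, (KK L hL).zero_mem, 1, GSU.one, by rw [hk, zero_mul]⟩
  obtain ⟨β, hβ, hβk⟩ : ∃ β ∈ P.support, ∑ j, β j * l j = k := by
    by_contra hno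
    push Not at hno
    apply hk
    rw [psi_coeff, Finset.filter_false_of_mem hno, Finset.sum_empty]
  set g : GG := ∏ j, U j ^ (β j) with hg
  have hg0 : g ≠ 0 := GSU.ne_zero hb (hs.mono_gsu hb β)
  refine ⟨(psi hL U l P).coeff k / g, ?_, g, hs.mono_gsu hb β, by field_simp⟩
  rw [psi_coeff, Finset.sum_div]
  refine sum_mem fun α hα => ?_
  rw [mul_div_assoc]
  refine mul_mem (MvPolynomial.coeff α P).2 ?_
  rw [Finset.mem_filter] at hα
  refine (hs.fw α β ?_ ?_).2 ?_
  · rw [deg_of_hom hP hα.1, deg_of_hom hP hβ]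
  · rw [deg_of_hom hP hα.1]
    exact he
  · rw [hα.2, hβk]

lemma av_small (hb : ∀ v, (b v).Prime) (hbi : Function.Injective b)
    (hL : Tendsto L atTop atTop) {κ g : GG} (hκ : κ ∈ KK L hL)
    (hg : GSU b g) (x : ℕ → ℚ) (h : gm x = κ * g) (ε : ℝ) (hε : 0 < ε) :
    ∀ᶠ t in (UU : Filter ℕ), ∏ v, av b v (x t) ≤ Real.exp (ε * L t) := by
  obtain ⟨a, rfl, ha⟩ := hg
  obtain ⟨κ', rfl⟩ := gm_surj κ
  rw [gm_mul, gm_eq] at h
  have h1 : ∀ᶠ t in (UU : Filter ℕ), ∀ v, av b v (κ' t) ≤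
      Real.exp (ε / ((s : ℝ) + 1) * L t) * av b v 1 := by
    refine eventually_all.2 fun v => ?_
    have h2 := Dom.of_KK hb hbi hL v hκ
    rw [← gm_one, dom_gm] at h2
    exact h2 _ (by positivity)
  filter_upwards [h, h1] with t h2 h3
  have h2' : x t = κ' t * a t := h2
  rw [h2']
  simp only [av_mul hb]
  rw [Finset.prod_mul_distrib, prod_av_unit hb hbi (ha t), mul_one]
  calc ∏ v, av b v (κ' t) ≤ ∏ _v : Option (Fin s), Real.exp (ε / ((s : ℝ) + 1) * L t) := by
        refine Finset.prod_le_prod (fun v _ => av_nonneg hb _ _) fun v _ => ?_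
        have h4 := h3 v
        rwa [av_one hb, mul_one] at h4
    _ = Real.exp (ε * L t) := by
        rw [Finset.prod_const, Finset.card_univ, Fintype.card_option, Fintype.card_fin,
          ← Real.exp_nat_mul]
        congr 1
        push_cast
        field_simp

/-- the places together -/
lemma places1 (hb : ∀ v, (b v).Prime) {N : ℕ} [NeZero N] (z : Fin N → ℤ)
    (hgcd : Finset.univ.gcd z = 1) (y : ℚ) (E : ℝ) (hE : 0 ≤ E)
    (h : ∀ v i, av b v (z i : ℚ) ≤ E * av b v y) (i : Fin N) :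
    |(z i : ℝ)| ≤ E ^ (s + 1) * ∏ v, av b v y := by
  have hfin : ∀ v : Fin s, (1 : ℝ) ≤ E * av b (some v) y := by
    intro v
    obtain ⟨j, _, h1⟩ := av_gcd_le hb v Finset.univ Finset.univ_nonempty z
    rw [hgcd] at h1
    have h2 : av b (some v) ((1 : ℤ) : ℚ) = 1 := by
      rw [Int.cast_one, av_one hb]
    rw [h2] at h1
    exact h1.trans (h _ j)
  have h1 : |(z i : ℝ)| ≤ E * av b none y := by
    have h2 := h none i
    have h3 : av b none (z i : ℚ) = |(z i : ℝ)| := by
      simp only [av]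
      push_cast
      rfl
    rwa [h3] at h2
  have h0 : 0 ≤ E * av b none y := mul_nonneg hE (av_nonneg hb _ _)
  have h4 : (1 : ℝ) ≤ ∏ v : Fin s, (E * av b (some v) y) := by
    calc (1 : ℝ) = ∏ _v : Fin s, (1 : ℝ) := by simp
      _ ≤ _ := Finset.prod_le_prod (fun _ _ => zero_le_one) fun v _ => hfin v
  calc |(z i : ℝ)| ≤ E * av b none y := h1
    _ ≤ (E * av b none y) * ∏ v : Fin s, (E * av b (some v) y) := le_mul_of_one_le_right h0 h4
    _ = E ^ (s + 1) * ∏ v, av b v y := by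
      rw [Finset.prod_mul_distrib, Finset.prod_const, Finset.card_univ, Fintype.card_fin,
        Fintype.prod_option]
      ring

/-- S-unit germs which are not large are of moderate size -/
lemma mod_of_upper (hb : ∀ v, (b v).Prime) (hbi : Function.Injective b)
    (hL : Tendsto L atTop atTop) (u : ℕ → ℚ) (hu : ∀ t, IsSU b (u t)) (K : ℝ) (hK : 0 ≤ K)
    (h : ∀ᶠ t in (UU : Filter ℕ), ∀ v, av b v (u t) ≤ Real.exp (K * L t)) :
    Mod b L (gm u) := by
  refine ⟨((s : ℝ) + 1) * K, ?_⟩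
  filter_upwards [h, rep_gm u, L_nonneg hL] with t h1 h2 h3 v
  have h2' : rep (gm u) t = u t := h2
  rw [h2']
  have h4 : K * L t ≤ ((s : ℝ) + 1) * K * L t := by
    have h5 : 0 ≤ (s : ℝ) * (K * L t) := by positivity
    nlinarith
  refine ⟨?_, (h1 v).trans (Real.exp_le_exp.2 h4)⟩
  classical
  have hprod := prod_av_unit hb hbi (hu t)
  rw [← Finset.mul_prod_erase _ _ (Finset.mem_univ v)] at hprod
  have h5 : ∏ v' ∈ Finset.univ.erase v, av b v' (u t) ≤ Real.exp (((s : ℝ) + 1) * K * L t) := by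
    calc ∏ v' ∈ Finset.univ.erase v, av b v' (u t) ≤
          ∏ _v' ∈ Finset.univ.erase v, Real.exp (K * L t) :=
          Finset.prod_le_prod (fun _ _ => av_nonneg hb _ _) fun v' _ => h1 v'
      _ = Real.exp ((s : ℝ) * (K * L t)) := by
          rw [Finset.prod_const, Finset.card_erase_of_mem (Finset.mem_univ v), Finset.card_univ,
            Fintype.card_option, Fintype.card_fin, Nat.add_sub_cancel, ← Real.exp_nat_mul]
      _ ≤ _ := by
          refine Real.exp_le_exp.2 ?_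
          have h5 : 0 ≤ K * L t := by positivity
          nlinarith
  rw [Real.exp_neg, inv_le_iff_one_le_mul₀ (Real.exp_pos _)]
  calc (1 : ℝ) = av b v (u t) * ∏ v' ∈ Finset.univ.erase v, av b v' (u t) := hprod.symm
    _ ≤ av b v (u t) * Real.exp (((s : ℝ) + 1) * K * L t) :=
        mul_le_mul_of_nonneg_left h5 (av_nonneg hb _ _)
    _ = _ := by ring

/-- **level one truncation for germs** -/
theorem trGerm (hnc : NcStmt) (hcs : CSStmt) (hb : ∀ v, (b v).Prime)
    (hbi : Function.Injective b) (hs : Setup b hL U l d) (hU0 : U 0 = 1) {N : ℕ} [NeZero N]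
    {p : ℕ} (e : Fin p → ℕ) (he : ∀ j, 1 ≤ e j) (hd : 1 + ∑ j, e j ≤ d)
    (X : Fin p → Polynomial GG) (hX : ∀ j, Lift hL U l 1 (X j)) (x : Fin p → ℕ → ℤ)
    (hx : ∀ j, (X j).eval 1 = gm (fun t => (x j t : ℚ))) (hx0 : ∀ j t, x j t ≠ 0)
    (w : ℕ → ℤ) (hwS : ∀ t, IsSU b (w t : ℚ)) (ιw : Fin (r + 1))
    (hw : U ιw = gm (fun t => (w t : ℚ))) (z : Fin N → ℕ → ℤ) (ι : Fin N → Fin (r + 1))
    (κ : Fin N → KK L hL) (hz : ∀ i, gm (fun t => (z i t : ℚ)) = (κ i : GG) * U (ι i))
    (hgcd : ∀ t, Finset.univ.gcd (fun i => z i t) = 1)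
    (hgen : ∀ G : MvPolynomial (Fin N) ℚ, (∃ e, G.IsHomogeneous e) → G ≠ 0 →
      MvPolynomial.aeval (fun i => gm (fun t => (z i t : ℚ))) G ≠ 0)
    (hsum : ∀ t, ∑ i, z i t = w t * ∏ j, x j t ^ (e j)) (ε : ℝ) (hε : 0 < ε) :
    ∀ᶠ t in (UU : Filter ℕ), ∀ i, |(z i t : ℝ)| ≤
      Real.exp (ε * L t) * ∏ j with e j = 1, |(x j t : ℝ)| := by
  classical
  set zg : Fin N → GG := fun i => gm (fun t => (z i t : ℚ)) with hzg
  have h1d : 1 ≤ d := by omega
  -- the lifts of the terms
  have hZ : ∀ i, Lift hL U l 1 (Polynomial.C (zg i) * Polynomial.X ^ (l (ι i))) := by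
    intro i
    have h1 : Polynomial.C (zg i) * Polynomial.X ^ (l (ι i)) =
        Polynomial.C (κ i : GG) * (Polynomial.C (U (ι i)) * Polynomial.X ^ (l (ι i))) := by
      rw [← mul_assoc, ← Polynomial.C_mul, ← hz i]
    rw [h1]
    exact (Lift.gen (ι i)).smul (κ i).2
  set F : Polynomial GG := ∑ i, Polynomial.C (zg i) * Polynomial.X ^ (l (ι i)) with hF
  have hFL : Lift hL U l 1 F := Lift.sum _ _ _ fun i _ => hZ i
  have hF1 : F.eval 1 = gm (fun t => ∑ i, (z i t : ℚ)) := by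
    rw [hF, Polynomial.eval_finsetSum, ← gm_sum']
    refine Finset.sum_congr rfl fun i _ => ?_
    simp [hzg]
  have hE : Lift hL U l 1 (Polynomial.X ^ (l 0)) := by
    have h := Lift.gen (hL := hL) (U := U) (l := l) 0
    rw [hU0, Polynomial.C_1, one_mul] at h
    exact h
  -- the identity
  have hid : (Polynomial.X ^ (l 0)) ^ (∑ j, e j) * F =
      (Polynomial.C (U ιw) * Polynomial.X ^ (l ιw)) * ∏ j, X j ^ (e j) := by
    have h1 : Lift hL U l (1 + ∑ j, e j) ((Polynomial.X ^ (l 0)) ^ (∑ j, e j) * F) := by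
      have h2 := (hE.pow (∑ j, e j)).mul hFL
      have h3 : 1 * (∑ j, e j) + 1 = 1 + ∑ j, e j := by ring
      rwa [h3] at h2
    have h2 : Lift hL U l (1 + ∑ j, e j)
        ((Polynomial.C (U ιw) * Polynomial.X ^ (l ιw)) * ∏ j, X j ^ (e j)) := by
      have h2 := (Lift.gen (hL := hL) (U := U) (l := l) ιw).mul
        (Lift.prod Finset.univ _ _ fun j _ => (hX j).pow (e j))
      have h3 : 1 + ∑ j, 1 * e j = 1 + ∑ j, e j := by simp
      rwa [h3] at h2
    refine sub_eq_zero.1 ((h1.sub h2).eq_zero hcs hb hbi hs hd ?_)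
    rw [Polynomial.eval_sub, Polynomial.eval_mul, Polynomial.eval_mul, Polynomial.eval_prod, hF1]
    simp only [Polynomial.eval_pow, Polynomial.eval_X, one_pow, one_mul, Polynomial.eval_mul,
      Polynomial.eval_C, mul_one, hx, gm_pow]
    rw [hw, gm_prod', gm_mul, sub_eq_zero]
    congr 1
    funext t
    have h3 := hsum t
    have h4 : ((∑ i, z i t : ℤ) : ℚ) = ((w t * ∏ j, x j t ^ (e j) : ℤ) : ℚ) := by rw [h3]
    push_cast at h4
    exact h4
  have hX0 : ∀ j, X j ≠ 0 := by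
    intro j h0
    have h1 := hx j
    rw [h0, Polynomial.eval_zero] at h1
    exact gm_ne_zero.2 (Eventually.of_forall fun t => by
      show ((x j t : ℤ) : ℚ) ≠ 0
      exact_mod_cast hx0 j t) h1.symm
  have hsq : ∀ g : Polynomial GG, Irreducible g → ¬ g ∣ Polynomial.X → ¬ g ^ 2 ∣ F := by
    intro g hg hgX
    exact sqfree_off (fun i => l (ι i)) zg hgen g hg hgX
  set m : ℝ := (s : ℝ) + 1 + ∑ j, (e j : ℝ) with hm
  have hm0 : 0 < m := by positivity
  -- the multiple factors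
  have hmult : ∀ᶠ t in (UU : Filter ℕ), ∀ j, 2 ≤ e j →
      ∏ v, av b v (x j t : ℚ) ≤ Real.exp (ε / m * L t) := by
    refine eventually_all.2 fun j => ?_
    by_cases hj : 2 ≤ e j
    swap
    · exact Eventually.of_forall fun t h => absurd h hj
    have h1 : X j ^ 2 ∣ Polynomial.X ^ (l 0 * ∑ j, e j) * F := by
      rw [pow_mul, hid]
      refine Dvd.dvd.mul_left ?_ _
      exact (pow_dvd_pow _ hj).trans (Finset.dvd_prod_of_mem (fun j => X j ^ (e j))
        (Finset.mem_univ j))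
    obtain ⟨c, t0, hc⟩ := mono_of_sq F (X j) hsq _ (hX0 j) h1
    obtain ⟨κ', hκ', g, hg, h2⟩ := Lift.coeff_unit hb hs h1d (hX j) t0
    have h3 : gm (fun t => (x j t : ℚ)) = κ' * g := by
      rw [← h2, ← hx, hc]
      simp
    filter_upwards [av_small hb hbi hL hκ' hg _ h3 (ε / m) (by positivity)] with t h4 _
    exact h4
  -- no cancellation
  have hdom : ∀ i v, Dom b L v (zg i) (F.eval 1) := by
    intro i v
    have h1 := hFL.dom hnc hb hbi hs h1d v (l (ι i))
    have hcoeff : F.coeff (l (ι i)) = MvPolynomial.aeval zg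
        (∑ j with l (ι j) = l (ι i), (MvPolynomial.X j : MvPolynomial (Fin N) ℚ)) := by
      rw [hF, Polynomial.finsetSum_coeff, map_sum, Finset.sum_filter]
      refine Finset.sum_congr rfl fun j _ => ?_
      rw [Polynomial.coeff_C_mul_X_pow, MvPolynomial.aeval_X]
      by_cases h : l (ι j) = l (ι i)
      · rw [if_pos h.symm, if_pos h]
      · rw [if_neg (Ne.symm h), if_neg h]
    have hne : F.coeff (l (ι i)) ≠ 0 := by
      rw [hcoeff]
      refine hgen _ ⟨1, MvPolynomial.IsHomogeneous.sum _ _ _ fun j _ =>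
        MvPolynomial.isHomogeneous_X _ _⟩ ?_
      intro h0
      have h7 := congrArg (MvPolynomial.coeff (Finsupp.single i 1)) h0
      have hmem : i ∈ Finset.univ.filter (fun j => l (ι j) = l (ι i)) := by simp
      rw [MvPolynomial.coeff_sum, MvPolynomial.coeff_zero,
        Finset.sum_eq_single_of_mem i hmem] at h7
      · simp at h7
      · intro j _ hj
        rw [MvPolynomial.coeff_X]
        rw [if_neg]
        intro h8
        exact hj ((Finsupp.single_left_inj one_ne_zero).1 h8)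
    have h2 := Lift.coeff_div hb hs h1d (hZ i) hFL (l (ι i)) hne
    rw [Polynomial.coeff_C_mul_X_pow, if_pos rfl] at h2
    have h3 : zg i = (zg i / F.coeff (l (ι i))) * F.coeff (l (ι i)) := by field_simp
    rw [h3]
    exact Dom.smul hb hbi hL h2 h1
  have hdom' : ∀ᶠ t in (UU : Filter ℕ), ∀ v i, av b v (z i t : ℚ) ≤
      Real.exp (ε / m * L t) * av b v (∑ i, (z i t : ℚ)) := by
    refine eventually_all.2 fun v => eventually_all.2 fun i => ?_
    have h1 := hdom i v
    rw [hF1, hzg] at h1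
    rw [dom_gm] at h1
    exact h1 _ (by positivity)
  filter_upwards [hmult, hdom', L_nonneg hL] with t h1 h2 h3 i
  have h4 := places1 hb (fun i => z i t) (hgcd t) _ _ (Real.exp_pos _).le h2 i
  have h5 : ∏ v, av b v (∑ i, (z i t : ℚ)) = ∏ j, (∏ v, av b v (x j t : ℚ)) ^ (e j) := by
    have h6 : (∑ i, (z i t : ℚ)) = (w t : ℚ) * ∏ j, (x j t : ℚ) ^ (e j) := by
      have h3 := hsum t
      have h4 : ((∑ i, z i t : ℤ) : ℚ) = ((w t * ∏ j, x j t ^ (e j) : ℤ) : ℚ) := by rw [h3]
      push_cast at h4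
      exact h4
    rw [h6]
    simp only [av_mul hb, av_prod hb, av_pow hb]
    rw [Finset.prod_mul_distrib, prod_av_unit hb hbi (hwS t), one_mul, Finset.prod_comm]
    refine Finset.prod_congr rfl fun j _ => ?_
    rw [Finset.prod_pow]
  rw [h5] at h4
  have h0 : ∀ j, 0 ≤ ∏ v, av b v (x j t : ℚ) := fun j =>
    Finset.prod_nonneg fun v _ => av_nonneg hb _ _
  have h6 : ∀ j, (∏ v, av b v (x j t : ℚ)) ^ (e j) ≤
      Real.exp ((e j : ℝ) * (ε / m * L t)) * (if e j = 1 then |(x j t : ℝ)| else 1) := by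
    intro j
    by_cases hj : e j = 1
    · rw [if_pos hj, hj, pow_one]
      have h7 : ∏ v, av b v (x j t : ℚ) ≤ |(x j t : ℝ)| := by
        rw [Fintype.prod_option]
        have h8 : ∏ v : Fin s, av b (some v) (x j t : ℚ) ≤ 1 :=
          Finset.prod_le_one (fun v _ => av_nonneg hb _ _) fun v _ => av_int_le_one hb v _
        have h9 : av b none (x j t : ℚ) = |(x j t : ℝ)| := by
          simp only [av]
          push_cast
          rfl
        rw [h9]
        exact mul_le_of_le_one_right (abs_nonneg _) h8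
      refine h7.trans (le_mul_of_one_le_left (abs_nonneg _) ?_)
      exact Real.one_le_exp (by positivity)
    · rw [if_neg hj, mul_one, Real.exp_nat_mul]
      exact pow_le_pow_left₀ (h0 j) (h1 j (by have := he j; omega)) _
  have h7 : ∏ j, (∏ v, av b v (x j t : ℚ)) ^ (e j) ≤
      Real.exp ((∑ j, (e j : ℝ)) * (ε / m * L t)) * ∏ j with e j = 1, |(x j t : ℝ)| := by
    refine (Finset.prod_le_prod (fun j _ => pow_nonneg (h0 j) _) fun j _ => h6 j).trans ?_
    rw [Finset.prod_mul_distrib, ← Real.exp_sum, ← Finset.sum_mul, Finset.prod_filter]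
  refine h4.trans ((mul_le_mul_of_nonneg_left h7 (by positivity)).trans ?_)
  rw [← mul_assoc, ← Real.exp_nat_mul, ← Real.exp_add]
  refine le_of_eq ?_
  congr 2
  rw [hm]
  push_cast
  have : (s : ℝ) + 1 + ∑ j, (e j : ℝ) ≠ 0 := by rw [← hm]; exact hm0.ne'
  field_simp

end

end Pool.Agent.TH551.HA
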