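import Mathlib
import Pool.Agent.TH551.HA.Tr2
import Pool.Agent.TH551.HA.Jc1

/-!
# Project HA: derivations of lifts
-/

set_option autoImplicit false
set_option linter.unusedSectionVars false
set_option linter.unusedVariables false

namespace Pool.Agent.TH551.HA

open Filter Topology Pool.Agent.TH932.Germs Pool.Agent.TH551.SU Pool.Agent.TH551.ZP
open Pool.Agent.TH551.SU.CRV Pool.Agent.TH551.ZP.GT

section

variable {s : ℕ} {b : Fin s → ℕ} {L : ℕ → ℝ} {r : ℕ} {hL : Tendsto L atTop atTop}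
  {U : Fin (r + 1) → GG} {l : Fin (r + 1) → ℕ} {d : ℕ}

/-- the derivation given by a functional, on multiples of a germ -/
noncomputable def Dps (hL : Tendsto L atTop atTop) (δ : DerQ GG)
    (ψ : GG →ₗ[KK L hL] KK L hL) (f : GG) : GG := f * ((ψ (δ f * f⁻¹) : KK L hL) : GG)

variable {δ : DerQ GG} {ψ : GG →ₗ[KK L hL] KK L hL}

lemma Dps_zero : Dps hL δ ψ 0 = 0 := by simp [Dps]

lemma Dps_mul (f g : GG) : Dps hL δ ψ (f * g) = Dps hL δ ψ f * g + f * Dps hL δ ψ g := by
  by_cases hf : f = 0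
  · subst hf
    simp [Dps]
  by_cases hg : g = 0
  · subst hg
    simp [Dps]
  have h1 : δ (f * g) * (f * g)⁻¹ = δ f * f⁻¹ + δ g * g⁻¹ := by
    rw [der_mul]
    field_simp
    ring
  unfold Dps
  rw [h1, map_add]
  push_cast
  ring

lemma Dps_line (κ : KK L hL) {g : GG} (hg : g ≠ 0) : Dps hL δ ψ ((κ : GG) * g) =
    (((ψ (δ (κ : GG)) + κ * ψ (δ g * g⁻¹)) : KK L hL) : GG) * g := by
  by_cases hκ : κ = 0
  · subst hκ
    simp [Dps]
  have hκ' : (κ : GG) ≠ 0 := fun h => hκ (Subtype.ext h)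
  have h1 : δ ((κ : GG) * g) * ((κ : GG) * g)⁻¹ =
      κ⁻¹ • δ (κ : GG) + δ g * g⁻¹ := by
    rw [der_mul]
    show _ = ((κ⁻¹ : KK L hL) : GG) * δ (κ : GG) + δ g * g⁻¹
    push_cast
    field_simp
    ring
  unfold Dps
  rw [h1, map_add, map_smul, smul_eq_mul]
  push_cast
  field_simp

lemma Dps_sum_line {ι : Type} (A : Finset ι) (κ : ι → KK L hL) {g : GG} (hg : g ≠ 0) :
    Dps hL δ ψ (∑ i ∈ A, (κ i : GG) * g) = ∑ i ∈ A, Dps hL δ ψ ((κ i : GG) * g) := by
  have h1 : ∑ i ∈ A, (κ i : GG) * g = ((∑ i ∈ A, κ i : KK L hL) : GG) * g := by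
    push_cast
    rw [Finset.sum_mul]
  rw [h1, Dps_line _ hg]
  simp only [Dps_line _ hg]
  rw [← Finset.sum_mul]
  congr 1
  push_cast
  rw [Finset.sum_add_distrib, Finset.sum_mul, map_sum, map_sum]
  push_cast
  rfl

/-- additivity on a line -/
lemma Dps_sum {ι : Type} (A : Finset ι) (f : ι → GG) {g : GG} (hg : g ≠ 0)
    (h : ∀ i ∈ A, f i / g ∈ KK L hL) :
    Dps hL δ ψ (∑ i ∈ A, f i) = ∑ i ∈ A, Dps hL δ ψ (f i) := by
  classical
  set κ : ι → KK L hL := fun i => if hi : f i / g ∈ KK L hL then ⟨f i / g, hi⟩ else 0 with hκ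
  have h1 : ∀ i ∈ A, f i = (κ i : GG) * g := by
    intro i hi
    have h2 := h i hi
    simp only [hκ]
    rw [dif_pos h2]
    field_simp
  rw [Finset.sum_congr rfl h1, Dps_sum_line A κ hg]
  exact Finset.sum_congr rfl fun i hi => by rw [h1 i hi]

/-- the derivation on polynomials, coefficientwise -/
noncomputable def DP (hL : Tendsto L atTop atTop) (δ : DerQ GG)
    (ψ : GG →ₗ[KK L hL] KK L hL) (p : Polynomial GG) : Polynomial GG :=
  ∑ k ∈ p.support, Polynomial.monomial k (Dps hL δ ψ (p.coeff k))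

lemma DP_coeff (p : Polynomial GG) (k : ℕ) :
    (DP hL δ ψ p).coeff k = Dps hL δ ψ (p.coeff k) := by
  unfold DP
  rw [Polynomial.finsetSum_coeff]
  simp only [Polynomial.coeff_monomial]
  rw [Finset.sum_ite_eq']
  by_cases h : k ∈ p.support
  · rw [if_pos h]
  · rw [if_neg h, Polynomial.notMem_support_iff.1 h, Dps_zero]

lemma DP_C_mul_X_pow (c : GG) (n : ℕ) :
    DP hL δ ψ (Polynomial.C c * Polynomial.X ^ n) =
      Polynomial.C (Dps hL δ ψ c) * Polynomial.X ^ n := by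
  ext k
  rw [DP_coeff, Polynomial.coeff_C_mul_X_pow, Polynomial.coeff_C_mul_X_pow]
  by_cases h : k = n
  · rw [if_pos h, if_pos h]
  · rw [if_neg h, if_neg h, Dps_zero]

/-- the coefficients of lifts of the same degree and weight are proportional over the negligible
field -/
lemma Lift.line (hb : ∀ v, (b v).Prime) (hs : Setup b hL U l d) {e : ℕ} (he : e ≤ d) (k : ℕ) :
    ∃ g : GG, g ≠ 0 ∧ QI b L g ∧ ∀ p, Lift hL U l e p → p.coeff k / g ∈ KK L hL := by
  classical
  by_cases hex : ∃ β : Fin (r + 1) → ℕ, ∑ j, β j = e ∧ ∑ j, β j * l j = k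
  · obtain ⟨β, hβ, hβk⟩ := hex
    refine ⟨∏ j, U j ^ (β j), GSU.ne_zero hb (hs.mono_gsu hb β),
      QI.of_GSU hb hL (hs.mono_gsu hb β), ?_⟩
    rintro p ⟨P, hP, rfl⟩
    rw [psi_coeff, Finset.sum_div]
    refine sum_mem fun α hα => ?_
    rw [mul_div_assoc]
    refine mul_mem (MvPolynomial.coeff α P).2 ?_
    rw [Finset.mem_filter] at hα
    refine (hs.fw α β ?_ ?_).2 ?_
    · rw [deg_of_hom hP hα.1, hβ]
    · rw [deg_of_hom hP hα.1]
      exact he
    · rw [hα.2, hβk]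
  · refine ⟨1, one_ne_zero, QI.of_KK hb hL (KK L hL).one_mem, ?_⟩
    rintro p ⟨P, hP, rfl⟩
    rw [psi_coeff, Finset.filter_false_of_mem, Finset.sum_empty, zero_div]
    · exact (KK L hL).zero_mem
    · intro α hα h
      exact hex ⟨α, deg_of_hom hP hα, h⟩

lemma Lift.line_mul (hb : ∀ v, (b v).Prime) (hs : Setup b hL U l d) {e e' : ℕ}
    (he : e + e' ≤ d) (k : ℕ) :
    ∃ g : GG, g ≠ 0 ∧ ∀ p q, Lift hL U l e p → Lift hL U l e' q → ∀ i j, i + j = k →
      p.coeff i * q.coeff j / g ∈ KK L hL := by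
  obtain ⟨g, hg, _, h⟩ := Lift.line (hL := hL) (U := U) (l := l) hb hs he k
  refine ⟨g, hg, ?_⟩
  rintro p q hp hq i j hij
  -- the monomials of the two coefficients
  obtain ⟨P, hP, rfl⟩ := hp
  obtain ⟨Q, hQ, rfl⟩ := hq
  rw [psi_coeff, psi_coeff, Finset.sum_mul_sum, Finset.sum_div]
  refine sum_mem fun α hα => ?_
  rw [Finset.sum_div]
  refine sum_mem fun β hβ => ?_
  rw [Finset.mem_filter] at hα hβ
  -- the product of two monomials as a lift
  have h1 : Lift hL U l (e + e') (psi hL U l (MvPolynomial.monomial α 1) *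
      psi hL U l (MvPolynomial.monomial β 1)) := by
    refine Lift.mul ⟨_, MvPolynomial.isHomogeneous_monomial _ ?_, rfl⟩
      ⟨_, MvPolynomial.isHomogeneous_monomial _ ?_, rfl⟩
    · rw [← deg_of_hom hP hα.1, Finsupp.degree_eq_sum]
    · rw [← deg_of_hom hQ hβ.1, Finsupp.degree_eq_sum]
  have h2 : ∀ γ : Fin (r + 1) →₀ ℕ, psi hL U l (MvPolynomial.monomial γ 1) =
      Polynomial.C (∏ j, U j ^ (γ j)) * Polynomial.X ^ (∑ j, γ j * l j) := by
    intro γ
    rw [psi_eq]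
    have h3 : (MvPolynomial.monomial γ (1 : KK L hL)).support = {γ} := by
      rw [MvPolynomial.support_monomial, if_neg one_ne_zero]
    rw [h3, Finset.sum_singleton, MvPolynomial.coeff_monomial, if_pos rfl]
    simp
  have h4 := h _ h1
  rw [h2, h2] at h4
  have h5 : (Polynomial.C (∏ j, U j ^ (α j)) * Polynomial.X ^ (∑ j, α j * l j) *
      (Polynomial.C (∏ j, U j ^ (β j)) * Polynomial.X ^ (∑ j, β j * l j)) : Polynomial GG) =
      Polynomial.C ((∏ j, U j ^ (α j)) * ∏ j, U j ^ (β j)) * Polynomial.X ^ k := by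
    rw [hα.2, hβ.2, ← hij, pow_add, Polynomial.C_mul]
    ring
  rw [h5, Polynomial.coeff_C_mul_X_pow, if_pos rfl] at h4
  have h6 : (((MvPolynomial.coeff α P : KK L hL) : GG) * ∏ j, U j ^ (α j)) *
      (((MvPolynomial.coeff β Q : KK L hL) : GG) * ∏ j, U j ^ (β j)) / g =
      (((MvPolynomial.coeff α P : KK L hL) : GG) * ((MvPolynomial.coeff β Q : KK L hL) : GG)) *
      ((∏ j, U j ^ (α j)) * (∏ j, U j ^ (β j)) / g) := by ring
  rw [h6]
  exact mul_mem (mul_mem (MvPolynomial.coeff α P).2 (MvPolynomial.coeff β Q).2) h4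

/-- the rule of Leibniz for lifts -/
lemma DP_mul (hb : ∀ v, (b v).Prime) (hs : Setup b hL U l d) {e e' : ℕ} (he : e + e' ≤ d)
    {p q : Polynomial GG} (hp : Lift hL U l e p) (hq : Lift hL U l e' q) :
    DP hL δ ψ (p * q) = DP hL δ ψ p * q + p * DP hL δ ψ q := by
  ext k
  obtain ⟨g, hg, h⟩ := Lift.line_mul (hL := hL) (U := U) (l := l) hb hs he k
  rw [DP_coeff, Polynomial.coeff_mul, Polynomial.coeff_add, Polynomial.coeff_mul,
    Polynomial.coeff_mul, Dps_sum _ _ hg, ← Finset.sum_add_distrib]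
  · refine Finset.sum_congr rfl fun x _ => ?_
    rw [Dps_mul, DP_coeff, DP_coeff]
  · intro x hx
    exact h p q hp hq _ _ (Finset.HasAntidiagonal.mem_antidiagonal.1 hx)

lemma DP_pow (hb : ∀ v, (b v).Prime) (hs : Setup b hL U l d) {e : ℕ} {p : Polynomial GG}
    (hp : Lift hL U l e p) (n : ℕ) (he : e * (n + 1) ≤ d) :
    DP hL δ ψ (p ^ (n + 1)) = ((n + 1 : ℕ) : Polynomial GG) * p ^ n * DP hL δ ψ p := by
  induction n with
  | zero => simp
  | succ n ih =>
    have h1 : e * (n + 1) + e ≤ d := by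
      have h2 : e * (n + 1) + e = e * (n + 1 + 1) := by ring
      omega
    rw [pow_succ, DP_mul hb hs h1 (hp.pow (n + 1)) hp, ih (by omega)]
    push_cast
    ring

/-- the sum of the derivatives of lifts with sum zero -/
lemma DP_sum_zero (hb : ∀ v, (b v).Prime) (hs : Setup b hL U l d) {e : ℕ} (he : e ≤ d)
    {ι : Type} (A : Finset ι) (p : ι → Polynomial GG) (hp : ∀ i ∈ A, Lift hL U l e (p i))
    (h0 : ∑ i ∈ A, p i = 0) : ∑ i ∈ A, DP hL δ ψ (p i) = 0 := by
  ext k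
  obtain ⟨g, hg, _, h⟩ := Lift.line (hL := hL) (U := U) (l := l) hb hs he k
  have h1 := congrArg (fun p => Polynomial.coeff p k) h0
  simp only [Polynomial.finsetSum_coeff, Polynomial.coeff_zero] at h1 ⊢
  simp only [DP_coeff]
  rw [← Dps_sum _ _ hg fun i hi => h _ (hp i hi), h1, Dps_zero]

lemma DP_eval (p : Polynomial GG) (N : ℕ) (hN : p.natDegree < N) :
    (DP hL δ ψ p).eval 1 = ∑ k ∈ Finset.range N, Dps hL δ ψ (p.coeff k) := by
  have h1 : (DP hL δ ψ p).natDegree < N := by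
    refine lt_of_le_of_lt ?_ hN
    rw [Polynomial.natDegree_le_iff_coeff_eq_zero]
    intro n hn
    rw [DP_coeff, Polynomial.coeff_eq_zero_of_natDegree_lt hn, Dps_zero]
  rw [eval_one_eq _ N h1]
  exact Finset.sum_congr rfl fun k _ => DP_coeff p k

/-- the derivatives are dominated -/
lemma DP_dom (hnc : NcStmt) (hb : ∀ v, (b v).Prime) (hbi : Function.Injective b)
    (hs : Setup b hL U l d) {e : ℕ} (he : e ≤ d) {p : Polynomial GG} (hp : Lift hL U l e p)
    (v : Option (Fin s)) : Dom b L v ((DP hL δ ψ p).eval 1) (p.eval 1) := by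
  rw [DP_eval p (p.natDegree + 1) (Nat.lt_succ_self _)]
  refine Dom.sum hb hL _ _ _ fun k _ => ?_
  unfold Dps
  rw [mul_comm]
  exact Dom.smul hb hbi hL (ψ _).2 (hp.dom hnc hb hbi hs he v k)

/-- the derivatives have small denominators -/
lemma DP_qi (hb : ∀ v, (b v).Prime) (hs : Setup b hL U l d) {e : ℕ} (he : e ≤ d)
    {p : Polynomial GG} (hp : Lift hL U l e p) : QI b L ((DP hL δ ψ p).eval 1) := by
  rw [DP_eval p (p.natDegree + 1) (Nat.lt_succ_self _)]
  refine QI.sum hb hL _ _ fun k _ => ?_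
  obtain ⟨g, hg, hgq, h⟩ := Lift.line (hL := hL) (U := U) (l := l) hb hs he k
  have h1 : p.coeff k = (p.coeff k / g) * g := by field_simp
  unfold Dps
  refine QI.mul hb ?_ (QI.of_KK hb hL (ψ _).2)
  rw [h1]
  exact QI.mul hb (QI.of_KK hb hL (h p hp)) hgq

/-- the functional applied to the logarithmic derivatives gives back the derivation -/
lemma DP_recover {q : ℕ} (β : Fin q → GG) (ψ : Fin q → (GG →ₗ[KK L hL] KK L hL))
    (p : Polynomial GG)
    (h : ∀ k, ∑ j, ψ j (δ (p.coeff k) * (p.coeff k)⁻¹) • β j =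
      δ (p.coeff k) * (p.coeff k)⁻¹) :
    ∑ j, β j * (DP hL δ (ψ j) p).eval 1 = δ (p.eval 1) := by
  simp only [DP_eval p (p.natDegree + 1) (Nat.lt_succ_self _), Finset.mul_sum]
  rw [Finset.sum_comm, eval_one_eq p (p.natDegree + 1) (Nat.lt_succ_self _), map_sum]
  refine Finset.sum_congr rfl fun k _ => ?_
  have h1 : ∑ j, β j * Dps hL δ (ψ j) (p.coeff k) = p.coeff k *
      ∑ j, ψ j (δ (p.coeff k) * (p.coeff k)⁻¹) • β j := by
    rw [Finset.mul_sum]
    refine Finset.sum_congr rfl fun j _ => ?_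
    unfold Dps
    show _ = p.coeff k * (((ψ j (δ (p.coeff k) * (p.coeff k)⁻¹) : KK L hL) : GG) * β j)
    ring
  rw [h1, h]
  by_cases h0 : p.coeff k = 0
  · rw [h0]
    simp
  · field_simp

/-- the derivative of a product of powers -/
lemma DP_prod (hb : ∀ v, (b v).Prime) (hs : Setup b hL U l d) {ι : Type} (A : Finset ι)
    (e : ι → ℕ) (he : ∀ i ∈ A, 1 ≤ e i) (X : ι → Polynomial GG)
    (hX : ∀ i ∈ A, Lift hL U l 1 (X i)) (hd : ∑ i ∈ A, e i ≤ d) :
    ∃ h : GG, QI b L h ∧ (DP hL δ ψ (∏ i ∈ A, X i ^ (e i))).eval 1 =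
      (∏ i ∈ A, (X i).eval 1 ^ (e i - 1)) * h := by
  classical
  induction A using Finset.induction_on with
  | empty =>
    refine ⟨0, QI.of_KK hb hL (KK L hL).zero_mem, ?_⟩
    rw [Finset.prod_empty, mul_zero]
    have h1 : (1 : Polynomial GG) = Polynomial.C 1 * Polynomial.X ^ 0 := by simp
    rw [h1, DP_C_mul_X_pow]
    simp [Dps]
  | insert a A ha ih =>
    rw [Finset.sum_insert ha] at hd
    obtain ⟨h, hh, heq⟩ := ih (fun i hi => he i (Finset.mem_insert_of_mem hi))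
      (fun i hi => hX i (Finset.mem_insert_of_mem hi)) (by omega)
    obtain ⟨k, hk⟩ : ∃ k, e a = k + 1 :=
      ⟨e a - 1, (Nat.sub_add_cancel (he a (Finset.mem_insert_self _ _))).symm⟩
    have hXa := hX a (Finset.mem_insert_self _ _)
    have hP : Lift hL U l (∑ i ∈ A, 1 * e i) (∏ i ∈ A, X i ^ (e i)) :=
      Lift.prod _ _ _ fun i hi => (hX i (Finset.mem_insert_of_mem hi)).pow (e i)
    have hle : 1 * (k + 1) + ∑ i ∈ A, 1 * e i ≤ d := by
      simp only [one_mul]
      omega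
    refine ⟨((k : GG) + 1) * (DP hL δ ψ (X a)).eval 1 * (∏ i ∈ A, (X i).eval 1) +
      (X a).eval 1 * h, ?_, ?_⟩
    · refine QI.add hb ?_ (QI.mul hb (hXa.qi hb hs) hh)
      refine QI.mul hb (QI.mul hb ?_ (DP_qi hb hs (by omega) hXa)) ?_
      · exact QI.of_KK hb hL (add_mem (natCast_mem _ k) (one_mem _))
      · exact QI.prod hb hL _ _ fun i hi => (hX i (Finset.mem_insert_of_mem hi)).qi hb hs
    · rw [Finset.prod_insert ha, hk, DP_mul hb hs hle (hXa.pow (k + 1)) hP,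
        DP_pow hb hs hXa k (by simp only [one_mul] at hle ⊢; omega), Finset.prod_insert ha, hk,
        Nat.add_sub_cancel]
      simp only [Polynomial.eval_add, Polynomial.eval_mul, Polynomial.eval_pow, heq,
        Polynomial.eval_natCast]
      have h1 : (∏ i ∈ A, X i ^ (e i)).eval 1 =
          (∏ i ∈ A, (X i).eval 1 ^ (e i - 1)) * ∏ i ∈ A, (X i).eval 1 := by
        rw [Polynomial.eval_prod, ← Finset.prod_mul_distrib]
        refine Finset.prod_congr rfl fun i hi => ?_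
        rw [Polynomial.eval_pow, ← pow_succ,
          Nat.sub_add_cancel (he i (Finset.mem_insert_of_mem hi))]
      rw [h1]
      push_cast
      ring

end

end Pool.Agent.TH551.HA
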