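import Mathlib
import Pool.Agent.TH551.HA.NT3

/-!
# Project HA: determinants of tables
-/

set_option autoImplicit false
set_option linter.unusedSectionVars false
set_option linter.unusedVariables false

namespace Pool.Agent.TH551.HA

open Filter Topology Pool.Agent.TH932.Germs Pool.Agent.TH551.SU Pool.Agent.TH551.ZP
open Pool.Agent.TH551.SU.CRV Pool.Agent.TH551.ZP.GT

section

variable {s : ℕ} {b : Fin s → ℕ} {L : ℕ → ℝ}

/-- determinants of tables -/
noncomputable def WE {N m : ℕ} (R : Fin m → Fin N → GG) (g : Fin m → Fin N) : GG :=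
  (Matrix.of fun c i : Fin m => R i (g c)).det

lemma WE_dom (hb : ∀ v, (b v).Prime) (hbi : Function.Injective b) (hL : Tendsto L atTop atTop)
    {N m : ℕ} (R : Fin m → Fin N → GG) (A : Fin N → GG) (v : Option (Fin s))
    (h : ∀ i σ, Dom b L v (R i σ) (A σ)) (g : Fin m → Fin N) :
    Dom b L v (WE R g) (∏ c, A (g c)) := by
  unfold WE
  rw [Matrix.det_apply']
  refine Dom.sum hb hL _ _ _ fun σ _ => ?_
  refine Dom.smul hb hbi hL (intCast_mem _ _) ?_
  have h1 : ∏ c, A (g c) = ∏ i, A (g (σ i)) :=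
    (Equiv.prod_comp σ (fun c => A (g c))).symm
  rw [h1]
  exact Dom.prod hb hL _ _ _ fun i _ => h i (g (σ i))

lemma WE_qi (hb : ∀ v, (b v).Prime) (hL : Tendsto L atTop atTop) {N m : ℕ}
    (R : Fin m → Fin N → GG) (Q : Fin N → GG)
    (hQ : ∀ i σ, ∃ ω, QI b L ω ∧ R i σ = Q σ * ω) (g : Fin m → Fin N) :
    ∃ ω, QI b L ω ∧ WE R g = (∏ c, Q (g c)) * ω := by
  choose ω hω h using hQ
  refine ⟨(Matrix.of fun c i : Fin m => ω i (g c)).det, ?_, ?_⟩
  · rw [Matrix.det_apply']
    refine QI.sum hb hL _ _ fun σ _ => ?_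
    exact QI.mul hb (QI.of_KK hb hL (intCast_mem _ _)) (QI.prod hb hL _ _ fun i _ => hω _ _)
  · unfold WE
    simp only [h]
    exact Matrix.det_mul_column (fun c => Q (g c)) (Matrix.of fun c i : Fin m => ω i (g c))

lemma WE_update {m : ℕ} (R : Fin m → Fin (m + 1) → GG) (hrel : ∀ i, ∑ σ, R i σ = 0)
    (c : Fin m) : WE R Fin.castSucc =
      -WE R (Function.update (Fin.castSucc : Fin m → Fin (m + 1)) c (Fin.last m)) := by
  classical
  set M : Matrix (Fin m) (Fin m) GG := Matrix.of fun c i : Fin m => R i (Fin.castSucc c) with hM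
  set row : Fin m → GG := fun i => R i (Fin.last m) with hrow
  have h1 : M.transpose.mulVec (fun _ => 1) = (-1 : GG) • row := by
    funext i
    have h2 := hrel i
    rw [Fin.sum_univ_castSucc] at h2
    simp only [Matrix.mulVec, dotProduct, Matrix.transpose_apply, hM, Matrix.of_apply,
      Pi.smul_apply, smul_eq_mul, hrow, mul_one]
    linear_combination h2
  have h2 : M.transpose.cramer (M.transpose.mulVec (fun _ => 1)) = M.det • (fun _ => (1 : GG)) := by
    rw [Matrix.cramer_eq_adjugate_mulVec, Matrix.mulVec_mulVec, Matrix.adjugate_mul,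
      Matrix.det_transpose, Matrix.smul_mulVec, Matrix.one_mulVec]
  have h3 := congrFun h2 c
  rw [h1, Matrix.cramer_transpose_apply, Matrix.det_updateRow_smul, Pi.smul_apply,
    smul_eq_mul, mul_one] at h3
  have h4 : (M.updateRow c row).det =
      WE R (Function.update (Fin.castSucc : Fin m → Fin (m + 1)) c (Fin.last m)) := by
    unfold WE
    congr 1
    ext c' i
    rw [Matrix.updateRow_apply, Matrix.of_apply]
    by_cases h : c' = c
    · subst h
      rw [if_pos rfl, Function.update_self]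
    · rw [if_neg h, Function.update_of_ne h, hM, Matrix.of_apply]
  rw [h4] at h3
  have h5 : M.det = WE R Fin.castSucc := rfl
  rw [← h5, ← h3]
  ring

lemma prod_castSucc {m : ℕ} {M : Type*} [CommMonoid M] (f : Fin (m + 1) → M) :
    ∏ c : Fin m, f (Fin.castSucc c) = ∏ σ ∈ Finset.univ.erase (Fin.last m), f σ := by
  classical
  have h1 : (Finset.univ.erase (Fin.last m) : Finset (Fin (m + 1))) =
      Finset.univ.map Fin.castSuccEmb := by
    ext σ
    simp only [Finset.mem_erase, Finset.mem_univ, and_true, Finset.mem_map, true_and]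
    constructor
    · intro h
      exact ⟨σ.castPred h, by simp⟩
    · rintro ⟨c, rfl⟩
      exact Fin.castSucc_ne_last c
  rw [h1, Finset.prod_map]
  rfl

lemma prod_update {m : ℕ} {M : Type*} [CommMonoid M] (f : Fin (m + 1) → M) (c : Fin m) :
    ∏ c', f (Function.update (Fin.castSucc : Fin m → Fin (m + 1)) c (Fin.last m) c') =
      ∏ σ ∈ Finset.univ.erase (Fin.castSucc c), f σ := by
  classical
  have h1 : ∏ c', f (Function.update (Fin.castSucc : Fin m → Fin (m + 1)) c (Fin.last m) c') =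
      f (Fin.last m) * ∏ c' ∈ Finset.univ.erase c, f (Fin.castSucc c') := by
    rw [← Finset.mul_prod_erase _ _ (Finset.mem_univ c), Function.update_self]
    congr 1
    refine Finset.prod_congr rfl fun c' hc' => ?_
    rw [Function.update_of_ne (Finset.mem_erase.1 hc').1]
  have h2 : (Finset.univ.erase (Fin.castSucc c) : Finset (Fin (m + 1))) =
      insert (Fin.last m) ((Finset.univ.erase c).map Fin.castSuccEmb) := by
    ext σ
    simp only [Finset.mem_erase, Finset.mem_univ, and_true, Finset.mem_insert, Finset.mem_map]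
    constructor
    · intro h
      by_cases h5 : σ = Fin.last m
      · exact Or.inl h5
      · refine Or.inr ⟨σ.castPred h5, ?_, by simp⟩
        intro h6
        apply h
        rw [← h6]
        simp
    · rintro (rfl | ⟨c', h3, rfl⟩)
      · exact (Fin.castSucc_ne_last c).symm
      · intro h4
        exact h3 (Fin.castSucc_injective _ h4)
  have h3 : Fin.last m ∉ (Finset.univ.erase c).map Fin.castSuccEmb := by
    intro h4
    obtain ⟨c', _, h5⟩ := Finset.mem_map.1 h4
    exact Fin.castSucc_ne_last c' h5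
  rw [h1, h2, Finset.prod_insert h3, Finset.prod_map]
  rfl

/-- **the inequality for a table** -/
theorem tableIneq (hb : ∀ v, (b v).Prime) (hbi : Function.Injective b)
    (hL : Tendsto L atTop atTop) {m : ℕ} (R : Fin m → Fin (m + 1) → GG)
    (A : Fin (m + 1) → ℕ → ℤ) (hA0 : ∀ σ t, A σ t ≠ 0) (hW0 : WE R Fin.castSucc ≠ 0)
    (hrel : ∀ i, ∑ σ, R i σ = 0)
    (hR : ∀ v i σ, Dom b L v (R i σ) (gm (fun t => (A σ t : ℚ))))
    (P : Fin (m + 1) → ℕ → ℤ) (hP0 : ∀ σ t, P σ t ≠ 0) (hPA : ∀ σ t, P σ t ∣ A σ t)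
    (hQ : ∀ i σ, ∃ ω, QI b L ω ∧ R i σ = gm (fun t => (P σ t : ℚ)) * ω)
    (ε : ℝ) (hε : 0 < ε) :
    ∀ᶠ t in (UU : Filter ℕ), ∀ j, |(A j t : ℝ)| * ∏ v, av b v ((∏ σ, P σ t : ℤ) : ℚ) ≤
      Real.exp (ε * L t) * (|((Finset.univ.gcd (fun σ => A σ t) : ℤ) : ℝ)| *
        ∏ v, ∏ σ, av b v (A σ t : ℚ)) := by
  classical
  set W : GG := WE R Fin.castSucc with hWdef
  have hW : ∀ j, (∀ v, Dom b L v W (∏ σ ∈ Finset.univ.erase j, gm (fun t => (A σ t : ℚ)))) ∧
      ∃ ω, QI b L ω ∧ W = (∏ σ ∈ Finset.univ.erase j, gm (fun t => (P σ t : ℚ))) * ω := by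
    intro j
    refine Fin.lastCases ?_ (fun c => ?_) j
    · constructor
      · intro v
        have h1 := WE_dom hb hbi hL R _ v (fun i σ => hR v i σ) Fin.castSucc
        rwa [prod_castSucc (fun σ => gm (fun t => (A σ t : ℚ)))] at h1
      · obtain ⟨ω, hω, h1⟩ := WE_qi hb hL R _ hQ Fin.castSucc
        exact ⟨ω, hω, by
          rw [hWdef, h1, prod_castSucc (fun σ => gm (fun t => (P σ t : ℚ)))]⟩
    · have hWeq : W = (-1 : GG) *
          WE R (Function.update (Fin.castSucc : Fin m → Fin (m + 1)) c (Fin.last m)) := by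
        rw [hWdef, WE_update R hrel c]
        ring
      have hKc : (-1 : GG) ∈ KK L hL := neg_mem (KK L hL).one_mem
      constructor
      · intro v
        rw [hWeq]
        refine Dom.smul hb hbi hL hKc ?_
        have h1 := WE_dom hb hbi hL R _ v (fun i σ => hR v i σ)
          (Function.update (Fin.castSucc : Fin m → Fin (m + 1)) c (Fin.last m))
        rwa [prod_update (fun σ => gm (fun t => (A σ t : ℚ)))] at h1
      · obtain ⟨ω, hω, h1⟩ := WE_qi hb hL R _ hQ
          (Function.update (Fin.castSucc : Fin m → Fin (m + 1)) c (Fin.last m))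
        refine ⟨(-1 : GG) * ω, QI.mul hb (QI.of_KK hb hL hKc) hω, ?_⟩
        rw [hWeq, h1, prod_update (fun σ => gm (fun t => (P σ t : ℚ)))]
        ring
  choose hWd ω hω using hW
  have hQI := qi_lcm hb hL W Finset.univ P A hP0 hPA ω (fun j _ => hω j)
  set gG : GG := gm (fun t => ((Finset.univ.gcd (fun σ => A σ t) : ℤ) : ℚ)) with hgG
  set gP : GG := gm (fun t => ((∏ σ, P σ t : ℤ) : ℚ)) with hgP
  have hgG0 : gG ≠ 0 := by
    rw [hgG, gm_ne_zero]
    refine Eventually.of_forall fun t => ?_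
    have h1 : Finset.univ.gcd (fun σ => A σ t) ≠ 0 := fun h =>
      hA0 0 t (Finset.gcd_eq_zero_iff.1 h 0 (Finset.mem_univ _))
    exact_mod_cast h1
  have hgP0 : gP ≠ 0 := by
    rw [hgP, gm_ne_zero]
    refine Eventually.of_forall fun t => ?_
    exact_mod_cast Finset.prod_ne_zero_iff.2 fun σ _ => hP0 σ t
  set Ω : GG := W * gG / gP with hΩ
  have hΩ0 : Ω ≠ 0 := div_ne_zero (mul_ne_zero hW0 hgG0) hgP0
  have hs2 : (0 : ℝ) < (s : ℝ) + 2 := by positivity
  obtain ⟨ε1, hε1⟩ : ∃ ε1 : ℝ, ε1 = ε / (s + 2) := ⟨_, rfl⟩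
  have hε1' : 0 < ε1 := by rw [hε1]; positivity
  have hdom' : ∀ᶠ t in (UU : Filter ℕ), ∀ v, ∀ j, j ∈ (Finset.univ : Finset (Fin (m + 1))) →
      av b v (rep W t) * av b v (A j t : ℚ) ≤
        Real.exp (ε1 * L t) * ∏ σ, av b v (A σ t : ℚ) := by
    refine eventually_all.2 fun v => eventually_all.2 fun j => ?_
    have h1 := hWd j v ε1 hε1'
    rw [gm_prod'] at h1
    filter_upwards [h1, rep_gm (fun t => ∏ σ ∈ Finset.univ.erase j, (A σ t : ℚ))] with t h3 h4 _
    rw [h4, av_prod hb] at h3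
    rw [← Finset.mul_prod_erase _ _ (Finset.mem_univ j)]
    have h5 := av_nonneg hb v (A j t : ℚ)
    calc av b v (rep W t) * av b v (A j t : ℚ) ≤
        (Real.exp (ε1 * L t) * ∏ σ ∈ Finset.univ.erase j, av b v (A σ t : ℚ)) *
          av b v (A j t : ℚ) := mul_le_mul_of_nonneg_right h3 h5
      _ = _ := by ring
  have hWΩ : ∀ᶠ t in (UU : Filter ℕ), rep W t *
      ((Finset.univ.gcd (fun σ => A σ t) : ℤ) : ℚ) = ((∏ σ, P σ t : ℤ) : ℚ) * rep Ω t := by
    have h1 : W * gG = gP * Ω := by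
      rw [hΩ, mul_div_cancel₀ _ hgP0]
    have h2 := rep_mul W gG
    have h3 := rep_mul gP Ω
    rw [← h1] at h3
    filter_upwards [h2, h3, rep_gm (fun t => ((Finset.univ.gcd (fun σ => A σ t) : ℤ) : ℚ)),
      rep_gm (fun t => ((∏ σ, P σ t : ℤ) : ℚ))] with t h4 h5 h6 h7
    rw [← h6, ← h7, ← h4, ← h5]
  filter_upwards [hdom', hWΩ, QI.lower hb hbi hL hQI hΩ0 ε1 hε1'] with t h1 h2 h3 j
  have h4 := placesJ hb Finset.univ Finset.univ_nonempty (fun σ => A σ t) (fun σ => hA0 σ t)
    (∏ σ, P σ t) (rep W t) (rep Ω t) (L t) ε1 h1 h2 h3 j (Finset.mem_univ j)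
  have h5 : ((s : ℝ) + 2) * ε1 = ε := by
    rw [hε1]
    field_simp
  rw [h5] at h4
  exact h4

end

end Pool.Agent.TH551.HA
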