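import Mathlib
import Pool.Agent.TH551.HA.Jc2
import Pool.Agent.TH551.HA.Jc3

/-!
# Project HA: generic points of the hyperplane which are products of sums of S-units, germs
-/

set_option autoImplicit false
set_option linter.unusedSectionVars false
set_option linter.unusedVariables false

namespace Pool.Agent.TH551.HA

open Filter Topology Pool.Agent.TH932.Germs Pool.Agent.TH551.SU Pool.Agent.TH551.ZP
open Pool.Agent.TH551.SU.CRV Pool.Agent.TH551.ZP.GT

section

variable {s : ℕ} {b : Fin s → ℕ} {L : ℕ → ℝ} {r : ℕ} {hL : Tendsto L atTop atTop}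
  {U : Fin (r + 1) → GG} {l : Fin (r + 1) → ℕ} {d : ℕ}

/-- the rows of the table -/
noncomputable def rowJ (hL : Tendsto L atTop atTop) {N m q : ℕ} (a : Fin N → Polynomial GG)
    (δ : Fin m → DerQ GG) (ψ : Fin q → (GG →ₗ[KK L hL] KK L hL)) :
    Option (Fin m × Fin q) → Fin N → GG
  | none, σ => (a σ).eval 1
  | some ij, σ => (DP hL (δ ij.1) (ψ ij.2) (a σ)).eval 1

/-- a table with nonvanishing determinant -/
theorem exists_table {m : ℕ} (a : Fin (m + 2) → Polynomial GG)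
    (hgen : ∀ G : MvPolynomial (Fin (m + 1)) ℚ, (∃ e, G.IsHomogeneous e) → G ≠ 0 →
      MvPolynomial.aeval (fun i : Fin (m + 1) => (a (Fin.castSucc i)).eval 1) G ≠ 0) :
    ∃ (q : ℕ) (δ : Fin m → DerQ GG) (ψ : Fin q → (GG →ₗ[KK L hL] KK L hL))
      (ρ : Fin (m + 1) → Option (Fin m × Fin q)),
      WE (fun i σ => rowJ hL a δ ψ (ρ i) σ) Fin.castSucc ≠ 0 := by
  classical
  set A' : Fin (m + 1) → GG := fun i => (a (Fin.castSucc i)).eval 1 with hA'
  have hA0 : A' 0 ≠ 0 := by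
    have h := hgen (MvPolynomial.X 0) ⟨1, MvPolynomial.isHomogeneous_X _ _⟩
      (MvPolynomial.X_ne_zero _)
    simpa using h
  obtain ⟨δ, hδ⟩ := exists_dual_der _ (algInd_of_generic A' hgen)
  have hdet := det_ne A' hA0 δ hδ
  set S : Set GG := ⋃ (i : Fin m), ⋃ (σ : Fin (m + 2)),
    (fun k => δ i ((a σ).coeff k) * ((a σ).coeff k)⁻¹) '' ((a σ).support : Set ℕ) with hS
  have hSf : S.Finite := Set.finite_iUnion fun i => Set.finite_iUnion fun σ =>
    ((a σ).support.finite_toSet).image _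
  obtain ⟨q, β, ψ, hψ⟩ := exists_functionals (F := KK L hL) S hSf
  have hrec : ∀ (i : Fin m) (σ : Fin (m + 2)),
      ∑ j, β j * (DP hL (δ i) (ψ j) (a σ)).eval 1 = δ i ((a σ).eval 1) := by
    intro i σ
    refine DP_recover β ψ (a σ) fun k => ?_
    by_cases hk : k ∈ (a σ).support
    · refine hψ _ ?_
      rw [hS]
      refine Set.mem_iUnion.2 ⟨i, Set.mem_iUnion.2 ⟨σ, ?_⟩⟩
      exact ⟨k, hk, rfl⟩
    · rw [Polynomial.notMem_support_iff.1 hk]
      simp
  obtain ⟨ρ, hρ⟩ := det_pick (J := Option (Fin m × Fin q))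
    (fun i c : Fin (m + 1) => (Fin.cases (A' c) (fun i => δ i (A' c)) i : GG))
    (fun i j => (Fin.cases (if j = none then (1 : GG) else 0)
      (fun i => match j with
        | none => 0
        | some ij => if ij.1 = i then β ij.2 else 0) i : GG))
    (fun j c => rowJ hL a δ ψ j (Fin.castSucc c)) (by
      intro i
      funext c
      rw [Finset.sum_apply, Fintype.sum_option]
      refine Fin.cases ?_ (fun i => ?_) i
      · simp [rowJ, hA']
      · simp only [Fin.cases_succ, Pi.smul_apply, smul_eq_mul, zero_mul, zero_add]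
        rw [Fintype.sum_prod_type]
        have h1 : ∀ x : Fin m, ∑ y : Fin q, (if x = i then β y else 0) *
            rowJ hL a δ ψ (some (x, y)) (Fin.castSucc c) =
            if x = i then δ i (A' c) else 0 := by
          intro x
          by_cases h : x = i
          · subst h
            simp only [if_true]
            exact (hrec x (Fin.castSucc c))
          · simp [h]
        rw [Finset.sum_congr rfl fun x _ => h1 x]
        simp) hdet
  refine ⟨q, δ, ψ, ρ, ?_⟩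
  unfold WE
  rw [← Matrix.det_transpose] at hρ
  exact hρ

/-- **the `n`-term inequality for germs** -/
theorem abcdGerm (hnc : NcStmt) (hcs : CSStmt) (hb : ∀ v, (b v).Prime)
    (hbi : Function.Injective b) (hs : Setup b hL U l d) (hU0 : U 0 = 1) {m : ℕ} (k : ℕ)
    (τ : Fin k → Fin (m + 2)) (e : Fin k → ℕ) (he : ∀ i, 1 ≤ e i) (hd : 1 + ∑ i, e i ≤ d)
    (X : Fin k → Polynomial GG) (hX : ∀ i, Lift hL U l 1 (X i)) (x : Fin k → ℕ → ℤ)
    (hx : ∀ i, (X i).eval 1 = gm (fun t => (x i t : ℚ))) (w : Fin (m + 2) → ℕ → ℤ)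
    (hwS : ∀ σ t, IsSU b (w σ t : ℚ)) (ι : Fin (m + 2) → Fin (r + 1))
    (hw : ∀ σ, U (ι σ) = gm (fun t => (w σ t : ℚ))) (A : Fin (m + 2) → ℕ → ℤ)
    (hA : ∀ σ t, A σ t = w σ t * ∏ i with τ i = σ, x i t ^ (e i)) (hA0 : ∀ σ t, A σ t ≠ 0)
    (hsum : ∀ t, ∑ σ, A σ t = 0)
    (hgen : ∀ G : MvPolynomial (Fin (m + 1)) ℚ, (∃ e, G.IsHomogeneous e) → G ≠ 0 →
      MvPolynomial.aeval (fun i : Fin (m + 1) => gm (fun t => (A (Fin.castSucc i) t : ℚ))) G ≠ 0)
    (ε : ℝ) (hε : 0 < ε) :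
    ∀ᶠ t in (UU : Filter ℕ), ∀ j, |(A j t : ℝ)| ≤ Real.exp (ε * L t) *
      (|((Finset.univ.gcd (fun σ => A σ t) : ℤ) : ℝ)| * ∏ i, |(x i t : ℝ)|) := by
  classical
  obtain ⟨F, hF⟩ : ∃ F : Fin (m + 2) → Finset (Fin k),
      F = fun σ => Finset.univ.filter (fun i => τ i = σ) := ⟨_, rfl⟩
  have hA' : ∀ σ t, A σ t = w σ t * ∏ i ∈ F σ, x i t ^ (e i) := fun σ t => by
    rw [hA, hF]
  have hmem : ∀ i σ, i ∈ F σ ↔ τ i = σ := fun i σ => by
    rw [hF]
    simp
  have hFle : ∀ σ, ∑ i ∈ F σ, e i ≤ ∑ i, e i := fun σ => by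
    rw [hF]
    exact Finset.sum_le_sum_of_subset (Finset.filter_subset _ _)
  obtain ⟨E, hE⟩ : ∃ E : Polynomial GG, E = Polynomial.X ^ (l 0) := ⟨_, rfl⟩
  have hEL : Lift hL U l 1 E := by
    have h := Lift.gen (hL := hL) (U := U) (l := l) 0
    rw [hU0, Polynomial.C_1, one_mul] at h
    rw [hE]
    exact h
  have hE1 : E.eval 1 = 1 := by rw [hE]; simp
  obtain ⟨K, hK⟩ : ∃ K : Fin (m + 2) → Polynomial GG, K = fun σ =>
    E ^ (∑ i, e i - ∑ i ∈ F σ, e i) *
    (Polynomial.C (U (ι σ)) * Polynomial.X ^ (l (ι σ))) := ⟨_, rfl⟩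
  obtain ⟨P, hP⟩ : ∃ P : Fin (m + 2) → Polynomial GG, P = fun σ => ∏ i ∈ F σ, X i ^ (e i) :=
    ⟨_, rfl⟩
  have hKL : ∀ σ, Lift hL U l (1 * (∑ i, e i - ∑ i ∈ F σ, e i) + 1) (K σ) := fun σ => by
    rw [hK]
    exact (hEL.pow _).mul (Lift.gen _)
  have hPL : ∀ σ, Lift hL U l (∑ i ∈ F σ, 1 * e i) (P σ) := fun σ => by
    rw [hP]
    exact Lift.prod _ _ _ fun i _ => (hX i).pow (e i)
  have hdeg : ∀ σ, ∑ i ∈ F σ, 1 * e i + (1 * (∑ i, e i - ∑ i ∈ F σ, e i) + 1) =
      1 + ∑ i, e i := by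
    intro σ
    have h4 := hFle σ
    simp only [one_mul]
    omega
  have haL : ∀ σ, Lift hL U l (1 + ∑ i, e i) (P σ * K σ) := by
    intro σ
    have h2 := (hPL σ).mul (hKL σ)
    rwa [hdeg σ] at h2
  have hK1 : ∀ σ, (K σ).eval 1 = gm (fun t => (w σ t : ℚ)) := by
    intro σ
    rw [← hw σ, hK]
    simp [hE1]
  have hP1 : ∀ σ, (P σ).eval 1 = gm (fun t => ∏ i ∈ F σ, (x i t : ℚ) ^ (e i)) := by
    intro σ
    rw [hP]
    simp only
    rw [Polynomial.eval_prod, ← gm_prod']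
    refine Finset.prod_congr rfl fun i _ => ?_
    rw [Polynomial.eval_pow, hx, gm_pow]
  have ha1 : ∀ σ, (P σ * K σ).eval 1 = gm (fun t => (A σ t : ℚ)) := by
    intro σ
    rw [Polynomial.eval_mul, hK1, hP1, gm_mul]
    congr 1
    funext t
    rw [hA' σ t]
    push_cast
    ring
  have hx0 : ∀ i t, x i t ≠ 0 := by
    intro i t h0
    apply hA0 (τ i) t
    rw [hA', Finset.prod_eq_zero ((hmem i _).2 rfl)
      (by rw [h0, zero_pow (by have := he i; omega)]), mul_zero]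
  have hzero : ∑ σ, P σ * K σ = 0 := by
    refine (Lift.sum Finset.univ _ _ fun σ _ => haL σ).eq_zero hcs hb hbi hs hd ?_
    rw [Polynomial.eval_finsetSum]
    simp only [ha1]
    rw [gm_sum', ← gm_zero]
    congr 1
    funext t
    have h1 := hsum t
    exact_mod_cast h1
  -- the divisors
  obtain ⟨G, hG⟩ : ∃ G : Fin (m + 2) → ℕ → ℤ, G = fun σ t => ∏ i ∈ F σ, x i t ^ (e i - 1) :=
    ⟨_, rfl⟩
  have hG0 : ∀ σ t, G σ t ≠ 0 := fun σ t => by
    rw [hG]
    exact Finset.prod_ne_zero_iff.2 fun i _ => pow_ne_zero _ (hx0 i t)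
  have hGA : ∀ σ t, G σ t ∣ A σ t := by
    intro σ t
    rw [hA', hG]
    exact Dvd.dvd.mul_left (Finset.prod_dvd_prod_of_dvd _ _ fun i _ =>
      pow_dvd_pow _ (Nat.sub_le _ _)) _
  have hG1 : ∀ σ, gm (fun t => (G σ t : ℚ)) = ∏ i ∈ F σ, (X i).eval 1 ^ (e i - 1) := by
    intro σ
    have h4 : ∀ i, (X i).eval 1 ^ (e i - 1) = gm (fun t => (x i t : ℚ) ^ (e i - 1)) := by
      intro i
      rw [hx, gm_pow]
    simp only [h4]
    rw [gm_prod']
    congr 1
    funext t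
    rw [hG]
    push_cast
    rfl
  have hPG : ∀ σ, (P σ).eval 1 = gm (fun t => (G σ t : ℚ)) * ∏ i ∈ F σ, (X i).eval 1 := by
    intro σ
    rw [hG1, ← Finset.prod_mul_distrib, hP]
    simp only
    rw [Polynomial.eval_prod]
    refine Finset.prod_congr rfl fun i _ => ?_
    rw [Polynomial.eval_pow, ← pow_succ, Nat.sub_add_cancel (he i)]
  obtain ⟨q, δ, ψ, ρ, hρ⟩ := exists_table (hL := hL) (fun σ => P σ * K σ)
    (by simp only [ha1]; exact hgen)
  have hrow0 : ∀ j : Option (Fin m × Fin q),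
      ∑ σ, rowJ hL (fun σ => P σ * K σ) δ ψ j σ = 0 := by
    intro j
    rcases j with _ | ij
    · show ∑ σ, (P σ * K σ).eval 1 = 0
      rw [← Polynomial.eval_finsetSum, hzero, Polynomial.eval_zero]
    · show ∑ σ, (DP hL (δ ij.1) (ψ ij.2) (P σ * K σ)).eval 1 = 0
      rw [← Polynomial.eval_finsetSum, DP_sum_zero hb hs hd Finset.univ _
        (fun σ _ => haL σ) hzero, Polynomial.eval_zero]
  have hrowd : ∀ (v : Option (Fin s)) (j : Option (Fin m × Fin q)) (σ : Fin (m + 2)),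
      Dom b L v (rowJ hL (fun σ => P σ * K σ) δ ψ j σ) (gm (fun t => (A σ t : ℚ))) := by
    intro v j σ
    rcases j with _ | ij
    · show Dom b L v ((P σ * K σ).eval 1) _
      rw [ha1]
      exact Dom.refl hb hL v _
    · show Dom b L v ((DP hL (δ ij.1) (ψ ij.2) (P σ * K σ)).eval 1) _
      rw [← ha1]
      exact DP_dom hnc hb hbi hs hd (haL σ) v
  have hXqi : ∀ σ, QI b L (∏ i ∈ F σ, (X i).eval 1) := fun σ =>
    QI.prod hb hL _ _ fun i _ => (hX i).qi hb hs
  have hrowq : ∀ (j : Option (Fin m × Fin q)) (σ : Fin (m + 2)), ∃ ω, QI b L ω ∧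
      rowJ hL (fun σ => P σ * K σ) δ ψ j σ = gm (fun t => (G σ t : ℚ)) * ω := by
    intro j σ
    rcases j with _ | ij
    · refine ⟨(∏ i ∈ F σ, (X i).eval 1) * (K σ).eval 1, QI.mul hb (hXqi σ) ((hKL σ).qi hb hs),
        ?_⟩
      show (P σ * K σ).eval 1 = _
      rw [Polynomial.eval_mul, hPG]
      ring
    · obtain ⟨h, hh, heq⟩ := DP_prod (δ := δ ij.1) (ψ := ψ ij.2) hb hs (F σ) e
        (fun i _ => he i) X (fun i _ => hX i) (by have := hFle σ; omega)
      refine ⟨h * (K σ).eval 1 + (∏ i ∈ F σ, (X i).eval 1) *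
        (DP hL (δ ij.1) (ψ ij.2) (K σ)).eval 1, ?_, ?_⟩
      · refine QI.add hb (QI.mul hb hh ((hKL σ).qi hb hs)) (QI.mul hb (hXqi σ) ?_)
        refine DP_qi hb hs ?_ (hKL σ)
        have := hdeg σ
        omega
      · show (DP hL (δ ij.1) (ψ ij.2) (P σ * K σ)).eval 1 = _
        rw [DP_mul hb hs (by rw [hdeg σ]; exact hd) (hPL σ) (hKL σ), Polynomial.eval_add,
          Polynomial.eval_mul, Polynomial.eval_mul, hPG]
        have h1 : (DP hL (δ ij.1) (ψ ij.2) (P σ)).eval 1 = gm (fun t => (G σ t : ℚ)) * h := by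
          rw [hG1, hP]
          exact heq
        rw [h1]
        ring
  have key := tableIneq hb hbi hL (fun i σ => rowJ hL (fun σ => P σ * K σ) δ ψ (ρ i) σ) A hA0 hρ
    (fun i => hrow0 (ρ i)) (fun v i σ => hrowd v (ρ i) σ) G hG0 hGA
    (fun i σ => hrowq (ρ i) σ) ε hε
  filter_upwards [key] with t ht j
  -- products over the places
  obtain ⟨S, hS⟩ : ∃ S : Fin k → ℝ, S = fun i => ∏ v, av b v (x i t : ℚ) := ⟨_, rfl⟩
  have hSpos : ∀ i, 0 < S i := fun i => by
    rw [hS]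
    exact Finset.prod_pos fun v _ => av_pos hb v (by exact_mod_cast hx0 i t)
  have hSle : ∀ i, S i ≤ |(x i t : ℝ)| := by
    intro i
    rw [hS]
    simp only
    rw [Fintype.prod_option]
    have h1 : ∏ v : Fin s, av b (some v) (x i t : ℚ) ≤ 1 :=
      Finset.prod_le_one (fun v _ => av_nonneg hb _ _) fun v _ => av_int_le_one hb v _
    have h2 : av b none (x i t : ℚ) = |(x i t : ℝ)| := by
      simp only [av]
      push_cast
      rfl
    rw [h2]
    exact mul_le_of_le_one_right (abs_nonneg _) h1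
  have hprodA : ∀ σ, ∏ v, av b v (A σ t : ℚ) = ∏ i ∈ F σ, S i ^ (e i) := by
    intro σ
    have h1 : ∀ v, av b v (A σ t : ℚ) = av b v (w σ t : ℚ) *
        ∏ i ∈ F σ, av b v (x i t : ℚ) ^ (e i) := by
      intro v
      rw [hA' σ t]
      push_cast
      rw [av_mul hb, av_prod hb]
      congr 1
      exact Finset.prod_congr rfl fun i _ => av_pow hb v _ _
    rw [Finset.prod_congr rfl fun v _ => h1 v, Finset.prod_mul_distrib,
      prod_av_unit hb hbi (hwS σ t), one_mul, Finset.prod_comm]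
    refine Finset.prod_congr rfl fun i _ => ?_
    rw [Finset.prod_pow, hS]
  have hprodG : ∀ σ, ∏ v, av b v (G σ t : ℚ) = ∏ i ∈ F σ, S i ^ (e i - 1) := by
    intro σ
    have h1 : ∀ v, av b v (G σ t : ℚ) = ∏ i ∈ F σ, av b v (x i t : ℚ) ^ (e i - 1) := by
      intro v
      rw [hG]
      push_cast
      rw [av_prod hb]
      exact Finset.prod_congr rfl fun i _ => av_pow hb v _ _
    rw [Finset.prod_congr rfl fun v _ => h1 v, Finset.prod_comm]
    refine Finset.prod_congr rfl fun i _ => ?_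
    rw [Finset.prod_pow, hS]
  have hGG : ∏ v, av b v ((∏ σ, G σ t : ℤ) : ℚ) = ∏ σ, ∏ i ∈ F σ, S i ^ (e i - 1) := by
    have h1 : ∀ v, av b v ((∏ σ, G σ t : ℤ) : ℚ) = ∏ σ, av b v (G σ t : ℚ) := by
      intro v
      push_cast
      exact av_prod hb v Finset.univ _
    rw [Finset.prod_congr rfl fun v _ => h1 v, Finset.prod_comm]
    exact Finset.prod_congr rfl fun σ _ => hprodG σ
  have hAA : ∏ v, ∏ σ, av b v (A σ t : ℚ) = ∏ σ, ∏ i ∈ F σ, S i ^ (e i) := by
    rw [Finset.prod_comm]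
    exact Finset.prod_congr rfl fun σ _ => hprodA σ
  have hsplit : ∏ σ, ∏ i ∈ F σ, S i ^ (e i) =
      (∏ σ, ∏ i ∈ F σ, S i) * ∏ σ, ∏ i ∈ F σ, S i ^ (e i - 1) := by
    rw [← Finset.prod_mul_distrib]
    refine Finset.prod_congr rfl fun σ _ => ?_
    rw [← Finset.prod_mul_distrib]
    refine Finset.prod_congr rfl fun i _ => ?_
    rw [← pow_succ', Nat.sub_add_cancel (he i)]
  have hGpos : 0 < ∏ σ, ∏ i ∈ F σ, S i ^ (e i - 1) :=
    Finset.prod_pos fun σ _ => Finset.prod_pos fun i _ => pow_pos (hSpos i) _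
  have h1 := ht j
  rw [hGG, hAA, hsplit] at h1
  have h2 : |(A j t : ℝ)| ≤ Real.exp (ε * L t) *
      (|((Finset.univ.gcd (fun σ => A σ t) : ℤ) : ℝ)| * ∏ σ, ∏ i ∈ F σ, S i) := by
    refine le_of_mul_le_mul_right (h1.trans_eq ?_) hGpos
    ring
  refine h2.trans ?_
  refine mul_le_mul_of_nonneg_left (mul_le_mul_of_nonneg_left ?_ (abs_nonneg _))
    (Real.exp_pos _).le
  have h4 : ∏ i, S i = ∏ σ, ∏ i ∈ F σ, S i := by
    rw [hF]
    exact (Finset.prod_fiberwise (g := τ) Finset.univ _).symm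
  rw [← h4]
  exact Finset.prod_le_prod (fun i _ => (hSpos i).le) fun i _ => hSle i

end

end Pool.Agent.TH551.HA
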