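import Mathlib

/-!
# Project HA: normal crossings divisors on the product of two lines, algebra
-/

set_option autoImplicit false
set_option linter.unusedSectionVars false
set_option linter.unusedVariables false

namespace Pool.Agent.TH551.HA.P1

open MvPolynomial

/-- the Nullstellensatz for three polynomials -/
lemma null3 (f g h p : MvPolynomial (Fin 4) ℚ)
    (H : ∀ z : Fin 4 → ℂ, aeval z f = 0 → aeval z g = 0 → aeval z h = 0 → aeval z p = 0) :
    ∃ (n : ℕ) (α β γ : MvPolynomial (Fin 4) ℚ), p ^ n = α * f + β * g + γ * h := by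
  have h1 : p ∈ (Ideal.span {f, g, h}).radical := by
    rw [← vanishingIdeal_zeroLocus_eq_radical (K := ℂ), mem_vanishingIdeal_iff]
    intro z hz
    rw [mem_zeroLocus_iff] at hz
    exact H z (hz f (Ideal.subset_span (by simp))) (hz g (Ideal.subset_span (by simp)))
      (hz h (Ideal.subset_span (by simp)))
  obtain ⟨n, hn⟩ := h1
  rw [Ideal.mem_span_insert] at hn
  obtain ⟨α, z, hz, h2⟩ := hn
  rw [Ideal.mem_span_pair] at hz
  obtain ⟨β, γ, h3⟩ := hz
  exact ⟨n, α, β, γ, by rw [h2, ← h3]; ring⟩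

section abs

variable {K : Type} [Field K] [Algebra ℚ K]

lemma aeval_mem (A : Subalgebra ℚ K) (x : Fin 4 → K) (hx : ∀ c, x c ∈ A)
    (p : MvPolynomial (Fin 4) ℚ) : aeval x p ∈ A := by
  induction p using MvPolynomial.induction_on with
  | C a => rw [aeval_C]; exact A.algebraMap_mem a
  | add p q hp hq => rw [map_add]; exact A.add_mem hp hq
  | mul_X p i hp => rw [map_mul, aeval_X]; exact A.mul_mem hp (hx i)

/-- the local inequality for a divisor with normal crossings, in a chart -/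
theorem absNC (A : Subalgebra ℚ K) {N : ℕ} (F : Fin N → MvPolynomial (Fin 4) ℚ)
    (a a' b b' : Fin 4) (x : Fin 4 → K) (hx : ∀ c, x c ∈ A) (P : Fin N → K)
    (hF : ∀ i, ∃ ω ∈ A, aeval x (F i) = P i * ω) (u v : Fin 2 → K) (hu : ∀ k, u k ∈ A)
    (hv : ∀ k, v k ∈ A)
    (hT : ∀ i k, ∃ ω ∈ A, x b * aeval x (pderiv a' (F i)) * u k +
      x a * aeval x (pderiv b' (F i)) * v k = P i * ω)
    (n1 : ∀ i, ∃ (n : ℕ) (α β γ : MvPolynomial (Fin 4) ℚ), (X a * X b) ^ n =
      α * F i + β * pderiv a' (F i) + γ * pderiv b' (F i))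
    (n2 : ∀ i j, i ≠ j → ∃ (n : ℕ) (α β γ : MvPolynomial (Fin 4) ℚ), (X a * X b) ^ n =
      α * F i + β * F j + γ * (pderiv a' (F i) * pderiv b' (F j) -
        pderiv a' (F j) * pderiv b' (F i)))
    (n3 : ∀ i j k, i ≠ j → i ≠ k → j ≠ k → ∃ (n : ℕ) (α β γ : MvPolynomial (Fin 4) ℚ),
      (X a * X b) ^ n = α * F i + β * F j + γ * F k) :
    ∃ (n : ℕ), ∃ ω ∈ A, (x a * x b) ^ n * (u 0 * v 1 - u 1 * v 0) = (∏ i, P i) * ω := by
  classical
  set W : K := u 0 * v 1 - u 1 * v 0 with hW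
  have hWA : W ∈ A := A.sub_mem (A.mul_mem (hu 0) (hv 1)) (A.mul_mem (hu 1) (hv 0))
  have hm : ∀ p : MvPolynomial (Fin 4) ℚ, aeval x p ∈ A := aeval_mem A x hx
  suffices H : ∀ (m : ℕ) (J : Finset (Fin N)), J.card = m →
      ∃ (n : ℕ), ∃ ω ∈ A, (x a * x b) ^ n * W = (∏ i ∈ J, P i) * ω from H _ _ rfl
  intro m
  induction m using Nat.strong_induction_on with
  | _ m ih =>
  intro J hJ
  have hcase : m = 0 ∨ m = 1 ∨ m = 2 ∨ 2 < m := by omega
  rcases hcase with h0 | h0 | h0 | h0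
  · subst h0
    rw [Finset.card_eq_zero] at hJ
    subst hJ
    exact ⟨0, W, hWA, by simp⟩
  · subst h0
    obtain ⟨i, rfl⟩ := Finset.card_eq_one.1 hJ
    obtain ⟨n, α, β, γ, h1⟩ := n1 i
    obtain ⟨ω0, hω0, hF0⟩ := hF i
    obtain ⟨ω1, hω1, hT1⟩ := hT i 0
    obtain ⟨ω2, hω2, hT2⟩ := hT i 1
    have h2 := congrArg (aeval x) h1
    simp only [map_mul, map_add, map_pow, aeval_X] at h2
    refine ⟨n + 1, aeval x α * (x a * x b) * ω0 * W + aeval x β * x a * (v 1 * ω1 - v 0 * ω2) +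
      aeval x γ * x b * (u 0 * ω2 - u 1 * ω1), ?_, ?_⟩
    · refine A.add_mem (A.add_mem ?_ ?_) ?_
      · exact A.mul_mem (A.mul_mem (A.mul_mem (hm _) (A.mul_mem (hx _) (hx _))) hω0) hWA
      · exact A.mul_mem (A.mul_mem (hm _) (hx _)) (A.sub_mem (A.mul_mem (hv _) hω1)
          (A.mul_mem (hv _) hω2))
      · exact A.mul_mem (A.mul_mem (hm _) (hx _)) (A.sub_mem (A.mul_mem (hu _) hω2)
          (A.mul_mem (hu _) hω1))
    · rw [Finset.prod_singleton, pow_succ, h2, hW]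
      linear_combination (aeval x α * (x a * x b) * (u 0 * v 1 - u 1 * v 0)) * hF0 +
        (aeval x β * x a) * (v 1 * hT1 - v 0 * hT2) + (aeval x γ * x b) * (u 0 * hT2 - u 1 * hT1)
  · subst h0
    obtain ⟨i, j, hij, rfl⟩ := Finset.card_eq_two.1 hJ
    obtain ⟨n, α, β, γ, h1⟩ := n2 i j hij
    obtain ⟨ω0, hω0, hF0⟩ := hF i
    obtain ⟨ω0', hω0', hF0'⟩ := hF j
    obtain ⟨ω1, hω1, hT1⟩ := hT i 0
    obtain ⟨ω2, hω2, hT2⟩ := hT i 1
    obtain ⟨ω1', hω1', hT1'⟩ := hT j 0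
    obtain ⟨ω2', hω2', hT2'⟩ := hT j 1
    obtain ⟨ni, ωi, hωi, hi⟩ := ih 1 (by norm_num) {i} (Finset.card_singleton i)
    obtain ⟨nj, ωj, hωj, hj⟩ := ih 1 (by norm_num) {j} (Finset.card_singleton j)
    rw [Finset.prod_singleton] at hi hj
    have h2 := congrArg (aeval x) h1
    simp only [map_mul, map_add, map_sub, map_pow, aeval_X] at h2
    refine ⟨n + 1 + ni + nj, aeval x α * (x a * x b) ^ (1 + ni) * ω0 * ωj +
      aeval x β * (x a * x b) ^ (1 + nj) * ω0' * ωi +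
      aeval x γ * (x a * x b) ^ (ni + nj) * (ω1 * ω2' - ω2 * ω1'), ?_, ?_⟩
    · refine A.add_mem (A.add_mem ?_ ?_) ?_
      · exact A.mul_mem (A.mul_mem (A.mul_mem (hm _) (A.pow_mem (A.mul_mem (hx _) (hx _)) _))
          hω0) hωj
      · exact A.mul_mem (A.mul_mem (A.mul_mem (hm _) (A.pow_mem (A.mul_mem (hx _) (hx _)) _))
          hω0') hωi
      · exact A.mul_mem (A.mul_mem (hm _) (A.pow_mem (A.mul_mem (hx _) (hx _)) _))
          (A.sub_mem (A.mul_mem hω1 hω2') (A.mul_mem hω2 hω1'))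
    · rw [Finset.prod_pair hij]
      have e1 : (x a * x b) ^ (n + 1 + ni + nj) * W =
          ((x a * x b) ^ n) * (x a * x b) * (x a * x b) ^ ni * (x a * x b) ^ nj * W := by
        rw [pow_add, pow_add, pow_add, pow_one]
      rw [e1, h2]
      have e2 : (x a * x b) * (aeval x (pderiv a' (F i)) * aeval x (pderiv b' (F j)) -
          aeval x (pderiv a' (F j)) * aeval x (pderiv b' (F i))) * W =
          P i * P j * (ω1 * ω2' - ω2 * ω1') := by
        rw [hW]
        linear_combination (x b * aeval x (pderiv a' (F j)) * u 1 +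
          x a * aeval x (pderiv b' (F j)) * v 1) * hT1 + P i * ω1 * hT2' -
          (x b * aeval x (pderiv a' (F j)) * u 0 +
          x a * aeval x (pderiv b' (F j)) * v 0) * hT2 - P i * ω2 * hT1'
      rw [hF0, hF0', pow_add (x a * x b) 1 ni, pow_add (x a * x b) 1 nj,
        pow_add (x a * x b) ni nj, pow_one]
      linear_combination (aeval x α * (P i * ω0) * (x a * x b) * (x a * x b) ^ ni) * hj +
        (aeval x β * (P j * ω0') * (x a * x b) * (x a * x b) ^ nj) * hi +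
        (aeval x γ * (x a * x b) ^ ni * (x a * x b) ^ nj) * e2
  · have h3 : 2 < J.card := by omega
    obtain ⟨i, hi, j, hj, k, hk, hij, hik, hjk⟩ := Finset.two_lt_card.1 h3
    obtain ⟨n, α, β, γ, h1⟩ := n3 i j k hij hik hjk
    obtain ⟨ω1, hω1, hF1⟩ := hF i
    obtain ⟨ω2, hω2, hF2⟩ := hF j
    obtain ⟨ω3, hω3, hF3⟩ := hF k
    have key : ∀ l ∈ J, ∃ (n : ℕ), ∃ ω ∈ A, (x a * x b) ^ n * W =
        (∏ i ∈ J.erase l, P i) * ω := fun l hl =>
      ih (m - 1) (by omega) (J.erase l) (by rw [Finset.card_erase_of_mem hl, hJ])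
    obtain ⟨m1, τ1, hτ1, h4⟩ := key i hi
    obtain ⟨m2, τ2, hτ2, h5⟩ := key j hj
    obtain ⟨m3, τ3, hτ3, h6⟩ := key k hk
    have h2 := congrArg (aeval x) h1
    simp only [map_mul, map_add, map_pow, aeval_X] at h2
    rw [hF1, hF2, hF3] at h2
    refine ⟨n + m1 + m2 + m3, aeval x α * (x a * x b) ^ (m2 + m3) * ω1 * τ1 +
      aeval x β * (x a * x b) ^ (m1 + m3) * ω2 * τ2 +
      aeval x γ * (x a * x b) ^ (m1 + m2) * ω3 * τ3, ?_, ?_⟩
    · refine A.add_mem (A.add_mem ?_ ?_) ?_ <;>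
      · refine A.mul_mem (A.mul_mem (A.mul_mem (hm _) (A.pow_mem (A.mul_mem (hx _) (hx _)) _))
          ?_) ?_ <;> assumption
    · have e1 : (x a * x b) ^ (n + m1 + m2 + m3) * W =
          ((x a * x b) ^ n) * (x a * x b) ^ m1 * (x a * x b) ^ m2 * (x a * x b) ^ m3 * W := by
        rw [pow_add, pow_add, pow_add]
      rw [e1, h2]
      have e4 := Finset.mul_prod_erase J P hi
      have e5 := Finset.mul_prod_erase J P hj
      have e6 := Finset.mul_prod_erase J P hk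
      rw [pow_add (x a * x b) m2 m3, pow_add (x a * x b) m1 m3, pow_add (x a * x b) m1 m2]
      linear_combination (aeval x α * (P i * ω1) * (x a * x b) ^ m2 * (x a * x b) ^ m3) * h4 +
        (aeval x β * (P j * ω2) * (x a * x b) ^ m1 * (x a * x b) ^ m3) * h5 +
        (aeval x γ * (P k * ω3) * (x a * x b) ^ m1 * (x a * x b) ^ m2) * h6 +
        (aeval x α * ω1 * (x a * x b) ^ m2 * (x a * x b) ^ m3 * τ1) * e4 +
        (aeval x β * ω2 * (x a * x b) ^ m1 * (x a * x b) ^ m3 * τ2) * e5 +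
        (aeval x γ * ω3 * (x a * x b) ^ m1 * (x a * x b) ^ m2 * τ3) * e6

end abs

end Pool.Agent.TH551.HA.P1
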