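import Mathlib
import Pool.Agent.TH551.HA.Jp1

/-!
# Project HA: normal crossings divisors on the product of two lines, charts
-/

set_option autoImplicit false
set_option linter.unusedSectionVars false
set_option linter.unusedVariables false

namespace Pool.Agent.TH551.HA.P1

open MvPolynomial

/-- the four affine charts -/
def Chart (a a' b b' : Fin 4) : Prop :=
  ((a = 0 ∧ a' = 1) ∨ (a = 1 ∧ a' = 0)) ∧ ((b = 2 ∧ b' = 3) ∨ (b = 3 ∧ b' = 2))

lemma Chart.cases {a a' b b' : Fin 4} (h : Chart a a' b b') (c : Fin 4) :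
    c = a ∨ c = a' ∨ c = b ∨ c = b' := by
  obtain ⟨h1, h2⟩ := h
  rcases h1 with ⟨rfl, rfl⟩ | ⟨rfl, rfl⟩ <;> rcases h2 with ⟨rfl, rfl⟩ | ⟨rfl, rfl⟩ <;>
    fin_cases c <;> simp

section euler

variable {K : Type} [Field K] [Algebra ℚ K] {F : MvPolynomial (Fin 4) ℚ} {q r : ℕ}

lemma euler1 (hq : F.IsWeightedHomogeneous ![1, 1, 0, 0] q) (x : Fin 4 → K) :
    x 0 * aeval x (pderiv 0 F) + x 1 * aeval x (pderiv 1 F) = (q : K) * aeval x F := by
  have h := congrArg (aeval x) hq.sum_weight_X_mul_pderiv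
  rw [Fin.sum_univ_four] at h
  simpa using h

lemma euler2 (hr : F.IsWeightedHomogeneous ![0, 0, 1, 1] r) (x : Fin 4 → K) :
    x 2 * aeval x (pderiv 2 F) + x 3 * aeval x (pderiv 3 F) = (r : K) * aeval x F := by
  have h := congrArg (aeval x) hr.sum_weight_X_mul_pderiv
  rw [Fin.sum_univ_four] at h
  simpa using h

lemma Chart.euler {a a' b b' : Fin 4} (h : Chart a a' b b')
    (hq : F.IsWeightedHomogeneous ![1, 1, 0, 0] q) (hr : F.IsWeightedHomogeneous ![0, 0, 1, 1] r)
    (x : Fin 4 → K) :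
    x a * aeval x (pderiv a F) + x a' * aeval x (pderiv a' F) = (q : K) * aeval x F ∧
    x b * aeval x (pderiv b F) + x b' * aeval x (pderiv b' F) = (r : K) * aeval x F := by
  obtain ⟨h1, h2⟩ := h
  have e1 := euler1 hq x
  have e2 := euler2 hr x
  rcases h1 with ⟨rfl, rfl⟩ | ⟨rfl, rfl⟩ <;> rcases h2 with ⟨rfl, rfl⟩ | ⟨rfl, rfl⟩ <;>
    constructor <;> first | exact e1 | exact e2 | (rw [add_comm]; exact e1) |
      (rw [add_comm]; exact e2)

end euler

section nc

variable {N : ℕ} {F : Fin N → MvPolynomial (Fin 4) ℚ} {q r : Fin N → ℕ}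

lemma li_of (z : Fin 4 → ℂ) (hli : LinearIndependent ℂ
      (fun i : {i : Fin N // aeval z (F i) = 0} => fun c : Fin 4 => aeval z (pderiv c (F i))))
    (g : Fin N → ℂ) (hg : ∀ i, g i ≠ 0 → aeval z (F i) = 0)
    (h0 : ∀ c, ∑ i, g i * aeval z (pderiv c (F i)) = 0) : ∀ i, g i = 0 := by
  classical
  rw [Fintype.linearIndependent_iff] at hli
  have h1 := hli (fun i => g i) (by
    funext c
    rw [Finset.sum_apply]
    simp only [Pi.smul_apply, smul_eq_mul, Pi.zero_apply]
    have h2 := Fintype.sum_subtype_add_sum_subtype (fun i => aeval z (F i) = 0)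
      (fun i => g i * aeval z (pderiv c (F i)))
    rw [h0 c] at h2
    have h3 : ∑ i : {i : Fin N // ¬ aeval z (F i) = 0}, g i * aeval z (pderiv c (F i)) = 0 :=
      Finset.sum_eq_zero fun i _ => by
        have h4 : g i = 0 := by
          by_contra h5
          exact i.2 (hg i h5)
        rw [h4, zero_mul]
    rw [h3, add_zero] at h2
    exact h2)
  intro i
  by_cases hi : aeval z (F i) = 0
  · exact h1 ⟨i, hi⟩
  · by_contra h2
    exact hi (hg i h2)

variable (hq : ∀ i, (F i).IsWeightedHomogeneous ![1, 1, 0, 0] (q i))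
  (hr : ∀ i, (F i).IsWeightedHomogeneous ![0, 0, 1, 1] (r i))
  (hNC : ∀ z : Fin 4 → ℂ, (z 0 ≠ 0 ∨ z 1 ≠ 0) → (z 2 ≠ 0 ∨ z 3 ≠ 0) → LinearIndependent ℂ
    (fun i : {i : Fin N // aeval z (F i) = 0} => fun c : Fin 4 => aeval z (pderiv c (F i))))

include hq hr hNC

lemma li_chart {a a' b b' : Fin 4} (hc : Chart a a' b b') (z : Fin 4 → ℂ) (ha : z a ≠ 0)
    (hb : z b ≠ 0) (g : Fin N → ℂ) (hg : ∀ i, g i ≠ 0 → aeval z (F i) = 0)
    (hX : ∑ i, g i * aeval z (pderiv a' (F i)) = 0)
    (hY : ∑ i, g i * aeval z (pderiv b' (F i)) = 0) : ∀ i, g i = 0 := by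
  have hz1 : z 0 ≠ 0 ∨ z 1 ≠ 0 := by
    rcases hc.1 with ⟨rfl, rfl⟩ | ⟨rfl, rfl⟩
    · exact Or.inl ha
    · exact Or.inr ha
  have hz2 : z 2 ≠ 0 ∨ z 3 ≠ 0 := by
    rcases hc.2 with ⟨rfl, rfl⟩ | ⟨rfl, rfl⟩
    · exact Or.inl hb
    · exact Or.inr hb
  refine li_of z (hNC z hz1 hz2) g hg ?_
  have hgF : ∀ i, g i * aeval z (F i) = 0 := by
    intro i
    by_cases h : g i = 0
    · rw [h, zero_mul]
    · rw [hg i h, mul_zero]
  have hA : ∑ i, g i * aeval z (pderiv a (F i)) = 0 := by
    have h1 : z a * ∑ i, g i * aeval z (pderiv a (F i)) +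
        z a' * ∑ i, g i * aeval z (pderiv a' (F i)) = 0 := by
      rw [Finset.mul_sum, Finset.mul_sum, ← Finset.sum_add_distrib]
      refine Finset.sum_eq_zero fun i _ => ?_
      have h2 := (hc.euler (hq i) (hr i) z).1
      linear_combination g i * h2 + (q i : ℂ) * hgF i
    rw [hX, mul_zero, add_zero] at h1
    exact (mul_eq_zero.1 h1).resolve_left ha
  have hB : ∑ i, g i * aeval z (pderiv b (F i)) = 0 := by
    have h1 : z b * ∑ i, g i * aeval z (pderiv b (F i)) +
        z b' * ∑ i, g i * aeval z (pderiv b' (F i)) = 0 := by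
      rw [Finset.mul_sum, Finset.mul_sum, ← Finset.sum_add_distrib]
      refine Finset.sum_eq_zero fun i _ => ?_
      have h2 := (hc.euler (hq i) (hr i) z).2
      linear_combination g i * h2 + (r i : ℂ) * hgF i
    rw [hY, mul_zero, add_zero] at h1
    exact (mul_eq_zero.1 h1).resolve_left hb
  intro c
  rcases hc.cases c with rfl | rfl | rfl | rfl
  · exact hA
  · exact hX
  · exact hB
  · exact hY

omit hq hr hNC in
lemma ssum (i : Fin N) (α : ℂ) (f : Fin N → ℂ) :
    ∑ l, (Pi.single i α : Fin N → ℂ) l * f l = α * f i := by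
  rw [Finset.sum_eq_single i]
  · rw [Pi.single_eq_same]
  · intro l _ hl
    rw [Pi.single_eq_of_ne hl, zero_mul]
  · intro h
    exact absurd (Finset.mem_univ _) h

lemma smooth_chart {a a' b b' : Fin 4} (hc : Chart a a' b b') (z : Fin 4 → ℂ) (ha : z a ≠ 0)
    (hb : z b ≠ 0) (i : Fin N) (hi : aeval z (F i) = 0)
    (hX : aeval z (pderiv a' (F i)) = 0) (hY : aeval z (pderiv b' (F i)) = 0) : False := by
  classical
  have h := li_chart hq hr hNC hc z ha hb (Pi.single i 1) (by
    intro l hl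
    by_cases h : l = i
    · rw [h, hi]
    · exact absurd (Pi.single_eq_of_ne h _) hl) (by rw [ssum, hX, mul_zero])
    (by rw [ssum, hY, mul_zero]) i
  rw [Pi.single_eq_same] at h
  exact one_ne_zero h

lemma trans_chart {a a' b b' : Fin 4} (hc : Chart a a' b b') (z : Fin 4 → ℂ) (ha : z a ≠ 0)
    (hb : z b ≠ 0) (i j : Fin N) (hij : i ≠ j) (hi : aeval z (F i) = 0)
    (hj : aeval z (F j) = 0)
    (hXY : aeval z (pderiv a' (F i)) * aeval z (pderiv b' (F j)) -
      aeval z (pderiv a' (F j)) * aeval z (pderiv b' (F i)) = 0) : False := by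
  classical
  have key : ∀ α β : ℂ, α * aeval z (pderiv a' (F i)) + β * aeval z (pderiv a' (F j)) = 0 →
      α * aeval z (pderiv b' (F i)) + β * aeval z (pderiv b' (F j)) = 0 → β = 0 := by
    intro α β h1 h2
    have h := li_chart hq hr hNC hc z ha hb (Pi.single i α + Pi.single j β) (by
      intro l hl
      by_cases h3 : l = i
      · rw [h3, hi]
      · by_cases h4 : l = j
        · rw [h4, hj]
        · refine absurd ?_ hl
          rw [Pi.add_apply, Pi.single_eq_of_ne h3, Pi.single_eq_of_ne h4, add_zero])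
      (by
        simp only [Pi.add_apply, add_mul, Finset.sum_add_distrib]
        rw [ssum, ssum, h1])
      (by
        simp only [Pi.add_apply, add_mul, Finset.sum_add_distrib]
        rw [ssum, ssum, h2]) j
    rw [Pi.add_apply, Pi.single_eq_of_ne (Ne.symm hij), Pi.single_eq_same, zero_add] at h
    exact h
  have h1 := key (-aeval z (pderiv a' (F j))) (aeval z (pderiv a' (F i))) (by ring)
    (by linear_combination hXY)
  have h2 := key (-aeval z (pderiv b' (F j))) (aeval z (pderiv b' (F i)))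
    (by linear_combination -hXY) (by ring)
  exact smooth_chart hq hr hNC hc z ha hb i hi h1 h2

lemma nc1 {a a' b b' : Fin 4} (hc : Chart a a' b b') (i : Fin N) :
    ∃ (n : ℕ) (α β γ : MvPolynomial (Fin 4) ℚ), (X a * X b) ^ n =
      α * F i + β * pderiv a' (F i) + γ * pderiv b' (F i) := by
  refine null3 _ _ _ _ fun z h1 h2 h3 => ?_
  by_contra h
  rw [map_mul, aeval_X, aeval_X, mul_eq_zero, not_or] at h
  exact smooth_chart hq hr hNC hc z h.1 h.2 i h1 h2 h3

lemma nc2 {a a' b b' : Fin 4} (hc : Chart a a' b b') (i j : Fin N) (hij : i ≠ j) :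
    ∃ (n : ℕ) (α β γ : MvPolynomial (Fin 4) ℚ), (X a * X b) ^ n =
      α * F i + β * F j + γ * (pderiv a' (F i) * pderiv b' (F j) -
        pderiv a' (F j) * pderiv b' (F i)) := by
  refine null3 _ _ _ _ fun z h1 h2 h3 => ?_
  by_contra h
  rw [map_mul, aeval_X, aeval_X, mul_eq_zero, not_or] at h
  rw [map_sub, map_mul, map_mul] at h3
  exact trans_chart hq hr hNC hc z h.1 h.2 i j hij h1 h2 h3

lemma nc3 {a a' b b' : Fin 4} (hc : Chart a a' b b') (i j k : Fin N) (hij : i ≠ j)
    (hik : i ≠ k) (hjk : j ≠ k) :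
    ∃ (n : ℕ) (α β γ : MvPolynomial (Fin 4) ℚ), (X a * X b) ^ n =
      α * F i + β * F j + γ * F k := by
  classical
  refine null3 _ _ _ _ fun z h1 h2 h3 => ?_
  by_contra h
  rw [map_mul, aeval_X, aeval_X, mul_eq_zero, not_or] at h
  refine trans_chart hq hr hNC hc z h.1 h.2 i j hij h1 h2 ?_
  set Xi := aeval z (pderiv a' (F i))
  set Xj := aeval z (pderiv a' (F j))
  set Xk := aeval z (pderiv a' (F k))
  set Yi := aeval z (pderiv b' (F i))
  set Yj := aeval z (pderiv b' (F j))
  set Yk := aeval z (pderiv b' (F k))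
  have h4 := li_chart hq hr hNC hc z h.1 h.2 (Pi.single i (Xj * Yk - Xk * Yj) +
    Pi.single j (Xk * Yi - Xi * Yk) + Pi.single k (Xi * Yj - Xj * Yi)) (by
      intro l hl
      by_cases h5 : l = i
      · rw [h5, h1]
      · by_cases h6 : l = j
        · rw [h6, h2]
        · by_cases h7 : l = k
          · rw [h7, h3]
          · refine absurd ?_ hl
            rw [Pi.add_apply, Pi.add_apply, Pi.single_eq_of_ne h5, Pi.single_eq_of_ne h6,
              Pi.single_eq_of_ne h7, add_zero, add_zero])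
      (by
        simp only [Pi.add_apply, add_mul, Finset.sum_add_distrib]
        rw [ssum, ssum, ssum]
        ring)
      (by
        simp only [Pi.add_apply, add_mul, Finset.sum_add_distrib]
        rw [ssum, ssum, ssum]
        ring) k
  rw [Pi.add_apply, Pi.add_apply, Pi.single_eq_of_ne (Ne.symm hik),
    Pi.single_eq_of_ne (Ne.symm hjk), Pi.single_eq_same, zero_add, zero_add] at h4
  exact h4

end nc

end Pool.Agent.TH551.HA.P1
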