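import Mathlib
import Pool.Agent.TH551.HA.Jp2

/-!
# Project HA: normal crossings divisors on the product of two lines, scaling
-/

set_option autoImplicit false
set_option linter.unusedSectionVars false
set_option linter.unusedVariables false

namespace Pool.Agent.TH551.HA.P1

open MvPolynomial

section scale

variable {K : Type} [Field K] [Algebra ℚ K] {F : MvPolynomial (Fin 4) ℚ} {q r : ℕ}

lemma wt1 (hq : F.IsWeightedHomogeneous ![1, 1, 0, 0] q) {α : Fin 4 →₀ ℕ}
    (hα : α ∈ F.support) : α 0 + α 1 = q := by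
  have h2 := hq (MvPolynomial.mem_support_iff.1 hα)
  rw [Finsupp.weight_apply, Finsupp.sum_fintype _ _ (by simp), Fin.sum_univ_four] at h2
  simpa using h2

lemma wt2 (hr : F.IsWeightedHomogeneous ![0, 0, 1, 1] r) {α : Fin 4 →₀ ℕ}
    (hα : α ∈ F.support) : α 2 + α 3 = r := by
  have h2 := hr (MvPolynomial.mem_support_iff.1 hα)
  rw [Finsupp.weight_apply, Finsupp.sum_fintype _ _ (by simp), Fin.sum_univ_four] at h2
  simpa using h2

/-- scaling -/
def sc (l m : K) : Fin 4 → K := ![l, l, m, m]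

lemma sc_prod (hq : F.IsWeightedHomogeneous ![1, 1, 0, 0] q)
    (hr : F.IsWeightedHomogeneous ![0, 0, 1, 1] r) (l m : K) {α : Fin 4 →₀ ℕ}
    (hα : α ∈ F.support) : ∏ c, sc l m c ^ (α c) = l ^ q * m ^ r := by
  rw [Fin.prod_univ_four, ← wt1 hq hα, ← wt2 hr hα]
  simp only [sc, Matrix.cons_val_zero, Matrix.cons_val_one, Matrix.cons_val]
  ring

lemma aeval_sc (hq : F.IsWeightedHomogeneous ![1, 1, 0, 0] q)
    (hr : F.IsWeightedHomogeneous ![0, 0, 1, 1] r) (l m : K) (x : Fin 4 → K) :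
    aeval (fun c => sc l m c * x c) F = l ^ q * m ^ r * aeval x F := by
  rw [aeval_def, aeval_def, eval₂_eq', eval₂_eq', Finset.mul_sum]
  refine Finset.sum_congr rfl fun α hα => ?_
  simp only [mul_pow, Finset.prod_mul_distrib]
  rw [sc_prod hq hr l m hα]
  ring

lemma pderiv_sc (hq : F.IsWeightedHomogeneous ![1, 1, 0, 0] q)
    (hr : F.IsWeightedHomogeneous ![0, 0, 1, 1] r) (l m : K) (x : Fin 4 → K) (c : Fin 4) :
    aeval (fun c => sc l m c * x c) (pderiv c F) * sc l m c =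
      l ^ q * m ^ r * aeval x (pderiv c F) := by
  classical
  have h1 : pderiv c F = ∑ α ∈ F.support, pderiv c (monomial α (coeff α F)) := by
    conv_lhs => rw [F.as_sum]
    rw [map_sum]
  rw [h1, map_sum, map_sum, Finset.sum_mul, Finset.mul_sum]
  refine Finset.sum_congr rfl fun α hα => ?_
  rw [pderiv_monomial, aeval_monomial, aeval_monomial]
  by_cases h0 : α c = 0
  · rw [h0]
    simp
  rw [Finsupp.prod_fintype _ _ (fun i => pow_zero _), Finsupp.prod_fintype _ _
    (fun i => pow_zero _)]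
  simp only [mul_pow, Finset.prod_mul_distrib]
  have h2 : (∏ i, sc l m i ^ ((α - Finsupp.single c 1 : Fin 4 →₀ ℕ) i)) * sc l m c = l ^ q * m ^ r := by
    rw [← sc_prod hq hr l m hα]
    have h3 : sc l m c = ∏ i, sc l m i ^ ((Finsupp.single c 1 : Fin 4 →₀ ℕ) i) := by
      rw [Finset.prod_eq_single c]
      · rw [Finsupp.single_eq_same, pow_one]
      · intro i _ hi
        rw [Finsupp.single_eq_of_ne hi, pow_zero]
      · intro h
        exact absurd (Finset.mem_univ _) h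
    rw [h3, ← Finset.prod_mul_distrib]
    refine Finset.prod_congr rfl fun i _ => ?_
    rw [← pow_add]
    congr 1
    rw [Finsupp.tsub_apply]
    by_cases hi : i = c
    · subst hi
      rw [Finsupp.single_eq_same]
      omega
    · rw [Finsupp.single_eq_of_ne hi]
      omega
  linear_combination (algebraMap ℚ K (coeff α F * (α c : ℚ)) *
    ∏ i, x i ^ ((α - Finsupp.single c 1 : Fin 4 →₀ ℕ) i)) * h2

end scale

section core

variable {K : Type} [Field K] [Algebra ℚ K] {N : ℕ} {F : Fin N → MvPolynomial (Fin 4) ℚ}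
  {q r : Fin N → ℕ}

/-- the Wronskian -/
def WW (x : Fin 4 → K) (D : Fin 2 → Fin 4 → K) : K :=
  (x 0 * D 0 1 - x 1 * D 0 0) * (x 2 * D 1 3 - x 3 * D 1 2) -
    (x 0 * D 1 1 - x 1 * D 1 0) * (x 2 * D 0 3 - x 3 * D 0 2)

theorem core (hq : ∀ i, (F i).IsWeightedHomogeneous ![1, 1, 0, 0] (q i))
    (hr : ∀ i, (F i).IsWeightedHomogeneous ![0, 0, 1, 1] (r i))
    (hNC : ∀ z : Fin 4 → ℂ, (z 0 ≠ 0 ∨ z 1 ≠ 0) → (z 2 ≠ 0 ∨ z 3 ≠ 0) → LinearIndependent ℂ
      (fun i : {i : Fin N // aeval z (F i) = 0} => fun c : Fin 4 => aeval z (pderiv c (F i))))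
    (A : Subalgebra ℚ K) {a a' b b' : Fin 4} (hc : Chart a a' b b') (x : Fin 4 → K)
    (D : Fin 2 → Fin 4 → K) (l m : K) (P : Fin N → K) (hx : ∀ c, sc l m c * x c ∈ A)
    (hD : ∀ k c, sc l m c * D k c ∈ A)
    (hF : ∀ i, ∃ ω ∈ A, l ^ q i * m ^ r i * aeval x (F i) = P i * ω)
    (hR : ∀ i k, ∃ ω ∈ A, l ^ q i * m ^ r i * ∑ c, aeval x (pderiv c (F i)) * D k c = P i * ω) :
    ∃ (n : ℕ), ∃ ω ∈ A, ((sc l m a * x a) * (sc l m b * x b)) ^ n *
      (l ^ 2 * m ^ 2 * WW x D) = (∏ i, P i) * ω := by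
  have key := absNC A F a a' b b' (fun c => sc l m c * x c) hx P
    (fun i => by
      obtain ⟨ω, hω, h⟩ := hF i
      exact ⟨ω, hω, by rw [aeval_sc (hq i) (hr i), h]⟩)
    (fun k => (sc l m a * x a) * (sc l m a' * D k a') - (sc l m a' * x a') * (sc l m a * D k a))
    (fun k => (sc l m b * x b) * (sc l m b' * D k b') - (sc l m b' * x b') * (sc l m b * D k b))
    (fun k => A.sub_mem (A.mul_mem (hx _) (hD _ _)) (A.mul_mem (hx _) (hD _ _)))
    (fun k => A.sub_mem (A.mul_mem (hx _) (hD _ _)) (A.mul_mem (hx _) (hD _ _)))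
    (fun i k => by
      obtain ⟨ω, hω, h⟩ := hF i
      obtain ⟨ω', hω', h'⟩ := hR i k
      have e1 := (hc.euler (hq i) (hr i) (fun c => sc l m c * x c)).1
      have e2 := (hc.euler (hq i) (hr i) (fun c => sc l m c * x c)).2
      rw [aeval_sc (hq i) (hr i), h] at e1 e2
      have e3 : ∑ c, aeval (fun c => sc l m c * x c) (pderiv c (F i)) * (sc l m c * D k c) =
          P i * ω' := by
        rw [← h', Finset.mul_sum]
        refine Finset.sum_congr rfl fun c _ => ?_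
        have h4 := pderiv_sc (hq i) (hr i) l m x c
        linear_combination D k c * h4
      have e4 : ∀ f : Fin 4 → K, ∑ c, f c = f a + f a' + f b + f b' := by
        intro f
        rw [Fin.sum_univ_four]
        obtain ⟨h1, h2⟩ := hc
        rcases h1 with ⟨rfl, rfl⟩ | ⟨rfl, rfl⟩ <;> rcases h2 with ⟨rfl, rfl⟩ | ⟨rfl, rfl⟩ <;> ring
      rw [e4] at e3
      refine ⟨(sc l m a * x a) * (sc l m b * x b) * ω' - ω * ((sc l m b * x b) * (q i : K) *
        (sc l m a * D k a) + (sc l m a * x a) * (r i : K) * (sc l m b * D k b)), ?_, ?_⟩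
      · refine A.sub_mem (A.mul_mem (A.mul_mem (hx _) (hx _)) hω') (A.mul_mem hω
          (A.add_mem ?_ ?_))
        · exact A.mul_mem (A.mul_mem (hx _) (natCast_mem A _)) (hD _ _)
        · exact A.mul_mem (A.mul_mem (hx _) (natCast_mem A _)) (hD _ _)
      · linear_combination ((sc l m a * x a) * (sc l m b * x b)) * e3 -
          ((sc l m b * x b) * (sc l m a * D k a)) * e1 -
          ((sc l m a * x a) * (sc l m b * D k b)) * e2)
    (fun i => nc1 hq hr hNC hc i) (fun i j hij => nc2 hq hr hNC hc i j hij)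
    (fun i j k h1 h2 h3 => nc3 hq hr hNC hc i j k h1 h2 h3)
  obtain ⟨n, ω, hω, h⟩ := key
  obtain ⟨h1, h2⟩ := hc
  rcases h1 with ⟨rfl, rfl⟩ | ⟨rfl, rfl⟩ <;> rcases h2 with ⟨rfl, rfl⟩ | ⟨rfl, rfl⟩
  · refine ⟨n, ω, hω, ?_⟩
    rw [← h]
    simp only [WW, sc, Matrix.cons_val_zero, Matrix.cons_val_one, Matrix.cons_val]
    ring
  · refine ⟨n, -ω, A.neg_mem hω, ?_⟩
    rw [mul_neg, ← h]
    simp only [WW, sc, Matrix.cons_val_zero, Matrix.cons_val_one, Matrix.cons_val]
    ring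
  · refine ⟨n, -ω, A.neg_mem hω, ?_⟩
    rw [mul_neg, ← h]
    simp only [WW, sc, Matrix.cons_val_zero, Matrix.cons_val_one, Matrix.cons_val]
    ring
  · refine ⟨n, ω, hω, ?_⟩
    rw [← h]
    simp only [WW, sc, Matrix.cons_val_zero, Matrix.cons_val_one, Matrix.cons_val]
    ring

end core

end Pool.Agent.TH551.HA.P1
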