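import Mathlib
import Pool.Agent.TH551.HA.Jp3
import Pool.Agent.TH551.HA.Jc2

/-!
# Project HA: normal crossings divisors on the product of two lines, derivations of lifts
-/

set_option autoImplicit false
set_option linter.unusedSectionVars false
set_option linter.unusedVariables false

namespace Pool.Agent.TH551.HA.P1

open Filter Topology Pool.Agent.TH932.Germs Pool.Agent.TH551.SU Pool.Agent.TH551.ZP
open Pool.Agent.TH551.SU.CRV Pool.Agent.TH551.ZP.GT MvPolynomial

lemma der_const {K : Type} [Field K] [Algebra ℚ K] (δ : DerQ K) (a : ℚ) :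
    δ (algebraMap ℚ K a) = 0 := δ.map_algebraMap a

section

variable {s : ℕ} {b : Fin s → ℕ} {L : ℕ → ℝ} {r : ℕ} {hL : Tendsto L atTop atTop}
  {U : Fin (r + 1) → GG} {l : Fin (r + 1) → ℕ} {d : ℕ}
  {δ : DerQ GG} {ψ : GG →ₗ[KK L hL] KK L hL}

lemma DP_sum (hb : ∀ v, (b v).Prime) (hs : Setup b hL U l d) {e : ℕ} (he : e ≤ d)
    {ι : Type} (A : Finset ι) (p : ι → Polynomial GG) (hp : ∀ i ∈ A, Lift hL U l e (p i)) :
    DP hL δ ψ (∑ i ∈ A, p i) = ∑ i ∈ A, DP hL δ ψ (p i) := by
  ext k
  obtain ⟨g, hg, _, h⟩ := Lift.line (hL := hL) (U := U) (l := l) hb hs he k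
  rw [DP_coeff, Polynomial.finsetSum_coeff, Polynomial.finsetSum_coeff]
  simp only [DP_coeff]
  exact Dps_sum _ _ hg fun i hi => h _ (hp i hi)

lemma rat_mem (a : ℚ) : algebraMap ℚ GG a ∈ KK L hL := by
  have h : algebraMap ℚ GG a = (a : GG) := eq_ratCast (algebraMap ℚ GG) a
  rw [h]
  exact SubfieldClass.ratCast_mem _ a

lemma DP_const (a : ℚ) :
    DP hL δ ψ (algebraMap ℚ (Polynomial GG) a) = 0 := by
  have h1 : algebraMap ℚ (Polynomial GG) a =
      Polynomial.C (algebraMap ℚ GG a) * Polynomial.X ^ 0 := by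
    rw [pow_zero, mul_one]
    rfl
  rw [h1, DP_C_mul_X_pow]
  have h2 : Dps hL δ ψ (algebraMap ℚ GG a) = 0 := by
    unfold Dps
    rw [der_const, zero_mul, map_zero]
    simp
  rw [h2, Polynomial.C_0, zero_mul]

lemma lift_mono (X : Fin 4 → Polynomial GG) (hX : ∀ c, Lift hL U l 1 (X c)) (α : Fin 4 →₀ ℕ)
    (a : ℚ) : Lift hL U l (∑ c, α c) (aeval X (monomial α a)) := by
  rw [aeval_monomial, Finsupp.prod_fintype _ _ (fun i => pow_zero _)]
  have h1 : algebraMap ℚ (Polynomial GG) a = Polynomial.C (algebraMap ℚ GG a) := rfl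
  rw [h1]
  refine Lift.smul ?_ (rat_mem a)
  have h2 := Lift.prod (hL := hL) (U := U) (l := l) Finset.univ (fun c => 1 * α c)
    (fun c => X c ^ (α c)) (fun c _ => (hX c).pow (α c))
  simpa using h2

/-- the chain rule for monomials -/
lemma chain_mono (hb : ∀ v, (b v).Prime) (hs : Setup b hL U l d) (X : Fin 4 → Polynomial GG)
    (hX : ∀ c, Lift hL U l 1 (X c)) (n : ℕ) (α : Fin 4 →₀ ℕ) (hα : ∑ c, α c = n) (hn : n ≤ d)
    (a : ℚ) : DP hL δ ψ (aeval X (monomial α a)) =
      ∑ c, aeval X (pderiv c (monomial α a)) * DP hL δ ψ (X c) := by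
  classical
  induction n generalizing α with
  | zero =>
    have h1 : α = 0 := by
      ext c
      exact Finset.sum_eq_zero_iff.1 hα c (Finset.mem_univ _)
    rw [h1]
    have h2 : (monomial (0 : Fin 4 →₀ ℕ) a : MvPolynomial (Fin 4) ℚ) = C a := rfl
    rw [h2, aeval_C, DP_const]
    symm
    refine Finset.sum_eq_zero fun c _ => ?_
    rw [pderiv_C, map_zero, zero_mul]
  | succ n ih =>
    obtain ⟨c0, hc0⟩ : ∃ c0, α c0 ≠ 0 := by
      by_contra hno
      push Not at hno
      rw [Finset.sum_eq_zero fun c _ => hno c] at hα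
      omega
    obtain ⟨β, hβ⟩ : ∃ β : Fin 4 →₀ ℕ, α = β + Finsupp.single c0 1 :=
      ⟨α - Finsupp.single c0 1, by
        rw [tsub_add_cancel_of_le]
        rw [Finsupp.single_le_iff]
        omega⟩
    have hβs : ∑ c, β c = n := by
      have h1 : ∑ c, α c = ∑ c, β c + 1 := by
        rw [hβ]
        simp only [Finsupp.add_apply, Finset.sum_add_distrib]
        congr 1
        rw [Finset.sum_eq_single c0]
        · rw [Finsupp.single_eq_same]
        · intro c _ hc
          rw [Finsupp.single_eq_of_ne hc]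
        · intro h
          exact absurd (Finset.mem_univ _) h
      omega
    have hmon : (monomial α a : MvPolynomial (Fin 4) ℚ) = monomial β a * MvPolynomial.X c0 := by
      rw [hβ, MvPolynomial.X, monomial_mul, mul_one]
    have hLβ := lift_mono (hL := hL) (U := U) (l := l) X hX β a
    rw [hβs] at hLβ
    rw [hmon, map_mul, aeval_X, DP_mul hb hs hn hLβ (hX c0), ih β hβs (by omega)]
    have h1 : ∀ c, aeval X (pderiv c (monomial β a * MvPolynomial.X c0)) * DP hL δ ψ (X c) =
        aeval X (pderiv c (monomial β a)) * DP hL δ ψ (X c) * X c0 +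
          (if c = c0 then aeval X (monomial β a) * DP hL δ ψ (X c) else 0) := by
      intro c
      rw [Derivation.leibniz, pderiv_X, map_add]
      by_cases hc : c = c0
      · subst hc
        rw [if_pos rfl, Pi.single_eq_same]
        simp only [smul_eq_mul, mul_one, map_mul, aeval_X]
        ring
      · rw [if_neg hc, Pi.single_eq_of_ne (Ne.symm hc)]
        simp only [smul_eq_mul, mul_zero, map_mul, aeval_X, map_zero]
        ring
    rw [Finset.sum_congr rfl fun c _ => h1 c, Finset.sum_add_distrib, Finset.sum_ite_eq',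
      if_pos (Finset.mem_univ _), Finset.sum_mul]

lemma eval_aeval (X : Fin 4 → Polynomial GG) (p : MvPolynomial (Fin 4) ℚ) :
    (aeval X p).eval 1 = aeval (fun c => (X c).eval 1) p := by
  induction p using MvPolynomial.induction_on with
  | C a =>
    rw [aeval_C, aeval_C]
    have h1 : algebraMap ℚ (Polynomial GG) a = Polynomial.C (algebraMap ℚ GG a) := rfl
    rw [h1, Polynomial.eval_C]
  | add p q hp hq => rw [map_add, map_add, Polynomial.eval_add, hp, hq]
  | mul_X p i hp => rw [map_mul, map_mul, aeval_X, aeval_X, Polynomial.eval_mul, hp]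

lemma lift_aeval (X : Fin 4 → Polynomial GG) (hX : ∀ c, Lift hL U l 1 (X c))
    (F : MvPolynomial (Fin 4) ℚ) {q q' : ℕ} (hq : F.IsWeightedHomogeneous ![1, 1, 0, 0] q)
    (hr : F.IsWeightedHomogeneous ![0, 0, 1, 1] q') : Lift hL U l (q + q') (aeval X F) := by
  rw [F.as_sum, map_sum]
  refine Lift.sum _ _ _ fun α hα => ?_
  have h1 := lift_mono (hL := hL) (U := U) (l := l) X hX α (coeff α F)
  have h2 : ∑ c, α c = q + q' := by
    rw [Fin.sum_univ_four, ← wt1 hq hα, ← wt2 hr hα]
    ring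
  rwa [h2] at h1

/-- the chain rule -/
lemma chain (hb : ∀ v, (b v).Prime) (hs : Setup b hL U l d) (X : Fin 4 → Polynomial GG)
    (hX : ∀ c, Lift hL U l 1 (X c)) (F : MvPolynomial (Fin 4) ℚ) {q q' : ℕ}
    (hq : F.IsWeightedHomogeneous ![1, 1, 0, 0] q)
    (hr : F.IsWeightedHomogeneous ![0, 0, 1, 1] q') (hd : q + q' ≤ d) :
    (DP hL δ ψ (aeval X F)).eval 1 = ∑ c, aeval (fun c => (X c).eval 1) (pderiv c F) *
      (DP hL δ ψ (X c)).eval 1 := by
  have hsum : ∀ α ∈ F.support, ∑ c, α c = q + q' := by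
    intro α hα
    rw [Fin.sum_univ_four, ← wt1 hq hα, ← wt2 hr hα]
    ring
  have h1 : DP hL δ ψ (aeval X F) = ∑ c, aeval X (pderiv c F) * DP hL δ ψ (X c) := by
    have h2 : aeval X F = ∑ α ∈ F.support, aeval X (monomial α (coeff α F)) := by
      conv_lhs => rw [F.as_sum]
      rw [map_sum]
    have h3 : ∀ c, pderiv c F = ∑ α ∈ F.support, pderiv c (monomial α (coeff α F)) := by
      intro c
      conv_lhs => rw [F.as_sum]
      rw [map_sum]
    rw [h2, DP_sum hb hs hd]
    · rw [Finset.sum_congr rfl fun α hα => chain_mono (δ := δ) (ψ := ψ) hb hs X hX _ α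
        (hsum α hα) hd _, Finset.sum_comm]
      refine Finset.sum_congr rfl fun c _ => ?_
      rw [h3 c, map_sum, Finset.sum_mul]
    · intro α hα
      have h4 := lift_mono (hL := hL) (U := U) (l := l) X hX α (coeff α F)
      rwa [hsum α hα] at h4
  rw [h1, Polynomial.eval_finsetSum]
  refine Finset.sum_congr rfl fun c _ => ?_
  rw [Polynomial.eval_mul, eval_aeval]

/-- two derivations with nonvanishing Wronskian -/
theorem exists_WW (X : Fin 4 → Polynomial GG)
    (h0 : (X 0).eval 1 ≠ 0) (h2 : (X 2).eval 1 ≠ 0)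
    (hind : AlgebraicIndependent ℚ
      (![(X 1).eval 1 / (X 0).eval 1, (X 3).eval 1 / (X 2).eval 1] : Fin 2 → GG)) :
    ∃ (δ : Fin 2 → DerQ GG) (ψ : Fin 2 → (GG →ₗ[KK L hL] KK L hL)),
      WW (fun c => (X c).eval 1) (fun k c => (DP hL (δ k) (ψ k) (X c)).eval 1) ≠ 0 := by
  classical
  obtain ⟨δ, hδ⟩ := exists_dual_der _ hind
  set S : Set GG := ⋃ (i : Fin 2), ⋃ (c : Fin 4),
    (fun k => δ i ((X c).coeff k) * ((X c).coeff k)⁻¹) '' ((X c).support : Set ℕ) with hS
  have hSf : S.Finite := Set.finite_iUnion fun i => Set.finite_iUnion fun c =>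
    ((X c).support.finite_toSet).image _
  obtain ⟨q, β, ψ, hψ⟩ := exists_functionals (F := KK L hL) S hSf
  have hrec : ∀ (i : Fin 2) (c : Fin 4),
      ∑ j, β j * (DP hL (δ i) (ψ j) (X c)).eval 1 = δ i ((X c).eval 1) := by
    intro i c
    refine DP_recover β ψ (X c) fun k => ?_
    by_cases hk : k ∈ (X c).support
    · refine hψ _ ?_
      rw [hS]
      refine Set.mem_iUnion.2 ⟨i, Set.mem_iUnion.2 ⟨c, ?_⟩⟩
      exact ⟨k, hk, rfl⟩
    · rw [Polynomial.notMem_support_iff.1 hk]
      simp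
  by_contra hno
  push Not at hno
  set x : Fin 4 → GG := fun c => (X c).eval 1 with hx
  -- the Wronskian of the derivations
  have key : WW x (fun i c => δ i (x c)) = 0 := by
    have h3 : WW x (fun i c => δ i (x c)) = ∑ j, ∑ j', β j * β j' *
        WW x (fun k c => (DP hL (δ k) ((![ψ j, ψ j'] : Fin 2 → _) k) (X c)).eval 1) := by
      have e0 : ∀ c, δ 0 (x c) = ∑ j, β j * (DP hL (δ 0) (ψ j) (X c)).eval 1 := fun c =>
        (hrec 0 c).symm
      have e1 : ∀ c, δ 1 (x c) = ∑ j, β j * (DP hL (δ 1) (ψ j) (X c)).eval 1 := fun c =>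
        (hrec 1 c).symm
      have f0 : ∀ c c', x c * δ 0 (x c') - x c' * δ 0 (x c) = ∑ j, β j *
          (x c * (DP hL (δ 0) (ψ j) (X c')).eval 1 - x c' * (DP hL (δ 0) (ψ j) (X c)).eval 1) := by
        intro c c'
        rw [e0, e0, Finset.mul_sum, Finset.mul_sum, ← Finset.sum_sub_distrib]
        refine Finset.sum_congr rfl fun j _ => ?_
        ring
      have f1 : ∀ c c', x c * δ 1 (x c') - x c' * δ 1 (x c) = ∑ j, β j *
          (x c * (DP hL (δ 1) (ψ j) (X c')).eval 1 - x c' * (DP hL (δ 1) (ψ j) (X c)).eval 1) := by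
        intro c c'
        rw [e1, e1, Finset.mul_sum, Finset.mul_sum, ← Finset.sum_sub_distrib]
        refine Finset.sum_congr rfl fun j _ => ?_
        ring
      unfold WW
      rw [f0, f0, f1, f1, Finset.sum_mul_sum, Finset.sum_mul_sum]
      have h5 : ∀ (f g : Fin q → Fin q → GG), ∑ j, ∑ j', f j j' - ∑ j, ∑ j', g j j' =
          ∑ j, ∑ j', (f j j' - g j' j) := by
        intro f g
        rw [Finset.sum_comm (f := g), ← Finset.sum_sub_distrib]
        refine Finset.sum_congr rfl fun j _ => ?_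
        rw [← Finset.sum_sub_distrib]
      rw [h5]
      refine Finset.sum_congr rfl fun j _ => Finset.sum_congr rfl fun j' _ => ?_
      simp only [Matrix.cons_val_zero, Matrix.cons_val_one]
      ring
    rw [h3]
    refine Finset.sum_eq_zero fun j _ => Finset.sum_eq_zero fun j' _ => ?_
    rw [hno δ ![ψ j, ψ j'], mul_zero]
  have hd : ∀ (i : Fin 2) (c c' : Fin 4), x c ≠ 0 →
      x c * δ i (x c') - x c' * δ i (x c) = x c ^ 2 * δ i (x c' / x c) := by
    intro i c c' hc
    have h6 : x c' = x c' / x c * x c := by field_simp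
    have h7 : δ i (x c') = x c' / x c * δ i (x c) + x c * δ i (x c' / x c) := by
      conv_lhs => rw [h6]
      rw [der_mul]
    rw [h7]
    field_simp
    ring
  have a00 : δ 0 (x 1 / x 0) = 1 := by
    have := hδ 0 0
    simpa using this
  have a01 : δ 0 (x 3 / x 2) = 0 := by
    have := hδ 0 1
    simpa using this
  have a10 : δ 1 (x 1 / x 0) = 0 := by
    have := hδ 1 0
    simpa using this
  have a11 : δ 1 (x 3 / x 2) = 1 := by
    have := hδ 1 1
    simpa using this
  unfold WW at key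
  simp only at key
  rw [hd 0 0 1 h0, hd 1 2 3 h2, hd 1 0 1 h0, hd 0 2 3 h2, a00, a01, a10, a11] at key
  have h8 : x 0 ^ 2 * x 2 ^ 2 = 0 := by linear_combination key
  exact mul_ne_zero (pow_ne_zero 2 h0) (pow_ne_zero 2 h2) h8

end

end Pool.Agent.TH551.HA.P1
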