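import Mathlib
import Pool.Agent.TH551.HA.Jp4
import Pool.Agent.TH551.HA.Jc4

/-!
# Project HA: normal crossings divisors on the product of two lines, integrality and domination
-/

set_option autoImplicit false
set_option linter.unusedSectionVars false
set_option linter.unusedVariables false

namespace Pool.Agent.TH551.HA.P1

open Filter Topology Pool.Agent.TH932.Germs Pool.Agent.TH551.SU Pool.Agent.TH551.ZP
open Pool.Agent.TH551.SU.CRV Pool.Agent.TH551.ZP.GT MvPolynomial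

section

variable {s : ℕ} {b : Fin s → ℕ} {L : ℕ → ℝ}

/-- integral germs -/
def AQ (hb : ∀ v, (b v).Prime) (hL : Tendsto L atTop atTop) : Subalgebra ℚ GG where
  carrier := {f | QI b L f}
  mul_mem' := fun hf hg => QI.mul hb hf hg
  add_mem' := fun hf hg => QI.add hb hf hg
  algebraMap_mem' := fun a => QI.of_KK hb hL (rat_mem a)

/-- germs dominated by `1` -/
def AD (hb : ∀ v, (b v).Prime) (hbi : Function.Injective b) (hL : Tendsto L atTop atTop)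
    (v : Option (Fin s)) : Subalgebra ℚ GG where
  carrier := {f | Dom b L v f 1}
  mul_mem' := fun {f g} hf hg => by
    have h : Dom b L v (f * g) (1 * 1) := Dom.mul hb hf hg
    rwa [mul_one] at h
  add_mem' := fun hf hg => Dom.add hb hL hf hg
  algebraMap_mem' := fun a => Dom.of_KK hb hbi hL v (rat_mem a)

lemma qi_int (hL : Tendsto L atTop atTop) (z : ℕ → ℤ) :
    QI b L (gm (fun t => (z t : ℚ))) := by
  refine ⟨fun _ => 1, Negl.one hL, by simp, ?_⟩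
  filter_upwards [rep_gm (fun t => (z t : ℚ))] with t ht
  rw [ht, Int.cast_one, one_mul]
  exact IntS.int b _

variable {N : ℕ} {F : Fin N → MvPolynomial (Fin 4) ℚ} {q r : Fin N → ℕ}

lemma sc_one : sc (1 : GG) 1 = fun _ => 1 := by
  funext c
  fin_cases c <;> simp [sc]

lemma Chart.sc_eq {a a' b' b'' : Fin 4} (h : Chart a a' b' b'') (l m : GG) :
    sc l m a = l ∧ sc l m a' = l ∧ sc l m b' = m ∧ sc l m b'' = m := by
  obtain ⟨h1, h2⟩ := h
  rcases h1 with ⟨rfl, rfl⟩ | ⟨rfl, rfl⟩ <;> rcases h2 with ⟨rfl, rfl⟩ | ⟨rfl, rfl⟩ <;>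
    simp [sc]

/-- divisibility of the Wronskian -/
theorem qiPart (hb : ∀ v, (b v).Prime) (hL : Tendsto L atTop atTop)
    (hq : ∀ i, (F i).IsWeightedHomogeneous ![1, 1, 0, 0] (q i))
    (hr : ∀ i, (F i).IsWeightedHomogeneous ![0, 0, 1, 1] (r i))
    (hNC : ∀ z : Fin 4 → ℂ, (z 0 ≠ 0 ∨ z 1 ≠ 0) → (z 2 ≠ 0 ∨ z 3 ≠ 0) → LinearIndependent ℂ
      (fun i : {i : Fin N // aeval z (F i) = 0} => fun c : Fin 4 => aeval z (pderiv c (F i))))
    (x : Fin 4 → ℕ → ℤ) (hc1 : ∀ t, IsCoprime (x 0 t) (x 1 t))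
    (hc2 : ∀ t, IsCoprime (x 2 t) (x 3 t)) (D : Fin 2 → Fin 4 → GG) (G : Fin N → GG)
    (hD : ∀ k c, QI b L (D k c))
    (hF : ∀ i, ∃ ω, QI b L ω ∧ aeval (fun c => gm (fun t => (x c t : ℚ))) (F i) = G i * ω)
    (hR : ∀ i k, ∃ ω, QI b L ω ∧
      ∑ c, aeval (fun c => gm (fun t => (x c t : ℚ))) (pderiv c (F i)) * D k c = G i * ω) :
    ∃ Ω, QI b L Ω ∧ WW (fun c => gm (fun t => (x c t : ℚ))) D = (∏ i, G i) * Ω := by
  classical
  set X : Fin 4 → GG := fun c => gm (fun t => (x c t : ℚ)) with hX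
  have hXq : ∀ c, QI b L (X c) := fun c => qi_int hL (x c)
  have key : ∀ a a' b' b'' : Fin 4, Chart a a' b' b'' → ∃ n : ℕ, ∃ ω ∈ AQ hb hL,
      (X a * X b') ^ n * WW X D = (∏ i, G i) * ω := by
    intro a a' b' b'' hc
    have h := core hq hr hNC (AQ hb hL) hc X D 1 1 G
      (fun c => by rw [sc_one, one_mul]; exact hXq c)
      (fun k c => by rw [sc_one, one_mul]; exact hD k c)
      (fun i => by
        obtain ⟨ω, h1, h2⟩ := hF i
        exact ⟨ω, h1, by rw [one_pow, one_pow, one_mul, one_mul, h2]⟩)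
      (fun i k => by
        obtain ⟨ω, h1, h2⟩ := hR i k
        exact ⟨ω, h1, by rw [one_pow, one_pow, one_mul, one_mul, h2]⟩)
    obtain ⟨n, ω, hω, h⟩ := h
    refine ⟨n, ω, hω, ?_⟩
    rw [sc_one] at h
    simpa using h
  obtain ⟨n1, ω1, hω1, h1⟩ := key 0 1 2 3 ⟨Or.inl ⟨rfl, rfl⟩, Or.inl ⟨rfl, rfl⟩⟩
  obtain ⟨n2, ω2, hω2, h2⟩ := key 0 1 3 2 ⟨Or.inl ⟨rfl, rfl⟩, Or.inr ⟨rfl, rfl⟩⟩
  obtain ⟨n3, ω3, hω3, h3⟩ := key 1 0 2 3 ⟨Or.inr ⟨rfl, rfl⟩, Or.inl ⟨rfl, rfl⟩⟩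
  obtain ⟨n4, ω4, hω4, h4⟩ := key 1 0 3 2 ⟨Or.inr ⟨rfl, rfl⟩, Or.inr ⟨rfl, rfl⟩⟩
  obtain ⟨n, hn⟩ : ∃ n, n = n1 + n2 + n3 + n4 := ⟨_, rfl⟩
  have hup : ∀ (a c : Fin 4) (k : ℕ) (ω : GG), k ≤ n → ω ∈ AQ hb hL →
      (X a * X c) ^ k * WW X D = (∏ i, G i) * ω → ∃ ω' ∈ AQ hb hL,
        (X a) ^ n * (X c) ^ n * WW X D = (∏ i, G i) * ω' := by
    intro a c k ω hk hω h
    refine ⟨(X a * X c) ^ (n - k) * ω, (AQ hb hL).mul_mem ((AQ hb hL).pow_mem
      ((AQ hb hL).mul_mem (hXq a) (hXq c)) _) hω, ?_⟩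
    have e1 : (X a) ^ n * (X c) ^ n = (X a * X c) ^ (n - k) * (X a * X c) ^ k := by
      rw [← pow_add, Nat.sub_add_cancel hk, mul_pow]
    rw [e1]
    linear_combination (X a * X c) ^ (n - k) * h
  obtain ⟨τ1, hτ1, g1⟩ := hup 0 2 n1 ω1 (by omega) hω1 h1
  obtain ⟨τ2, hτ2, g2⟩ := hup 0 3 n2 ω2 (by omega) hω2 h2
  obtain ⟨τ3, hτ3, g3⟩ := hup 1 2 n3 ω3 (by omega) hω3 h3
  obtain ⟨τ4, hτ4, g4⟩ := hup 1 3 n4 ω4 (by omega) hω4 h4
  choose u0 u1 hu using fun t => (hc1 t).pow (m := n) (n := n)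
  choose v0 v1 hv using fun t => (hc2 t).pow (m := n) (n := n)
  have hU : gm (fun t => (u0 t : ℚ)) * X 0 ^ n + gm (fun t => (u1 t : ℚ)) * X 1 ^ n = 1 := by
    rw [hX]
    simp only [gm_pow, gm_mul, gm_add]
    rw [← gm_one]
    congr 1
    funext t
    have h5 := hu t
    exact_mod_cast h5
  have hV : gm (fun t => (v0 t : ℚ)) * X 2 ^ n + gm (fun t => (v1 t : ℚ)) * X 3 ^ n = 1 := by
    rw [hX]
    simp only [gm_pow, gm_mul, gm_add]
    rw [← gm_one]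
    congr 1
    funext t
    have h5 := hv t
    exact_mod_cast h5
  have q1 : QI b L (gm (fun t => (u0 t : ℚ))) := qi_int hL u0
  have q2 : QI b L (gm (fun t => (u1 t : ℚ))) := qi_int hL u1
  have q3 : QI b L (gm (fun t => (v0 t : ℚ))) := qi_int hL v0
  have q4 : QI b L (gm (fun t => (v1 t : ℚ))) := qi_int hL v1
  refine ⟨gm (fun t => (u0 t : ℚ)) * gm (fun t => (v0 t : ℚ)) * τ1 +
    gm (fun t => (u0 t : ℚ)) * gm (fun t => (v1 t : ℚ)) * τ2 +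
    gm (fun t => (u1 t : ℚ)) * gm (fun t => (v0 t : ℚ)) * τ3 +
    gm (fun t => (u1 t : ℚ)) * gm (fun t => (v1 t : ℚ)) * τ4, ?_, ?_⟩
  · exact QI.add hb (QI.add hb (QI.add hb (QI.mul hb (QI.mul hb q1 q3) hτ1)
      (QI.mul hb (QI.mul hb q1 q4) hτ2)) (QI.mul hb (QI.mul hb q2 q3) hτ3))
      (QI.mul hb (QI.mul hb q2 q4) hτ4)
  · generalize gm (fun t => (u0 t : ℚ)) = U0 at *
    generalize gm (fun t => (u1 t : ℚ)) = U1 at *
    generalize gm (fun t => (v0 t : ℚ)) = V0 at *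
    generalize gm (fun t => (v1 t : ℚ)) = V1 at *
    linear_combination U0 * V0 * g1 + U0 * V1 * g2 + U1 * V0 * g3 + U1 * V1 * g4 -
      (WW X D) * hU - (WW X D) * (U0 * X 0 ^ n + U1 * X 1 ^ n) * hV

/-- domination of the Wronskian -/
theorem domPart (hb : ∀ v, (b v).Prime) (hbi : Function.Injective b)
    (hL : Tendsto L atTop atTop)
    (hq : ∀ i, (F i).IsWeightedHomogeneous ![1, 1, 0, 0] (q i))
    (hr : ∀ i, (F i).IsWeightedHomogeneous ![0, 0, 1, 1] (r i))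
    (hNC : ∀ z : Fin 4 → ℂ, (z 0 ≠ 0 ∨ z 1 ≠ 0) → (z 2 ≠ 0 ∨ z 3 ≠ 0) → LinearIndependent ℂ
      (fun i : {i : Fin N // aeval z (F i) = 0} => fun c : Fin 4 => aeval z (pderiv c (F i))))
    (v : Option (Fin s)) {a a' c c' : Fin 4} (hc : Chart a a' c c') (X : Fin 4 → GG)
    (hXa : X a ≠ 0) (hXc : X c ≠ 0) (h1 : Dom b L v (X a') (X a)) (h2 : Dom b L v (X c') (X c))
    (D : Fin 2 → Fin 4 → GG) (hD : ∀ k c, Dom b L v (D k c) (X c))
    (hF0 : ∀ i, aeval X (F i) ≠ 0)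
    (hR : ∀ i k, Dom b L v (∑ c, aeval X (pderiv c (F i)) * D k c) (aeval X (F i))) :
    Dom b L v (WW X D * (X a ^ (∑ i, q i) * X c ^ (∑ i, r i)))
      (X a ^ 2 * X c ^ 2 * ∏ i, aeval X (F i)) := by
  classical
  obtain ⟨l, hl⟩ : ∃ l, l = (X a)⁻¹ := ⟨_, rfl⟩
  obtain ⟨m, hm⟩ : ∃ m, m = (X c)⁻¹ := ⟨_, rfl⟩
  have hla : l * X a = 1 := by rw [hl]; exact inv_mul_cancel₀ hXa
  have hmc : m * X c = 1 := by rw [hm]; exact inv_mul_cancel₀ hXc
  obtain ⟨s1, s2, s3, s4⟩ := hc.sc_eq l m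
  have hmul : ∀ (w f g : GG), Dom b L v f g → w * g = 1 → Dom b L v (w * f) 1 := by
    intro w f g h hw
    have h3 := Dom.mul hb (Dom.refl hb hL v w) h
    rwa [hw] at h3
  have hall : ∀ (f : GG) (k : Fin 4), Dom b L v f (X k) → Dom b L v (sc l m k * f) 1 := by
    intro f k h
    rcases hc.cases k with rfl | rfl | rfl | rfl
    · rw [s1]
      exact hmul _ _ _ h hla
    · rw [s2]
      exact hmul _ _ _ (Dom.trans hb h h1) hla
    · rw [s3]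
      exact hmul _ _ _ h hmc
    · rw [s4]
      exact hmul _ _ _ (Dom.trans hb h h2) hmc
  obtain ⟨n, ω, hω, h⟩ := core hq hr hNC (AD hb hbi hL v) hc X D l m
    (fun i => l ^ q i * m ^ r i * aeval X (F i))
    (fun k => hall _ _ (Dom.refl hb hL v _)) (fun k k' => hall _ _ (hD k k'))
    (fun i => ⟨1, (AD hb hbi hL v).one_mem, by rw [mul_one]⟩)
    (fun i k => by
      refine ⟨(∑ c, aeval X (pderiv c (F i)) * D k c) / aeval X (F i), ?_, ?_⟩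
      · have h3 := hmul (aeval X (F i))⁻¹ _ _ (hR i k) (inv_mul_cancel₀ (hF0 i))
        rw [div_eq_mul_inv, mul_comm]
        exact h3
      · rw [mul_assoc, mul_assoc, mul_assoc, mul_div_cancel₀ _ (hF0 i)])
  rw [s1, s3, hla, hmc, one_mul, one_pow, one_mul, Finset.prod_mul_distrib,
    Finset.prod_mul_distrib, Finset.prod_pow_eq_pow_sum, Finset.prod_pow_eq_pow_sum] at h
  have e1 : X a ^ 2 * l ^ 2 = 1 := by rw [← mul_pow, mul_comm, hla, one_pow]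
  have e2 : X c ^ 2 * m ^ 2 = 1 := by rw [← mul_pow, mul_comm, hmc, one_pow]
  have e3 : X a ^ (∑ i, q i) * l ^ (∑ i, q i) = 1 := by rw [← mul_pow, mul_comm, hla, one_pow]
  have e4 : X c ^ (∑ i, r i) * m ^ (∑ i, r i) = 1 := by rw [← mul_pow, mul_comm, hmc, one_pow]
  have h5 : WW X D * (X a ^ (∑ i, q i) * X c ^ (∑ i, r i)) =
      (X a ^ 2 * X c ^ 2 * ∏ i, aeval X (F i)) * ω := by
    generalize WW X D = W at *
    generalize ∏ i, aeval X (F i) = Φ at *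
    generalize X a ^ (∑ i, q i) = Aq at *
    generalize X c ^ (∑ i, r i) = Cr at *
    generalize l ^ (∑ i, q i) = lq at *
    generalize m ^ (∑ i, r i) = mr at *
    calc W * (Aq * Cr) = (X a ^ 2 * l ^ 2) * (X c ^ 2 * m ^ 2) * W * (Aq * Cr) := by
          rw [e1, e2]; ring
      _ = (X a ^ 2 * X c ^ 2) * (l ^ 2 * m ^ 2 * W) * (Aq * Cr) := by ring
      _ = (X a ^ 2 * X c ^ 2) * (lq * mr * Φ * ω) * (Aq * Cr) := by rw [h]
      _ = (X a ^ 2 * X c ^ 2) * (Aq * lq) * (Cr * mr) * Φ * ω := by ring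
      _ = _ := by rw [e3, e4]; ring
  rw [h5]
  have h6 := Dom.mul hb (Dom.refl hb hL v (X a ^ 2 * X c ^ 2 * ∏ i, aeval X (F i))) hω
  rwa [mul_one] at h6

/-- the places together -/
lemma placesP (hb : ∀ v, (b v).Prime) (x : Fin 4 → ℤ) (hc1 : IsCoprime (x 0) (x 1))
    (hc2 : IsCoprime (x 2) (x 3)) (W : ℚ) (Φ : Option (Fin s) → ℝ) (E : ℝ) (hE : 0 ≤ E)
    (hΦ : ∀ v, 0 ≤ Φ v) (Q R : ℕ)
    (h : ∀ v, av b v W * (max (av b v (x 0 : ℚ)) (av b v (x 1 : ℚ)) ^ Q *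
      max (av b v (x 2 : ℚ)) (av b v (x 3 : ℚ)) ^ R) ≤
      E * (max (av b v (x 0 : ℚ)) (av b v (x 1 : ℚ)) ^ 2 *
      max (av b v (x 2 : ℚ)) (av b v (x 3 : ℚ)) ^ 2 * Φ v)) :
    (∏ v, av b v W) * (max |(x 0 : ℝ)| |(x 1 : ℝ)| ^ Q * max |(x 2 : ℝ)| |(x 3 : ℝ)| ^ R) ≤
      E ^ (s + 1) * (max |(x 0 : ℝ)| |(x 1 : ℝ)| ^ 2 * max |(x 2 : ℝ)| |(x 3 : ℝ)| ^ 2 *
        ∏ v, Φ v) := by
  have hcop : ∀ (y z : ℤ), IsCoprime y z → ∀ v : Fin s,
      max (av b (some v) (y : ℚ)) (av b (some v) (z : ℚ)) = 1 := by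
    intro y z hyz v
    refine le_antisymm (max_le (av_int_le_one hb v y) (av_int_le_one hb v z)) ?_
    have := Fact.mk (hb v)
    obtain ⟨u, w, huw⟩ := hyz
    have h1 : padicNorm (b v) ((u : ℚ) * y + (w : ℚ) * z) = 1 := by
      have h2 : (u : ℚ) * y + (w : ℚ) * z = 1 := by exact_mod_cast huw
      rw [h2, padicNorm.one]
    have h2 := padicNorm.nonarchimedean (p := b v) (q := (u : ℚ) * y) (r := (w : ℚ) * z)
    rw [h1, padicNorm.mul, padicNorm.mul] at h2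
    have h3 : padicNorm (b v) (u : ℚ) ≤ 1 := padicNorm.of_int u
    have h4 : padicNorm (b v) (w : ℚ) ≤ 1 := padicNorm.of_int w
    have h5 : (1 : ℚ) ≤ max (padicNorm (b v) (y : ℚ)) (padicNorm (b v) (z : ℚ)) := by
      refine h2.trans (max_le_max ?_ ?_)
      · exact mul_le_of_le_one_left (padicNorm.nonneg _) h3
      · exact mul_le_of_le_one_left (padicNorm.nonneg _) h4
    simp only [av]
    rw [← Rat.cast_max]
    exact_mod_cast h5
  have h0 : ∀ (z : ℤ), av b none (z : ℚ) = |(z : ℝ)| := by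
    intro z
    simp only [av]
    push_cast
    rfl
  have hfin : ∀ v : Fin s, av b (some v) W ≤ E * Φ (some v) := by
    intro v
    have h1 := h (some v)
    rw [hcop _ _ hc1 v, hcop _ _ hc2 v] at h1
    simpa using h1
  have hinf := h none
  rw [h0, h0, h0, h0] at hinf
  rw [Fintype.prod_option, Fintype.prod_option]
  have h1 : ∏ v : Fin s, av b (some v) W ≤ ∏ v : Fin s, (E * Φ (some v)) :=
    Finset.prod_le_prod (fun v _ => av_nonneg hb _ _) fun v _ => hfin v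
  rw [Finset.prod_mul_distrib, Finset.prod_const, Finset.card_univ, Fintype.card_fin] at h1
  have h2 := mul_le_mul hinf h1 (Finset.prod_nonneg fun v _ => av_nonneg hb _ _)
    (mul_nonneg hE (mul_nonneg (by positivity) (hΦ none)))
  calc av b none W * (∏ i : Fin s, av b (some i) W) *
        (max |(x 0 : ℝ)| |(x 1 : ℝ)| ^ Q * max |(x 2 : ℝ)| |(x 3 : ℝ)| ^ R) =
      av b none W * (max |(x 0 : ℝ)| |(x 1 : ℝ)| ^ Q * max |(x 2 : ℝ)| |(x 3 : ℝ)| ^ R) *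
        ∏ i : Fin s, av b (some i) W := by ring
    _ ≤ _ := h2
    _ = _ := by ring

end

end Pool.Agent.TH551.HA.P1
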