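import Mathlib
import Pool.Agent.TH551.HA.Jp5

/-!
# Project HA: normal crossings divisors on the product of two lines, germs
-/

set_option autoImplicit false
set_option linter.unusedSectionVars false
set_option linter.unusedVariables false

namespace Pool.Agent.TH551.HA.P1

open Filter Topology Pool.Agent.TH932.Germs Pool.Agent.TH551.SU Pool.Agent.TH551.ZP
open Pool.Agent.TH551.SU.CRV Pool.Agent.TH551.ZP.GT MvPolynomial

section

variable {s : ℕ} {b : Fin s → ℕ} {L : ℕ → ℝ} {r : ℕ} {hL : Tendsto L atTop atTop}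
  {U : Fin (r + 1) → GG} {l : Fin (r + 1) → ℕ} {d : ℕ}

lemma aeval_gm4 (X : Fin 4 → ℕ → ℚ) (F : MvPolynomial (Fin 4) ℚ) :
    aeval (fun i => gm (X i)) F = gm (fun t => aeval (fun i => X i t) F) :=
  Main.aeval_gm (n := 3) X F

/-- a place and two integers: one of them is the larger one -/
lemma exists_max (hb : ∀ v, (b v).Prime) (hL : Tendsto L atTop atTop) (v : Option (Fin s))
    (y z : ℕ → ℤ) :
    (∀ᶠ t in (UU : Filter ℕ), av b v (z t : ℚ) ≤ av b v (y t : ℚ)) ∨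
    (∀ᶠ t in (UU : Filter ℕ), av b v (y t : ℚ) ≤ av b v (z t : ℚ)) := by
  rw [← Ultrafilter.eventually_or]
  exact Eventually.of_forall fun t => le_total _ _

lemma dom_of_le (hb : ∀ v, (b v).Prime) (hL : Tendsto L atTop atTop) (v : Option (Fin s))
    (y z : ℕ → ℤ) (h : ∀ᶠ t in (UU : Filter ℕ), av b v (z t : ℚ) ≤ av b v (y t : ℚ)) :
    Dom b L v (gm (fun t => (z t : ℚ))) (gm (fun t => (y t : ℚ))) := by
  rw [dom_gm]
  intro ε hε
  filter_upwards [h, L_nonneg hL] with t h1 h2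
  have h3 : 1 ≤ Real.exp (ε * L t) := Real.one_le_exp (by positivity)
  have h4 := av_nonneg hb v (y t : ℚ)
  nlinarith

/-- **the inequality for germs** -/
theorem p1Germ (hnc : NcStmt) (hcs : CSStmt) (hb : ∀ v, (b v).Prime)
    (hbi : Function.Injective b) (hs : Setup b hL U l d) (hU0 : U 0 = 1) {N : ℕ} (k : ℕ)
    (F : Fin N → MvPolynomial (Fin 4) ℚ) (q q' : Fin N → ℕ)
    (hq : ∀ i, (F i).IsWeightedHomogeneous ![1, 1, 0, 0] (q i))
    (hr : ∀ i, (F i).IsWeightedHomogeneous ![0, 0, 1, 1] (q' i))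
    (hNC : ∀ z : Fin 4 → ℂ, (z 0 ≠ 0 ∨ z 1 ≠ 0) → (z 2 ≠ 0 ∨ z 3 ≠ 0) → LinearIndependent ℂ
      (fun i : {i : Fin N // aeval z (F i) = 0} => fun c : Fin 4 => aeval z (pderiv c (F i))))
    (τ : Fin k → Fin N) (e : Fin k → ℕ) (he : ∀ i, 1 ≤ e i)
    (hd : 1 + (∑ i, e i + ∑ i, (q i + q' i)) ≤ d)
    (X : Fin 4 → Polynomial GG) (hX : ∀ i, Lift hL U l 1 (X i)) (x : Fin 4 → ℕ → ℤ)
    (hx : ∀ i, (X i).eval 1 = gm (fun t => (x i t : ℚ)))
    (Y : Fin k → Polynomial GG) (hY : ∀ i, Lift hL U l 1 (Y i)) (y : Fin k → ℕ → ℤ)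
    (hy : ∀ i, (Y i).eval 1 = gm (fun t => (y i t : ℚ))) (w : Fin N → ℕ → ℤ)
    (hwS : ∀ σ t, IsSU b (w σ t : ℚ)) (ι : Fin N → Fin (r + 1))
    (hw : ∀ σ, U (ι σ) = gm (fun t => (w σ t : ℚ))) (A : Fin N → ℕ → ℤ)
    (hA : ∀ σ t, A σ t = w σ t * ∏ i with τ i = σ, y i t ^ (e i)) (hA0 : ∀ σ t, A σ t ≠ 0)
    (hFA : ∀ σ t, aeval (fun c => (x c t : ℚ)) (F σ) = (A σ t : ℚ))
    (hc1 : ∀ t, IsCoprime (x 0 t) (x 1 t)) (hc2 : ∀ t, IsCoprime (x 2 t) (x 3 t))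
    (hx0 : ∀ t, x 0 t ≠ 0) (hx2 : ∀ t, x 2 t ≠ 0)
    (hind : AlgebraicIndependent ℚ
      (![(X 1).eval 1 / (X 0).eval 1, (X 3).eval 1 / (X 2).eval 1] : Fin 2 → GG))
    (ε : ℝ) (hε : 0 < ε) :
    ∀ᶠ t in (UU : Filter ℕ),
      max |(x 0 t : ℝ)| |(x 1 t : ℝ)| ^ (∑ i, q i) * max |(x 2 t : ℝ)| |(x 3 t : ℝ)| ^ (∑ i, q' i)
        ≤ Real.exp (ε * L t) * (max |(x 0 t : ℝ)| |(x 1 t : ℝ)| ^ 2 *
          max |(x 2 t : ℝ)| |(x 3 t : ℝ)| ^ 2 * ∏ i, |(y i t : ℝ)|) := by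
  classical
  obtain ⟨Fs, hFs⟩ : ∃ Fs : Fin N → Finset (Fin k),
      Fs = fun σ => Finset.univ.filter (fun i => τ i = σ) := ⟨_, rfl⟩
  have hA' : ∀ σ t, A σ t = w σ t * ∏ i ∈ Fs σ, y i t ^ (e i) := fun σ t => by
    rw [hA, hFs]
  have hmem : ∀ i σ, i ∈ Fs σ ↔ τ i = σ := fun i σ => by
    rw [hFs]
    simp
  have hFle : ∀ σ, ∑ i ∈ Fs σ, e i ≤ ∑ i, e i := fun σ => by
    rw [hFs]
    exact Finset.sum_le_sum_of_subset (Finset.filter_subset _ _)
  have hQle : ∀ σ, q σ + q' σ ≤ ∑ i, (q i + q' i) := fun σ =>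
    Finset.single_le_sum (f := fun i => q i + q' i) (fun _ _ => Nat.zero_le _) (Finset.mem_univ σ)
  obtain ⟨TQ, hTQ⟩ : ∃ TQ, TQ = ∑ i, (q i + q' i) := ⟨_, rfl⟩
  rw [← hTQ] at hd
  simp only [← hTQ] at hQle
  obtain ⟨E, hE⟩ : ∃ E : Polynomial GG, E = Polynomial.X ^ (l 0) := ⟨_, rfl⟩
  have hEL : Lift hL U l 1 E := by
    have h := Lift.gen (hL := hL) (U := U) (l := l) 0
    rw [hU0, Polynomial.C_1, one_mul] at h
    rw [hE]
    exact h
  have hE1 : E.eval 1 = 1 := by rw [hE]; simp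
  have hEm : ∀ (δ : DerQ GG) (ψ : GG →ₗ[KK L hL] KK L hL) (n : ℕ), DP hL δ ψ (E ^ n) = 0 := by
    intro δ ψ n
    have h1 : E ^ n = Polynomial.C 1 * Polynomial.X ^ (l 0 * n) := by
      rw [hE, ← pow_mul, Polynomial.C_1, one_mul]
    rw [h1, DP_C_mul_X_pow]
    simp [Dps]
  obtain ⟨K, hK⟩ : ∃ K : Fin N → Polynomial GG, K = fun σ =>
    E ^ (∑ i, e i + TQ - ∑ i ∈ Fs σ, e i) *
    (Polynomial.C (U (ι σ)) * Polynomial.X ^ (l (ι σ))) := ⟨_, rfl⟩
  obtain ⟨P, hP⟩ : ∃ P : Fin N → Polynomial GG, P = fun σ => ∏ i ∈ Fs σ, Y i ^ (e i) :=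
    ⟨_, rfl⟩
  have hKL : ∀ σ, Lift hL U l (1 * (∑ i, e i + TQ - ∑ i ∈ Fs σ, e i) + 1) (K σ) := fun σ => by
    rw [hK]
    exact (hEL.pow _).mul (Lift.gen _)
  have hPL : ∀ σ, Lift hL U l (∑ i ∈ Fs σ, 1 * e i) (P σ) := fun σ => by
    rw [hP]
    exact Lift.prod _ _ _ fun i _ => (hY i).pow (e i)
  have hdeg : ∀ σ, ∑ i ∈ Fs σ, 1 * e i + (1 * (∑ i, e i + TQ - ∑ i ∈ Fs σ, e i) + 1) =
      1 + (∑ i, e i + TQ) := by
    intro σ
    have h4 := hFle σ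
    simp only [one_mul]
    omega
  have haL : ∀ σ, Lift hL U l (1 + (∑ i, e i + TQ)) (P σ * K σ) := by
    intro σ
    have h2 := (hPL σ).mul (hKL σ)
    rwa [hdeg σ] at h2
  have hK1 : ∀ σ, (K σ).eval 1 = gm (fun t => (w σ t : ℚ)) := by
    intro σ
    rw [← hw σ, hK]
    simp [hE1]
  have hP1 : ∀ σ, (P σ).eval 1 = gm (fun t => ∏ i ∈ Fs σ, (y i t : ℚ) ^ (e i)) := by
    intro σ
    rw [hP]
    simp only
    rw [Polynomial.eval_prod, ← gm_prod']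
    refine Finset.prod_congr rfl fun i _ => ?_
    rw [Polynomial.eval_pow, hy, gm_pow]
  have ha1 : ∀ σ, (P σ * K σ).eval 1 = gm (fun t => (A σ t : ℚ)) := by
    intro σ
    rw [Polynomial.eval_mul, hK1, hP1, gm_mul]
    congr 1
    funext t
    rw [hA' σ t]
    push_cast
    ring
  have hxe : (fun c => (X c).eval 1) = fun c => gm (fun t => (x c t : ℚ)) := funext hx
  have hF1 : ∀ σ, (aeval X (F σ)).eval 1 = gm (fun t => (A σ t : ℚ)) := by
    intro σ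
    rw [eval_aeval, hxe, aeval_gm4]
    congr 1
    funext t
    exact hFA σ t
  have hFL : ∀ σ, Lift hL U l (q σ + q' σ) (aeval X (F σ)) := fun σ =>
    lift_aeval X hX (F σ) (hq σ) (hr σ)
  obtain ⟨J, hJ⟩ : ∃ J : Fin N → ℕ, J = fun σ => 1 + (∑ i, e i + TQ) - (q σ + q' σ) := ⟨_, rfl⟩
  have hJd : ∀ σ, q σ + q' σ + 1 * J σ = 1 + (∑ i, e i + TQ) := by
    intro σ
    rw [hJ]
    have := hQle σ
    simp only [one_mul]
    omega
  have hFEL : ∀ σ, Lift hL U l (1 + (∑ i, e i + TQ)) (aeval X (F σ) * E ^ (J σ)) := by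
    intro σ
    have h2 := (hFL σ).mul (hEL.pow (J σ))
    rwa [hJd σ] at h2
  have hrel : ∀ σ, aeval X (F σ) * E ^ (J σ) = P σ * K σ := by
    intro σ
    have h1 := ((hFEL σ).sub (haL σ)).eq_zero hcs hb hbi hs hd (by
      rw [Polynomial.eval_sub, ha1, Polynomial.eval_mul, hF1, Polynomial.eval_pow, hE1, one_pow,
        mul_one, sub_self])
    exact sub_eq_zero.1 h1
  have hDrel : ∀ (δ : DerQ GG) (ψ : GG →ₗ[KK L hL] KK L hL) σ,
      (DP hL δ ψ (aeval X (F σ))).eval 1 = (DP hL δ ψ (P σ * K σ)).eval 1 := by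
    intro δ ψ σ
    rw [← hrel σ, DP_mul hb hs (by rw [hJd σ]; exact hd) (hFL σ) (hEL.pow (J σ)), hEm, mul_zero,
      add_zero, Polynomial.eval_mul, Polynomial.eval_pow, hE1, one_pow, mul_one]
  have hy0 : ∀ i t, y i t ≠ 0 := by
    intro i t h0
    apply hA0 (τ i) t
    rw [hA', Finset.prod_eq_zero ((hmem i _).2 rfl)
      (by rw [h0, zero_pow (by have := he i; omega)]), mul_zero]
  -- the divisors
  obtain ⟨G, hG⟩ : ∃ G : Fin N → ℕ → ℤ, G = fun σ t => ∏ i ∈ Fs σ, y i t ^ (e i - 1) :=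
    ⟨_, rfl⟩
  have hG0 : ∀ σ t, G σ t ≠ 0 := fun σ t => by
    rw [hG]
    exact Finset.prod_ne_zero_iff.2 fun i _ => pow_ne_zero _ (hy0 i t)
  have hG1 : ∀ σ, gm (fun t => (G σ t : ℚ)) = ∏ i ∈ Fs σ, (Y i).eval 1 ^ (e i - 1) := by
    intro σ
    have h4 : ∀ i, (Y i).eval 1 ^ (e i - 1) = gm (fun t => (y i t : ℚ) ^ (e i - 1)) := by
      intro i
      rw [hy, gm_pow]
    simp only [h4]
    rw [gm_prod']
    congr 1
    funext t
    rw [hG]
    push_cast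
    rfl
  have hPG : ∀ σ, (P σ).eval 1 = gm (fun t => (G σ t : ℚ)) * ∏ i ∈ Fs σ, (Y i).eval 1 := by
    intro σ
    rw [hG1, ← Finset.prod_mul_distrib, hP]
    simp only
    rw [Polynomial.eval_prod]
    refine Finset.prod_congr rfl fun i _ => ?_
    rw [Polynomial.eval_pow, ← pow_succ, Nat.sub_add_cancel (he i)]
  have hX0 : (X 0).eval 1 ≠ 0 := by
    rw [hx, gm_ne_zero]
    exact Eventually.of_forall fun t => by exact_mod_cast hx0 t
  have hX2 : (X 2).eval 1 ≠ 0 := by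
    rw [hx, gm_ne_zero]
    exact Eventually.of_forall fun t => by exact_mod_cast hx2 t
  obtain ⟨δ, ψ, hWW⟩ := exists_WW (hL := hL) X hX0 hX2 hind
  set D : Fin 2 → Fin 4 → GG := fun k c => (DP hL (δ k) (ψ k) (X c)).eval 1 with hD
  have hYqi : ∀ σ, QI b L (∏ i ∈ Fs σ, (Y i).eval 1) := fun σ =>
    QI.prod hb hL _ _ fun i _ => (hY i).qi hb hs
  have h1d : 1 ≤ d := by omega
  have hchain : ∀ (σ : Fin N) (κ : Fin 2), ∑ c, aeval (fun c => (X c).eval 1)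
      (pderiv c (F σ)) * D κ c = (DP hL (δ κ) (ψ κ) (aeval X (F σ))).eval 1 := by
    intro σ κ
    rw [chain hb hs X hX (F σ) (hq σ) (hr σ) (by have := hQle σ; omega)]
  -- divisibility
  have hqi := qiPart hb hL hq hr hNC x hc1 hc2 D (fun σ => gm (fun t => (G σ t : ℚ)))
    (fun κ c => DP_qi hb hs h1d (hX c))
    (fun σ => by
      refine ⟨(∏ i ∈ Fs σ, (Y i).eval 1) * (K σ).eval 1, QI.mul hb (hYqi σ) ((hKL σ).qi hb hs),
        ?_⟩
      rw [← hxe, ← eval_aeval, hF1, ← ha1, Polynomial.eval_mul, hPG]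
      ring)
    (fun σ κ => by
      obtain ⟨h, hh, heq⟩ := DP_prod (δ := δ κ) (ψ := ψ κ) hb hs (Fs σ) e
        (fun i _ => he i) Y (fun i _ => hY i) (by have := hFle σ; omega)
      refine ⟨h * (K σ).eval 1 + (∏ i ∈ Fs σ, (Y i).eval 1) *
        (DP hL (δ κ) (ψ κ) (K σ)).eval 1, ?_, ?_⟩
      · refine QI.add hb (QI.mul hb hh ((hKL σ).qi hb hs)) (QI.mul hb (hYqi σ) ?_)
        refine DP_qi hb hs ?_ (hKL σ)
        have := hdeg σ
        omega
      · rw [← hxe, hchain, hDrel]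
        rw [DP_mul hb hs (by rw [hdeg σ]; exact hd) (hPL σ) (hKL σ), Polynomial.eval_add,
          Polynomial.eval_mul, Polynomial.eval_mul, hPG]
        have h1 : (DP hL (δ κ) (ψ κ) (P σ)).eval 1 = gm (fun t => (G σ t : ℚ)) * h := by
          rw [hG1, hP]
          exact heq
        rw [h1]
        ring)
  obtain ⟨Ω, hΩ, hΩeq⟩ := hqi
  rw [← hxe] at hΩeq
  have hΩ0 : Ω ≠ 0 := by
    intro h0
    rw [h0, mul_zero] at hΩeq
    exact hWW hΩeq
  obtain ⟨WV, hWV⟩ : ∃ WV, WV = WW (fun c => (X c).eval 1) D := ⟨_, rfl⟩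
  rw [← hWV] at hΩeq
  -- domination
  have hs2 : (0 : ℝ) < (s : ℝ) + 2 := by positivity
  obtain ⟨ε1, hε1⟩ : ∃ ε1 : ℝ, ε1 = ε / (s + 2) := ⟨_, rfl⟩
  have hε1' : 0 < ε1 := by rw [hε1]; positivity
  have hdom : ∀ v, ∀ᶠ t in (UU : Filter ℕ),
      av b v (rep WV t) * (max (av b v (x 0 t : ℚ)) (av b v (x 1 t : ℚ)) ^ (∑ i, q i) *
        max (av b v (x 2 t : ℚ)) (av b v (x 3 t : ℚ)) ^ (∑ i, q' i)) ≤
      Real.exp (ε1 * L t) * (max (av b v (x 0 t : ℚ)) (av b v (x 1 t : ℚ)) ^ 2 *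
        max (av b v (x 2 t : ℚ)) (av b v (x 3 t : ℚ)) ^ 2 * ∏ σ, av b v (A σ t : ℚ)) := by
    intro v
    -- the chart at the place
    have main : ∀ a a' c c' : Fin 4, Chart a a' c c' →
        (∀ᶠ t in (UU : Filter ℕ), av b v (x a' t : ℚ) ≤ av b v (x a t : ℚ)) →
        (∀ᶠ t in (UU : Filter ℕ), av b v (x c' t : ℚ) ≤ av b v (x c t : ℚ)) →
        (∀ t, max (av b v (x 0 t : ℚ)) (av b v (x 1 t : ℚ)) =
          max (av b v (x a t : ℚ)) (av b v (x a' t : ℚ))) →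
        (∀ t, max (av b v (x 2 t : ℚ)) (av b v (x 3 t : ℚ)) =
          max (av b v (x c t : ℚ)) (av b v (x c' t : ℚ))) →
        ∀ᶠ t in (UU : Filter ℕ),
        av b v (rep WV t) * (max (av b v (x 0 t : ℚ)) (av b v (x 1 t : ℚ)) ^ (∑ i, q i) *
          max (av b v (x 2 t : ℚ)) (av b v (x 3 t : ℚ)) ^ (∑ i, q' i)) ≤
        Real.exp (ε1 * L t) * (max (av b v (x 0 t : ℚ)) (av b v (x 1 t : ℚ)) ^ 2 *
          max (av b v (x 2 t : ℚ)) (av b v (x 3 t : ℚ)) ^ 2 * ∏ σ, av b v (A σ t : ℚ)) := by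
      intro a a' c c' hc ha hcc hm1 hm2
      have hne : ∀ a a' : Fin 4, (∀ᶠ t in (UU : Filter ℕ), av b v (x a' t : ℚ) ≤
          av b v (x a t : ℚ)) → (∀ t, IsCoprime (x a t) (x a' t)) → (X a).eval 1 ≠ 0 := by
        intro a a' h hcop
        rw [hx, gm_ne_zero]
        filter_upwards [h] with t ht h0
        have h00 : x a t = 0 := by exact_mod_cast h0
        have h1 : av b v (x a' t : ℚ) ≤ 0 := by
          rw [h00, Int.cast_zero, av_zero hb] at ht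
          exact ht
        have h2 : x a' t ≠ 0 := by
          intro h3
          have h4 := hcop t
          rw [h00, h3] at h4
          obtain ⟨u, w, h5⟩ := h4
          simp at h5
        have h3 := av_pos hb v (q := (x a' t : ℚ)) (by exact_mod_cast h2)
        linarith
      have hXa : (X a).eval 1 ≠ 0 := by
        refine hne a a' ha fun t => ?_
        rcases hc.1 with ⟨rfl, rfl⟩ | ⟨rfl, rfl⟩
        · exact hc1 t
        · exact (hc1 t).symm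
      have hXc : (X c).eval 1 ≠ 0 := by
        refine hne c c' hcc fun t => ?_
        rcases hc.2 with ⟨rfl, rfl⟩ | ⟨rfl, rfl⟩
        · exact hc2 t
        · exact (hc2 t).symm
      have h1 := domPart hb hbi hL hq hr hNC v hc (fun c => (X c).eval 1) hXa hXc
        (by
          simp only [hx]
          exact dom_of_le hb hL v (x a) (x a') ha)
        (by
          simp only [hx]
          exact dom_of_le hb hL v (x c) (x c') hcc)
        D (fun κ c => DP_dom hnc hb hbi hs h1d (hX c) v)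
        (fun σ => by
          rw [← eval_aeval, hF1, gm_ne_zero]
          exact Eventually.of_forall fun t => by exact_mod_cast hA0 σ t)
        (fun σ κ => by
          rw [hchain, ← eval_aeval]
          exact DP_dom hnc hb hbi hs (by have := hQle σ; omega) (hFL σ) v)
      have e1 : (∏ σ, aeval (fun c => (X c).eval 1) (F σ)) = gm (fun t => ∏ σ, (A σ t : ℚ)) := by
        rw [← gm_prod']
        refine Finset.prod_congr rfl fun σ _ => ?_
        rw [← eval_aeval, hF1]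
      rw [← hWV, e1] at h1
      simp only [hx] at h1
      rw [← gm_rep WV] at h1
      simp only [gm_pow, gm_mul] at h1
      rw [dom_gm] at h1
      filter_upwards [h1 ε1 hε1', ha, hcc] with t h2 h3 h4
      rw [hm1, hm2, max_eq_left h3, max_eq_left h4]
      simp only [av_mul hb, av_pow hb, av_prod hb] at h2
      exact h2
    rcases exists_max hb hL v (x 0) (x 1) with h1 | h1 <;>
      rcases exists_max hb hL v (x 2) (x 3) with h2 | h2
    · exact main 0 1 2 3 ⟨Or.inl ⟨rfl, rfl⟩, Or.inl ⟨rfl, rfl⟩⟩ h1 h2 (fun _ => rfl)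
        (fun _ => rfl)
    · exact main 0 1 3 2 ⟨Or.inl ⟨rfl, rfl⟩, Or.inr ⟨rfl, rfl⟩⟩ h1 h2 (fun _ => rfl)
        (fun _ => max_comm _ _)
    · exact main 1 0 2 3 ⟨Or.inr ⟨rfl, rfl⟩, Or.inl ⟨rfl, rfl⟩⟩ h1 h2 (fun _ => max_comm _ _)
        (fun _ => rfl)
    · exact main 1 0 3 2 ⟨Or.inr ⟨rfl, rfl⟩, Or.inr ⟨rfl, rfl⟩⟩ h1 h2 (fun _ => max_comm _ _)
        (fun _ => max_comm _ _)
  have hWΩ : ∀ᶠ t in (UU : Filter ℕ), rep WV t = ((∏ σ, G σ t : ℤ) : ℚ) * rep Ω t := by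
    have h1 : (∏ σ, gm (fun t => (G σ t : ℚ))) = gm (fun t => ((∏ σ, G σ t : ℤ) : ℚ)) := by
      rw [gm_prod']
      congr 1
      funext t
      push_cast
      rfl
    rw [h1] at hΩeq
    have h2 := rep_mul (gm (fun t => ((∏ σ, G σ t : ℤ) : ℚ))) Ω
    rw [← hΩeq] at h2
    filter_upwards [h2, rep_gm (fun t => ((∏ σ, G σ t : ℤ) : ℚ))] with t h4 h5
    rw [h4, h5]
  filter_upwards [eventually_all.2 hdom, hWΩ, QI.lower hb hbi hL hΩ hΩ0 ε1 hε1'] with t h1 h2 h3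
  have key := placesP hb (fun c => x c t) (hc1 t) (hc2 t) (rep WV t)
    (fun v => ∏ σ, av b v (A σ t : ℚ)) (Real.exp (ε1 * L t)) (Real.exp_pos _).le
    (fun v => Finset.prod_nonneg fun σ _ => av_nonneg hb _ _) _ _ h1
  -- products over the places
  obtain ⟨S, hS⟩ : ∃ S : Fin k → ℝ, S = fun i => ∏ v, av b v (y i t : ℚ) := ⟨_, rfl⟩
  have hSpos : ∀ i, 0 < S i := fun i => by
    rw [hS]
    exact Finset.prod_pos fun v _ => av_pos hb v (by exact_mod_cast hy0 i t)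
  have hSle : ∀ i, S i ≤ |(y i t : ℝ)| := by
    intro i
    rw [hS]
    simp only
    rw [Fintype.prod_option]
    have h1 : ∏ v : Fin s, av b (some v) (y i t : ℚ) ≤ 1 :=
      Finset.prod_le_one (fun v _ => av_nonneg hb _ _) fun v _ => av_int_le_one hb v _
    have h2 : av b none (y i t : ℚ) = |(y i t : ℝ)| := by
      simp only [av]
      push_cast
      rfl
    rw [h2]
    exact mul_le_of_le_one_right (abs_nonneg _) h1
  have hprodA : ∀ σ, ∏ v, av b v (A σ t : ℚ) = ∏ i ∈ Fs σ, S i ^ (e i) := by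
    intro σ
    have h1 : ∀ v, av b v (A σ t : ℚ) = av b v (w σ t : ℚ) *
        ∏ i ∈ Fs σ, av b v (y i t : ℚ) ^ (e i) := by
      intro v
      rw [hA' σ t]
      push_cast
      rw [av_mul hb, av_prod hb]
      congr 1
      exact Finset.prod_congr rfl fun i _ => av_pow hb v _ _
    rw [Finset.prod_congr rfl fun v _ => h1 v, Finset.prod_mul_distrib,
      prod_av_unit hb hbi (hwS σ t), one_mul, Finset.prod_comm]
    refine Finset.prod_congr rfl fun i _ => ?_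
    rw [Finset.prod_pow, hS]
  have hprodG : ∀ σ, ∏ v, av b v (G σ t : ℚ) = ∏ i ∈ Fs σ, S i ^ (e i - 1) := by
    intro σ
    have h1 : ∀ v, av b v (G σ t : ℚ) = ∏ i ∈ Fs σ, av b v (y i t : ℚ) ^ (e i - 1) := by
      intro v
      rw [hG]
      push_cast
      rw [av_prod hb]
      exact Finset.prod_congr rfl fun i _ => av_pow hb v _ _
    rw [Finset.prod_congr rfl fun v _ => h1 v, Finset.prod_comm]
    refine Finset.prod_congr rfl fun i _ => ?_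
    rw [Finset.prod_pow, hS]
  have hGG : ∏ v, av b v ((∏ σ, G σ t : ℤ) : ℚ) = ∏ σ, ∏ i ∈ Fs σ, S i ^ (e i - 1) := by
    have h1 : ∀ v, av b v ((∏ σ, G σ t : ℤ) : ℚ) = ∏ σ, av b v (G σ t : ℚ) := by
      intro v
      push_cast
      exact av_prod hb v Finset.univ _
    rw [Finset.prod_congr rfl fun v _ => h1 v, Finset.prod_comm]
    exact Finset.prod_congr rfl fun σ _ => hprodG σ
  have hAA : ∏ v, ∏ σ, av b v (A σ t : ℚ) = ∏ σ, ∏ i ∈ Fs σ, S i ^ (e i) := by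
    rw [Finset.prod_comm]
    exact Finset.prod_congr rfl fun σ _ => hprodA σ
  have hsplit : ∏ σ, ∏ i ∈ Fs σ, S i ^ (e i) =
      (∏ σ, ∏ i ∈ Fs σ, S i) * ∏ σ, ∏ i ∈ Fs σ, S i ^ (e i - 1) := by
    rw [← Finset.prod_mul_distrib]
    refine Finset.prod_congr rfl fun σ _ => ?_
    rw [← Finset.prod_mul_distrib]
    refine Finset.prod_congr rfl fun i _ => ?_
    rw [← pow_succ', Nat.sub_add_cancel (he i)]
  have hGpos : 0 < ∏ σ, ∏ i ∈ Fs σ, S i ^ (e i - 1) :=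
    Finset.prod_pos fun σ _ => Finset.prod_pos fun i _ => pow_pos (hSpos i) _
  have hWprod : ∏ v, av b v (rep WV t) =
      (∏ σ, ∏ i ∈ Fs σ, S i ^ (e i - 1)) * ∏ v, av b v (rep Ω t) := by
    rw [h2, ← hGG, ← Finset.prod_mul_distrib]
    exact Finset.prod_congr rfl fun v _ => av_mul hb v _ _
  rw [hWprod, hAA, hsplit] at key
  have h4 : ∏ i, S i = ∏ σ, ∏ i ∈ Fs σ, S i := by
    rw [hFs]
    exact (Finset.prod_fiberwise (g := τ) Finset.univ _).symm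
  rw [← h4] at key
  have hSS : ∏ i, S i ≤ ∏ i, |(y i t : ℝ)| :=
    Finset.prod_le_prod (fun i _ => (hSpos i).le) fun i _ => hSle i
  generalize ∏ σ, ∏ i ∈ Fs σ, S i ^ (e i - 1) = Γ' at *
  generalize ∏ v, av b v (rep Ω t) = ω' at *
  obtain ⟨Y', hY'⟩ : ∃ Y' : ℝ, Y' = ∏ i, |(y i t : ℝ)| := ⟨_, rfl⟩
  rw [← hY'] at hSS ⊢
  obtain ⟨S', hS'⟩ : ∃ S' : ℝ, S' = ∏ i, S i := ⟨_, rfl⟩
  rw [← hS'] at key hSS
  obtain ⟨B, hB⟩ : ∃ B : ℝ, B = max |(x 0 t : ℝ)| |(x 1 t : ℝ)| ^ (∑ i, q i) *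
    max |(x 2 t : ℝ)| |(x 3 t : ℝ)| ^ (∑ i, q' i) := ⟨_, rfl⟩
  obtain ⟨C', hC'⟩ : ∃ C' : ℝ, C' = max |(x 0 t : ℝ)| |(x 1 t : ℝ)| ^ 2 *
    max |(x 2 t : ℝ)| |(x 3 t : ℝ)| ^ 2 := ⟨_, rfl⟩
  have hB0 : 0 ≤ B := by rw [hB]; positivity
  have hC0 : 0 ≤ C' := by rw [hC']; positivity
  rw [← hB, ← hC'] at key ⊢
  have h5 : Real.exp (ε * L t) = Real.exp (ε1 * L t) ^ (s + 1) * Real.exp (ε1 * L t) := by
    rw [← pow_succ, ← Real.exp_nat_mul]
    congr 1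
    rw [hε1]
    push_cast
    field_simp
    ring
  have h6 : Real.exp (-(ε1 * L t)) * (Γ' * B) ≤
      Real.exp (ε1 * L t) ^ (s + 1) * (C' * (Y' * Γ')) := by
    calc Real.exp (-(ε1 * L t)) * (Γ' * B) ≤ ω' * (Γ' * B) :=
          mul_le_mul_of_nonneg_right h3 (mul_nonneg hGpos.le hB0)
      _ = Γ' * ω' * B := by ring
      _ ≤ Real.exp (ε1 * L t) ^ (s + 1) * (C' * (S' * Γ')) := key
      _ ≤ _ := by
        refine mul_le_mul_of_nonneg_left (mul_le_mul_of_nonneg_left ?_ hC0) (by positivity)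
        exact mul_le_mul_of_nonneg_right hSS hGpos.le
  have h7 : Real.exp (-(ε1 * L t)) * Real.exp (ε1 * L t) = 1 := by
    rw [← Real.exp_add]
    simp
  have h8 : Γ' * B ≤ Γ' * (Real.exp (ε * L t) * (C' * Y')) := by
    have h9 := mul_le_mul_of_nonneg_right h6 (Real.exp_pos (ε1 * L t)).le
    calc Γ' * B = Real.exp (-(ε1 * L t)) * (Γ' * B) * Real.exp (ε1 * L t) := by
          linear_combination (-(Γ' * B)) * h7
      _ ≤ _ := h9
      _ = _ := by rw [h5]; ring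
  exact le_of_mul_le_mul_left h8 hGpos

end

end Pool.Agent.TH551.HA.P1
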