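import Mathlib
import Pool.Agent.TH551.HA.Tr2
import Pool.Agent.TH551.HA.Orb

/-!
# Project HA: level one truncation for sums of S-units
-/

set_option autoImplicit false
set_option linter.unusedSectionVars false
set_option linter.unusedVariables false

namespace Pool.Agent.TH551.HA

open Filter Topology Pool.Agent.TH932.Germs Pool.Agent.TH551.SU Pool.Agent.TH551.ZP
open Pool.Agent.TH551.SU.CRV Pool.Agent.TH551.SU.Ht

lemma av_inv_le {s : ℕ} {b : Fin s → ℕ} (hb : ∀ v, (b v).Prime) (hbi : Function.Injective b)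
    (v : Fin s) (a : ℤ) (ha : a ≠ 0) : (av b (some v) (a : ℚ))⁻¹ ≤ |(a : ℝ)| := by
  classical
  have h8 := one_le_prod_int hb hbi a ha
  rw [Fintype.prod_option] at h8
  have h9 : ∏ v : Fin s, av b (some v) (a : ℚ) ≤ av b (some v) (a : ℚ) := by
    rw [← Finset.mul_prod_erase _ _ (Finset.mem_univ v)]
    refine mul_le_of_le_one_right (av_nonneg hb _ _) ?_
    exact Finset.prod_le_one (fun v _ => av_nonneg hb _ _) fun v _ => av_int_le_one hb v _
  have h10 : av b none (a : ℚ) = |(a : ℝ)| := by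
    simp only [av]
    push_cast
    rfl
  rw [h10] at h8
  rw [inv_le_iff_one_le_mul₀ (av_pos hb _ (by exact_mod_cast ha))]
  exact h8.trans (mul_le_mul_of_nonneg_left h9 (abs_nonneg _))

/-- **level one truncation for sums of S-units** -/
theorem trMain (hnc : NcStmt) (hcs : CSStmt) (hhb : HbStmt) (hfw : FwStmt) (N p k : ℕ)
    (e : Fin p → ℕ) (he : ∀ i, 1 ≤ e i) (Γ : Subgroup ℚˣ) (hΓ : Γ.FG)
    (ε : ℝ) (hε : 0 < ε) :
    ∃ (G : MvPolynomial (Fin (N + 1)) ℚ) (C : ℝ), (∃ d, G.IsHomogeneous d) ∧ G ≠ 0 ∧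
      ∀ M : ℝ, 1 ≤ M → ∀ (u : Fin (N + 1) → Γ) (a : Fin (N + 1) → ℤ) (v : Fin p → Fin k → Γ)
        (c : Fin p → Fin k → ℤ), (∀ i, |(a i : ℝ)| ≤ M) → (∀ i j, |(c i j : ℝ)| ≤ M) →
        ∀ (z : Fin (N + 1) → ℤ) (x : Fin p → ℤ) (w : ℤ),
        (∀ i, (z i : ℚ) = ((u i : ℚˣ) : ℚ) * a i) →
        (∀ i, (x i : ℚ) = ∑ j, ((v i j : ℚˣ) : ℚ) * c i j) →
        (∃ g ∈ Γ, (w : ℚ) = ((g : ℚˣ) : ℚ)) → (∀ i, z i ≠ 0) →
        ∑ i, z i = w * ∏ j, x j ^ (e j) → ∑ i, z i ≠ 0 → Finset.univ.gcd z = 1 →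
        MvPolynomial.aeval (fun i => (z i : ℚ)) G ≠ 0 →
        ∀ i, (1 - ε) * Real.log |(z i : ℝ)| ≤
          C * (1 + Real.log M) + ∑ j with e j = 1, Real.log |(x j : ℝ)| := by
  classical
  obtain ⟨s, b, hb, hbi, hΓb⟩ := exists_base Γ hΓ
  by_contra hcon
  push Not at hcon
  -- an enumeration of the nonzero forms
  let T : Type := {G : MvPolynomial (Fin (N + 1)) ℚ // (∃ e, G.IsHomogeneous e) ∧ G ≠ 0}
  have hT : Nonempty T := ⟨⟨1, ⟨0, MvPolynomial.isHomogeneous_one _ _⟩, one_ne_zero⟩⟩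
  obtain ⟨g, hg⟩ := exists_surjective_nat T
  set GG' : ℕ → MvPolynomial (Fin (N + 1)) ℚ := fun t => ∏ i ∈ Finset.range (t + 1), (g i).1
    with hGG'
  have hGh : ∀ t, ∃ e, (GG' t).IsHomogeneous e := by
    intro t
    choose e' he' using fun i => (g i).2.1
    exact ⟨_, MvPolynomial.IsHomogeneous.prod _ _ _ fun i _ => he' i⟩
  have hG0 : ∀ t, GG' t ≠ 0 := fun t => Finset.prod_ne_zero_iff.2 fun i _ => (g i).2.2
  choose M hM u a v c ha hc z x w hz hx hw hz0 hsum hsum0 hgcd hGz ib hlt using fun t : ℕ =>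
    hcon (GG' t) (t : ℝ) (hGh t) (hG0 t)
  choose im him using fun t : ℕ => Finite.exists_max (fun i => |(z t i : ℝ)|)
  set L : ℕ → ℝ := fun t => Real.log |(z t (im t) : ℝ)| with hLdef
  have hz1 : ∀ t i, 1 ≤ |(z t i : ℝ)| := fun t i => by exact_mod_cast Int.one_le_abs (hz0 t i)
  have hL0 : ∀ t, 0 ≤ L t := fun t => Real.log_nonneg (hz1 t _)
  have hlM : ∀ t, 0 ≤ Real.log (M t) := fun t => Real.log_nonneg (hM t)
  have hexpL : ∀ t, Real.exp (L t) = |(z t (im t) : ℝ)| := fun t =>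
    Real.exp_log (by linarith [hz1 t (im t)])
  have hzle : ∀ t i, |(z t i : ℝ)| ≤ Real.exp (L t) := fun t i => by
    rw [hexpL]
    exact him t i
  have hx0 : ∀ t j, x t j ≠ 0 := by
    intro t j h0
    apply hsum0 t
    rw [hsum]
    have h2 : ∏ j, x t j ^ (e j) = 0 := Finset.prod_eq_zero (Finset.mem_univ j)
      (by rw [h0, zero_pow (by have := he j; omega)])
    rw [h2, mul_zero]
  have hx1 : ∀ t i, 1 ≤ |(x t i : ℝ)| := fun t i => by exact_mod_cast Int.one_le_abs (hx0 t i)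
  have hlx : ∀ t, 0 ≤ ∑ j with e j = 1, Real.log |(x t j : ℝ)| := fun t =>
    Finset.sum_nonneg fun i _ => Real.log_nonneg (hx1 t i)
  have hLt : ∀ t : ℕ, (t : ℝ) * (1 + Real.log (M t)) < L t := by
    intro t
    have h1 : (t : ℝ) * (1 + Real.log (M t)) + ∑ j with e j = 1, Real.log |(x t j : ℝ)| <
        (1 - ε) * Real.log |(z t (ib t) : ℝ)| := hlt t
    have h2 : 0 ≤ Real.log |(z t (ib t) : ℝ)| := Real.log_nonneg (hz1 t _)
    have h3 : Real.log |(z t (ib t) : ℝ)| ≤ L t :=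
      Real.log_le_log (by linarith [hz1 t (ib t)]) (him t (ib t))
    have h4 : (1 - ε) * Real.log |(z t (ib t) : ℝ)| ≤ Real.log |(z t (ib t) : ℝ)| := by
      nlinarith
    linarith [hlx t]
  have hL : Tendsto L atTop atTop := by
    refine tendsto_atTop_mono (fun t => ?_) tendsto_natCast_atTop_atTop
    have h1 := hLt t
    have h2 : 0 ≤ (t : ℝ) * Real.log (M t) := mul_nonneg (Nat.cast_nonneg t) (hlM t)
    rw [mul_add, mul_one] at h1
    linarith
  -- the digits are negligible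
  have hneg : ∀ y : ℕ → ℤ, (∀ t, |(y t : ℝ)| ≤ M t) → gm (fun t => (y t : ℚ)) ∈ KK L hL := by
    intro y hy
    refine ⟨y, fun _ => 1, ?_, Negl.one hL, by simp, by
      congr 1
      funext t
      simp⟩
    intro ε' hε'
    have h1 : ∀ᶠ t : ℕ in atTop, 1 / ε' ≤ (t : ℝ) :=
      tendsto_natCast_atTop_atTop.eventually_ge_atTop _
    refine ev_of_atTop (h1.mono fun t ht => ?_)
    refine (hy t).trans ?_
    rw [← Real.exp_log (show 0 < M t by linarith [hM t])]
    refine Real.exp_le_exp.2 ?_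
    have h2 := hLt t
    have h3 : 1 / ε' * Real.log (M t) ≤ (t : ℝ) * (1 + Real.log (M t)) := by
      have h5 : (0 : ℝ) ≤ t := Nat.cast_nonneg t
      nlinarith [mul_le_mul_of_nonneg_right ht (hlM t)]
    have h5 : 1 / ε' * Real.log (M t) ≤ L t := h3.trans h2.le
    rw [one_div, inv_mul_le_iff₀ hε'] at h5
    exact h5
  have hML : ∀ t : ℕ, 1 ≤ t → M t ≤ Real.exp (L t) := by
    intro t ht
    rw [← Real.exp_log (show 0 < M t by linarith [hM t])]
    refine Real.exp_le_exp.2 ?_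
    have h1 : (1 : ℝ) ≤ t := by exact_mod_cast ht
    nlinarith [hLt t, hlM t]
  -- divisors of the sum are bounded
  have hsumle : ∀ᶠ t in (UU : Filter ℕ), |((∑ i, z t i : ℤ) : ℝ)| ≤ Real.exp (2 * L t) := by
    have h1 : ∀ᶠ t in (UU : Filter ℕ), Real.log ((N : ℝ) + 1) ≤ L t :=
      ev_of_atTop (hL.eventually_ge_atTop _)
    filter_upwards [h1] with t ht
    push_cast
    calc |∑ i, (z t i : ℝ)| ≤ ∑ i, |(z t i : ℝ)| := Finset.abs_sum_le_sum_abs _ _
      _ ≤ ∑ _i : Fin (N + 1), Real.exp (L t) := Finset.sum_le_sum fun i _ => hzle t i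
      _ = ((N : ℝ) + 1) * Real.exp (L t) := by
        rw [Finset.sum_const, Finset.card_univ, Fintype.card_fin, nsmul_eq_mul]
        push_cast
        ring
      _ ≤ Real.exp (L t) * Real.exp (L t) := by
        refine mul_le_mul_of_nonneg_right ?_ (Real.exp_pos _).le
        rw [← Real.exp_log (show (0 : ℝ) < (N : ℝ) + 1 by positivity)]
        exact Real.exp_le_exp.2 ht
      _ = Real.exp (2 * L t) := by
        rw [← Real.exp_add]
        congr 1
        ring
  have hdvle : ∀ᶠ t in (UU : Filter ℕ), ∀ y : ℤ, y ∣ ∑ i, z t i →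
      |(y : ℝ)| ≤ Real.exp (2 * L t) := by
    filter_upwards [hsumle] with t ht y hy
    exact (abs_le_of_dvd hy (hsum0 t)).trans ht
  have hxdv : ∀ t j, x t j ∣ ∑ i, z t i := by
    intro t j
    rw [hsum]
    refine Dvd.dvd.mul_left ?_ _
    refine (dvd_pow_self (x t j) (by have := he j; omega : e j ≠ 0)).trans ?_
    exact Finset.dvd_prod_of_mem (fun j => x t j ^ (e j)) (Finset.mem_univ j)
  have hwdv : ∀ t, w t ∣ ∑ i, z t i := by
    intro t
    rw [hsum]
    exact dvd_mul_right _ _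
  -- the germs
  have hrepz : ∀ y : ℕ → ℤ, ∀ᶠ t in (UU : Filter ℕ), rep (gm (fun t => (y t : ℚ))) t = y t :=
    fun y => rep_gm _
  have h1L : ∀ t, 1 ≤ Real.exp (2 * L t) := fun t => Real.one_le_exp (by linarith [hL0 t])
  have hHB : ∀ i, ∃ (m' : ℕ) (u' : Fin m' → GG) (c' : Fin m' → KK L hL), (∀ j, GSU b (u' j)) ∧
        (∀ j, Mod b L (u' j)) ∧ ∑ j, (c' j : GG) * u' j = gm (fun t => (x t i : ℚ)) := by
    intro i
    set V : Fin k → GG := fun j => gm (fun t => ((v t i j : ℚˣ) : ℚ)) with hV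
    have hVS : ∀ j, GSU b (V j) := fun j => ⟨_, rfl, fun t => hΓb _ (v t i j).2⟩
    have hgerm : ∑ j, gm (fun t => (c t i j : ℚ)) * V j = gm (fun t => (x t i : ℚ)) := by
      have h1 : ∀ j, gm (fun t => (c t i j : ℚ)) * V j =
          gm (fun t => ((v t i j : ℚˣ) : ℚ) * c t i j) := by
        intro j
        rw [hV]
        simp only
        rw [gm_mul]
        congr 1
        funext t
        ring
      simp only [h1]
      rw [gm_sum']
      congr 1
      funext t
      rw [hx t i]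
    have h1 := hhb s b hb hbi L hL k V hVS
      (fun j => ⟨gm (fun t => (c t i j : ℚ)), hneg _ fun t => hc t i j⟩) 2 (by
        have h2 : ∑ j, ((⟨gm (fun t => (c t i j : ℚ)), hneg _ fun t => hc t i j⟩ :
            KK L hL) : GG) * V j = gm (fun t => (x t i : ℚ)) := hgerm
        rw [h2]
        filter_upwards [hrepz (fun t => x t i), hdvle] with t ht htle v
        rw [ht]
        cases v with
        | none =>
          simp only [av]
          push_cast
          exact htle _ (hxdv t i)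
        | some v => exact (av_int_le_one hb v _).trans (h1L t))
    obtain ⟨m', u', c', h3, h4, h5⟩ := h1
    exact ⟨m', u', c', h3, h4, h5.trans hgerm⟩
  choose m' u' c' hu' hu'' hs' using hHB
  have hwS : ∀ t, IsSU b (w t : ℚ) := by
    intro t
    obtain ⟨g, hg, h1⟩ := hw t
    rw [h1]
    exact hΓb g hg
  have hwG : GSU b (gm (fun t => (w t : ℚ))) := ⟨_, rfl, hwS⟩
  have hwM : Mod b L (gm (fun t => (w t : ℚ))) := by
    refine mod_of_upper hb hbi hL _ hwS 2 (by norm_num) ?_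
    filter_upwards [hdvle] with t ht v
    cases v with
    | none =>
      simp only [av]
      push_cast
      exact ht _ (hwdv t)
    | some v => exact (av_int_le_one hb v _).trans (h1L t)
  have huS : ∀ i t, IsSU b ((u t i : ℚˣ) : ℚ) := fun i t => hΓb _ (u t i).2
  have huM : ∀ i, Mod b L (gm (fun t => ((u t i : ℚˣ) : ℚ))) := by
    intro i
    refine mod_of_upper hb hbi hL _ (huS i) 1 (by norm_num) ?_
    have h1 : ∀ᶠ t : ℕ in (UU : Filter ℕ), 1 ≤ t := ev_of_atTop (eventually_ge_atTop 1)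
    filter_upwards [h1] with t ht v
    have ha0 : a t i ≠ 0 := by
      intro h0
      have h2 := hz t i
      rw [h0, Int.cast_zero, mul_zero] at h2
      exact hz0 t i (by exact_mod_cast h2)
    have ha0' : (a t i : ℚ) ≠ 0 := by exact_mod_cast ha0
    have h2 : ((u t i : ℚˣ) : ℚ) = (z t i : ℚ) * (a t i : ℚ)⁻¹ := by
      rw [hz t i]
      field_simp
    show av b v ((u t i : ℚˣ) : ℚ) ≤ _
    rw [h2, av_mul hb, av_inv hb, one_mul]
    cases v with
    | none =>
      have h3 : av b none (z t i : ℚ) = |(z t i : ℝ)| := by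
        simp only [av]
        push_cast
        rfl
      have h4 : av b none (a t i : ℚ) = |(a t i : ℝ)| := by
        simp only [av]
        push_cast
        rfl
      rw [h3, h4]
      have h5 : (1 : ℝ) ≤ |(a t i : ℝ)| := by exact_mod_cast Int.one_le_abs ha0
      have h6 : |(a t i : ℝ)|⁻¹ ≤ 1 := inv_le_one_of_one_le₀ h5
      exact (mul_le_of_le_one_right (abs_nonneg _) h6).trans (hzle t i)
    | some v =>
      have h3 := av_int_le_one hb v (z t i)
      have h4 := av_inv_le hb hbi v (a t i) ha0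
      have h5 : 0 ≤ (av b (some v) (a t i : ℚ))⁻¹ := inv_nonneg.2 (av_nonneg hb _ _)
      calc av b (some v) (z t i : ℚ) * (av b (some v) (a t i : ℚ))⁻¹ ≤
            1 * (av b (some v) (a t i : ℚ))⁻¹ := mul_le_mul_of_nonneg_right h3 h5
        _ ≤ |(a t i : ℝ)| := by rw [one_mul]; exact h4
        _ ≤ M t := ha t i
        _ ≤ Real.exp (L t) := hML t ht
  -- the combined family
  let T2 : Type := Fin (N + 1) ⊕ ((Σ i : Fin p, Fin (m' i)) ⊕ Unit)
  let eqv : T2 ≃ Fin (Fintype.card T2) := Fintype.equivFin T2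
  let f : T2 → GG := Sum.elim (fun i => gm (fun t => ((u t i : ℚˣ) : ℚ)))
    (Sum.elim (fun q => u' q.1 q.2) (fun _ => gm (fun t => (w t : ℚ))))
  set W : Fin (Fintype.card T2 + 1) → GG := Fin.cons 1 (fun j => f (eqv.symm j)) with hW
  have hWs : ∀ q : T2, W (eqv q).succ = f q := by
    intro q
    rw [hW, Fin.cons_succ, Equiv.symm_apply_apply]
  have hWall : ∀ (P : GG → Prop), P 1 → (∀ q, P (f q)) → ∀ j, P (W j) := by
    intro P h0 h1 j
    rw [hW]
    refine Fin.cases ?_ (fun j => ?_) j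
    · simpa using h0
    · rw [Fin.cons_succ]
      exact h1 _
  have hWg : ∀ j, GSU b (W j) := hWall _ GSU.one fun q => by
    rcases q with i | q | q
    · exact ⟨_, rfl, huS i⟩
    · exact hu' _ _
    · exact hwG
  have hWm : ∀ j, Mod b L (W j) := hWall _ (Mod.one hb hL) fun q => by
    rcases q with i | q | q
    · exact huM i
    · exact hu'' _ _
    · exact hwM
  obtain ⟨l, hl⟩ := hfw L hL (Fintype.card T2) W (fun j => GSU.ne_zero hb (hWg j))
    (1 + ∑ i, e i)
  have hs : Setup b hL W l (1 + ∑ i, e i) := ⟨hWg, hWm, hl⟩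
  choose X hX hX1 using fun i => exists_lift (hL := hL) W l
    (fun j : Fin (m' i) => (eqv (Sum.inr (Sum.inl ⟨i, j⟩))).succ) (c' i)
  have hX2 : ∀ i, (X i).eval 1 = gm (fun t => (x t i : ℚ)) := by
    intro i
    rw [hX1, ← hs' i]
    refine Finset.sum_congr rfl fun j _ => ?_
    rw [hWs]
    rfl
  have key := trGerm hnc hcs hb hbi hs (by rw [hW]; rfl) e he le_rfl X hX
    (fun i t => x t i) hX2 (fun j t => hx0 t j) w hwS (eqv (Sum.inr (Sum.inr ()))).succ
    (by rw [hWs]; rfl) (fun i t => z t i) (fun i => (eqv (Sum.inl i)).succ)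
    (fun i => ⟨gm (fun t => (a t i : ℚ)), hneg _ fun t => ha t i⟩)
    (by
      intro i
      rw [hWs]
      show _ = gm (fun t => (a t i : ℚ)) * gm (fun t => ((u t i : ℚˣ) : ℚ))
      rw [gm_mul]
      congr 1
      funext t
      rw [hz t i]
      exact mul_comm _ _) hgcd
    (by
      intro G hGh' hGI' h0
      obtain ⟨s0, hs0⟩ := hg ⟨G, hGh', hGI'⟩
      rw [Main.aeval_gm, ← gm_zero, gm_eq] at h0
      have h1 : ∀ᶠ t : ℕ in (UU : Filter ℕ), s0 ≤ t :=
        ev_of_atTop (eventually_ge_atTop s0)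
      obtain ⟨t, h2, h3⟩ := (h0.and h1).exists
      apply hGz t
      simp only [hGG', map_prod]
      refine Finset.prod_eq_zero (i := s0) (Finset.mem_range.2 (by omega)) ?_
      rw [hs0]
      exact h2)
    hsum (ε / 2) (by positivity)
  have hpos : ∀ᶠ t in (UU : Filter ℕ), 0 < L t := ev_of_atTop (hL.eventually_gt_atTop 0)
  obtain ⟨t, h1, h2⟩ := (key.and hpos).exists
  have h3 : (t : ℝ) * (1 + Real.log (M t)) + ∑ j with e j = 1, Real.log |(x t j : ℝ)| <
      (1 - ε) * Real.log |(z t (ib t) : ℝ)| := hlt t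
  have h4 : 0 ≤ (t : ℝ) * (1 + Real.log (M t)) :=
    mul_nonneg (Nat.cast_nonneg t) (by linarith [hlM t])
  have h5 : (1 - ε / 2) * L t ≤ ∑ j with e j = 1, Real.log |(x t j : ℝ)| := by
    have h6 := h1 (im t)
    have h6' : |(z t (im t) : ℝ)| ≤ Real.exp (ε / 2 * L t) *
        ∏ j with e j = 1, |(x t j : ℝ)| := h6
    rw [← hexpL] at h6'
    rw [← Real.log_prod (fun i _ => by linarith [hx1 t i]),
      ← Real.log_exp ((1 - ε / 2) * L t)]
    refine Real.log_le_log (Real.exp_pos _) ?_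
    have h7 : (1 - ε / 2) * L t = L t - ε / 2 * L t := by ring
    rw [h7, Real.exp_sub, div_le_iff₀ (Real.exp_pos _), mul_comm]
    exact h6'
  have h6 : 0 ≤ Real.log |(z t (ib t) : ℝ)| := Real.log_nonneg (hz1 t _)
  have h7 : Real.log |(z t (ib t) : ℝ)| ≤ L t :=
    Real.log_le_log (by linarith [hz1 t (ib t)]) (him t (ib t))
  have h8 : 0 < 1 - ε := by
    by_contra h9
    push Not at h9
    nlinarith [hlx t]
  nlinarith

end Pool.Agent.TH551.HA
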