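import Mathlib
import Pool.Agent.TH551.HA.NT3

/-!
# Project HA: circuits of products of powers of sums of S-units
-/

set_option autoImplicit false
set_option linter.unusedSectionVars false
set_option linter.unusedVariables false

namespace Pool.Agent.TH551.HA

open Filter Topology Pool.Agent.TH932.Germs Pool.Agent.TH551.SU Pool.Agent.TH551.ZP
open Pool.Agent.TH551.SU.CRV Pool.Agent.TH551.ZP.GT

variable {s : ℕ} {b : Fin s → ℕ} {L : ℕ → ℝ} {r : ℕ} {hL : Tendsto L atTop atTop}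
  {U : Fin (r + 1) → GG} {l : Fin (r + 1) → ℕ} {d : ℕ}

/-- the inequality for all circuits -/
def CirB (L : ℕ → ℝ) (hL : Tendsto L atTop atTop) {N k : ℕ} (e : Fin k → ℕ)
    (x : Fin k → ℕ → ℤ) (A : Fin N → ℕ → ℤ) : Prop :=
  ∀ κ : Fin N → KK L hL, ∑ σ, (κ σ : GG) * gm (fun t => (A σ t : ℚ)) = 0 →
    (∀ lam : Fin N → KK L hL, ∑ σ, (lam σ : GG) * gm (fun t => (A σ t : ℚ)) = 0 →
      (∀ σ, κ σ = 0 → lam σ = 0) → (∃ σ, κ σ ≠ 0 ∧ lam σ = 0) → lam = 0) →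
    ∀ J : Finset (Fin N), (∀ σ, σ ∈ J ↔ κ σ ≠ 0) → 2 ≤ J.card → ∀ ε : ℝ, 0 < ε →
    ∀ᶠ t in (UU : Filter ℕ), ∀ j ∈ J, |(A j t : ℝ)| ≤ Real.exp (ε * L t) *
      (|((J.gcd (fun σ => A σ t) : ℤ) : ℝ)| *
        (if J.card ≤ 2 then 1 else ∏ i, |(x i t : ℝ)| ^ (min (e i) (N - 2))))

theorem circuitsAll (hnc : NcStmt) (hcs : CSStmt) (hb : ∀ v, (b v).Prime)
    (hbi : Function.Injective b) (hs : Setup b hL U l d) (hU0 : U 0 = 1) {N : ℕ} (k : ℕ)
    (τ : Fin k → Fin N) (e : Fin k → ℕ) (he : ∀ i, 1 ≤ e i) (hd : N * (1 + ∑ i, e i) ≤ d)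
    (X : Fin k → Polynomial GG) (hX : ∀ i, Lift hL U l 1 (X i)) (x : Fin k → ℕ → ℤ)
    (hx : ∀ i, (X i).eval 1 = gm (fun t => (x i t : ℚ))) (w : Fin N → ℕ → ℤ)
    (hwS : ∀ σ t, IsSU b (w σ t : ℚ)) (ι : Fin N → Fin (r + 1))
    (hw : ∀ σ, U (ι σ) = gm (fun t => (w σ t : ℚ))) (A : Fin N → ℕ → ℤ)
    (hA : ∀ σ t, A σ t = w σ t * ∏ i with τ i = σ, x i t ^ (e i)) (hA0 : ∀ σ t, A σ t ≠ 0) :
    CirB L hL e x A := by
  classical
  intro κ hrel hmin J hJ hJ2 ε hε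
  obtain ⟨m, hm⟩ : ∃ m, J.card = m + 1 := ⟨J.card - 1, by omega⟩
  have hJN : J.card ≤ N := by
    have := J.card_le_univ
    rwa [Fintype.card_fin] at this
  obtain ⟨F, hF⟩ : ∃ F : Fin N → Finset (Fin k),
      F = fun σ => Finset.univ.filter (fun i => τ i = σ) := ⟨_, rfl⟩
  have hA' : ∀ σ t, A σ t = w σ t * ∏ i ∈ F σ, x i t ^ (e i) := fun σ t => by
    rw [hA, hF]
  have hmem : ∀ i σ, i ∈ F σ ↔ τ i = σ := fun i σ => by
    rw [hF]
    simp
  have hFle : ∀ σ, ∑ i ∈ F σ, e i ≤ ∑ i, e i := fun σ => by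
    rw [hF]
    exact Finset.sum_le_sum_of_subset (Finset.filter_subset _ _)
  obtain ⟨E, hE⟩ : ∃ E : Polynomial GG, E = Polynomial.X ^ (l 0) := ⟨_, rfl⟩
  have hEL : Lift hL U l 1 E := by
    have h := Lift.gen (hL := hL) (U := U) (l := l) 0
    rw [hU0, Polynomial.C_1, one_mul] at h
    rw [hE]
    exact h
  have hE1 : E.eval 1 = 1 := by rw [hE]; simp
  obtain ⟨K, hK⟩ : ∃ K : Fin N → Polynomial GG, K = fun σ =>
    E ^ (∑ i, e i - ∑ i ∈ F σ, e i) *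
    (Polynomial.C (U (ι σ)) * Polynomial.X ^ (l (ι σ))) := ⟨_, rfl⟩
  obtain ⟨P, hP⟩ : ∃ P : Fin N → Polynomial GG, P = fun σ => ∏ i ∈ F σ, X i ^ (e i) := ⟨_, rfl⟩
  have hKL : ∀ σ, Lift hL U l (1 * (∑ i, e i - ∑ i ∈ F σ, e i) + 1) (K σ) := fun σ => by
    rw [hK]
    exact (hEL.pow _).mul (Lift.gen _)
  have hPL : ∀ σ, Lift hL U l (∑ i ∈ F σ, 1 * e i) (P σ) := fun σ => by
    rw [hP]
    exact Lift.prod _ _ _ fun i _ => (hX i).pow (e i)
  have haL : ∀ σ, Lift hL U l (1 + ∑ i, e i) (P σ * K σ) := by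
    intro σ
    have h2 := (hPL σ).mul (hKL σ)
    have h3 : ∑ i ∈ F σ, 1 * e i + (1 * (∑ i, e i - ∑ i ∈ F σ, e i) + 1) = 1 + ∑ i, e i := by
      have h4 := hFle σ
      simp only [one_mul]
      omega
    rwa [h3] at h2
  have hK1 : ∀ σ, (K σ).eval 1 = gm (fun t => (w σ t : ℚ)) := by
    intro σ
    rw [← hw σ, hK]
    simp [hE1]
  have hP1 : ∀ σ, (P σ).eval 1 = gm (fun t => ∏ i ∈ F σ, (x i t : ℚ) ^ (e i)) := by
    intro σ
    rw [hP]
    simp only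
    rw [Polynomial.eval_prod, ← gm_prod']
    refine Finset.prod_congr rfl fun i _ => ?_
    rw [Polynomial.eval_pow, hx, gm_pow]
  have ha1 : ∀ σ, (P σ * K σ).eval 1 = gm (fun t => (A σ t : ℚ)) := by
    intro σ
    rw [Polynomial.eval_mul, hK1, hP1, gm_mul]
    congr 1
    funext t
    rw [hA' σ t]
    push_cast
    ring
  have hx0 : ∀ i t, x i t ≠ 0 := by
    intro i t h0
    apply hA0 (τ i) t
    rw [hA', Finset.prod_eq_zero ((hmem i _).2 rfl)
      (by rw [h0, zero_pow (by have := he i; omega)]), mul_zero]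
  -- the divisors
  obtain ⟨G, hG⟩ : ∃ G : Fin N → ℕ → ℤ, G = fun σ t => ∏ i ∈ F σ, x i t ^ (e i - (m - 1)) :=
    ⟨_, rfl⟩
  have hG0 : ∀ σ t, G σ t ≠ 0 := fun σ t => by
    rw [hG]
    exact Finset.prod_ne_zero_iff.2 fun i _ => pow_ne_zero _ (hx0 i t)
  have hGA : ∀ σ t, G σ t ∣ A σ t := by
    intro σ t
    rw [hA', hG]
    exact Dvd.dvd.mul_left (Finset.prod_dvd_prod_of_dvd _ _ fun i _ =>
      pow_dvd_pow _ (Nat.sub_le _ _)) _
  have hdv : ∀ σ, ∀ q < m, ∃ ω, QI b L ω ∧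
      ((th^[q]) (P σ * K σ)).eval 1 = gm (fun t => (G σ t : ℚ)) * ω := by
    intro σ q hq
    obtain ⟨R, hR, h1⟩ := th_iter_prod (F σ) e X (fun i _ => (hX i).sb) (K σ) (hKL σ).sb q
    have h2 : (th^[q]) (P σ * K σ) = (∏ i ∈ F σ, X i ^ (e i - q)) * R := by
      rw [hP]
      exact h1
    refine ⟨(∏ i ∈ F σ, (X i).eval 1 ^ ((e i - q) - (e i - (m - 1)))) * R.eval 1, ?_, ?_⟩
    · exact QI.mul hb (QI.prod hb hL _ _ fun i _ => QI.pow hb hL ((hX i).qi hb hs) _)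
        (hR.qi hb hs)
    · rw [h2, Polynomial.eval_mul, Polynomial.eval_prod, ← mul_assoc]
      congr 1
      have h3 : gm (fun t => (G σ t : ℚ)) = ∏ i ∈ F σ, (X i).eval 1 ^ (e i - (m - 1)) := by
        have h4 : ∀ i, (X i).eval 1 ^ (e i - (m - 1)) =
            gm (fun t => (x i t : ℚ) ^ (e i - (m - 1))) := by
          intro i
          rw [hx, gm_pow]
        simp only [h4]
        rw [gm_prod']
        congr 1
        funext t
        rw [hG]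
        push_cast
        rfl
      rw [h3, ← Finset.prod_mul_distrib]
      refine Finset.prod_congr rfl fun i _ => ?_
      rw [Polynomial.eval_pow, ← pow_add]
      congr 1
      omega
  have hN1 : 1 + ∑ i, e i ≤ N * (1 + ∑ i, e i) := Nat.le_mul_of_pos_left _ (by omega)
  have key := circuitIneq hnc hcs hb hbi hs (m := m) (e := 1 + ∑ i, e i)
    ((Nat.mul_le_mul_right _ (by omega)).trans hd) (hN1.trans hd) (fun σ => P σ * K σ) haL A
    ha1 hA0 κ (by simp only [ha1]; exact hrel) (fun lam => by simp only [ha1]; exact hmin lam)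
    J hJ hm G hG0 hGA hdv ε hε
  filter_upwards [key] with t ht j hj
  -- products over the places
  obtain ⟨S, hS⟩ : ∃ S : Fin k → ℝ, S = fun i => ∏ v, av b v (x i t : ℚ) := ⟨_, rfl⟩
  have hSpos : ∀ i, 0 < S i := fun i => by
    rw [hS]
    exact Finset.prod_pos fun v _ => av_pos hb v (by exact_mod_cast hx0 i t)
  have hx1 : ∀ i, (1 : ℝ) ≤ |(x i t : ℝ)| := fun i => by
    exact_mod_cast Int.one_le_abs (hx0 i t)
  have hSle : ∀ i, S i ≤ |(x i t : ℝ)| := by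
    intro i
    rw [hS]
    simp only
    rw [Fintype.prod_option]
    have h1 : ∏ v : Fin s, av b (some v) (x i t : ℚ) ≤ 1 :=
      Finset.prod_le_one (fun v _ => av_nonneg hb _ _) fun v _ => av_int_le_one hb v _
    have h2 : av b none (x i t : ℚ) = |(x i t : ℝ)| := by
      simp only [av]
      push_cast
      rfl
    rw [h2]
    exact mul_le_of_le_one_right (abs_nonneg _) h1
  have hprodA : ∀ σ, ∏ v, av b v (A σ t : ℚ) = ∏ i ∈ F σ, S i ^ (e i) := by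
    intro σ
    have h1 : ∀ v, av b v (A σ t : ℚ) = av b v (w σ t : ℚ) *
        ∏ i ∈ F σ, av b v (x i t : ℚ) ^ (e i) := by
      intro v
      rw [hA' σ t]
      push_cast
      rw [av_mul hb, av_prod hb]
      congr 1
      exact Finset.prod_congr rfl fun i _ => av_pow hb v _ _
    rw [Finset.prod_congr rfl fun v _ => h1 v, Finset.prod_mul_distrib,
      prod_av_unit hb hbi (hwS σ t), one_mul, Finset.prod_comm]
    refine Finset.prod_congr rfl fun i _ => ?_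
    rw [Finset.prod_pow, hS]
  have hprodG : ∀ σ, ∏ v, av b v (G σ t : ℚ) = ∏ i ∈ F σ, S i ^ (e i - (m - 1)) := by
    intro σ
    have h1 : ∀ v, av b v (G σ t : ℚ) =
        ∏ i ∈ F σ, av b v (x i t : ℚ) ^ (e i - (m - 1)) := by
      intro v
      rw [hG]
      push_cast
      rw [av_prod hb]
      exact Finset.prod_congr rfl fun i _ => av_pow hb v _ _
    rw [Finset.prod_congr rfl fun v _ => h1 v, Finset.prod_comm]
    refine Finset.prod_congr rfl fun i _ => ?_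
    rw [Finset.prod_pow, hS]
  have hGG : ∏ v, av b v ((∏ σ ∈ J, G σ t : ℤ) : ℚ) =
      ∏ σ ∈ J, ∏ i ∈ F σ, S i ^ (e i - (m - 1)) := by
    have h1 : ∀ v, av b v ((∏ σ ∈ J, G σ t : ℤ) : ℚ) = ∏ σ ∈ J, av b v (G σ t : ℚ) := by
      intro v
      push_cast
      exact av_prod hb v J _
    rw [Finset.prod_congr rfl fun v _ => h1 v, Finset.prod_comm]
    exact Finset.prod_congr rfl fun σ _ => hprodG σ
  have hAA : ∏ v, ∏ σ ∈ J, av b v (A σ t : ℚ) = ∏ σ ∈ J, ∏ i ∈ F σ, S i ^ (e i) := by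
    rw [Finset.prod_comm]
    exact Finset.prod_congr rfl fun σ _ => hprodA σ
  have hsplit : ∏ σ ∈ J, ∏ i ∈ F σ, S i ^ (e i) =
      (∏ σ ∈ J, ∏ i ∈ F σ, S i ^ (min (e i) (m - 1))) *
        ∏ σ ∈ J, ∏ i ∈ F σ, S i ^ (e i - (m - 1)) := by
    rw [← Finset.prod_mul_distrib]
    refine Finset.prod_congr rfl fun σ _ => ?_
    rw [← Finset.prod_mul_distrib]
    refine Finset.prod_congr rfl fun i _ => ?_
    rw [← pow_add]
    congr 1
    omega
  have hGpos : 0 < ∏ σ ∈ J, ∏ i ∈ F σ, S i ^ (e i - (m - 1)) :=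
    Finset.prod_pos fun σ _ => Finset.prod_pos fun i _ => pow_pos (hSpos i) _
  have h1 := ht j hj
  rw [hGG, hAA, hsplit] at h1
  have h2 : |(A j t : ℝ)| ≤ Real.exp (ε * L t) * (|((J.gcd (fun σ => A σ t) : ℤ) : ℝ)| *
      ∏ σ ∈ J, ∏ i ∈ F σ, S i ^ (min (e i) (m - 1))) := by
    refine le_of_mul_le_mul_right (h1.trans_eq ?_) hGpos
    ring
  refine h2.trans ?_
  refine mul_le_mul_of_nonneg_left (mul_le_mul_of_nonneg_left ?_ (abs_nonneg _))
    (Real.exp_pos _).le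
  by_cases hc : J.card ≤ 2
  · rw [if_pos hc]
    have hm1 : m - 1 = 0 := by omega
    rw [hm1]
    simp
  · rw [if_neg hc]
    have h3 : ∏ σ ∈ J, ∏ i ∈ F σ, S i ^ (min (e i) (m - 1)) ≤
        ∏ σ ∈ J, ∏ i ∈ F σ, |(x i t : ℝ)| ^ (min (e i) (N - 2)) := by
      refine Finset.prod_le_prod (fun σ _ => Finset.prod_nonneg fun i _ =>
        pow_nonneg (hSpos i).le _) fun σ _ => Finset.prod_le_prod (fun i _ =>
        pow_nonneg (hSpos i).le _) fun i _ => ?_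
      refine (pow_le_pow_left₀ (hSpos i).le (hSle i) _).trans ?_
      exact pow_le_pow_right₀ (hx1 i) (by omega)
    refine h3.trans ?_
    have h4 : ∏ i, |(x i t : ℝ)| ^ (min (e i) (N - 2)) =
        ∏ σ, ∏ i ∈ F σ, |(x i t : ℝ)| ^ (min (e i) (N - 2)) := by
      rw [hF]
      exact (Finset.prod_fiberwise (g := τ) Finset.univ _).symm
    rw [h4, ← Finset.prod_sdiff (Finset.subset_univ J)]
    refine le_mul_of_one_le_left (Finset.prod_nonneg fun σ _ => Finset.prod_nonneg fun i _ =>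
      pow_nonneg (abs_nonneg _) _) ?_
    have h5 : ∀ σ, (1 : ℝ) ≤ ∏ i ∈ F σ, |(x i t : ℝ)| ^ (min (e i) (N - 2)) := by
      intro σ
      calc (1 : ℝ) = ∏ _i ∈ F σ, (1 : ℝ) := by simp
        _ ≤ _ := Finset.prod_le_prod (fun _ _ => zero_le_one) fun i _ => one_le_pow₀ (hx1 i)
    calc (1 : ℝ) = ∏ _σ ∈ Finset.univ \ J, (1 : ℝ) := by simp
      _ ≤ _ := Finset.prod_le_prod (fun _ _ => zero_le_one) fun σ _ => h5 σ

end Pool.Agent.TH551.HA
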