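import Mathlib
import Pool.Agent.TH551.HA.NT4

/-!
# Project HA: the n-term inequalities, for germs
-/

set_option autoImplicit false
set_option linter.unusedSectionVars false
set_option linter.unusedVariables false

namespace Pool.Agent.TH551.HA

open Filter Topology Pool.Agent.TH932.Germs Pool.Agent.TH551.SU Pool.Agent.TH551.ZP
open Pool.Agent.TH551.SU.CRV Pool.Agent.TH551.ZP.GT

variable {L : ℕ → ℝ} {hL : Tendsto L atTop atTop}

lemma gm_sum2 {ι : Type} (A : Finset ι) (f : ι → ℕ → ℚ) :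
    ∑ a ∈ A, gm (f a) = gm (fun t => ∑ a ∈ A, f a t) := by
  classical
  induction A using Finset.induction_on with
  | empty => simp [gm_zero]
  | insert x A hx ih =>
    rw [Finset.sum_insert hx, ih, gm_add]
    congr 1
    funext n
    rw [Finset.sum_insert hx]

lemma one_le_R {k : ℕ} (x : Fin k → ℤ) (hx : ∀ i, x i ≠ 0) (f : Fin k → ℕ) :
    (1 : ℝ) ≤ ∏ i, |(x i : ℝ)| ^ (f i) := by
  calc (1 : ℝ) = ∏ _i : Fin k, (1 : ℝ) := by simp
    _ ≤ _ := Finset.prod_le_prod (fun _ _ => zero_le_one) fun i _ =>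
      one_le_pow₀ (by exact_mod_cast Int.one_le_abs (hx i))

/-- the circuit through a set -/
lemma circuit_through {N k : ℕ} (e : Fin k → ℕ) (x : Fin k → ℕ → ℤ) (A : Fin N → ℕ → ℤ)
    (hC : CirB L hL e x A) (hsum : ∀ t, ∑ σ, A σ t = 0) (T : Finset (Fin N))
    (hT : gm (fun t => ∑ σ ∈ T, (A σ t : ℚ)) ≠ 0) :
    ∃ J : Finset (Fin N), 2 ≤ J.card ∧ (∃ j ∈ J, j ∈ T) ∧ (∃ j ∈ J, j ∉ T) ∧
      ∀ ε : ℝ, 0 < ε → ∀ᶠ t in (UU : Filter ℕ), ∀ j ∈ J, |(A j t : ℝ)| ≤
        Real.exp (ε * L t) * (|((J.gcd (fun σ => A σ t) : ℤ) : ℝ)| *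
          (if J.card ≤ 2 then 1 else ∏ i, |(x i t : ℝ)| ^ (min (e i) (N - 2)))) := by
  classical
  have h0 : ∑ σ, gm (fun t => (A σ t : ℚ)) = 0 := by
    rw [gm_sum2, ← gm_zero]
    congr 1
    funext t
    exact_mod_cast hsum t
  have h1 : ∑ σ ∈ T, gm (fun t => (A σ t : ℚ)) ≠ 0 := by
    rw [gm_sum2]
    exact hT
  obtain ⟨κ, _, hκ1, hκ2, hκ3⟩ := exists_circuit (K := KK L hL)
    (fun σ => gm (fun t => (A σ t : ℚ))) Finset.univ T h0 (Finset.subset_univ _) h1
  have hsm : ∀ lam : Fin N → KK L hL, ∀ S : Finset (Fin N),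
      ∑ σ ∈ S, lam σ • gm (fun t => (A σ t : ℚ)) =
        ∑ σ ∈ S, (lam σ : GG) * gm (fun t => (A σ t : ℚ)) := by
    intro lam S
    refine Finset.sum_congr rfl fun σ _ => ?_
    rw [Subfield.smul_def, smul_eq_mul]
  have hin : ∃ j ∈ T, κ j ≠ 0 := by
    by_contra hno
    push Not at hno
    exact hκ2 (Finset.sum_eq_zero fun j hj => by rw [hno j hj, zero_smul])
  have hout : ∃ j, j ∉ T ∧ κ j ≠ 0 := by
    by_contra hno
    push Not at hno
    apply hκ2
    rw [← hκ1]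
    refine Finset.sum_subset (Finset.subset_univ _) fun j _ hj => ?_
    rw [hno j hj, zero_smul]
  obtain ⟨j0, hj0, hj0'⟩ := hin
  obtain ⟨j1, hj1, hj1'⟩ := hout
  set J : Finset (Fin N) := Finset.univ.filter (fun j => κ j ≠ 0) with hJ
  have hJm : ∀ σ, σ ∈ J ↔ κ σ ≠ 0 := fun σ => by
    rw [hJ]
    simp
  have hJ2 : 2 ≤ J.card := by
    have h2 : 1 < J.card := by
      rw [Finset.one_lt_card]
      exact ⟨j0, (hJm _).2 hj0', j1, (hJm _).2 hj1', fun h => hj1 (h ▸ hj0)⟩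
    exact h2
  refine ⟨J, hJ2, ⟨j0, (hJm _).2 hj0', hj0⟩, ⟨j1, (hJm _).2 hj1', hj1⟩, ?_⟩
  refine hC κ ?_ ?_ J hJm hJ2
  · rw [← hsm]
    exact hκ1
  · intro lam h2 h3 h4
    refine hκ3 lam ?_ h3 h4
    rw [hsm]
    exact h2

/-- **pairwise coprime terms** -/
theorem germStrong {N k : ℕ} (e : Fin k → ℕ) (x : Fin k → ℕ → ℤ) (A : Fin N → ℕ → ℤ)
    (hC : CirB L hL e x A) (hA0 : ∀ σ t, A σ t ≠ 0) (hx0 : ∀ i t, x i t ≠ 0)
    (hsum : ∀ t, ∑ σ, A σ t = 0) (hcop : ∀ σ σ' t, σ ≠ σ' → IsCoprime (A σ t) (A σ' t))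
    (ε : ℝ) (hε : 0 < ε) :
    ∀ᶠ t in (UU : Filter ℕ), ∀ j, |(A j t : ℝ)| ≤
      Real.exp (ε * L t) * ∏ i, |(x i t : ℝ)| ^ (min (e i) (N - 2)) := by
  classical
  refine eventually_all.2 fun j => ?_
  have hT : gm (fun t => ∑ σ ∈ {j}, (A σ t : ℚ)) ≠ 0 := by
    rw [gm_ne_zero]
    refine Eventually.of_forall fun t => ?_
    rw [Finset.sum_singleton]
    exact_mod_cast hA0 j t
  obtain ⟨J, hJ2, ⟨j0, hj0, hj0'⟩, ⟨j1, hj1, hj1'⟩, hJ⟩ :=
    circuit_through e x A hC hsum {j} hT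
  rw [Finset.mem_singleton] at hj0' hj1'
  subst hj0'
  filter_upwards [hJ ε hε] with t ht
  have h1 := ht j0 hj0
  have hg : |((J.gcd (fun σ => A σ t) : ℤ) : ℝ)| = 1 := by
    have h2 : J.gcd (fun σ => A σ t) ∣ A j0 t := Finset.gcd_dvd hj0
    have h3 : J.gcd (fun σ => A σ t) ∣ A j1 t := Finset.gcd_dvd hj1
    have h4 := (hcop j0 j1 t (fun h => hj1' h.symm)).isUnit_of_dvd' h2 h3
    have h5 := Int.isUnit_iff_abs_eq.1 h4
    exact_mod_cast h5
  rw [hg, one_mul] at h1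
  refine h1.trans (mul_le_mul_of_nonneg_left ?_ (Real.exp_pos _).le)
  have h2 := one_le_R (fun i => x i t) (fun i => hx0 i t) (fun i => min (e i) (N - 2))
  split_ifs
  · exact h2
  · exact le_rfl

lemma abs_gcd_pos {N : ℕ} (J : Finset (Fin N)) (hJ : J.Nonempty) (A : Fin N → ℤ)
    (hA : ∀ σ, A σ ≠ 0) : (1 : ℝ) ≤ |((J.gcd A : ℤ) : ℝ)| := by
  obtain ⟨j, hj⟩ := hJ
  have h1 : J.gcd A ≠ 0 := fun h => hA j (Finset.gcd_eq_zero_iff.1 h j hj)
  exact_mod_cast Int.one_le_abs h1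

lemma gcd_mul_gcd_le {N : ℕ} (T J : Finset (Fin N)) (A : Fin N → ℤ)
    (hA : ∀ σ, A σ ≠ 0) (j : Fin N) (hT : j ∈ T) (hJ : j ∈ J) :
    |((T.gcd A : ℤ) : ℝ)| * |((J.gcd A : ℤ) : ℝ)| ≤
      |(((T ∪ J).gcd A : ℤ) : ℝ)| * |(A j : ℝ)| := by
  classical
  have h1 : lcm (T.gcd A) (J.gcd A) ∣ A j :=
    lcm_dvd (Finset.gcd_dvd hT) (Finset.gcd_dvd hJ)
  have h2 : T.gcd A * J.gcd A ∣ (T ∪ J).gcd A * A j := by
    rw [Finset.gcd_union]
    exact (gcd_mul_lcm (T.gcd A) (J.gcd A)).symm.dvd.trans (mul_dvd_mul_left _ h1)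
  have h3 : (T ∪ J).gcd A * A j ≠ 0 := by
    refine mul_ne_zero ?_ (hA j)
    intro h
    exact hA j (Finset.gcd_eq_zero_iff.1 h j (Finset.mem_union_left _ hT))
  rw [← abs_mul, ← abs_mul]
  have h4 := Int.le_of_dvd (abs_pos.2 h3) ((abs_dvd_abs _ _).2 h2)
  exact_mod_cast h4

/-- **coprime terms, no vanishing subsums** -/
theorem germGcd {N k : ℕ} (e : Fin k → ℕ) (x : Fin k → ℕ → ℤ) (A : Fin N → ℕ → ℤ)
    (hC : CirB L hL e x A) (hA0 : ∀ σ t, A σ t ≠ 0) (hx0 : ∀ i t, x i t ≠ 0)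
    (hsum : ∀ t, ∑ σ, A σ t = 0)
    (hgcd : ∀ t, Finset.univ.gcd (fun σ => A σ t) = 1)
    (hsub : ∀ T : Finset (Fin N), T.Nonempty → T ≠ Finset.univ → ∀ t, ∑ σ ∈ T, A σ t ≠ 0)
    (ε : ℝ) (hε : 0 < ε) :
    ∀ᶠ t in (UU : Filter ℕ), ∀ j, |(A j t : ℝ)| ≤
      Real.exp (ε * L t) * (∏ i, |(x i t : ℝ)| ^ (min (e i) (N - 2))) ^ (N - 2) := by
  classical
  rcases Nat.eq_zero_or_pos N with hN0 | hN
  · subst hN0
    exact Eventually.of_forall fun t j => j.elim0
  set R : ℕ → ℝ := fun t => ∏ i, |(x i t : ℝ)| ^ (min (e i) (N - 2)) with hR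
  have hR1 : ∀ t, 1 ≤ R t := fun t =>
    one_le_R (fun i => x i t) (fun i => hx0 i t) (fun i => min (e i) (N - 2))
  set Bd : Finset (Fin N) → Prop := fun T => ∀ ε : ℝ, 0 < ε → ∀ᶠ t in (UU : Filter ℕ),
    ∀ j ∈ T, |(A j t : ℝ)| ≤ Real.exp (ε * L t) * (|((T.gcd (fun σ => A σ t) : ℤ) : ℝ)| *
      R t ^ (T.card - 2)) with hBd
  have step : ∀ n : ℕ, n + 1 ≤ N → ∃ T : Finset (Fin N), n + 1 ≤ T.card ∧ Bd T := by
    intro n
    induction n with
    | zero =>
      intro _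
      refine ⟨{⟨0, hN⟩}, by simp, ?_⟩
      intro ε hε
      filter_upwards [L_nonneg hL] with t ht j hj
      rw [Finset.mem_singleton] at hj
      subst hj
      rw [Finset.gcd_singleton, ← Int.abs_eq_normalize]
      have h1 : 1 ≤ Real.exp (ε * L t) := Real.one_le_exp (by positivity)
      have h2 : |((|A ⟨0, hN⟩ t| : ℤ) : ℝ)| = |(A ⟨0, hN⟩ t : ℝ)| := by
        push_cast
        rw [abs_abs]
      have h4 : (1 : ℕ) - 2 = 0 := rfl
      rw [h2, Finset.card_singleton, h4, pow_zero, mul_one]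
      have h3 := abs_nonneg (A ⟨0, hN⟩ t : ℝ)
      nlinarith
    | succ n ih =>
      intro hn
      obtain ⟨T, hT, hB⟩ := ih (by omega)
      by_cases hTc : n + 1 + 1 ≤ T.card
      · exact ⟨T, hTc, hB⟩
      have hTu : T ≠ Finset.univ := by
        intro h
        rw [h, Finset.card_univ, Fintype.card_fin] at hTc
        omega
      have hTne : T.Nonempty := by
        rw [← Finset.card_pos]
        omega
      have hTg : gm (fun t => ∑ σ ∈ T, (A σ t : ℚ)) ≠ 0 := by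
        rw [gm_ne_zero]
        refine Eventually.of_forall fun t => ?_
        exact_mod_cast hsub T hTne hTu t
      obtain ⟨J, hJ2, ⟨j0, hj0, hj0'⟩, ⟨j1, hj1, hj1'⟩, hJ⟩ :=
        circuit_through e x A hC hsum T hTg
      have hlt : T.card + 1 ≤ (T ∪ J).card := by
        refine Finset.card_lt_card ?_
        rw [Finset.ssubset_iff_of_subset Finset.subset_union_left]
        exact ⟨j1, Finset.mem_union_right _ hj1, hj1'⟩
      have hlt2 : J.card ≤ (T ∪ J).card := Finset.card_le_card Finset.subset_union_right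
      refine ⟨T ∪ J, by omega, ?_⟩
      intro ε hε
      filter_upwards [hB (ε / 2) (by positivity), hJ (ε / 2) (by positivity)] with t h1 h2
      set E : ℝ := Real.exp (ε / 2 * L t) with hE
      have hEpos : 0 < E := Real.exp_pos _
      have hEE : Real.exp (ε * L t) = E * E := by
        rw [hE, ← Real.exp_add]
        congr 1
        ring
      set gT : ℝ := |((T.gcd (fun σ => A σ t) : ℤ) : ℝ)| with hgT
      set gJ : ℝ := |((J.gcd (fun σ => A σ t) : ℤ) : ℝ)| with hgJ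
      set gU : ℝ := |(((T ∪ J).gcd (fun σ => A σ t) : ℤ) : ℝ)| with hgU
      set B : ℝ := (if J.card ≤ 2 then 1 else R t) with hBB
      have gT1 : 1 ≤ gT := abs_gcd_pos T hTne _ fun σ => hA0 σ t
      have gJ1 : 1 ≤ gJ := abs_gcd_pos J ⟨j0, hj0⟩ _ fun σ => hA0 σ t
      have gU1 : 1 ≤ gU := abs_gcd_pos (T ∪ J) ⟨j0, Finset.mem_union_right _ hj0⟩ _
        fun σ => hA0 σ t
      have B0 : 0 ≤ B := by
        rw [hBB]
        split_ifs
        · exact zero_le_one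
        · linarith [hR1 t]
      have hgg : gT * gJ ≤ gU * |(A j0 t : ℝ)| :=
        gcd_mul_gcd_le T J (fun σ => A σ t) (fun σ => hA0 σ t) j0 hj0' hj0
      have hRc : 0 ≤ R t ^ (T.card - 2) := pow_nonneg (by linarith [hR1 t]) _
      have hBR : B * R t ^ (T.card - 2) ≤ R t ^ ((T ∪ J).card - 2) := by
        rw [hBB]
        split_ifs with hc
        · rw [one_mul]
          exact pow_le_pow_right₀ (hR1 t) (by omega)
        · rw [← pow_succ']
          exact pow_le_pow_right₀ (hR1 t) (by omega)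
      have hA1 := h1 j0 hj0'
      have hA2 : |(A j0 t : ℝ)| ≤ E * (gJ * B) := h2 j0 hj0
      have k1 : gT ≤ gU * (E * B) := by
        have h3 : gT * gJ ≤ (gU * (E * B)) * gJ := by
          calc gT * gJ ≤ gU * |(A j0 t : ℝ)| := hgg
            _ ≤ gU * (E * (gJ * B)) := mul_le_mul_of_nonneg_left hA2 (by linarith)
            _ = _ := by ring
        exact le_of_mul_le_mul_right h3 (by linarith)
      have k2 : gJ ≤ gU * (E * R t ^ (T.card - 2)) := by
        have h3 : gJ * gT ≤ (gU * (E * R t ^ (T.card - 2))) * gT := by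
          calc gJ * gT = gT * gJ := mul_comm _ _
            _ ≤ gU * |(A j0 t : ℝ)| := hgg
            _ ≤ gU * (E * (gT * R t ^ (T.card - 2))) :=
              mul_le_mul_of_nonneg_left hA1 (by linarith)
            _ = _ := by ring
        exact le_of_mul_le_mul_right h3 (by linarith)
      have hfin : E * (gU * (E * (B * R t ^ (T.card - 2)))) ≤
          Real.exp (ε * L t) * (gU * R t ^ ((T ∪ J).card - 2)) := by
        rw [hEE]
        calc E * (gU * (E * (B * R t ^ (T.card - 2)))) =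
            (E * E * gU) * (B * R t ^ (T.card - 2)) := by ring
          _ ≤ (E * E * gU) * R t ^ ((T ∪ J).card - 2) :=
            mul_le_mul_of_nonneg_left hBR (by positivity)
          _ = _ := by ring
      intro j hj
      rcases Finset.mem_union.1 hj with hj | hj
      · refine (h1 j hj).trans (le_trans ?_ hfin)
        refine mul_le_mul_of_nonneg_left ?_ hEpos.le
        calc gT * R t ^ (T.card - 2) ≤ (gU * (E * B)) * R t ^ (T.card - 2) :=
              mul_le_mul_of_nonneg_right k1 hRc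
          _ = _ := by ring
      · refine (h2 j hj).trans (le_trans ?_ hfin)
        refine mul_le_mul_of_nonneg_left ?_ hEpos.le
        calc gJ * B ≤ (gU * (E * R t ^ (T.card - 2))) * B :=
              mul_le_mul_of_nonneg_right k2 B0
          _ = _ := by ring
  obtain ⟨T, hT, hB⟩ := step (N - 1) (by omega)
  have hTu : T = Finset.univ := by
    rw [← Finset.card_eq_iff_eq_univ, Fintype.card_fin]
    have := T.card_le_univ
    rw [Fintype.card_fin] at this
    omega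
  subst hTu
  filter_upwards [hB ε hε] with t ht j
  have h1 := ht j (Finset.mem_univ _)
  rw [hgcd t, Finset.card_univ, Fintype.card_fin] at h1
  simpa using h1

end Pool.Agent.TH551.HA
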