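import Mathlib
import Pool.Agent.TH551.HA.Jp1
import Pool.Agent.TH551.HA.Tr1

/-!
# Project HA: normal crossings divisors on projective space, algebra
-/

set_option autoImplicit false
set_option linter.unusedSectionVars false
set_option linter.unusedVariables false

namespace Pool.Agent.TH551.HA.Pn

open MvPolynomial

/-- `φ` takes each element of `I` exactly once as a value (and no others) -/
def Cov {n N : ℕ} (φ : Fin (n + 1) → Option (Fin N)) (I : Finset (Fin N)) : Prop :=
  (∀ c c' i, φ c = some i → φ c' = some i → c = c') ∧ (∀ i, i ∈ I ↔ ∃ c, φ c = some i)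

/-- the matrix with columns vectors of a family or unit vectors -/
def GM {n N : ℕ} {R : Type} [CommRing R] (v : Fin N → Fin (n + 1) → R)
    (φ : Fin (n + 1) → Option (Fin N)) : Matrix (Fin (n + 1)) (Fin (n + 1)) R :=
  Matrix.of fun c' c => (φ c).elim (if c' = c then 1 else 0) (fun i => v i c')

lemma cov_prod {n N : ℕ} {K : Type} [CommRing K] (φ : Fin (n + 1) → Option (Fin N))
    (I : Finset (Fin N)) (h : Cov φ I) (P : Fin N → K) :
    ∏ c, (φ c).elim 1 P = ∏ i ∈ I, P i := by
  classical
  have h1 : ∀ c, (φ c).elim 1 P = ∏ i ∈ I, (if φ c = some i then P i else 1) := by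
    intro c
    rcases hc : φ c with _ | i
    · simp
    · have hi : i ∈ I := (h.2 i).2 ⟨c, hc⟩
      simp only [Option.elim_some, Option.some.injEq]
      rw [Finset.prod_ite_eq, if_pos hi]
  rw [Finset.prod_congr rfl fun c _ => h1 c, Finset.prod_comm]
  refine Finset.prod_congr rfl fun i hi => ?_
  obtain ⟨c, hc⟩ := (h.2 i).1 hi
  rw [Finset.prod_eq_single c]
  · rw [if_pos hc]
  · intro c' _ hc'
    rw [if_neg]
    intro h2
    exact hc' (h.1 _ _ _ h2 hc)
  · intro h2
    exact absurd (Finset.mem_univ _) h2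

/-- independent vectors can be completed by unit vectors -/
lemma exchange {n N : ℕ} {k : Type} [Field k] (v : Fin N → Fin (n + 1) → k)
    (I : Finset (Fin N))
    (hli : ∀ g : Fin N → k, (∀ i, i ∉ I → g i = 0) → (∀ c, ∑ i, g i * v i c = 0) →
      ∀ i, g i = 0) : ∃ φ, Cov φ I ∧ (GM v φ).det ≠ 0 := by
  classical
  induction I using Finset.induction_on with
  | empty =>
    refine ⟨fun _ => none, ⟨fun c c' i h => by simp at h, fun i => by simp⟩, ?_⟩
    have h1 : GM v (fun _ => none) = (1 : Matrix (Fin (n + 1)) (Fin (n + 1)) k) := by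
      ext c' c
      simp [GM, Matrix.one_apply]
    rw [h1, Matrix.det_one]
    exact one_ne_zero
  | insert i0 I' hi0 ih =>
    obtain ⟨φ, hφ, hdet⟩ := ih fun g hg h => hli g
      (fun i hi => hg i fun h2 => hi (Finset.mem_insert_of_mem h2)) h
    have hnot : ∀ c, φ c ≠ some i0 := fun c hc => hi0 ((hφ.2 i0).2 ⟨c, hc⟩)
    obtain ⟨c0, hc0, hcr⟩ : ∃ c0, φ c0 = none ∧ (GM v φ).cramer (v i0) c0 ≠ 0 := by
      by_contra hno
      push Not at hno
      set G := GM v φ with hG
      have hmv : ∀ c', ∑ c, G c' c * G.cramer (v i0) c = G.det * v i0 c' := by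
        intro c'
        have h1 := congrFun (Matrix.mulVec_cramer G (v i0)) c'
        simpa [Matrix.mulVec, dotProduct] using h1
      have h1 := hli (fun i => (if i = i0 then G.det else 0) -
        ∑ c, (if φ c = some i then G.cramer (v i0) c else 0)) (by
          intro i hi
          rw [Finset.mem_insert, not_or] at hi
          rw [if_neg hi.1, zero_sub, neg_eq_zero]
          refine Finset.sum_eq_zero fun c _ => ?_
          rw [if_neg]
          intro h2
          exact hi.2 ((hφ.2 i).2 ⟨c, h2⟩)) (by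
          intro c'
          simp only [sub_mul, Finset.sum_sub_distrib, ite_mul, zero_mul]
          rw [Finset.sum_ite_eq', if_pos (Finset.mem_univ _), sub_eq_zero, ← hmv c']
          simp only [Finset.sum_mul, ite_mul, zero_mul]
          rw [Finset.sum_comm]
          refine Finset.sum_congr rfl fun c _ => ?_
          rcases hc : φ c with _ | i
          · rw [hno c hc]
            simp
          · simp only [Option.some.injEq]
            rw [Finset.sum_ite_eq, if_pos (Finset.mem_univ _)]
            have h2 : G c' c = v i c' := by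
              rw [hG]
              simp [GM, hc]
            rw [h2]
            ring) i0
      simp only [if_true] at h1
      rw [Finset.sum_eq_zero fun c _ => by rw [if_neg (hnot c)], sub_zero] at h1
      exact hdet h1
    refine ⟨Function.update φ c0 (some i0), ⟨?_, ?_⟩, ?_⟩
    · intro c c' i h1 h2
      by_cases hc : c = c0
      · by_cases hc' : c' = c0
        · rw [hc, hc']
        · exfalso
          rw [hc, Function.update_self] at h1
          rw [Function.update_of_ne hc'] at h2
          exact hnot c' (h2.trans h1.symm)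
      · rw [Function.update_of_ne hc] at h1
        by_cases hc' : c' = c0
        · exfalso
          rw [hc', Function.update_self] at h2
          exact hnot c (h1.trans h2.symm)
        · rw [Function.update_of_ne hc'] at h2
          exact hφ.1 _ _ _ h1 h2
    · intro i
      rw [Finset.mem_insert]
      constructor
      · rintro (rfl | hi)
        · exact ⟨c0, Function.update_self _ _ _⟩
        · obtain ⟨c, hc⟩ := (hφ.2 i).1 hi
          refine ⟨c, ?_⟩
          rw [Function.update_of_ne]
          · exact hc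
          · rintro rfl
            rw [hc0] at hc
            simp at hc
      · rintro ⟨c, hc⟩
        by_cases h1 : c = c0
        · rw [h1, Function.update_self] at hc
          exact Or.inl (Option.some.inj hc).symm
        · rw [Function.update_of_ne h1] at hc
          exact Or.inr ((hφ.2 i).2 ⟨c, hc⟩)
    · have h1 : GM v (Function.update φ c0 (some i0)) = (GM v φ).updateCol c0 (v i0) := by
        ext c' c
        rw [Matrix.updateCol_apply]
        by_cases hc : c = c0
        · subst hc
          simp [GM]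
        · simp [GM, hc]
      rw [h1, ← Matrix.cramer_apply]
      exact hcr

section abs

variable {K : Type} [Field K] [Algebra ℚ K] {n N : ℕ}

/-- the gradient as polynomials -/
noncomputable def grad (F : Fin N → MvPolynomial (Fin (n + 1)) ℚ) (i : Fin N)
    (c : Fin (n + 1)) : MvPolynomial (Fin (n + 1)) ℚ := pderiv c (F i)

lemma aeval_GM {K : Type} [CommRing K] [Algebra ℚ K]
    (F : Fin N → MvPolynomial (Fin (n + 1)) ℚ) (x : Fin (n + 1) → K)
    (φ : Fin (n + 1) → Option (Fin N)) :
    aeval x (GM (grad F) φ).det = (GM (fun i c => aeval x (pderiv c (F i))) φ).det := by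
  rw [AlgHom.map_det]
  congr 1
  ext c' c
  simp only [AlgHom.mapMatrix_apply, Matrix.map_apply, GM, Matrix.of_apply]
  rcases φ c with _ | i
  · simp only [Option.elim_none]
    split_ifs <;> simp
  · simp [grad]

/-- the Nullstellensatz for a divisor with normal crossings -/
theorem null_n (F : Fin N → MvPolynomial (Fin (n + 1)) ℚ)
    (hNC : ∀ z : Fin (n + 1) → ℂ, z ≠ 0 → LinearIndependent ℂ
      (fun i : {i : Fin N // aeval z (F i) = 0} =>
        fun c : Fin (n + 1) => aeval z (pderiv c (F i)))) (I : Finset (Fin N))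
    (c : Fin (n + 1)) :
    ∃ m, (X c : MvPolynomial (Fin (n + 1)) ℚ) ^ m ∈
      Ideal.span (F '' (I : Set (Fin N)) ∪ {g | ∃ φ, Cov φ I ∧ g = (GM (grad F) φ).det}) := by
  classical
  set J := Ideal.span (F '' (I : Set (Fin N)) ∪ {g | ∃ φ, Cov φ I ∧ g = (GM (grad F) φ).det})
    with hJ
  have h1 : (X c : MvPolynomial (Fin (n + 1)) ℚ) ∈ J.radical := by
    rw [← vanishingIdeal_zeroLocus_eq_radical (K := ℂ), mem_vanishingIdeal_iff]
    intro z hz
    rw [mem_zeroLocus_iff] at hz
    rw [aeval_X]
    by_contra hzc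
    have hz0 : z ≠ 0 := fun h => hzc (by rw [h]; rfl)
    have hFz : ∀ i ∈ I, aeval z (F i) = 0 := fun i hi =>
      hz _ (Ideal.subset_span (Or.inl ⟨i, hi, rfl⟩))
    have hli := hNC z hz0
    obtain ⟨φ, hφ, hdet⟩ := exchange (fun i c => aeval z (pderiv c (F i))) I (by
      intro g hg h0
      rw [Fintype.linearIndependent_iff] at hli
      have h1 := hli (fun i => g i) (by
        funext c
        rw [Finset.sum_apply]
        simp only [Pi.smul_apply, smul_eq_mul, Pi.zero_apply]
        have h2 := Fintype.sum_subtype_add_sum_subtype (fun i => aeval z (F i) = 0)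
          (fun i => g i * aeval z (pderiv c (F i)))
        rw [h0 c] at h2
        have h3 : ∑ i : {i : Fin N // ¬ aeval z (F i) = 0},
            g i * aeval z (pderiv c (F i)) = 0 :=
          Finset.sum_eq_zero fun i _ => by
            have h4 : g i = 0 := hg i fun h5 => i.2 (hFz i h5)
            rw [h4, zero_mul]
        rw [h3, add_zero] at h2
        exact h2)
      intro i
      by_cases hi : aeval z (F i) = 0
      · exact h1 ⟨i, hi⟩
      · exact hg i fun h5 => hi (hFz i h5))
    apply hdet
    rw [← aeval_GM]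
    exact hz _ (Ideal.subset_span (Or.inr ⟨φ, hφ, rfl⟩))
  exact h1

lemma aeval_mem (A : Subalgebra ℚ K) (x : Fin (n + 1) → K) (hx : ∀ c, x c ∈ A)
    (p : MvPolynomial (Fin (n + 1)) ℚ) : aeval x p ∈ A := by
  induction p using MvPolynomial.induction_on with
  | C a => rw [aeval_C]; exact A.algebraMap_mem a
  | add p q hp hq => rw [map_add]; exact A.add_mem hp hq
  | mul_X p i hp => rw [map_mul, aeval_X]; exact A.mul_mem hp (hx i)

/-- the polynomials whose product with the determinant is divisible -/
def bI (A : Subalgebra ℚ K) (x : Fin (n + 1) → K) (hx : ∀ c, x c ∈ A) (z W Q : K)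
    (hz : z ∈ A) : Ideal (MvPolynomial (Fin (n + 1)) ℚ) where
  carrier := {f | ∃ (m : ℕ), ∃ ω ∈ A, z ^ m * W * aeval x f = Q * ω}
  zero_mem' := ⟨0, 0, A.zero_mem, by simp⟩
  add_mem' := by
    rintro f g ⟨m, ω, hω, h⟩ ⟨m', ω', hω', h'⟩
    refine ⟨m + m', z ^ m' * ω + z ^ m * ω', A.add_mem (A.mul_mem (A.pow_mem hz _) hω)
      (A.mul_mem (A.pow_mem hz _) hω'), ?_⟩
    rw [map_add, pow_add]
    linear_combination z ^ m' * h + z ^ m * h'
  smul_mem' := by
    rintro g f ⟨m, ω, hω, h⟩
    refine ⟨m, aeval x g * ω, A.mul_mem (aeval_mem A x hx g) hω, ?_⟩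
    rw [smul_eq_mul, map_mul]
    linear_combination aeval x g * h

/-- **the determinant of the table is divisible** -/
theorem absN (A : Subalgebra ℚ K) (F : Fin N → MvPolynomial (Fin (n + 1)) ℚ)
    (hNC : ∀ z : Fin (n + 1) → ℂ, z ≠ 0 → LinearIndependent ℂ
      (fun i : {i : Fin N // aeval z (F i) = 0} =>
        fun c : Fin (n + 1) => aeval z (pderiv c (F i))))
    (x : Fin (n + 1) → K) (hx : ∀ c, x c ∈ A) (P : Fin N → K)
    (R : Matrix (Fin (n + 1)) (Fin (n + 1)) K) (hRA : ∀ ρ c, R ρ c ∈ A)
    (hF : ∀ i, ∃ ω ∈ A, aeval x (F i) = P i * ω)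
    (hR : ∀ i ρ, ∃ ω ∈ A, ∑ c, R ρ c * aeval x (pderiv c (F i)) = P i * ω)
    (c : Fin (n + 1)) : ∃ (m : ℕ), ∃ ω ∈ A, x c ^ m * R.det = (∏ i, P i) * ω := by
  classical
  have hdetA : ∀ M : Matrix (Fin (n + 1)) (Fin (n + 1)) K, (∀ i j, M i j ∈ A) → M.det ∈ A := by
    intro M hM
    rw [Matrix.det_apply']
    exact A.sum_mem fun σ _ => A.mul_mem (intCast_mem A _) (A.prod_mem fun i _ => hM _ _)
  suffices H : ∀ I : Finset (Fin N), ∃ (m : ℕ), ∃ ω ∈ A,
      x c ^ m * R.det = (∏ i ∈ I, P i) * ω from H Finset.univ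
  intro I
  induction I using Finset.strongInduction with
  | H I ih =>
  obtain ⟨m, hm⟩ := null_n F hNC I c
  have hle : Ideal.span (F '' (I : Set (Fin N)) ∪
      {g | ∃ φ, Cov φ I ∧ g = (GM (grad F) φ).det}) ≤
      bI A x hx (x c) R.det (∏ i ∈ I, P i) (hx c) := by
    rw [Ideal.span_le]
    rintro f (⟨i, hi, rfl⟩ | ⟨φ, hφ, rfl⟩)
    · obtain ⟨m', ω, hω, h1⟩ := ih (I.erase i) (Finset.erase_ssubset hi)
      obtain ⟨ω', hω', h2⟩ := hF i
      refine ⟨m', ω * ω', A.mul_mem hω hω', ?_⟩
      rw [h1, h2, ← Finset.mul_prod_erase I P hi]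
      ring
    · choose ωR hωR hRe using hR
      refine ⟨0, (Matrix.of fun ρ c => (φ c).elim (R ρ c) (fun i => ωR i ρ)).det, ?_, ?_⟩
      · refine hdetA _ fun ρ c => ?_
        rw [Matrix.of_apply]
        rcases φ c with _ | i
        · exact hRA _ _
        · exact hωR _ _
      · rw [pow_zero, one_mul, aeval_GM, ← Matrix.det_mul, ← cov_prod φ I hφ P,
          ← Matrix.det_mul_row]
        congr 1
        ext ρ c
        rw [Matrix.mul_apply, Matrix.of_apply, Matrix.of_apply]
        rcases hc : φ c with _ | i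
        · simp [GM, hc]
        · simp only [GM, Matrix.of_apply, hc, Option.elim_some]
          exact hRe i ρ
  obtain ⟨m', ω, hω, h⟩ := hle hm
  refine ⟨m' + m, ω, hω, ?_⟩
  rw [map_pow, aeval_X] at h
  rw [← h, pow_add]
  ring

end abs

section scale

variable {K : Type} [Field K] [Algebra ℚ K] {n : ℕ}

lemma pderiv_scale (F : MvPolynomial (Fin (n + 1)) ℚ) (d : ℕ) (hF : F.IsHomogeneous d)
    (x : Fin (n + 1) → K) (l : K) (c : Fin (n + 1)) :
    l * aeval (fun c => l * x c) (pderiv c F) = l ^ d * aeval x (pderiv c F) := by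
  rcases d with _ | d
  · have h1 : F.totalDegree = 0 := (totalDegree_zero_iff_isHomogeneous (Fin (n + 1))).2 hF
    rw [totalDegree_eq_zero_iff_eq_C] at h1
    rw [h1, pderiv_C, map_zero, map_zero, mul_zero, mul_zero]
  · have h1 := hF.pderiv (i := c)
    rw [Nat.add_sub_cancel] at h1
    rw [aeval_scale _ d h1]
    ring

end scale

end Pool.Agent.TH551.HA.Pn
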