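import Mathlib
import Pool.Agent.TH551.HA.Jq1
import Pool.Agent.TH551.HA.Jp5

/-!
# Project HA: normal crossings divisors on projective space, derivations of lifts
-/

set_option autoImplicit false
set_option linter.unusedSectionVars false
set_option linter.unusedVariables false

namespace Pool.Agent.TH551.HA.Pn

open Filter Topology Pool.Agent.TH932.Germs Pool.Agent.TH551.SU Pool.Agent.TH551.ZP
open Pool.Agent.TH551.SU.CRV Pool.Agent.TH551.ZP.GT MvPolynomial
open Pool.Agent.TH551.HA.P1 (DP_sum rat_mem DP_const AQ AD qi_int)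

section

variable {s : ℕ} {b : Fin s → ℕ} {L : ℕ → ℝ} {r : ℕ} {hL : Tendsto L atTop atTop}
  {U : Fin (r + 1) → GG} {l : Fin (r + 1) → ℕ} {d : ℕ}
  {δ : DerQ GG} {ψ : GG →ₗ[KK L hL] KK L hL} {n : ℕ}

lemma lift_mono (X : Fin n → Polynomial GG) (hX : ∀ c, Lift hL U l 1 (X c)) (α : Fin n →₀ ℕ)
    (a : ℚ) : Lift hL U l (∑ c, α c) (aeval X (monomial α a)) := by
  rw [aeval_monomial, Finsupp.prod_fintype _ _ (fun i => pow_zero _)]
  have h1 : algebraMap ℚ (Polynomial GG) a = Polynomial.C (algebraMap ℚ GG a) := rfl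
  rw [h1]
  refine Lift.smul ?_ (rat_mem a)
  have h2 := Lift.prod (hL := hL) (U := U) (l := l) Finset.univ (fun c => 1 * α c)
    (fun c => X c ^ (α c)) (fun c _ => (hX c).pow (α c))
  simpa using h2

/-- the chain rule for monomials -/
lemma chain_mono (hb : ∀ v, (b v).Prime) (hs : Setup b hL U l d) (X : Fin n → Polynomial GG)
    (hX : ∀ c, Lift hL U l 1 (X c)) (m : ℕ) (α : Fin n →₀ ℕ) (hα : ∑ c, α c = m) (hn : m ≤ d)
    (a : ℚ) : DP hL δ ψ (aeval X (monomial α a)) =
      ∑ c, aeval X (pderiv c (monomial α a)) * DP hL δ ψ (X c) := by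
  classical
  induction m generalizing α with
  | zero =>
    have h1 : α = 0 := by
      ext c
      exact Finset.sum_eq_zero_iff.1 hα c (Finset.mem_univ _)
    rw [h1]
    have h2 : (monomial (0 : Fin n →₀ ℕ) a : MvPolynomial (Fin n) ℚ) = C a := rfl
    rw [h2, aeval_C, DP_const]
    symm
    refine Finset.sum_eq_zero fun c _ => ?_
    rw [pderiv_C, map_zero, zero_mul]
  | succ m ih =>
    obtain ⟨c0, hc0⟩ : ∃ c0, α c0 ≠ 0 := by
      by_contra hno
      push Not at hno
      rw [Finset.sum_eq_zero fun c _ => hno c] at hα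
      omega
    obtain ⟨β, hβ⟩ : ∃ β : Fin n →₀ ℕ, α = β + Finsupp.single c0 1 :=
      ⟨α - Finsupp.single c0 1, by
        rw [tsub_add_cancel_of_le]
        rw [Finsupp.single_le_iff]
        omega⟩
    have hβs : ∑ c, β c = m := by
      have h1 : ∑ c, α c = ∑ c, β c + 1 := by
        rw [hβ]
        simp only [Finsupp.add_apply, Finset.sum_add_distrib]
        congr 1
        rw [Finset.sum_eq_single c0]
        · rw [Finsupp.single_eq_same]
        · intro c _ hc
          rw [Finsupp.single_eq_of_ne hc]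
        · intro h
          exact absurd (Finset.mem_univ _) h
      omega
    have hmon : (monomial α a : MvPolynomial (Fin n) ℚ) = monomial β a * MvPolynomial.X c0 := by
      rw [hβ, MvPolynomial.X, monomial_mul, mul_one]
    have hLβ := lift_mono (hL := hL) (U := U) (l := l) X hX β a
    rw [hβs] at hLβ
    rw [hmon, map_mul, aeval_X, DP_mul hb hs hn hLβ (hX c0), ih β hβs (by omega)]
    have h1 : ∀ c, aeval X (pderiv c (monomial β a * MvPolynomial.X c0)) * DP hL δ ψ (X c) =
        aeval X (pderiv c (monomial β a)) * DP hL δ ψ (X c) * X c0 +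
          (if c = c0 then aeval X (monomial β a) * DP hL δ ψ (X c) else 0) := by
      intro c
      rw [Derivation.leibniz, pderiv_X, map_add]
      by_cases hc : c = c0
      · subst hc
        rw [if_pos rfl, Pi.single_eq_same]
        simp only [smul_eq_mul, mul_one, map_mul, aeval_X]
        ring
      · rw [if_neg hc, Pi.single_eq_of_ne (Ne.symm hc)]
        simp only [smul_eq_mul, mul_zero, map_mul, aeval_X, map_zero]
        ring
    rw [Finset.sum_congr rfl fun c _ => h1 c, Finset.sum_add_distrib, Finset.sum_ite_eq',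
      if_pos (Finset.mem_univ _), Finset.sum_mul]

lemma eval_aeval (X : Fin n → Polynomial GG) (p : MvPolynomial (Fin n) ℚ) :
    (aeval X p).eval 1 = aeval (fun c => (X c).eval 1) p := by
  induction p using MvPolynomial.induction_on with
  | C a =>
    rw [aeval_C, aeval_C]
    have h1 : algebraMap ℚ (Polynomial GG) a = Polynomial.C (algebraMap ℚ GG a) := rfl
    rw [h1, Polynomial.eval_C]
  | add p q hp hq => rw [map_add, map_add, Polynomial.eval_add, hp, hq]
  | mul_X p i hp => rw [map_mul, map_mul, aeval_X, aeval_X, Polynomial.eval_mul, hp]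

lemma hom_sum {F : MvPolynomial (Fin n) ℚ} {e : ℕ} (hF : F.IsHomogeneous e) {α : Fin n →₀ ℕ}
    (hα : α ∈ F.support) : ∑ c, α c = e := by
  have h2 := hF (MvPolynomial.mem_support_iff.1 hα)
  rw [Finsupp.weight_apply, Finsupp.sum_fintype _ _ (by simp)] at h2
  simpa using h2

lemma lift_aeval (X : Fin n → Polynomial GG) (hX : ∀ c, Lift hL U l 1 (X c))
    (F : MvPolynomial (Fin n) ℚ) {e : ℕ} (hF : F.IsHomogeneous e) :
    Lift hL U l e (aeval X F) := by
  rw [F.as_sum, map_sum]
  refine Lift.sum _ _ _ fun α hα => ?_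
  have h1 := lift_mono (hL := hL) (U := U) (l := l) X hX α (coeff α F)
  rwa [hom_sum hF hα] at h1

/-- the chain rule -/
lemma chain (hb : ∀ v, (b v).Prime) (hs : Setup b hL U l d) (X : Fin n → Polynomial GG)
    (hX : ∀ c, Lift hL U l 1 (X c)) (F : MvPolynomial (Fin n) ℚ) {e : ℕ}
    (hF : F.IsHomogeneous e) (hd : e ≤ d) :
    (DP hL δ ψ (aeval X F)).eval 1 = ∑ c, aeval (fun c => (X c).eval 1) (pderiv c F) *
      (DP hL δ ψ (X c)).eval 1 := by
  have h1 : DP hL δ ψ (aeval X F) = ∑ c, aeval X (pderiv c F) * DP hL δ ψ (X c) := by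
    have h2 : aeval X F = ∑ α ∈ F.support, aeval X (monomial α (coeff α F)) := by
      conv_lhs => rw [F.as_sum]
      rw [map_sum]
    have h3 : ∀ c, pderiv c F = ∑ α ∈ F.support, pderiv c (monomial α (coeff α F)) := by
      intro c
      conv_lhs => rw [F.as_sum]
      rw [map_sum]
    rw [h2, DP_sum hb hs hd]
    · rw [Finset.sum_congr rfl fun α hα => chain_mono (δ := δ) (ψ := ψ) hb hs X hX _ α
        (hom_sum hF hα) hd _, Finset.sum_comm]
      refine Finset.sum_congr rfl fun c _ => ?_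
      rw [h3 c, map_sum, Finset.sum_mul]
    · intro α hα
      have h4 := lift_mono (hL := hL) (U := U) (l := l) X hX α (coeff α F)
      rwa [hom_sum hF hα] at h4
  rw [h1, Polynomial.eval_finsetSum]
  refine Finset.sum_congr rfl fun c _ => ?_
  rw [Polynomial.eval_mul, eval_aeval]

end

section

variable {s : ℕ} {b : Fin s → ℕ} {L : ℕ → ℝ} {n N : ℕ}
  {F : Fin N → MvPolynomial (Fin (n + 1)) ℚ} {dd : Fin N → ℕ}

/-- divisibility of the determinant -/
theorem qiPart (hb : ∀ v, (b v).Prime) (hL : Tendsto L atTop atTop)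
    (hNC : ∀ z : Fin (n + 1) → ℂ, z ≠ 0 → LinearIndependent ℂ
      (fun i : {i : Fin N // aeval z (F i) = 0} =>
        fun c : Fin (n + 1) => aeval z (pderiv c (F i))))
    (x : Fin (n + 1) → ℕ → ℤ) (hc : ∀ t, Finset.univ.gcd (fun c => x c t) = 1)
    (R : Matrix (Fin (n + 1)) (Fin (n + 1)) GG) (G : Fin N → GG) (hRA : ∀ ρ c, QI b L (R ρ c))
    (hF : ∀ i, ∃ ω, QI b L ω ∧ aeval (fun c => gm (fun t => (x c t : ℚ))) (F i) = G i * ω)
    (hR : ∀ i ρ, ∃ ω, QI b L ω ∧
      ∑ c, R ρ c * aeval (fun c => gm (fun t => (x c t : ℚ))) (pderiv c (F i)) = G i * ω) :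
    ∃ Ω, QI b L Ω ∧ R.det = (∏ i, G i) * Ω := by
  classical
  set X : Fin (n + 1) → GG := fun c => gm (fun t => (x c t : ℚ)) with hX
  have hXq : ∀ c, QI b L (X c) := fun c => qi_int hL (x c)
  choose m ω hω h using fun c => absN (AQ hb hL) F hNC X hXq G R hRA hF hR c
  obtain ⟨M, hM⟩ : ∃ M, M = ∑ c, m c := ⟨_, rfl⟩
  have hmM : ∀ c, m c ≤ M := fun c => by
    rw [hM]
    exact Finset.single_le_sum (fun _ _ => Nat.zero_le _) (Finset.mem_univ c)
  have hcomb : ∀ t, ∃ u : Fin (n + 1) → ℤ, ∑ c, u c * (x c t) ^ M = 1 := by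
    intro t
    have h1 : Ideal.span (Set.range fun c => x c t) = ⊤ := by
      rw [Ideal.eq_top_iff_one, Ideal.mem_span_range_iff_exists_fun]
      obtain ⟨u, hu⟩ := exists_gcd_comb Finset.univ (fun c => x c t)
      exact ⟨u, by rw [hu]; exact hc t⟩
    have h2 := Ideal.span_pow_eq_top _ h1 M
    rw [← Set.range_comp, Ideal.eq_top_iff_one, Ideal.mem_span_range_iff_exists_fun] at h2
    obtain ⟨u, hu⟩ := h2
    exact ⟨u, hu⟩
  choose u hu using hcomb
  have hU : ∑ c, gm (fun t => (u t c : ℚ)) * X c ^ M = 1 := by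
    rw [hX]
    simp only [gm_pow, gm_mul]
    rw [gm_sum', ← gm_one]
    congr 1
    funext t
    have h5 := hu t
    exact_mod_cast h5
  refine ⟨∑ c, gm (fun t => (u t c : ℚ)) * (X c ^ (M - m c) * ω c), ?_, ?_⟩
  · refine QI.sum hb hL _ _ fun c _ => QI.mul hb (qi_int hL fun t => u t c) ?_
    exact QI.mul hb ((AQ hb hL).pow_mem (hXq c) _) (hω c)
  · calc R.det = (∑ c, gm (fun t => (u t c : ℚ)) * X c ^ M) * R.det := by rw [hU, one_mul]
      _ = ∑ c, gm (fun t => (u t c : ℚ)) * (X c ^ (M - m c) * (X c ^ m c * R.det)) := by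
          rw [Finset.sum_mul]
          refine Finset.sum_congr rfl fun c _ => ?_
          rw [← mul_assoc (X c ^ (M - m c)), ← pow_add, Nat.sub_add_cancel (hmM c)]
          ring
      _ = _ := by
          rw [Finset.mul_sum]
          refine Finset.sum_congr rfl fun c _ => ?_
          rw [h c]
          ring

/-- domination of the determinant -/
theorem domPart (hb : ∀ v, (b v).Prime) (hbi : Function.Injective b)
    (hL : Tendsto L atTop atTop) (hF : ∀ i, (F i).IsHomogeneous (dd i))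
    (hNC : ∀ z : Fin (n + 1) → ℂ, z ≠ 0 → LinearIndependent ℂ
      (fun i : {i : Fin N // aeval z (F i) = 0} =>
        fun c : Fin (n + 1) => aeval z (pderiv c (F i))))
    (v : Option (Fin s)) (X : Fin (n + 1) → GG) (a : Fin (n + 1)) (hXa : X a ≠ 0)
    (h1 : ∀ c, Dom b L v (X c) (X a)) (R : Matrix (Fin (n + 1)) (Fin (n + 1)) GG)
    (hRX : ∀ ρ c, Dom b L v (R ρ c) (X c)) (hF0 : ∀ i, aeval X (F i) ≠ 0)
    (hR : ∀ i ρ, Dom b L v (∑ c, R ρ c * aeval X (pderiv c (F i))) (aeval X (F i))) :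
    Dom b L v (R.det * X a ^ (∑ i, dd i)) (X a ^ (n + 1) * ∏ i, aeval X (F i)) := by
  classical
  obtain ⟨l, hl⟩ : ∃ l, l = (X a)⁻¹ := ⟨_, rfl⟩
  have hla : l * X a = 1 := by rw [hl]; exact inv_mul_cancel₀ hXa
  have hmul : ∀ (w f g : GG), Dom b L v f g → w * g = 1 → Dom b L v (w * f) 1 := by
    intro w f g h hw
    have h3 := Dom.mul hb (Dom.refl hb hL v w) h
    rwa [hw] at h3
  obtain ⟨m, ω, hω, h⟩ := absN (AD hb hbi hL v) F hNC (fun c => l * X c)
    (fun c => hmul _ _ _ (h1 c) hla) (fun i => l ^ dd i * aeval X (F i))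
    (l • R) (fun ρ c => hmul _ _ _ (Dom.trans hb (hRX ρ c) (h1 c)) hla)
    (fun i => ⟨1, (AD hb hbi hL v).one_mem, by rw [mul_one, aeval_scale _ _ (hF i)]⟩)
    (fun i ρ => by
      refine ⟨(∑ c, R ρ c * aeval X (pderiv c (F i))) / aeval X (F i), ?_, ?_⟩
      · have h3 := hmul (aeval X (F i))⁻¹ _ _ (hR i ρ) (inv_mul_cancel₀ (hF0 i))
        rw [div_eq_mul_inv, mul_comm]
        exact h3
      · rw [mul_assoc, mul_div_cancel₀ _ (hF0 i), Finset.mul_sum]
        refine Finset.sum_congr rfl fun c _ => ?_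
        have h4 := pderiv_scale (F i) (dd i) (hF i) X l c
        rw [Matrix.smul_apply, smul_eq_mul]
        linear_combination R ρ c * h4) a
  rw [hla, one_pow, one_mul, Matrix.det_smul, Fintype.card_fin, Finset.prod_mul_distrib,
    Finset.prod_pow_eq_pow_sum] at h
  have e1 : X a ^ (n + 1) * l ^ (n + 1) = 1 := by rw [← mul_pow, mul_comm, hla, one_pow]
  have e3 : X a ^ (∑ i, dd i) * l ^ (∑ i, dd i) = 1 := by rw [← mul_pow, mul_comm, hla, one_pow]
  have h5 : R.det * X a ^ (∑ i, dd i) = (X a ^ (n + 1) * ∏ i, aeval X (F i)) * ω := by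
    generalize R.det = W at *
    generalize ∏ i, aeval X (F i) = Φ at *
    generalize X a ^ (∑ i, dd i) = Aq at *
    generalize l ^ (∑ i, dd i) = lq at *
    generalize X a ^ (n + 1) = Bq at *
    generalize l ^ (n + 1) = mq at *
    calc W * Aq = (Bq * mq) * W * Aq := by rw [e1]; ring
      _ = Bq * (mq * W) * Aq := by ring
      _ = Bq * (lq * Φ * ω) * Aq := by rw [h]
      _ = Bq * (Aq * lq) * Φ * ω := by ring
      _ = _ := by rw [e3]; ring
  rw [h5]
  have h6 := Dom.mul hb (Dom.refl hb hL v (X a ^ (n + 1) * ∏ i, aeval X (F i))) hω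
  rwa [mul_one] at h6

/-- the places together -/
lemma placesN (hb : ∀ v, (b v).Prime) (x : Fin (n + 1) → ℤ) (hc : Finset.univ.gcd x = 1)
    (W : ℚ) (Φ : Option (Fin s) → ℝ) (E : ℝ) (hE : 0 ≤ E) (hΦ : ∀ v, 0 ≤ Φ v) (Q R : ℕ)
    (a : Option (Fin s) → Fin (n + 1))
    (ha : ∀ v c, av b v (x c : ℚ) ≤ av b v (x (a v) : ℚ))
    (h : ∀ v, av b v W * av b v (x (a v) : ℚ) ^ Q ≤ E * (av b v (x (a v) : ℚ) ^ R * Φ v)) :
    (∏ v, av b v W) * |(x (a none) : ℝ)| ^ Q ≤
      E ^ (s + 1) * (|(x (a none) : ℝ)| ^ R * ∏ v, Φ v) := by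
  have hone : ∀ v : Fin s, av b (some v) (x (a (some v)) : ℚ) = 1 := by
    intro v
    refine le_antisymm (av_int_le_one hb v _) ?_
    obtain ⟨j, _, h1⟩ := av_gcd_le hb v Finset.univ Finset.univ_nonempty x
    rw [hc] at h1
    have h2 : av b (some v) ((1 : ℤ) : ℚ) = 1 := by rw [Int.cast_one, av_one hb]
    rw [h2] at h1
    exact h1.trans (ha _ j)
  have h0 : ∀ (z : ℤ), av b none (z : ℚ) = |(z : ℝ)| := by
    intro z
    simp only [av]
    push_cast
    rfl
  have hfin : ∀ v : Fin s, av b (some v) W ≤ E * Φ (some v) := by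
    intro v
    have h1 := h (some v)
    rw [hone v] at h1
    simpa using h1
  have hinf := h none
  rw [h0] at hinf
  rw [Fintype.prod_option, Fintype.prod_option]
  have h1 : ∏ v : Fin s, av b (some v) W ≤ ∏ v : Fin s, (E * Φ (some v)) :=
    Finset.prod_le_prod (fun v _ => av_nonneg hb _ _) fun v _ => hfin v
  rw [Finset.prod_mul_distrib, Finset.prod_const, Finset.card_univ, Fintype.card_fin] at h1
  have h2 := mul_le_mul hinf h1 (Finset.prod_nonneg fun v _ => av_nonneg hb _ _)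
    (mul_nonneg hE (mul_nonneg (by positivity) (hΦ none)))
  calc av b none W * (∏ i : Fin s, av b (some i) W) * |(x (a none) : ℝ)| ^ Q =
      av b none W * |(x (a none) : ℝ)| ^ Q * ∏ i : Fin s, av b (some i) W := by ring
    _ ≤ _ := h2
    _ = _ := by ring

end

end Pool.Agent.TH551.HA.Pn
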