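import Mathlib
import Pool.Agent.TH551.HA.Jq3
import Pool.Agent.TH551.HA.Jp7

/-!
# Project HA: normal crossings divisors on projective space, points with sparse coordinates
-/

set_option autoImplicit false
set_option linter.unusedSectionVars false
set_option linter.unusedVariables false

namespace Pool.Agent.TH551.HA.Pn

open Filter Topology Pool.Agent.TH932.Germs Pool.Agent.TH551.SU Pool.Agent.TH551.ZP
open Pool.Agent.TH551.SU.CRV Pool.Agent.TH551.SU.Ht MvPolynomial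
open Pool.Agent.TH551.HA.P1 (IsSparse)

/-- the size of the values of a form -/
lemma aeval_bound {n : ℕ} {F : MvPolynomial (Fin n) ℚ} {d : ℕ} (hF : F.IsHomogeneous d)
    (x : Fin n → ℤ) (H : ℝ) (hx : ∀ c, |(x c : ℝ)| ≤ H) :
    |((aeval (fun c => (x c : ℚ)) F : ℚ) : ℝ)| ≤
      (∑ α ∈ F.support, |((coeff α F : ℚ) : ℝ)|) * H ^ d := by
  have h1 : ((aeval (fun c => (x c : ℚ)) F : ℚ) : ℝ) =
      ∑ α ∈ F.support, ((coeff α F : ℚ) : ℝ) * ∏ c, (x c : ℝ) ^ (α c) := by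
    rw [aeval_def, eval₂_eq']
    push_cast
    rfl
  rw [h1, Finset.sum_mul]
  refine (Finset.abs_sum_le_sum_abs _ _).trans (Finset.sum_le_sum fun α hα => ?_)
  rw [abs_mul, Finset.abs_prod]
  refine mul_le_mul_of_nonneg_left ?_ (abs_nonneg _)
  have h2 : ∏ c, H ^ (α c) = H ^ d := by
    rw [Finset.prod_pow_eq_pow_sum, hom_sum hF hα]
  rw [← h2]
  refine Finset.prod_le_prod (fun _ _ => abs_nonneg _) fun c _ => ?_
  rw [abs_pow]
  exact pow_le_pow_left₀ (abs_nonneg _) (hx c) _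

/-- **The truncated inequality of Vojta on projective space, for points with sparse
coordinates.** -/
theorem pnMain (hnc : NcStmt) (hcs : CSStmt) (hhb : HbStmt) (hfw : FwStmt) (n N p k : ℕ)
    (F : Fin N → MvPolynomial (Fin (n + 1)) ℚ) (dd : Fin N → ℕ)
    (hF : ∀ i, (F i).IsHomogeneous (dd i))
    (hNC : ∀ z : Fin (n + 1) → ℂ, z ≠ 0 → LinearIndependent ℂ
      (fun i : {i : Fin N // aeval z (F i) = 0} =>
        fun c : Fin (n + 1) => aeval z (pderiv c (F i))))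
    (τ : Fin p → Fin N) (e : Fin p → ℕ) (he : ∀ i, 1 ≤ e i) (Γ : Subgroup ℚˣ) (hΓ : Γ.FG)
    (ε : ℝ) (hε : 0 < ε) :
    ∃ (G : MvPolynomial (Fin (n + 1)) ℚ) (C : ℝ), (∃ d, G.IsHomogeneous d) ∧ G ≠ 0 ∧
      ∀ M : ℝ, 1 ≤ M → ∀ (x : Fin (n + 1) → ℤ) (y : Fin p → ℤ) (w : Fin N → ℤ),
        (∀ c, IsSparse Γ k M (x c)) → (∀ i, IsSparse Γ k M (y i)) →
        (∀ σ, ∃ g ∈ Γ, (w σ : ℚ) = (g : ℚ)) →
        (∀ σ, aeval (fun c => (x c : ℚ)) (F σ) =
          ((w σ * ∏ i with τ i = σ, y i ^ (e i) : ℤ) : ℚ)) →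
        (∀ σ, aeval (fun c => (x c : ℚ)) (F σ) ≠ 0) → Finset.univ.gcd x = 1 →
        aeval (fun c => (x c : ℚ)) G ≠ 0 →
        ∀ H : ℝ, (∀ c, |(x c : ℝ)| ≤ H) → (∃ c, |(x c : ℝ)| = H) →
        ((∑ i, dd i : ℕ) - (n + 1) - ε) * Real.log H ≤
          ∑ i, Real.log |(y i : ℝ)| + C * (1 + Real.log M) := by
  classical
  obtain ⟨s, b, hb, hbi, hΓb⟩ := exists_base Γ hΓ
  by_contra hcon
  push Not at hcon
  -- an enumeration of the nonzero forms
  let T : Type := {G : MvPolynomial (Fin (n + 1)) ℚ // (∃ e, G.IsHomogeneous e) ∧ G ≠ 0}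
  have hT : Nonempty T := ⟨⟨1, ⟨0, MvPolynomial.isHomogeneous_one _ _⟩, one_ne_zero⟩⟩
  obtain ⟨g, hg⟩ := exists_surjective_nat T
  set GG' : ℕ → MvPolynomial (Fin (n + 1)) ℚ := fun t => ∏ i ∈ Finset.range (t + 1), (g i).1
    with hGG'
  have hGh : ∀ t, ∃ e, (GG' t).IsHomogeneous e := by
    intro t
    choose e' he' using fun i => (g i).2.1
    exact ⟨_, MvPolynomial.IsHomogeneous.prod _ _ _ fun i _ => he' i⟩
  have hG0 : ∀ t, GG' t ≠ 0 := fun t => Finset.prod_ne_zero_iff.2 fun i _ => (g i).2.2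
  choose M hM x y w hxs hys hw hA hA0' hgcd hGz H hHle him0 hlt using fun t : ℕ =>
    hcon (GG' t) (t : ℝ) (hGh t) (hG0 t)
  choose im him using him0
  obtain ⟨A, hAdef⟩ : ∃ A : Fin N → ℕ → ℤ,
      A = fun σ t => w t σ * ∏ i with τ i = σ, y t i ^ (e i) := ⟨_, rfl⟩
  have hA1 : ∀ σ t, A σ t = w t σ * ∏ i with τ i = σ, y t i ^ (e i) := fun σ t => by rw [hAdef]
  have hFA : ∀ σ t, aeval (fun c => (x t c : ℚ)) (F σ) = (A σ t : ℚ) := fun σ t => by
    rw [hA1, hA]
  have hA0 : ∀ σ t, A σ t ≠ 0 := by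
    intro σ t h0
    apply hA0' t σ
    rw [hFA, h0, Int.cast_zero]
  have hH1 : ∀ t, 1 ≤ H t := by
    intro t
    rw [← him t]
    have h1 : x t (im t) ≠ 0 := by
      intro h0
      have h2 : H t = 0 := by rw [← him t, h0]; simp
      have hall : ∀ c, x t c = 0 := by
        intro c
        have h3 := hHle t c
        rw [h2] at h3
        have h4 : |(x t c : ℝ)| = 0 := le_antisymm h3 (abs_nonneg _)
        exact_mod_cast abs_eq_zero.1 h4
      have h5 := hgcd t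
      have h6 : Finset.univ.gcd (x t) = 0 := Finset.gcd_eq_zero_iff.2 fun c _ => hall c
      rw [h6] at h5
      exact zero_ne_one h5
    exact_mod_cast Int.one_le_abs h1
  set L : ℕ → ℝ := fun t => Real.log (H t) with hLdef
  have hL0 : ∀ t, 0 ≤ L t := fun t => Real.log_nonneg (hH1 t)
  have hlM : ∀ t, 0 ≤ Real.log (M t) := fun t => Real.log_nonneg (hM t)
  have hexpL : ∀ t, Real.exp (L t) = H t := fun t => Real.exp_log (by linarith [hH1 t])
  have hxle : ∀ t c, |(x t c : ℝ)| ≤ Real.exp (L t) := fun t c => by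
    rw [hexpL]
    exact hHle t c
  have hy0 : ∀ t i, y t i ≠ 0 := by
    intro t i h0
    have h1 := hA0 (τ i) t
    rw [hA1] at h1
    apply h1
    have h2 : ∏ j with τ j = τ i, y t j ^ (e j) = 0 :=
      Finset.prod_eq_zero (i := i) (Finset.mem_filter.2 ⟨Finset.mem_univ _, rfl⟩)
        (by rw [h0, zero_pow (by have := he i; omega)])
    rw [h2, mul_zero]
  have hy1 : ∀ t i, 1 ≤ |(y t i : ℝ)| := fun t i => by exact_mod_cast Int.one_le_abs (hy0 t i)
  have hly : ∀ t, 0 ≤ ∑ i, Real.log |(y t i : ℝ)| := fun t =>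
    Finset.sum_nonneg fun i _ => Real.log_nonneg (hy1 t i)
  obtain ⟨TQ, hTQ⟩ : ∃ TQ : ℕ, TQ = ∑ i, dd i := ⟨_, rfl⟩
  obtain ⟨Bq, hBq⟩ : ∃ Bq : ℝ, Bq = (TQ : ℝ) + 1 := ⟨_, rfl⟩
  have hTQ0 : (0 : ℝ) ≤ TQ := Nat.cast_nonneg _
  have hBq0 : 0 < Bq := by rw [hBq]; linarith
  have hlt' : ∀ t : ℕ, ∑ i, Real.log |(y t i : ℝ)| + (t : ℝ) * (1 + Real.log (M t)) <
      ((TQ : ℝ) - (n + 1) - ε) * L t := by
    intro t
    rw [hTQ]
    exact hlt t
  have hn0 : (0 : ℝ) ≤ n := Nat.cast_nonneg _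
  have hLt : ∀ t : ℕ, (t : ℝ) * (1 + Real.log (M t)) < Bq * L t := by
    intro t
    have h1 := hlt' t
    have h2 : ((TQ : ℝ) - (n + 1) - ε) * L t ≤ Bq * L t :=
      mul_le_mul_of_nonneg_right (by rw [hBq]; linarith) (hL0 t)
    linarith [hly t]
  have hL : Tendsto L atTop atTop := by
    refine tendsto_atTop_mono (fun t => ?_)
      ((tendsto_natCast_atTop_atTop (R := ℝ)).atTop_div_const hBq0)
    rw [div_le_iff₀ hBq0]
    have h1 := hLt t
    have h2 : 0 ≤ (t : ℝ) * Real.log (M t) := mul_nonneg (Nat.cast_nonneg t) (hlM t)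
    rw [mul_add, mul_one] at h1
    linarith
  -- the digits are negligible
  have hneg : ∀ z : ℕ → ℤ, (∀ t, |(z t : ℝ)| ≤ M t) → gm (fun t => (z t : ℚ)) ∈ KK L hL := by
    intro z hz
    refine ⟨z, fun _ => 1, ?_, Negl.one hL, by simp, by
      congr 1
      funext t
      simp⟩
    intro ε' hε'
    have h1 : ∀ᶠ t : ℕ in atTop, Bq / ε' ≤ (t : ℝ) :=
      tendsto_natCast_atTop_atTop.eventually_ge_atTop _
    refine ev_of_atTop (h1.mono fun t ht => ?_)
    refine (hz t).trans ?_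
    rw [← Real.exp_log (show 0 < M t by linarith [hM t])]
    refine Real.exp_le_exp.2 ?_
    have h2 := hLt t
    have h3 : Bq / ε' * Real.log (M t) ≤ (t : ℝ) * (1 + Real.log (M t)) := by
      have h5 : (0 : ℝ) ≤ t := Nat.cast_nonneg t
      nlinarith [mul_le_mul_of_nonneg_right ht (hlM t)]
    have h5 : Bq / ε' * Real.log (M t) ≤ Bq * L t := h3.trans h2.le
    have h6 : Bq * (Real.log (M t)) ≤ Bq * (ε' * L t) := by
      have h7 := mul_le_mul_of_nonneg_left h5 hε'.le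
      have h8 : ε' * (Bq / ε' * Real.log (M t)) = Bq * Real.log (M t) := by field_simp
      rw [h8] at h7
      linarith
    exact le_of_mul_le_mul_left h6 hBq0
  -- the sizes of the values
  have hQle : ∀ σ, dd σ ≤ TQ := fun σ => by
    rw [hTQ]
    exact Finset.single_le_sum (fun _ _ => Nat.zero_le _) (Finset.mem_univ σ)
  have hAle : ∀ σ, ∀ᶠ t in (UU : Filter ℕ), |(A σ t : ℝ)| ≤ Real.exp (Bq * L t) := by
    intro σ
    set cF : ℝ := ∑ α ∈ (F σ).support, |((coeff α (F σ) : ℚ) : ℝ)| with hcF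
    have h1 : ∀ᶠ t in (UU : Filter ℕ), cF ≤ L t := ev_of_atTop (hL.eventually_ge_atTop _)
    filter_upwards [h1] with t h2
    have h3 := aeval_bound (hF σ) (x t) (Real.exp (L t)) (hxle t)
    rw [hFA] at h3
    have h4 : ((A σ t : ℚ) : ℝ) = (A σ t : ℝ) := by push_cast; rfl
    rw [h4] at h3
    refine h3.trans ?_
    have h5 : cF ≤ Real.exp (L t) := h2.trans (by linarith [Real.add_one_le_exp (L t)])
    have h6 : Real.exp (L t) ^ (dd σ) ≤ Real.exp (L t) ^ TQ :=
      pow_le_pow_right₀ (Real.one_le_exp (hL0 t)) (hQle σ)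
    calc cF * Real.exp (L t) ^ (dd σ) ≤ Real.exp (L t) * Real.exp (L t) ^ TQ :=
          mul_le_mul h5 h6 (by positivity) (Real.exp_pos _).le
      _ = Real.exp (Bq * L t) := by
          rw [← Real.exp_nat_mul, ← Real.exp_add, hBq]
          congr 1
          ring
  have hdvle : ∀ σ (z : ℕ → ℤ), (∀ t, z t ∣ A σ t) →
      ∀ᶠ t in (UU : Filter ℕ), |(z t : ℝ)| ≤ Real.exp (Bq * L t) := by
    intro σ z hz
    filter_upwards [hAle σ] with t h1
    exact (abs_le_of_dvd (hz t) (hA0 σ t)).trans h1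
  -- the sparse numbers together
  obtain ⟨Z, hZ⟩ : ∃ Z : Fin (n + 1) ⊕ Fin p → ℕ → ℤ,
      Z = Sum.elim (fun c t => x t c) (fun i t => y t i) := ⟨_, rfl⟩
  have hZs : ∀ j t, IsSparse Γ k (M t) (Z j t) := by
    intro j t
    rw [hZ]
    rcases j with c | i
    · exact hxs t c
    · exact hys t i
  have hZle : ∀ j, ∀ᶠ t in (UU : Filter ℕ), |(Z j t : ℝ)| ≤ Real.exp (Bq * L t) := by
    intro j
    rw [hZ]
    rcases j with c | i
    · refine Eventually.of_forall fun t => (hxle t c).trans (Real.exp_le_exp.2 ?_)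
      have h1 : 1 ≤ Bq := by rw [hBq]; linarith
      nlinarith [hL0 t]
    · refine hdvle (τ i) _ fun t => ?_
      rw [hA1]
      refine Dvd.dvd.mul_left ?_ _
      refine (dvd_pow_self (y t i) (by have := he i; omega : e i ≠ 0)).trans ?_
      exact Finset.dvd_prod_of_mem (fun j => y t j ^ (e j))
        (Finset.mem_filter.2 ⟨Finset.mem_univ _, rfl⟩)
  have hwle : ∀ σ, ∀ᶠ t in (UU : Filter ℕ), |(w t σ : ℝ)| ≤ Real.exp (Bq * L t) := by
    intro σ
    refine hdvle σ _ fun t => ?_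
    rw [hA1]
    exact dvd_mul_right _ _
  choose uu aa haa hZeq using hZs
  -- the germs
  have hrepz : ∀ z : ℕ → ℤ, ∀ᶠ t in (UU : Filter ℕ), rep (gm (fun t => (z t : ℚ))) t = z t :=
    fun z => rep_gm _
  have havle : ∀ (z : ℕ → ℤ), (∀ᶠ t in (UU : Filter ℕ), |(z t : ℝ)| ≤ Real.exp (Bq * L t)) →
      ∀ᶠ t in (UU : Filter ℕ), ∀ v, av b v (z t : ℚ) ≤ Real.exp (Bq * L t) := by
    intro z hz
    filter_upwards [hz] with t ht v
    cases v with
    | none =>
      simp only [av]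
      push_cast
      exact ht
    | some v =>
      exact (av_int_le_one hb v _).trans (Real.one_le_exp (mul_nonneg hBq0.le (hL0 t)))
  have hHB : ∀ i, ∃ (m' : ℕ) (u' : Fin m' → GG) (c' : Fin m' → KK L hL), (∀ j, GSU b (u' j)) ∧
        (∀ j, Mod b L (u' j)) ∧ ∑ j, (c' j : GG) * u' j = gm (fun t => (Z i t : ℚ)) := by
    intro i
    set V : Fin k → GG := fun j => gm (fun t => ((uu i t j : ℚˣ) : ℚ)) with hV
    have hVS : ∀ j, GSU b (V j) := fun j => ⟨_, rfl, fun t => hΓb _ (uu i t j).2⟩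
    have hgerm : ∑ j, gm (fun t => (aa i t j : ℚ)) * V j = gm (fun t => (Z i t : ℚ)) := by
      have h1 : ∀ j, gm (fun t => (aa i t j : ℚ)) * V j =
          gm (fun t => ((uu i t j : ℚˣ) : ℚ) * aa i t j) := by
        intro j
        rw [hV]
        simp only
        rw [gm_mul]
        congr 1
        funext t
        ring
      simp only [h1]
      rw [gm_sum']
      congr 1
      funext t
      rw [hZeq i t]
    have h1 := hhb s b hb hbi L hL k V hVS
      (fun j => ⟨gm (fun t => (aa i t j : ℚ)), hneg _ fun t => haa i t j⟩) Bq (by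
        have h2 : ∑ j, ((⟨gm (fun t => (aa i t j : ℚ)), hneg _ fun t => haa i t j⟩ :
            KK L hL) : GG) * V j = gm (fun t => (Z i t : ℚ)) := hgerm
        rw [h2]
        filter_upwards [hrepz (fun t => Z i t), havle _ (hZle i)] with t ht h3 v
        rw [ht]
        exact h3 v)
    obtain ⟨m', u', c', h3, h4, h5⟩ := h1
    exact ⟨m', u', c', h3, h4, h5.trans hgerm⟩
  choose m' u' c' hu' hu'' hs' using hHB
  have hwS : ∀ σ t, IsSU b (w t σ : ℚ) := by
    intro σ t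
    obtain ⟨g, hg, h1⟩ := hw t σ
    rw [h1]
    exact hΓb g hg
  have hwG : ∀ σ, GSU b (gm (fun t => (w t σ : ℚ))) := fun σ => ⟨_, rfl, hwS σ⟩
  have hwM : ∀ σ, Mod b L (gm (fun t => (w t σ : ℚ))) := fun σ =>
    mod_of_upper hb hbi hL _ (hwS σ) Bq hBq0.le (havle _ (hwle σ))
  -- the combined family
  let T2 : Type := (Σ i : Fin (n + 1) ⊕ Fin p, Fin (m' i)) ⊕ Fin N
  let eqv : T2 ≃ Fin (Fintype.card T2) := Fintype.equivFin T2
  let f : T2 → GG := Sum.elim (fun q => u' q.1 q.2) (fun σ => gm (fun t => (w t σ : ℚ)))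
  set W : Fin (Fintype.card T2 + 1) → GG := Fin.cons 1 (fun j => f (eqv.symm j)) with hW
  have hWs : ∀ q : T2, W (eqv q).succ = f q := by
    intro q
    rw [hW, Fin.cons_succ, Equiv.symm_apply_apply]
  have hWall : ∀ (P : GG → Prop), P 1 → (∀ q, P (f q)) → ∀ j, P (W j) := by
    intro P h0 h1 j
    rw [hW]
    refine Fin.cases ?_ (fun j => ?_) j
    · simpa using h0
    · rw [Fin.cons_succ]
      exact h1 _
  have hWg : ∀ j, GSU b (W j) := hWall _ GSU.one fun q => by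
    rcases q with q | σ
    · exact hu' _ _
    · exact hwG σ
  have hWm : ∀ j, Mod b L (W j) := hWall _ (Mod.one hb hL) fun q => by
    rcases q with q | σ
    · exact hu'' _ _
    · exact hwM σ
  obtain ⟨l, hl⟩ := hfw L hL (Fintype.card T2) W (fun j => GSU.ne_zero hb (hWg j))
    (1 + (∑ i, e i + ∑ i, dd i))
  have hs : Setup b hL W l (1 + (∑ i, e i + ∑ i, dd i)) := ⟨hWg, hWm, hl⟩
  choose X hX hX1 using fun i => exists_lift (hL := hL) W l
    (fun j : Fin (m' i) => (eqv (Sum.inl ⟨i, j⟩)).succ) (c' i)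
  have hX2 : ∀ i, (X i).eval 1 = gm (fun t => (Z i t : ℚ)) := by
    intro i
    rw [hX1, ← hs' i]
    refine Finset.sum_congr rfl fun j _ => ?_
    rw [hWs]
    rfl
  have hXx : ∀ c, (X (Sum.inl c)).eval 1 = gm (fun t => (x t c : ℚ)) := by
    intro c
    rw [hX2, hZ]
    rfl
  have hXy : ∀ i, (X (Sum.inr i)).eval 1 = gm (fun t => (y t i : ℚ)) := by
    intro i
    rw [hX2, hZ]
    rfl
  have key := pnGerm hnc hcs hb hbi hs (by rw [hW]; rfl) p F dd hF hNC τ e he le_rfl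
    (fun c => X (Sum.inl c)) (fun c => hX _) (fun c t => x t c) hXx
    (fun i => X (Sum.inr i)) (fun i => hX _) (fun i t => y t i) hXy (fun σ t => w t σ) hwS
    (fun σ => (eqv (Sum.inr σ)).succ) (fun σ => by rw [hWs]; rfl) A hA1 hA0 hFA hgcd
    (by
      intro G hGh' hGI' h0
      obtain ⟨s0, hs0⟩ := hg ⟨G, hGh', hGI'⟩
      rw [Main.aeval_gm, ← gm_zero, gm_eq] at h0
      have h1 : ∀ᶠ t : ℕ in (UU : Filter ℕ), s0 ≤ t :=
        ev_of_atTop (eventually_ge_atTop s0)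
      obtain ⟨t, h2, h3⟩ := (h0.and h1).exists
      apply hGz t
      simp only [hGG', map_prod]
      refine Finset.prod_eq_zero (i := s0) (Finset.mem_range.2 (by omega)) ?_
      rw [hs0]
      exact h2) im (fun t c => by rw [him t]; exact hHle t c) ε hε
  obtain ⟨t, h1⟩ := key.exists
  have h1' : H t ^ TQ ≤ Real.exp (ε * L t) * (H t ^ (n + 1) * ∏ i, |(y t i : ℝ)|) := by
    rw [hTQ, ← him t]
    exact h1
  have hpy : (0 : ℝ) < ∏ i, |(y t i : ℝ)| := Finset.prod_pos fun i _ => by linarith [hy1 t i]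
  have p1 : 0 < H t := by linarith [hH1 t]
  have h2 := Real.log_le_log (by positivity) h1'
  rw [Real.log_mul (by positivity) (by positivity), Real.log_mul (by positivity) (by positivity),
    Real.log_exp, Real.log_pow, Real.log_pow,
    Real.log_prod (fun i _ => by linarith [hy1 t i])] at h2
  have h3 := hlt' t
  have h4 : 0 ≤ (t : ℝ) * (1 + Real.log (M t)) :=
    mul_nonneg (Nat.cast_nonneg t) (by linarith [hlM t])
  have h5 : (TQ : ℝ) * L t ≤ ε * L t + ((n + 1 : ℕ) * L t + ∑ i, Real.log |(y t i : ℝ)|) := h2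
  push_cast at h5
  linarith

end Pool.Agent.TH551.HA.Pn
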