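import Mathlib
import Pool.Agent.TH551.HA.Jq1

/-!
# Project HA: normal crossings divisors on complete intersections, algebra
-/

set_option autoImplicit false
set_option linter.unusedSectionVars false
set_option linter.unusedVariables false

namespace Pool.Agent.TH551.HA.Ci

open MvPolynomial

variable {ι : Type} [Fintype ι] {n : ℕ}

/-- `φ` takes each element of `I` exactly once as a value (and no others) -/
def Cov (φ : Fin n → Option ι) (I : Set ι) : Prop :=
  (∀ c c' i, φ c = some i → φ c' = some i → c = c') ∧ (∀ i, i ∈ I ↔ ∃ c, φ c = some i)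

/-- the matrix with columns vectors of a family or unit vectors -/
def GM {R : Type} [CommRing R] (v : ι → Fin n → R) (φ : Fin n → Option ι) :
    Matrix (Fin n) (Fin n) R :=
  Matrix.of fun c' c => (φ c).elim (if c' = c then 1 else 0) (fun i => v i c')

/-- independent vectors can be completed by unit vectors -/
lemma exchange [DecidableEq ι] {k : Type} [Field k] (v : ι → Fin n → k) (I : Finset ι)
    (hli : ∀ g : ι → k, (∀ i, i ∉ I → g i = 0) → (∀ c, ∑ i, g i * v i c = 0) →
      ∀ i, g i = 0) : ∃ φ, Cov φ (I : Set ι) ∧ (GM v φ).det ≠ 0 := by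
  classical
  induction I using Finset.induction_on with
  | empty =>
    refine ⟨fun _ => none, ⟨fun c c' i h => by simp at h, fun i => by simp⟩, ?_⟩
    have h1 : GM v (fun _ => none) = (1 : Matrix (Fin n) (Fin n) k) := by
      ext c' c
      simp [GM, Matrix.one_apply]
    rw [h1, Matrix.det_one]
    exact one_ne_zero
  | insert i0 I' hi0 ih =>
    obtain ⟨φ, hφ, hdet⟩ := ih fun g hg h => hli g
      (fun i hi => hg i fun h2 => hi (Finset.mem_insert_of_mem h2)) h
    have hnot : ∀ c, φ c ≠ some i0 := fun c hc =>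
      hi0 (Finset.mem_coe.1 ((hφ.2 i0).2 ⟨c, hc⟩))
    obtain ⟨c0, hc0, hcr⟩ : ∃ c0, φ c0 = none ∧ (GM v φ).cramer (v i0) c0 ≠ 0 := by
      by_contra hno
      push Not at hno
      set G := GM v φ with hG
      have hmv : ∀ c', ∑ c, G c' c * G.cramer (v i0) c = G.det * v i0 c' := by
        intro c'
        have h1 := congrFun (Matrix.mulVec_cramer G (v i0)) c'
        simpa [Matrix.mulVec, dotProduct] using h1
      have h1 := hli (fun i => (if i = i0 then G.det else 0) -
        ∑ c, (if φ c = some i then G.cramer (v i0) c else 0)) (by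
          intro i hi
          rw [Finset.mem_insert, not_or] at hi
          rw [if_neg hi.1, zero_sub, neg_eq_zero]
          refine Finset.sum_eq_zero fun c _ => ?_
          rw [if_neg]
          intro h2
          exact hi.2 (Finset.mem_coe.1 ((hφ.2 i).2 ⟨c, h2⟩))) (by
          intro c'
          simp only [sub_mul, Finset.sum_sub_distrib, ite_mul, zero_mul]
          rw [Finset.sum_ite_eq', if_pos (Finset.mem_univ _), sub_eq_zero, ← hmv c']
          simp only [Finset.sum_mul, ite_mul, zero_mul]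
          rw [Finset.sum_comm]
          refine Finset.sum_congr rfl fun c _ => ?_
          rcases hc : φ c with _ | i
          · rw [hno c hc]
            simp
          · simp only [Option.some.injEq]
            rw [Finset.sum_ite_eq, if_pos (Finset.mem_univ _)]
            have h2 : G c' c = v i c' := by
              rw [hG]
              simp [GM, hc]
            rw [h2]
            ring) i0
      simp only [if_true] at h1
      rw [Finset.sum_eq_zero fun c _ => by rw [if_neg (hnot c)], sub_zero] at h1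
      exact hdet h1
    refine ⟨Function.update φ c0 (some i0), ⟨?_, ?_⟩, ?_⟩
    · intro c c' i h1 h2
      by_cases hc : c = c0
      · by_cases hc' : c' = c0
        · rw [hc, hc']
        · exfalso
          rw [hc, Function.update_self] at h1
          rw [Function.update_of_ne hc'] at h2
          exact hnot c' (h2.trans h1.symm)
      · rw [Function.update_of_ne hc] at h1
        by_cases hc' : c' = c0
        · exfalso
          rw [hc', Function.update_self] at h2
          exact hnot c (h1.trans h2.symm)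
        · rw [Function.update_of_ne hc'] at h2
          exact hφ.1 _ _ _ h1 h2
    · intro i
      rw [Finset.mem_coe, Finset.mem_insert]
      constructor
      · rintro (rfl | hi)
        · exact ⟨c0, Function.update_self _ _ _⟩
        · obtain ⟨c, hc⟩ := (hφ.2 i).1 (Finset.mem_coe.2 hi)
          refine ⟨c, ?_⟩
          rw [Function.update_of_ne]
          · exact hc
          · rintro rfl
            rw [hc0] at hc
            simp at hc
      · rintro ⟨c, hc⟩
        by_cases h1 : c = c0
        · rw [h1, Function.update_self] at hc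
          exact Or.inl (Option.some.inj hc).symm
        · rw [Function.update_of_ne h1] at hc
          exact Or.inr (Finset.mem_coe.1 ((hφ.2 i).2 ⟨c, hc⟩))
    · have h1 : GM v (Function.update φ c0 (some i0)) = (GM v φ).updateCol c0 (v i0) := by
        ext c' c
        rw [Matrix.updateCol_apply]
        by_cases hc : c = c0
        · subst hc
          simp [GM]
        · simp [GM, hc]
      rw [h1, ← Matrix.cramer_apply]
      exact hcr

section abs

variable {t N : ℕ} (f : Fin t → MvPolynomial (Fin n) ℚ) (F : Fin N → MvPolynomial (Fin n) ℚ)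

/-- the gradients as polynomials -/
noncomputable def grad : Fin t ⊕ Fin N → Fin n → MvPolynomial (Fin n) ℚ :=
  Sum.elim (fun j c => pderiv c (f j)) (fun i c => pderiv c (F i))

/-- the gradients at a point -/
noncomputable def gradAt {K : Type} [CommRing K] [Algebra ℚ K] (x : Fin n → K) :
    Fin t ⊕ Fin N → Fin n → K :=
  Sum.elim (fun j c => aeval x (pderiv c (f j))) (fun i c => aeval x (pderiv c (F i)))

lemma aeval_GM {K : Type} [CommRing K] [Algebra ℚ K] (x : Fin n → K)
    (φ : Fin n → Option (Fin t ⊕ Fin N)) :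
    aeval x (GM (grad f F) φ).det = (GM (gradAt f F x) φ).det := by
  rw [AlgHom.map_det]
  congr 1
  ext c' c
  simp only [AlgHom.mapMatrix_apply, Matrix.map_apply, GM, Matrix.of_apply]
  rcases φ c with _ | (i | i)
  · simp only [Option.elim_none]
    split_ifs <;> simp
  · simp [grad, gradAt]
  · simp [grad, gradAt]

/-- the indices of the equations and of the components in `I` -/
def EI (t : ℕ) {N : ℕ} (I : Finset (Fin N)) : Finset (Fin t ⊕ Fin N) :=
  Finset.univ.disjSum I

/-- simple normal crossings on a smooth complete intersection -/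
def SNC : Prop :=
  ∀ z : Fin n → ℂ, z ≠ 0 → (∀ j, aeval z (f j) = 0) → LinearIndependent ℂ
    (Sum.elim (fun (j : Fin t) (c : Fin n) => aeval z (pderiv c (f j)))
      (fun (i : {i : Fin N // aeval z (F i) = 0}) (c : Fin n) => aeval z (pderiv c (F i.1))))

/-- the Nullstellensatz for a divisor with normal crossings -/
theorem null_n (hNC : SNC f F) (I : Finset (Fin N)) (c : Fin n) :
    ∃ m, (X c : MvPolynomial (Fin n) ℚ) ^ m ∈
      Ideal.span ((Set.range f ∪ F '' (I : Set (Fin N))) ∪
        {g | ∃ φ, Cov φ (EI t I : Set (Fin t ⊕ Fin N)) ∧ g = (GM (grad f F) φ).det}) := by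
  classical
  set J := Ideal.span ((Set.range f ∪ F '' (I : Set (Fin N))) ∪
        {g | ∃ φ, Cov φ (EI t I : Set (Fin t ⊕ Fin N)) ∧ g = (GM (grad f F) φ).det}) with hJ
  have h1 : (X c : MvPolynomial (Fin n) ℚ) ∈ J.radical := by
    rw [← vanishingIdeal_zeroLocus_eq_radical (K := ℂ), mem_vanishingIdeal_iff]
    intro z hz
    rw [mem_zeroLocus_iff] at hz
    rw [aeval_X]
    by_contra hzc
    have hz0 : z ≠ 0 := fun h => hzc (by rw [h]; rfl)
    have hfz : ∀ j, aeval z (f j) = 0 := fun j =>
      hz _ (Ideal.subset_span (Or.inl (Or.inl ⟨j, rfl⟩)))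
    have hFz : ∀ i ∈ I, aeval z (F i) = 0 := fun i hi =>
      hz _ (Ideal.subset_span (Or.inl (Or.inr ⟨i, hi, rfl⟩)))
    have hli := hNC z hz0 hfz
    obtain ⟨φ, hφ, hdet⟩ := exchange (gradAt f F z) (EI t I) (by
      intro g hg h0
      rw [Fintype.linearIndependent_iff] at hli
      have hgI : ∀ i, i ∉ I → g (Sum.inr i) = 0 := fun i hi => hg _ (by simp [EI, hi])
      have h1 := hli (Sum.elim (fun j => g (Sum.inl j)) (fun i => g (Sum.inr i.1))) (by
        funext c
        rw [Fintype.sum_sum_type]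
        simp only [Sum.elim_inl, Sum.elim_inr, Pi.add_apply, Finset.sum_apply, Pi.smul_apply,
          smul_eq_mul, Pi.zero_apply]
        have h5 := h0 c
        rw [Fintype.sum_sum_type] at h5
        simp only [gradAt, Sum.elim_inl, Sum.elim_inr] at h5
        have h2 := Fintype.sum_subtype_add_sum_subtype (fun i => aeval z (F i) = 0)
          (fun i => g (Sum.inr i) * aeval z (pderiv c (F i)))
        have h3 : ∑ i : {i : Fin N // ¬ aeval z (F i) = 0},
            g (Sum.inr i.1) * aeval z (pderiv c (F i)) = 0 :=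
          Finset.sum_eq_zero fun i _ => by
            have h4 : g (Sum.inr i.1) = 0 := hgI i.1 fun h5 => i.2 (hFz i.1 h5)
            rw [h4, zero_mul]
        rw [h3, add_zero] at h2
        rw [h2]
        exact h5)
      intro i
      rcases i with j | i
      · exact h1 (Sum.inl j)
      · by_cases hi : aeval z (F i) = 0
        · exact h1 (Sum.inr ⟨i, hi⟩)
        · exact hgI i fun h5 => hi (hFz i h5))
    apply hdet
    rw [← aeval_GM]
    exact hz _ (Ideal.subset_span (Or.inr ⟨φ, hφ, rfl⟩))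
  exact h1

variable {K : Type} [Field K] [Algebra ℚ K]

lemma aeval_mem (A : Subalgebra ℚ K) (x : Fin n → K) (hx : ∀ c, x c ∈ A)
    (p : MvPolynomial (Fin n) ℚ) : aeval x p ∈ A := by
  induction p using MvPolynomial.induction_on with
  | C a => rw [aeval_C]; exact A.algebraMap_mem a
  | add p q hp hq => rw [map_add]; exact A.add_mem hp hq
  | mul_X p i hp => rw [map_mul, aeval_X]; exact A.mul_mem hp (hx i)

/-- the polynomials whose product with the determinant is divisible -/
def bI (A : Subalgebra ℚ K) (x : Fin n → K) (hx : ∀ c, x c ∈ A) (z W Q : K)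
    (hz : z ∈ A) : Ideal (MvPolynomial (Fin n) ℚ) where
  carrier := {f | ∃ (m : ℕ), ∃ ω ∈ A, z ^ m * W * aeval x f = Q * ω}
  zero_mem' := ⟨0, 0, A.zero_mem, by simp⟩
  add_mem' := by
    rintro f g ⟨m, ω, hω, h⟩ ⟨m', ω', hω', h'⟩
    refine ⟨m + m', z ^ m' * ω + z ^ m * ω', A.add_mem (A.mul_mem (A.pow_mem hz _) hω)
      (A.mul_mem (A.pow_mem hz _) hω'), ?_⟩
    rw [map_add, pow_add]
    linear_combination z ^ m' * h + z ^ m * h'
  smul_mem' := by
    rintro g f ⟨m, ω, hω, h⟩
    refine ⟨m, aeval x g * ω, A.mul_mem (aeval_mem A x hx g) hω, ?_⟩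
    rw [smul_eq_mul, map_mul]
    linear_combination aeval x g * h

/-- the weights of the columns -/
def colW (P : Fin N → K) (a : Option (Fin t ⊕ Fin N)) : K :=
  a.elim 1 (Sum.elim (fun _ => 1) P)

lemma cov_prod (φ : Fin n → Option (Fin t ⊕ Fin N)) (I : Finset (Fin N))
    (h : Cov φ (EI t I : Set (Fin t ⊕ Fin N))) (P : Fin N → K) :
    ∏ c, colW P (φ c) = ∏ i ∈ I, P i := by
  classical
  have h1 : ∀ c, colW P (φ c) = ∏ i ∈ I, (if φ c = some (Sum.inr i) then P i else 1) := by
    intro c
    rcases hc : φ c with _ | (j | i)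
    · simp [colW]
    · simp [colW]
    · have hi : i ∈ I := by
        have h2 : Sum.inr i ∈ (EI t I : Set (Fin t ⊕ Fin N)) := (h.2 _).2 ⟨c, hc⟩
        simpa [EI] using h2
      simp only [colW, Option.elim_some, Sum.elim_inr, Option.some.injEq, Sum.inr.injEq]
      rw [Finset.prod_ite_eq, if_pos hi]
  rw [Finset.prod_congr rfl fun c _ => h1 c, Finset.prod_comm]
  refine Finset.prod_congr rfl fun i hi => ?_
  obtain ⟨c, hc⟩ := (h.2 (Sum.inr i)).1 (by simp [EI, hi])
  rw [Finset.prod_eq_single c]
  · rw [if_pos hc]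
  · intro c' _ hc'
    rw [if_neg]
    intro h2
    exact hc' (h.1 _ _ _ h2 hc)
  · intro h2
    exact absurd (Finset.mem_univ _) h2

/-- **the determinant of the table is divisible** -/
theorem absC (A : Subalgebra ℚ K) (hNC : SNC f F) (x : Fin n → K) (hx : ∀ c, x c ∈ A)
    (hfx : ∀ j, aeval x (f j) = 0) (P : Fin N → K) (B : Matrix (Fin n) (Fin n) K)
    (ν : Fin t → Fin n) (hν : Function.Injective ν)
    (hBA : ∀ ρ, (∀ j, ρ ≠ ν j) → ∀ c, B ρ c ∈ A)
    (hF : ∀ i, ∃ ω ∈ A, aeval x (F i) = P i * ω)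
    (hB0 : ∀ ρ, (∀ j, ρ ≠ ν j) → ∀ j, ∑ c, B ρ c * aeval x (pderiv c (f j)) = 0)
    (hB : ∀ ρ, (∀ j, ρ ≠ ν j) → ∀ i, ∃ ω ∈ A, ∑ c, B ρ c * aeval x (pderiv c (F i)) = P i * ω)
    (hB1 : ∀ j' j, ∑ c, B (ν j') c * aeval x (pderiv c (f j)) = if j' = j then 1 else 0)
    (c : Fin n) : ∃ (m : ℕ), ∃ ω ∈ A, x c ^ m * B.det = (∏ i, P i) * ω := by
  classical
  -- the determinants
  have hdet : ∀ (I : Finset (Fin N)) φ, Cov φ (EI t I : Set (Fin t ⊕ Fin N)) →
      ∃ ω ∈ A, (B * GM (gradAt f F x) φ).det = (∏ i ∈ I, P i) * ω := by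
    intro I φ hφ
    set M := B * GM (gradAt f F x) φ with hM
    have hM0 : ∀ r c, φ c = none → M r c = B r c := by
      intro r c hc
      rw [hM, Matrix.mul_apply]
      simp [GM, hc]
    have hM1 : ∀ r c j, φ c = some (Sum.inl j) → M r c =
        ∑ c', B r c' * aeval x (pderiv c' (f j)) := by
      intro r c j hc
      rw [hM, Matrix.mul_apply]
      simp [GM, hc, gradAt]
    have hM2 : ∀ r c i, φ c = some (Sum.inr i) → M r c =
        ∑ c', B r c' * aeval x (pderiv c' (F i)) := by
      intro r c i hc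
      rw [hM, Matrix.mul_apply]
      simp [GM, hc, gradAt]
    have hterm : ∀ σ : Equiv.Perm (Fin n), ∃ ω ∈ A,
        ∏ c, M (σ c) c = (∏ c, colW P (φ c)) * ω := by
      intro σ
      by_cases hgood : ∀ c j, φ c = some (Sum.inl j) → σ c = ν j
      · have hent : ∀ c, ∃ ω ∈ A, M (σ c) c = colW P (φ c) * ω := by
          intro c
          have hnr : (∀ j, φ c ≠ some (Sum.inl j)) → ∀ j, σ c ≠ ν j := by
            intro h1 j h2
            obtain ⟨c', hc'⟩ := (hφ.2 (Sum.inl j)).1 (by simp [EI])
            have h3 := hgood c' j hc'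
            have h4 : c = c' := σ.injective (h2.trans h3.symm)
            exact h1 j (by rw [h4]; exact hc')
          rcases hc : φ c with _ | (j | i)
          · refine ⟨B (σ c) c, hBA _ (hnr fun j => by simp [hc]) _, ?_⟩
            rw [hM0 _ _ hc]
            simp [colW]
          · refine ⟨1, A.one_mem, ?_⟩
            rw [hM1 _ _ _ hc, hgood c j hc, hB1, if_pos rfl]
            simp [colW]
          · obtain ⟨ω, hω, h5⟩ := hB (σ c) (hnr fun j => by simp [hc]) i
            refine ⟨ω, hω, ?_⟩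
            rw [hM2 _ _ _ hc, h5]
            simp [colW]
        choose ω hω h5 using hent
        exact ⟨∏ c, ω c, A.prod_mem fun c _ => hω c, by
          rw [← Finset.prod_mul_distrib]
          exact Finset.prod_congr rfl fun c _ => h5 c⟩
      · push Not at hgood
        obtain ⟨c, j, hc, hcj⟩ := hgood
        refine ⟨0, A.zero_mem, ?_⟩
        rw [mul_zero]
        refine Finset.prod_eq_zero (Finset.mem_univ c) ?_
        rw [hM1 _ _ _ hc]
        by_cases hr : ∃ j', σ c = ν j'
        · obtain ⟨j', hj'⟩ := hr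
          rw [hj', hB1, if_neg]
          intro h6
          exact hcj (by rw [hj', h6])
        · push Not at hr
          exact hB0 _ hr j
    choose ω hω h1 using hterm
    refine ⟨∑ σ : Equiv.Perm (Fin n), ((Equiv.Perm.sign σ : ℤ) : K) * ω σ, ?_, ?_⟩
    · exact A.sum_mem fun σ _ => A.mul_mem (intCast_mem A _) (hω σ)
    · rw [Matrix.det_apply', Finset.mul_sum]
      refine Finset.sum_congr rfl fun σ _ => ?_
      rw [h1 σ, cov_prod φ I hφ P]
      ring
  -- the base case needs that the determinant is integral, which follows from a good column choice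
  suffices H : ∀ I : Finset (Fin N), ∃ (m : ℕ), ∃ ω ∈ A,
      x c ^ m * B.det = (∏ i ∈ I, P i) * ω from H Finset.univ
  intro I
  induction I using Finset.strongInduction with
  | H I ih =>
  obtain ⟨m, hm⟩ := null_n f F hNC I c
  have hle : Ideal.span ((Set.range f ∪ F '' (I : Set (Fin N))) ∪
      {g | ∃ φ, Cov φ (EI t I : Set (Fin t ⊕ Fin N)) ∧ g = (GM (grad f F) φ).det}) ≤
      bI A x hx (x c) B.det (∏ i ∈ I, P i) (hx c) := by
    rw [Ideal.span_le]
    rintro g ((⟨j, rfl⟩ | ⟨i, hi, rfl⟩) | ⟨φ, hφ, rfl⟩)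
    · exact ⟨0, 0, A.zero_mem, by rw [hfx, mul_zero, mul_zero]⟩
    · obtain ⟨m', ω, hω, h1⟩ := ih (I.erase i) (Finset.erase_ssubset hi)
      obtain ⟨ω', hω', h2⟩ := hF i
      refine ⟨m', ω * ω', A.mul_mem hω hω', ?_⟩
      rw [h1, h2, ← Finset.mul_prod_erase I P hi]
      ring
    · obtain ⟨ω, hω, h1⟩ := hdet I φ hφ
      refine ⟨0, ω, hω, ?_⟩
      rw [pow_zero, one_mul, aeval_GM, ← Matrix.det_mul, h1]
  obtain ⟨m', ω, hω, h⟩ := hle hm
  refine ⟨m' + m, ω, hω, ?_⟩
  rw [map_pow, aeval_X] at h
  rw [← h, pow_add]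
  ring

/-- the normal vectors at a nonzero point -/
theorem exists_normal (hNC : SNC f F) (x : Fin n → K) (hfx : ∀ j, aeval x (f j) = 0)
    (c0 : Fin n) (hc0 : x c0 ≠ 0) : ∃ V : Fin t → Fin n → K,
      ∀ j' j, ∑ c, V j' c * aeval x (pderiv c (f j)) = if j' = j then 1 else 0 := by
  classical
  obtain ⟨m, hm⟩ := null_n f F hNC ∅ c0
  by_cases hex : ∃ φ, Cov φ (EI t (∅ : Finset (Fin N)) : Set (Fin t ⊕ Fin N)) ∧
      (GM (gradAt f F x) φ).det ≠ 0
  · obtain ⟨φ, hφ, hdet⟩ := hex
    have hcov : ∀ j, ∃ c, φ c = some (Sum.inl j) := fun j =>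
      (hφ.2 (Sum.inl j)).1 (by simp [EI])
    choose cc hcc using hcov
    set G := GM (gradAt f F x) φ with hG
    refine ⟨fun j c => G⁻¹ (cc j) c, fun j' j => ?_⟩
    have h1 : G⁻¹ * G = 1 := Matrix.nonsing_inv_mul G (isUnit_iff_ne_zero.2 hdet)
    have h2 := congrFun (congrFun h1 (cc j')) (cc j)
    rw [Matrix.mul_apply, Matrix.one_apply] at h2
    have h3 : ∀ c, G c (cc j) = aeval x (pderiv c (f j)) := by
      intro c
      rw [hG]
      simp [GM, hcc, gradAt]
    simp only [h3] at h2
    rw [h2]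
    by_cases h4 : j' = j
    · subst h4
      rw [if_pos rfl, if_pos rfl]
    · rw [if_neg h4, if_neg]
      intro h5
      apply h4
      have h6 := hcc j'
      rw [h5, hcc j] at h6
      exact (Sum.inl_injective (Option.some.inj h6)).symm
  · exfalso
    push Not at hex
    have hle : Ideal.span ((Set.range f ∪ F '' ((∅ : Finset (Fin N)) : Set (Fin N))) ∪
        {g | ∃ φ, Cov φ (EI t (∅ : Finset (Fin N)) : Set (Fin t ⊕ Fin N)) ∧
          g = (GM (grad f F) φ).det}) ≤ RingHom.ker (aeval x : MvPolynomial (Fin n) ℚ →ₐ[ℚ] K) := by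
      rw [Ideal.span_le]
      rintro g ((⟨j, rfl⟩ | ⟨i, hi, rfl⟩) | ⟨φ, hφ, rfl⟩)
      · exact hfx j
      · simp at hi
      · show aeval x _ = 0
        rw [aeval_GM]
        exact hex φ hφ
    have h1 : aeval x ((X c0 : MvPolynomial (Fin n) ℚ) ^ m) = 0 := hle hm
    rw [map_pow, aeval_X] at h1
    exact pow_ne_zero _ hc0 h1

/-- the table is nondegenerate -/
theorem table_ne {t m : ℕ} (v : Fin t → Fin (m + 1 + t) → K) (R : Fin (m + 1) → Fin (m + 1 + t) → K)
    (V : Fin t → Fin (m + 1 + t) → K)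
    (hR0 : ∀ ρ j, ∑ c, R ρ c * v j c = 0)
    (hV : ∀ j' j, ∑ c, V j' c * v j c = if j' = j then 1 else 0)
    (S0 : Fin (m + 1) → Fin (m + 1 + t))
    (hdet : (Matrix.of fun ρ i => R ρ (S0 i)).det ≠ 0) :
    (Matrix.of fun r c => (Fin.addCases (fun ρ => R ρ c) (fun j => V j c) r : K)).det ≠ 0 := by
  classical
  intro h0
  obtain ⟨w, hw, hM⟩ := Matrix.exists_vecMul_eq_zero_iff.2 h0
  have h1 : ∀ c, ∑ ρ, w (Fin.castAdd t ρ) * R ρ c + ∑ j, w (Fin.natAdd (m + 1) j) * V j c = 0 := by
    intro c
    have h2 := congrFun hM c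
    simp only [Matrix.vecMul, dotProduct, Matrix.of_apply, Pi.zero_apply] at h2
    rw [Fin.sum_univ_add] at h2
    simpa using h2
  have h2 : ∀ j, w (Fin.natAdd (m + 1) j) = 0 := by
    intro j
    have h3 : ∑ c, (∑ ρ, w (Fin.castAdd t ρ) * R ρ c +
        ∑ j, w (Fin.natAdd (m + 1) j) * V j c) * v j c = 0 :=
      Finset.sum_eq_zero fun c _ => by rw [h1 c, zero_mul]
    simp only [add_mul, Finset.sum_add_distrib, Finset.sum_mul] at h3
    rw [Finset.sum_comm (γ := Fin (m + 1 + t)), Finset.sum_comm (γ := Fin (m + 1 + t))] at h3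
    have h4 : ∀ ρ, ∑ c, w (Fin.castAdd t ρ) * R ρ c * v j c = 0 := by
      intro ρ
      have h5 : ∀ c, w (Fin.castAdd t ρ) * R ρ c * v j c =
          w (Fin.castAdd t ρ) * (R ρ c * v j c) := fun c => by ring
      rw [Finset.sum_congr rfl fun c _ => h5 c, ← Finset.mul_sum, hR0, mul_zero]
    have h6 : ∀ j', ∑ c, w (Fin.natAdd (m + 1) j') * V j' c * v j c =
        w (Fin.natAdd (m + 1) j') * (if j' = j then 1 else 0) := by
      intro j'
      have h5 : ∀ c, w (Fin.natAdd (m + 1) j') * V j' c * v j c =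
          w (Fin.natAdd (m + 1) j') * (V j' c * v j c) := fun c => by ring
      rw [Finset.sum_congr rfl fun c _ => h5 c, ← Finset.mul_sum, hV]
    rw [Finset.sum_congr rfl fun ρ _ => h4 ρ, Finset.sum_congr rfl fun j' _ => h6 j'] at h3
    simpa using h3
  have h3 : ∀ ρ, w (Fin.castAdd t ρ) = 0 := by
    by_contra hno
    push Not at hno
    obtain ⟨ρ0, hρ0⟩ := hno
    apply hdet
    rw [← Matrix.exists_vecMul_eq_zero_iff]
    refine ⟨fun ρ => w (Fin.castAdd t ρ), fun h => hρ0 (congrFun h ρ0), ?_⟩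
    funext i
    simp only [Matrix.vecMul, dotProduct, Matrix.of_apply, Pi.zero_apply]
    have h4 := h1 (S0 i)
    rw [Finset.sum_eq_zero (f := fun j => w (Fin.natAdd (m + 1) j) * V j (S0 i))
      (fun j _ => by rw [h2 j, zero_mul]), add_zero] at h4
    exact h4
  apply hw
  funext r
  refine Fin.addCases (fun ρ => h3 ρ) (fun j => h2 j) r

end abs

end Pool.Agent.TH551.HA.Ci
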