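import Mathlib
import Pool.Agent.TH551.HA.Jr1
import Pool.Agent.TH551.HA.Jq3

/-!
# Project HA: normal crossings divisors on complete intersections, integrality and domination
-/

set_option autoImplicit false
set_option linter.unusedSectionVars false
set_option linter.unusedVariables false

namespace Pool.Agent.TH551.HA.Ci

open Filter Topology Pool.Agent.TH932.Germs Pool.Agent.TH551.SU Pool.Agent.TH551.ZP
open Pool.Agent.TH551.SU.CRV Pool.Agent.TH551.ZP.GT MvPolynomial
open Pool.Agent.TH551.HA.P1 (DP_sum rat_mem DP_const AQ AD qi_int)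

section

variable {K : Type} [Field K] [Algebra ℚ K] {n : ℕ}

lemma pderiv_scale (F : MvPolynomial (Fin n) ℚ) (d : ℕ) (hF : F.IsHomogeneous d)
    (x : Fin n → K) (l : K) (c : Fin n) :
    l * aeval (fun c => l * x c) (pderiv c F) = l ^ d * aeval x (pderiv c F) := by
  rcases d with _ | d
  · have h1 : F.totalDegree = 0 := (totalDegree_zero_iff_isHomogeneous (Fin n)).2 hF
    rw [totalDegree_eq_zero_iff_eq_C] at h1
    rw [h1, pderiv_C, map_zero, map_zero, mul_zero, mul_zero]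
  · have h1 := hF.pderiv (i := c)
    rw [Nat.add_sub_cancel] at h1
    rw [aeval_scale _ d h1]
    ring

end

section

variable {s : ℕ} {b : Fin s → ℕ} {L : ℕ → ℝ} {n m t N : ℕ}

/-- divisibility of the determinant -/
theorem qiPart (f : Fin t → MvPolynomial (Fin n) ℚ) (F : Fin N → MvPolynomial (Fin n) ℚ)
    (hb : ∀ v, (b v).Prime) (hL : Tendsto L atTop atTop) (hNC : SNC f F)
    (x : Fin n → ℕ → ℤ) (hc : ∀ t, Finset.univ.gcd (fun c => x c t) = 1)
    (hfx : ∀ j, aeval (fun c => gm (fun t => (x c t : ℚ))) (f j) = 0)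
    (B : Matrix (Fin n) (Fin n) GG) (ν : Fin t → Fin n) (hν : Function.Injective ν)
    (G : Fin N → GG) (hBA : ∀ ρ, (∀ j, ρ ≠ ν j) → ∀ c, QI b L (B ρ c))
    (hF : ∀ i, ∃ ω, QI b L ω ∧ aeval (fun c => gm (fun t => (x c t : ℚ))) (F i) = G i * ω)
    (hB0 : ∀ ρ, (∀ j, ρ ≠ ν j) → ∀ j,
      ∑ c, B ρ c * aeval (fun c => gm (fun t => (x c t : ℚ))) (pderiv c (f j)) = 0)
    (hB : ∀ ρ, (∀ j, ρ ≠ ν j) → ∀ i, ∃ ω, QI b L ω ∧
      ∑ c, B ρ c * aeval (fun c => gm (fun t => (x c t : ℚ))) (pderiv c (F i)) = G i * ω)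
    (hB1 : ∀ j' j, ∑ c, B (ν j') c *
      aeval (fun c => gm (fun t => (x c t : ℚ))) (pderiv c (f j)) = if j' = j then 1 else 0) :
    ∃ Ω, QI b L Ω ∧ B.det = (∏ i, G i) * Ω := by
  classical
  set X : Fin n → GG := fun c => gm (fun t => (x c t : ℚ)) with hX
  have hXq : ∀ c, QI b L (X c) := fun c => qi_int hL (x c)
  choose m ω hω h using fun c => absC f F (AQ hb hL) hNC X hXq hfx G B ν hν hBA hF hB0 hB hB1 c
  obtain ⟨M, hM⟩ : ∃ M, M = ∑ c, m c := ⟨_, rfl⟩
  have hmM : ∀ c, m c ≤ M := fun c => by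
    rw [hM]
    exact Finset.single_le_sum (fun _ _ => Nat.zero_le _) (Finset.mem_univ c)
  have hcomb : ∀ t, ∃ u : Fin n → ℤ, ∑ c, u c * (x c t) ^ M = 1 := by
    intro t
    have h1 : Ideal.span (Set.range fun c => x c t) = ⊤ := by
      rw [Ideal.eq_top_iff_one, Ideal.mem_span_range_iff_exists_fun]
      obtain ⟨u, hu⟩ := exists_gcd_comb Finset.univ (fun c => x c t)
      exact ⟨u, by rw [hu]; exact hc t⟩
    have h2 := Ideal.span_pow_eq_top _ h1 M
    rw [← Set.range_comp, Ideal.eq_top_iff_one, Ideal.mem_span_range_iff_exists_fun] at h2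
    obtain ⟨u, hu⟩ := h2
    exact ⟨u, hu⟩
  choose u hu using hcomb
  have hU : ∑ c, gm (fun t => (u t c : ℚ)) * X c ^ M = 1 := by
    rw [hX]
    simp only [gm_pow, gm_mul]
    rw [gm_sum', ← gm_one]
    congr 1
    funext t
    have h5 := hu t
    exact_mod_cast h5
  refine ⟨∑ c, gm (fun t => (u t c : ℚ)) * (X c ^ (M - m c) * ω c), ?_, ?_⟩
  · refine QI.sum hb hL _ _ fun c _ => QI.mul hb (qi_int hL fun t => u t c) ?_
    exact QI.mul hb ((AQ hb hL).pow_mem (hXq c) _) (hω c)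
  · calc B.det = (∑ c, gm (fun t => (u t c : ℚ)) * X c ^ M) * B.det := by rw [hU, one_mul]
      _ = ∑ c, gm (fun t => (u t c : ℚ)) * (X c ^ (M - m c) * (X c ^ m c * B.det)) := by
          rw [Finset.sum_mul]
          refine Finset.sum_congr rfl fun c _ => ?_
          rw [← mul_assoc (X c ^ (M - m c)), ← pow_add, Nat.sub_add_cancel (hmM c)]
          ring
      _ = _ := by
          rw [Finset.mul_sum]
          refine Finset.sum_congr rfl fun c _ => ?_
          rw [h c]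
          ring

/-- domination of the determinant -/
theorem domPart (f : Fin t → MvPolynomial (Fin (m + 1 + t)) ℚ)
    (F : Fin N → MvPolynomial (Fin (m + 1 + t)) ℚ) {dd : Fin N → ℕ} {ee : Fin t → ℕ}
    (hb : ∀ v, (b v).Prime) (hbi : Function.Injective b)
    (hL : Tendsto L atTop atTop) (hf : ∀ j, (f j).IsHomogeneous (ee j))
    (hF : ∀ i, (F i).IsHomogeneous (dd i)) (hNC : SNC f F)
    (v : Option (Fin s)) (X : Fin (m + 1 + t) → GG) (a : Fin (m + 1 + t)) (hXa : X a ≠ 0)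
    (h1 : ∀ c, Dom b L v (X c) (X a)) (hfx : ∀ j, aeval X (f j) = 0)
    (B : Matrix (Fin (m + 1 + t)) (Fin (m + 1 + t)) GG)
    (hBX : ∀ ρ : Fin (m + 1), ∀ c, Dom b L v (B (Fin.castAdd t ρ) c) (X c))
    (hB0 : ∀ (ρ : Fin (m + 1)) j,
      ∑ c, B (Fin.castAdd t ρ) c * aeval X (pderiv c (f j)) = 0)
    (hB1 : ∀ j' j, ∑ c, B (Fin.natAdd (m + 1) j') c * aeval X (pderiv c (f j)) =
      if j' = j then 1 else 0)
    (hF0 : ∀ i, aeval X (F i) ≠ 0)
    (hR : ∀ (ρ : Fin (m + 1)) i, Dom b L v (∑ c, B (Fin.castAdd t ρ) c *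
      aeval X (pderiv c (F i))) (aeval X (F i))) :
    Dom b L v (B.det * X a ^ (∑ i, dd i + ∑ j, (ee j - 1)))
      (X a ^ (m + 1) * ∏ i, aeval X (F i)) := by
  classical
  obtain ⟨l, hl⟩ : ∃ l, l = (X a)⁻¹ := ⟨_, rfl⟩
  have hla : l * X a = 1 := by rw [hl]; exact inv_mul_cancel₀ hXa
  have hmul : ∀ (w f g : GG), Dom b L v f g → w * g = 1 → Dom b L v (w * f) 1 := by
    intro w f g h hw
    have h3 := Dom.mul hb (Dom.refl hb hL v w) h
    rwa [hw] at h3
  obtain ⟨w, hw⟩ : ∃ w : Fin (m + 1 + t) → GG,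
      w = Fin.addCases (fun _ => l) (fun j => X a ^ (ee j - 1)) := ⟨_, rfl⟩
  have hwl : ∀ ρ : Fin (m + 1), w (Fin.castAdd t ρ) = l := fun ρ => by rw [hw]; simp
  have hwr : ∀ j : Fin t, w (Fin.natAdd (m + 1) j) = X a ^ (ee j - 1) := fun j => by
    rw [hw]; simp
  have hrow : ∀ (p : Fin (m + 1 + t) → Prop), (∀ ρ : Fin (m + 1), p (Fin.castAdd t ρ)) →
      ∀ ρ, (∀ j : Fin t, ρ ≠ Fin.natAdd (m + 1) j) → p ρ := by
    intro p hp ρ
    refine Fin.addCases (fun ρ' _ => hp ρ') (fun j h => absurd rfl (h j)) ρ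
  obtain ⟨k, ω, hω, h⟩ := absC f F (AD hb hbi hL v) hNC (fun c => l * X c)
    (fun c => hmul _ _ _ (h1 c) hla)
    (fun j => by rw [aeval_scale _ _ (hf j), hfx, mul_zero])
    (fun i => l ^ dd i * aeval X (F i)) (Matrix.of fun r c => w r * B r c)
    (Fin.natAdd (m + 1)) (Fin.natAdd_injective _ _)
    (hrow _ fun ρ c => by
      rw [Matrix.of_apply, hwl]
      exact hmul _ _ _ (Dom.trans hb (hBX ρ c) (h1 c)) hla)
    (fun i => ⟨1, (AD hb hbi hL v).one_mem, by rw [mul_one, aeval_scale _ _ (hF i)]⟩)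
    (hrow _ fun ρ j => by
      have h2 : ∑ c, (Matrix.of fun r c => w r * B r c) (Fin.castAdd t ρ) c *
          aeval (fun c => l * X c) (pderiv c (f j)) =
          l ^ ee j * ∑ c, B (Fin.castAdd t ρ) c * aeval X (pderiv c (f j)) := by
        rw [Finset.mul_sum]
        refine Finset.sum_congr rfl fun c _ => ?_
        have h4 := pderiv_scale (f j) (ee j) (hf j) X l c
        rw [Matrix.of_apply, hwl]
        linear_combination B (Fin.castAdd t ρ) c * h4
      rw [h2, hB0, mul_zero])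
    (hrow _ fun ρ i => by
      refine ⟨(∑ c, B (Fin.castAdd t ρ) c * aeval X (pderiv c (F i))) / aeval X (F i), ?_, ?_⟩
      · have h3 := hmul (aeval X (F i))⁻¹ _ _ (hR ρ i) (inv_mul_cancel₀ (hF0 i))
        rw [div_eq_mul_inv, mul_comm]
        exact h3
      · rw [mul_assoc, mul_div_cancel₀ _ (hF0 i), Finset.mul_sum]
        refine Finset.sum_congr rfl fun c _ => ?_
        have h4 := pderiv_scale (F i) (dd i) (hF i) X l c
        rw [Matrix.of_apply, hwl]
        linear_combination B (Fin.castAdd t ρ) c * h4)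
    (fun j' j => by
      have h2 : ∀ c, aeval (fun c => l * X c) (pderiv c (f j)) =
          l ^ (ee j - 1) * aeval X (pderiv c (f j)) := fun c =>
        aeval_scale _ _ (hf j).pderiv _ _
      have h3 : ∑ c, (Matrix.of fun r c => w r * B r c) (Fin.natAdd (m + 1) j') c *
          aeval (fun c => l * X c) (pderiv c (f j)) = X a ^ (ee j' - 1) * l ^ (ee j - 1) *
          ∑ c, B (Fin.natAdd (m + 1) j') c * aeval X (pderiv c (f j)) := by
        rw [Finset.mul_sum]
        refine Finset.sum_congr rfl fun c _ => ?_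
        rw [Matrix.of_apply, hwr, h2]
        ring
      rw [h3, hB1]
      by_cases hjj : j' = j
      · subst hjj
        rw [if_pos rfl, mul_one, ← mul_pow, mul_comm (X a), hla, one_pow]
      · rw [if_neg hjj, mul_zero]) a
  rw [hla, one_pow, one_mul, Matrix.det_mul_column, Fin.prod_univ_add,
    Finset.prod_congr rfl fun ρ _ => hwl ρ, Finset.prod_congr rfl fun j _ => hwr j,
    Finset.prod_const, Finset.card_univ, Fintype.card_fin, Finset.prod_pow_eq_pow_sum,
    Finset.prod_mul_distrib, Finset.prod_pow_eq_pow_sum] at h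
  have e1 : X a ^ (m + 1) * l ^ (m + 1) = 1 := by rw [← mul_pow, mul_comm, hla, one_pow]
  have e3 : X a ^ (∑ i, dd i) * l ^ (∑ i, dd i) = 1 := by rw [← mul_pow, mul_comm, hla, one_pow]
  have h5 : B.det * X a ^ (∑ i, dd i + ∑ j, (ee j - 1)) =
      (X a ^ (m + 1) * ∏ i, aeval X (F i)) * ω := by
    rw [pow_add]
    generalize B.det = W at *
    generalize ∏ i, aeval X (F i) = Φ at *
    generalize X a ^ (∑ i, dd i) = Aq at *
    generalize l ^ (∑ i, dd i) = lq at *
    generalize X a ^ (∑ j, (ee j - 1)) = Ae at *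
    generalize X a ^ (m + 1) = Bq at *
    generalize l ^ (m + 1) = mq at *
    calc W * (Aq * Ae) = (Bq * mq) * W * (Aq * Ae) := by rw [e1]; ring
      _ = Bq * (mq * Ae * W) * Aq := by ring
      _ = Bq * (lq * Φ * ω) * Aq := by rw [h]
      _ = Bq * (Aq * lq) * Φ * ω := by ring
      _ = _ := by rw [e3]; ring
  rw [h5]
  have h6 := Dom.mul hb (Dom.refl hb hL v (X a ^ (m + 1) * ∏ i, aeval X (F i))) hω
  rwa [mul_one] at h6

/-- the places together -/
lemma placesN (hb : ∀ v, (b v).Prime) (x : Fin n → ℤ) (hc : Finset.univ.gcd x = 1)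
    (W : ℚ) (Φ : Option (Fin s) → ℝ) (E : ℝ) (hE : 0 ≤ E) (hΦ : ∀ v, 0 ≤ Φ v) (Q R : ℕ)
    (a : Option (Fin s) → Fin n)
    (ha : ∀ v c, av b v (x c : ℚ) ≤ av b v (x (a v) : ℚ))
    (h : ∀ v, av b v W * av b v (x (a v) : ℚ) ^ Q ≤ E * (av b v (x (a v) : ℚ) ^ R * Φ v)) :
    (∏ v, av b v W) * |(x (a none) : ℝ)| ^ Q ≤
      E ^ (s + 1) * (|(x (a none) : ℝ)| ^ R * ∏ v, Φ v) := by
  have hne : (Finset.univ : Finset (Fin n)).Nonempty := ⟨a none, Finset.mem_univ _⟩
  have hone : ∀ v : Fin s, av b (some v) (x (a (some v)) : ℚ) = 1 := by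
    intro v
    refine le_antisymm (av_int_le_one hb v _) ?_
    obtain ⟨j, _, h1⟩ := av_gcd_le hb v Finset.univ hne x
    rw [hc] at h1
    have h2 : av b (some v) ((1 : ℤ) : ℚ) = 1 := by rw [Int.cast_one, av_one hb]
    rw [h2] at h1
    exact h1.trans (ha _ j)
  have h0 : ∀ (z : ℤ), av b none (z : ℚ) = |(z : ℝ)| := by
    intro z
    simp only [av]
    push_cast
    rfl
  have hfin : ∀ v : Fin s, av b (some v) W ≤ E * Φ (some v) := by
    intro v
    have h1 := h (some v)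
    rw [hone v] at h1
    simpa using h1
  have hinf := h none
  rw [h0] at hinf
  rw [Fintype.prod_option, Fintype.prod_option]
  have h1 : ∏ v : Fin s, av b (some v) W ≤ ∏ v : Fin s, (E * Φ (some v)) :=
    Finset.prod_le_prod (fun v _ => av_nonneg hb _ _) fun v _ => hfin v
  rw [Finset.prod_mul_distrib, Finset.prod_const, Finset.card_univ, Fintype.card_fin] at h1
  have h2 := mul_le_mul hinf h1 (Finset.prod_nonneg fun v _ => av_nonneg hb _ _)
    (mul_nonneg hE (mul_nonneg (by positivity) (hΦ none)))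
  calc av b none W * (∏ i : Fin s, av b (some i) W) * |(x (a none) : ℝ)| ^ Q =
      av b none W * |(x (a none) : ℝ)| ^ Q * ∏ i : Fin s, av b (some i) W := by ring
    _ ≤ _ := h2
    _ = _ := by ring

end

end Pool.Agent.TH551.HA.Ci
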