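import Mathlib
import Pool.Agent.TH551.HA.Jr2

/-!
# Project HA: normal crossings divisors on complete intersections, germs
-/

set_option autoImplicit false
set_option linter.unusedSectionVars false
set_option linter.unusedVariables false

namespace Pool.Agent.TH551.HA.Ci

open Filter Topology Pool.Agent.TH932.Germs Pool.Agent.TH551.SU Pool.Agent.TH551.ZP
open Pool.Agent.TH551.SU.CRV Pool.Agent.TH551.ZP.GT MvPolynomial
open Pool.Agent.TH551.HA.P1 (DP_sum rat_mem DP_const AQ AD qi_int dom_of_le)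
open Pool.Agent.TH551.HA.Pn (eval_aeval lift_aeval chain hom_sum)

section

variable {s : ℕ} {b : Fin s → ℕ} {L : ℕ → ℝ} {r : ℕ} {hL : Tendsto L atTop atTop}
  {U : Fin (r + 1) → GG} {l : Fin (r + 1) → ℕ} {d : ℕ}

/-- evaluation of polynomials at germs -/
lemma aeval_gmn {n : ℕ} (X : Fin n → ℕ → ℚ) (F : MvPolynomial (Fin n) ℚ) :
    aeval (fun i => gm (X i)) F = gm (fun t => aeval (fun i => X i t) F) := by
  induction F using MvPolynomial.induction_on with
  | C a =>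
    rw [aeval_C, Main.algebraMap_eq]
    congr 1
    funext t
    rw [aeval_C]
    rfl
  | add p q hp hq =>
    rw [map_add, hp, hq, gm_add]
    congr 1
    funext t
    rw [map_add]
  | mul_X p i hp =>
    rw [map_mul, hp, aeval_X, gm_mul]
    congr 1
    funext t
    rw [map_mul, aeval_X]

/-- **the inequality for germs** -/
theorem ciGerm (hnc : NcStmt) (hcs : CSStmt) (hb : ∀ v, (b v).Prime)
    (hbi : Function.Injective b) (hs : Setup b hL U l d) (hU0 : U 0 = 1) {m q0 N : ℕ} (k : ℕ)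
    (f : Fin q0 → MvPolynomial (Fin (m + 1 + q0)) ℚ) (ee : Fin q0 → ℕ)
    (hf : ∀ j, (f j).IsHomogeneous (ee j))
    (F : Fin N → MvPolynomial (Fin (m + 1 + q0)) ℚ) (dd : Fin N → ℕ)
    (hF : ∀ i, (F i).IsHomogeneous (dd i)) (hNC : SNC f F)
    (τ : Fin k → Fin N) (e : Fin k → ℕ) (he : ∀ i, 1 ≤ e i)
    (hd : 1 + (∑ i, e i + ∑ i, dd i) ≤ d) (hd2 : ∀ j, ee j ≤ d)
    (X : Fin (m + 1 + q0) → Polynomial GG) (hX : ∀ i, Lift hL U l 1 (X i))
    (x : Fin (m + 1 + q0) → ℕ → ℤ) (hx : ∀ i, (X i).eval 1 = gm (fun t => (x i t : ℚ)))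
    (Y : Fin k → Polynomial GG) (hY : ∀ i, Lift hL U l 1 (Y i)) (y : Fin k → ℕ → ℤ)
    (hy : ∀ i, (Y i).eval 1 = gm (fun t => (y i t : ℚ))) (w : Fin N → ℕ → ℤ)
    (hwS : ∀ σ t, IsSU b (w σ t : ℚ)) (ι : Fin N → Fin (r + 1))
    (hw : ∀ σ, U (ι σ) = gm (fun t => (w σ t : ℚ))) (A : Fin N → ℕ → ℤ)
    (hA : ∀ σ t, A σ t = w σ t * ∏ i with τ i = σ, y i t ^ (e i)) (hA0 : ∀ σ t, A σ t ≠ 0)
    (hfA : ∀ j t, aeval (fun c => (x c t : ℚ)) (f j) = 0)
    (hFA : ∀ σ t, aeval (fun c => (x c t : ℚ)) (F σ) = (A σ t : ℚ))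
    (hgcd : ∀ t, Finset.univ.gcd (fun c => x c t) = 1) (S0 : Fin (m + 1) → Fin (m + 1 + q0))
    (hgen : ∀ G : MvPolynomial (Fin (m + 1)) ℚ, (∃ e, G.IsHomogeneous e) → G ≠ 0 →
      aeval (fun i : Fin (m + 1) => gm (fun t => (x (S0 i) t : ℚ))) G ≠ 0)
    (im : ℕ → Fin (m + 1 + q0)) (him : ∀ t c, |(x c t : ℝ)| ≤ |(x (im t) t : ℝ)|)
    (ε : ℝ) (hε : 0 < ε) :
    ∀ᶠ t in (UU : Filter ℕ), |(x (im t) t : ℝ)| ^ (∑ i, dd i + ∑ j, (ee j - 1)) ≤
      Real.exp (ε * L t) * (|(x (im t) t : ℝ)| ^ (m + 1) * ∏ i, |(y i t : ℝ)|) := by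
  classical
  obtain ⟨Fs, hFs⟩ : ∃ Fs : Fin N → Finset (Fin k),
      Fs = fun σ => Finset.univ.filter (fun i => τ i = σ) := ⟨_, rfl⟩
  have hA' : ∀ σ t, A σ t = w σ t * ∏ i ∈ Fs σ, y i t ^ (e i) := fun σ t => by
    rw [hA, hFs]
  have hmem : ∀ i σ, i ∈ Fs σ ↔ τ i = σ := fun i σ => by
    rw [hFs]
    simp
  have hFle : ∀ σ, ∑ i ∈ Fs σ, e i ≤ ∑ i, e i := fun σ => by
    rw [hFs]
    exact Finset.sum_le_sum_of_subset (Finset.filter_subset _ _)
  have hQle : ∀ σ, dd σ ≤ ∑ i, dd i := fun σ =>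
    Finset.single_le_sum (fun _ _ => Nat.zero_le _) (Finset.mem_univ σ)
  obtain ⟨TQ, hTQ⟩ : ∃ TQ, TQ = ∑ i, dd i := ⟨_, rfl⟩
  rw [← hTQ] at hd
  simp only [← hTQ] at hQle
  obtain ⟨E, hE⟩ : ∃ E : Polynomial GG, E = Polynomial.X ^ (l 0) := ⟨_, rfl⟩
  have hEL : Lift hL U l 1 E := by
    have h := Lift.gen (hL := hL) (U := U) (l := l) 0
    rw [hU0, Polynomial.C_1, one_mul] at h
    rw [hE]
    exact h
  have hE1 : E.eval 1 = 1 := by rw [hE]; simp
  have hEm : ∀ (δ : DerQ GG) (ψ : GG →ₗ[KK L hL] KK L hL) (n : ℕ), DP hL δ ψ (E ^ n) = 0 := by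
    intro δ ψ n
    have h1 : E ^ n = Polynomial.C 1 * Polynomial.X ^ (l 0 * n) := by
      rw [hE, ← pow_mul, Polynomial.C_1, one_mul]
    rw [h1, DP_C_mul_X_pow]
    simp [Dps]
  obtain ⟨K, hK⟩ : ∃ K : Fin N → Polynomial GG, K = fun σ =>
    E ^ (∑ i, e i + TQ - ∑ i ∈ Fs σ, e i) *
    (Polynomial.C (U (ι σ)) * Polynomial.X ^ (l (ι σ))) := ⟨_, rfl⟩
  obtain ⟨P, hP⟩ : ∃ P : Fin N → Polynomial GG, P = fun σ => ∏ i ∈ Fs σ, Y i ^ (e i) :=
    ⟨_, rfl⟩
  have hKL : ∀ σ, Lift hL U l (1 * (∑ i, e i + TQ - ∑ i ∈ Fs σ, e i) + 1) (K σ) := fun σ => by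
    rw [hK]
    exact (hEL.pow _).mul (Lift.gen _)
  have hPL : ∀ σ, Lift hL U l (∑ i ∈ Fs σ, 1 * e i) (P σ) := fun σ => by
    rw [hP]
    exact Lift.prod _ _ _ fun i _ => (hY i).pow (e i)
  have hdeg : ∀ σ, ∑ i ∈ Fs σ, 1 * e i + (1 * (∑ i, e i + TQ - ∑ i ∈ Fs σ, e i) + 1) =
      1 + (∑ i, e i + TQ) := by
    intro σ
    have h4 := hFle σ
    simp only [one_mul]
    omega
  have haL : ∀ σ, Lift hL U l (1 + (∑ i, e i + TQ)) (P σ * K σ) := by
    intro σ
    have h2 := (hPL σ).mul (hKL σ)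
    rwa [hdeg σ] at h2
  have hK1 : ∀ σ, (K σ).eval 1 = gm (fun t => (w σ t : ℚ)) := by
    intro σ
    rw [← hw σ, hK]
    simp [hE1]
  have hP1 : ∀ σ, (P σ).eval 1 = gm (fun t => ∏ i ∈ Fs σ, (y i t : ℚ) ^ (e i)) := by
    intro σ
    rw [hP]
    simp only
    rw [Polynomial.eval_prod, ← gm_prod']
    refine Finset.prod_congr rfl fun i _ => ?_
    rw [Polynomial.eval_pow, hy, gm_pow]
  have ha1 : ∀ σ, (P σ * K σ).eval 1 = gm (fun t => (A σ t : ℚ)) := by
    intro σ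
    rw [Polynomial.eval_mul, hK1, hP1, gm_mul]
    congr 1
    funext t
    rw [hA' σ t]
    push_cast
    ring
  have hxe : (fun c => (X c).eval 1) = fun c => gm (fun t => (x c t : ℚ)) := funext hx
  have hF1 : ∀ σ, (aeval X (F σ)).eval 1 = gm (fun t => (A σ t : ℚ)) := by
    intro σ
    rw [eval_aeval, hxe, aeval_gmn]
    congr 1
    funext t
    exact hFA σ t
  have hFL : ∀ σ, Lift hL U l (dd σ) (aeval X (F σ)) := fun σ =>
    lift_aeval X hX (F σ) (hF σ)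
  obtain ⟨J, hJ⟩ : ∃ J : Fin N → ℕ, J = fun σ => 1 + (∑ i, e i + TQ) - dd σ := ⟨_, rfl⟩
  have hJd : ∀ σ, dd σ + 1 * J σ = 1 + (∑ i, e i + TQ) := by
    intro σ
    rw [hJ]
    have := hQle σ
    simp only [one_mul]
    omega
  have hFEL : ∀ σ, Lift hL U l (1 + (∑ i, e i + TQ)) (aeval X (F σ) * E ^ (J σ)) := by
    intro σ
    have h2 := (hFL σ).mul (hEL.pow (J σ))
    rwa [hJd σ] at h2
  have hrel : ∀ σ, aeval X (F σ) * E ^ (J σ) = P σ * K σ := by
    intro σ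
    have h1 := ((hFEL σ).sub (haL σ)).eq_zero hcs hb hbi hs hd (by
      rw [Polynomial.eval_sub, ha1, Polynomial.eval_mul, hF1, Polynomial.eval_pow, hE1, one_pow,
        mul_one, sub_self])
    exact sub_eq_zero.1 h1
  have hDrel : ∀ (δ : DerQ GG) (ψ : GG →ₗ[KK L hL] KK L hL) σ,
      (DP hL δ ψ (aeval X (F σ))).eval 1 = (DP hL δ ψ (P σ * K σ)).eval 1 := by
    intro δ ψ σ
    rw [← hrel σ, DP_mul hb hs (by rw [hJd σ]; exact hd) (hFL σ) (hEL.pow (J σ)), hEm, mul_zero,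
      add_zero, Polynomial.eval_mul, Polynomial.eval_pow, hE1, one_pow, mul_one]
  have hy0 : ∀ i t, y i t ≠ 0 := by
    intro i t h0
    apply hA0 (τ i) t
    rw [hA', Finset.prod_eq_zero ((hmem i _).2 rfl)
      (by rw [h0, zero_pow (by have := he i; omega)]), mul_zero]
  -- the divisors
  obtain ⟨G, hG⟩ : ∃ G : Fin N → ℕ → ℤ, G = fun σ t => ∏ i ∈ Fs σ, y i t ^ (e i - 1) :=
    ⟨_, rfl⟩
  have hG0 : ∀ σ t, G σ t ≠ 0 := fun σ t => by
    rw [hG]
    exact Finset.prod_ne_zero_iff.2 fun i _ => pow_ne_zero _ (hy0 i t)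
  have hG1 : ∀ σ, gm (fun t => (G σ t : ℚ)) = ∏ i ∈ Fs σ, (Y i).eval 1 ^ (e i - 1) := by
    intro σ
    have h4 : ∀ i, (Y i).eval 1 ^ (e i - 1) = gm (fun t => (y i t : ℚ) ^ (e i - 1)) := by
      intro i
      rw [hy, gm_pow]
    simp only [h4]
    rw [gm_prod']
    congr 1
    funext t
    rw [hG]
    push_cast
    rfl
  have hPG : ∀ σ, (P σ).eval 1 = gm (fun t => (G σ t : ℚ)) * ∏ i ∈ Fs σ, (Y i).eval 1 := by
    intro σ
    rw [hG1, ← Finset.prod_mul_distrib, hP]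
    simp only
    rw [Polynomial.eval_prod]
    refine Finset.prod_congr rfl fun i _ => ?_
    rw [Polynomial.eval_pow, ← pow_succ, Nat.sub_add_cancel (he i)]
  obtain ⟨aa, haa⟩ : ∃ aa : Fin (m + 2) → Polynomial GG,
      aa = Fin.snoc (α := fun _ => Polynomial GG) (fun i => X (S0 i)) 0 := ⟨_, rfl⟩
  have haac : ∀ c : Fin (m + 1), aa (Fin.castSucc c) = X (S0 c) := fun c => by
    rw [haa]
    exact Fin.snoc_castSucc (α := fun _ => Polynomial GG) _ _ _
  obtain ⟨q, δ, ψ, ρ, hρ⟩ := exists_table (hL := hL) aa (by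
    simp only [haac, hx]
    exact hgen)
  obtain ⟨Rr, hRr⟩ : ∃ Rr : Option (Fin m × Fin q) → Fin (m + 1 + q0) → GG,
      Rr = fun j c => (match j with
        | none => (X c).eval 1
        | some ij => (DP hL (δ ij.1) (ψ ij.2) (X c)).eval 1) := ⟨_, rfl⟩
  have hR0 : ∀ c, Rr none c = (X c).eval 1 := by
    intro c
    rw [hRr]
  have hRs : ∀ ij c, Rr (some ij) c = (DP hL (δ ij.1) (ψ ij.2) (X c)).eval 1 := by
    intro ij c
    rw [hRr]
  have hdetS : (Matrix.of fun ρ' i => Rr (ρ ρ') (S0 i)).det ≠ 0 := by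
    rw [← Matrix.det_transpose]
    have h1 : (Matrix.of fun ρ' i => Rr (ρ ρ') (S0 i)).transpose =
        Matrix.of fun c i : Fin (m + 1) => rowJ hL aa δ ψ (ρ i) (Fin.castSucc c) := by
      ext c i
      rw [Matrix.transpose_apply, Matrix.of_apply, Matrix.of_apply]
      rcases ρ i with _ | ij
      · rw [hR0]
        show _ = (aa (Fin.castSucc c)).eval 1
        rw [haac]
      · rw [hRs]
        show _ = (DP hL (δ ij.1) (ψ ij.2) (aa (Fin.castSucc c))).eval 1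
        rw [haac]
    rw [h1]
    exact hρ
  have hYqi : ∀ σ, QI b L (∏ i ∈ Fs σ, (Y i).eval 1) := fun σ =>
    QI.prod hb hL _ _ fun i _ => (hY i).qi hb hs
  have h1d : 1 ≤ d := by omega
  have hsum0 : ∀ (H : MvPolynomial (Fin (m + 1 + q0)) ℚ) (h0 : ℕ), H.IsHomogeneous h0 →
      ∑ c, Rr none c * aeval (fun c => (X c).eval 1) (pderiv c H) =
      (h0 : GG) * (aeval X H).eval 1 := by
    intro H h0 hH
    have h1 := congrArg (aeval (fun c => (X c).eval 1)) hH.sum_X_mul_pderiv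
    rw [map_sum, map_nsmul, nsmul_eq_mul, ← eval_aeval] at h1
    rw [← h1]
    refine Finset.sum_congr rfl fun c _ => ?_
    rw [hR0, map_mul, aeval_X]
  have hsums : ∀ (H : MvPolynomial (Fin (m + 1 + q0)) ℚ) (h0 : ℕ), H.IsHomogeneous h0 →
      h0 ≤ d → ∀ ij, ∑ c, Rr (some ij) c * aeval (fun c => (X c).eval 1) (pderiv c H) =
      (DP hL (δ ij.1) (ψ ij.2) (aeval X H)).eval 1 := by
    intro H h0 hH hhd ij
    rw [chain hb hs X hX H hH hhd]
    refine Finset.sum_congr rfl fun c _ => ?_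
    rw [hRs, mul_comm]
  -- the equations
  have hf1 : ∀ j, aeval (fun c => (X c).eval 1) (f j) = 0 := by
    intro j
    rw [hxe, aeval_gmn, ← gm_zero]
    congr 1
    funext t
    exact hfA j t
  have hfX : ∀ j, aeval X (f j) = 0 := by
    intro j
    refine (lift_aeval X hX (f j) (hf j)).eq_zero hcs hb hbi hs (hd2 j) ?_
    rw [eval_aeval, hf1]
  have hftan : ∀ j' j, ∑ c, Rr j' c * aeval (fun c => (X c).eval 1) (pderiv c (f j)) = 0 := by
    intro j' j
    rcases j' with _ | ij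
    · rw [hsum0 _ _ (hf j), hfX, Polynomial.eval_zero, mul_zero]
    · rw [hsums _ _ (hf j) (hd2 j), hfX]
      simp [DP]
  have hX00 : (X (S0 0)).eval 1 ≠ 0 := by
    have h := hgen (MvPolynomial.X 0) ⟨1, MvPolynomial.isHomogeneous_X _ _⟩
      (MvPolynomial.X_ne_zero _)
    rw [aeval_X] at h
    rw [hx]
    exact h
  obtain ⟨V, hV⟩ := exists_normal f F hNC (fun c => (X c).eval 1) hf1 (S0 0) hX00
  obtain ⟨B, hBdef⟩ : ∃ B : Matrix (Fin (m + 1 + q0)) (Fin (m + 1 + q0)) GG,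
      B = Matrix.of fun r c => (Fin.addCases (fun ρ' => Rr (ρ ρ') c) (fun j => V j c) r : GG) :=
    ⟨_, rfl⟩
  have hBl : ∀ (ρ' : Fin (m + 1)) c, B (Fin.castAdd q0 ρ') c = Rr (ρ ρ') c := by
    intro ρ' c
    rw [hBdef]
    simp
  have hBr : ∀ (j : Fin q0) c, B (Fin.natAdd (m + 1) j) c = V j c := by
    intro j c
    rw [hBdef]
    simp
  have hWW : B.det ≠ 0 := by
    rw [hBdef]
    exact table_ne (fun j c => aeval (fun c => (X c).eval 1) (pderiv c (f j)))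
      (fun ρ' => Rr (ρ ρ')) V (fun ρ' j => hftan _ _) hV S0 hdetS
  have hFG : ∀ σ, (aeval X (F σ)).eval 1 = gm (fun t => (G σ t : ℚ)) *
      ((∏ i ∈ Fs σ, (Y i).eval 1) * (K σ).eval 1) := by
    intro σ
    rw [hF1, ← ha1, Polynomial.eval_mul, hPG]
    ring
  have hFGq : ∀ σ, QI b L ((∏ i ∈ Fs σ, (Y i).eval 1) * (K σ).eval 1) := fun σ =>
    QI.mul hb (hYqi σ) ((hKL σ).qi hb hs)
  have hrow : ∀ (p : Fin (m + 1 + q0) → Prop), (∀ ρ' : Fin (m + 1), p (Fin.castAdd q0 ρ')) →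
      ∀ ρ', (∀ j : Fin q0, ρ' ≠ Fin.natAdd (m + 1) j) → p ρ' := by
    intro p hp ρ'
    refine Fin.addCases (fun ρ' _ => hp ρ') (fun j h => absurd rfl (h j)) ρ'
  -- divisibility
  have hqi := qiPart f F hb hL hNC x hgcd (by rw [← hxe]; exact hf1) B (Fin.natAdd (m + 1))
    (Fin.natAdd_injective _ _) (fun σ => gm (fun t => (G σ t : ℚ)))
    (hrow _ fun i c => by
      rw [hBl]
      rcases ρ i with _ | ij
      · rw [hR0]
        exact (hX c).qi hb hs
      · rw [hRs]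
        exact DP_qi hb hs h1d (hX c))
    (fun σ => ⟨_, hFGq σ, by rw [← hxe, ← eval_aeval, hFG]⟩)
    (hrow _ fun i j => by
      simp only [hBl]
      rw [← hxe]
      exact hftan _ _)
    (hrow _ fun i σ => by
      simp only [hBl]
      rw [← hxe]
      rcases ρ i with _ | ij
      · refine ⟨(dd σ : GG) * ((∏ i ∈ Fs σ, (Y i).eval 1) * (K σ).eval 1),
          QI.mul hb (QI.of_KK hb hL (natCast_mem _ _)) (hFGq σ), ?_⟩
        rw [hsum0 _ _ (hF σ), hFG]
        ring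
      · obtain ⟨h, hh, heq⟩ := DP_prod (δ := δ ij.1) (ψ := ψ ij.2) hb hs (Fs σ) e
          (fun i _ => he i) Y (fun i _ => hY i) (by have := hFle σ; omega)
        refine ⟨h * (K σ).eval 1 + (∏ i ∈ Fs σ, (Y i).eval 1) *
          (DP hL (δ ij.1) (ψ ij.2) (K σ)).eval 1, ?_, ?_⟩
        · refine QI.add hb (QI.mul hb hh ((hKL σ).qi hb hs)) (QI.mul hb (hYqi σ) ?_)
          refine DP_qi hb hs ?_ (hKL σ)
          have := hdeg σ
          omega
        · rw [hsums _ _ (hF σ) (by have := hQle σ; omega), hDrel]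
          rw [DP_mul hb hs (by rw [hdeg σ]; exact hd) (hPL σ) (hKL σ), Polynomial.eval_add,
            Polynomial.eval_mul, Polynomial.eval_mul, hPG]
          have h1 : (DP hL (δ ij.1) (ψ ij.2) (P σ)).eval 1 = gm (fun t => (G σ t : ℚ)) * h := by
            rw [hG1, hP]
            exact heq
          rw [h1]
          ring)
    (by
      intro j' j
      rw [← hxe]
      simp only [hBr]
      exact hV j' j)
  obtain ⟨Ω, hΩ, hΩeq⟩ := hqi
  have hΩ0 : Ω ≠ 0 := by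
    intro h0
    rw [h0, mul_zero] at hΩeq
    exact hWW hΩeq
  obtain ⟨WV, hWV⟩ : ∃ WV, WV = B.det := ⟨_, rfl⟩
  rw [← hWV] at hΩeq
  -- domination
  have hs2 : (0 : ℝ) < (s : ℝ) + 2 := by positivity
  obtain ⟨ε1, hε1⟩ : ∃ ε1 : ℝ, ε1 = ε / (s + 2) := ⟨_, rfl⟩
  have hε1' : 0 < ε1 := by rw [hε1]; positivity
  have hmax : ∀ v, ∃ a : Fin (m + 1 + q0), ∀ᶠ t in (UU : Filter ℕ),
      ∀ c, av b v (x c t : ℚ) ≤ av b v (x a t : ℚ) := by
    intro v
    have hne : Nonempty (Fin (m + 1 + q0)) := ⟨S0 0⟩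
    rw [← Ultrafilter.eventually_exists_iff]
    exact Eventually.of_forall fun t => Finite.exists_max fun c => av b v (x c t : ℚ)
  choose a ha using hmax
  have hdom : ∀ v, ∀ᶠ t in (UU : Filter ℕ),
      av b v (rep WV t) * av b v (x (a v) t : ℚ) ^ (∑ i, dd i + ∑ j, (ee j - 1)) ≤
      Real.exp (ε1 * L t) * (av b v (x (a v) t : ℚ) ^ (m + 1) *
        ∏ σ, av b v (A σ t : ℚ)) := by
    intro v
    have hXa : (X (a v)).eval 1 ≠ 0 := by
      rw [hx, gm_ne_zero]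
      filter_upwards [ha v] with t ht h0
      have hall : ∀ c, x c t = 0 := by
        intro c
        by_contra h2
        have h3 := av_pos hb v (q := (x c t : ℚ)) (by exact_mod_cast h2)
        have h4 := ht c
        rw [h0, av_zero hb] at h4
        linarith
      have h5 := hgcd t
      have h6 : Finset.univ.gcd (fun c => x c t) = 0 :=
        Finset.gcd_eq_zero_iff.2 fun c _ => hall c
      rw [h6] at h5
      exact zero_ne_one h5
    have h1 := domPart f F hb hbi hL hf hF hNC v (fun c => (X c).eval 1) (a v) hXa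
      (fun c => by
        simp only [hx]
        exact dom_of_le hb hL v (x (a v)) (x c) ((ha v).mono fun t ht => ht c))
      hf1 B (fun i c => by
        rw [hBl]
        rcases ρ i with _ | ij
        · rw [hR0]
          exact Dom.refl hb hL v _
        · rw [hRs]
          exact DP_dom hnc hb hbi hs h1d (hX c) v)
      (fun i j => by
        simp only [hBl]
        exact hftan _ _)
      (fun j' j => by
        simp only [hBr]
        exact hV j' j)
      (fun σ => by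
        rw [← eval_aeval, hF1, gm_ne_zero]
        exact Eventually.of_forall fun t => by exact_mod_cast hA0 σ t)
      (fun i σ => by
        simp only [hBl]
        rcases ρ i with _ | ij
        · rw [hsum0 _ _ (hF σ), ← eval_aeval]
          exact Dom.smul hb hbi hL (natCast_mem _ _) (Dom.refl hb hL v _)
        · rw [hsums _ _ (hF σ) (by have := hQle σ; omega), ← eval_aeval]
          exact DP_dom hnc hb hbi hs (by have := hQle σ; omega) (hFL σ) v)
    have e1 : (∏ σ, aeval (fun c => (X c).eval 1) (F σ)) = gm (fun t => ∏ σ, (A σ t : ℚ)) := by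
      rw [← gm_prod']
      refine Finset.prod_congr rfl fun σ _ => ?_
      rw [← eval_aeval, hF1]
    rw [← hWV, e1] at h1
    simp only [hx] at h1
    rw [← gm_rep WV] at h1
    simp only [gm_pow, gm_mul] at h1
    rw [dom_gm] at h1
    filter_upwards [h1 ε1 hε1'] with t h2
    simp only [av_mul hb, av_pow hb, av_prod hb] at h2
    exact h2
  have hWΩ : ∀ᶠ t in (UU : Filter ℕ), rep WV t = ((∏ σ, G σ t : ℤ) : ℚ) * rep Ω t := by
    have h1 : (∏ σ, gm (fun t => (G σ t : ℚ))) = gm (fun t => ((∏ σ, G σ t : ℤ) : ℚ)) := by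
      rw [gm_prod']
      congr 1
      funext t
      push_cast
      rfl
    rw [h1] at hΩeq
    have h2 := rep_mul (gm (fun t => ((∏ σ, G σ t : ℤ) : ℚ))) Ω
    rw [← hΩeq] at h2
    filter_upwards [h2, rep_gm (fun t => ((∏ σ, G σ t : ℤ) : ℚ))] with t h4 h5
    rw [h4, h5]
  filter_upwards [eventually_all.2 hdom, hWΩ, QI.lower hb hbi hL hΩ hΩ0 ε1 hε1',
    eventually_all.2 ha] with t h1 h2 h3 hat
  have key := placesN hb (fun c => x c t) (hgcd t) (rep WV t)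
    (fun v => ∏ σ, av b v (A σ t : ℚ)) (Real.exp (ε1 * L t)) (Real.exp_pos _).le
    (fun v => Finset.prod_nonneg fun σ _ => av_nonneg hb _ _) _ _ a hat h1
  have hmx : |(x (a none) t : ℝ)| = |(x (im t) t : ℝ)| := by
    refine le_antisymm (him t _) ?_
    have h5 := hat none (im t)
    simp only [av] at h5
    push_cast at h5
    exact h5
  rw [hmx] at key
  -- products over the places
  obtain ⟨S, hS⟩ : ∃ S : Fin k → ℝ, S = fun i => ∏ v, av b v (y i t : ℚ) := ⟨_, rfl⟩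
  have hSpos : ∀ i, 0 < S i := fun i => by
    rw [hS]
    exact Finset.prod_pos fun v _ => av_pos hb v (by exact_mod_cast hy0 i t)
  have hSle : ∀ i, S i ≤ |(y i t : ℝ)| := by
    intro i
    rw [hS]
    simp only
    rw [Fintype.prod_option]
    have h1 : ∏ v : Fin s, av b (some v) (y i t : ℚ) ≤ 1 :=
      Finset.prod_le_one (fun v _ => av_nonneg hb _ _) fun v _ => av_int_le_one hb v _
    have h2 : av b none (y i t : ℚ) = |(y i t : ℝ)| := by
      simp only [av]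
      push_cast
      rfl
    rw [h2]
    exact mul_le_of_le_one_right (abs_nonneg _) h1
  have hprodA : ∀ σ, ∏ v, av b v (A σ t : ℚ) = ∏ i ∈ Fs σ, S i ^ (e i) := by
    intro σ
    have h1 : ∀ v, av b v (A σ t : ℚ) = av b v (w σ t : ℚ) *
        ∏ i ∈ Fs σ, av b v (y i t : ℚ) ^ (e i) := by
      intro v
      rw [hA' σ t]
      push_cast
      rw [av_mul hb, av_prod hb]
      congr 1
      exact Finset.prod_congr rfl fun i _ => av_pow hb v _ _
    rw [Finset.prod_congr rfl fun v _ => h1 v, Finset.prod_mul_distrib,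
      prod_av_unit hb hbi (hwS σ t), one_mul, Finset.prod_comm]
    refine Finset.prod_congr rfl fun i _ => ?_
    rw [Finset.prod_pow, hS]
  have hprodG : ∀ σ, ∏ v, av b v (G σ t : ℚ) = ∏ i ∈ Fs σ, S i ^ (e i - 1) := by
    intro σ
    have h1 : ∀ v, av b v (G σ t : ℚ) = ∏ i ∈ Fs σ, av b v (y i t : ℚ) ^ (e i - 1) := by
      intro v
      rw [hG]
      push_cast
      rw [av_prod hb]
      exact Finset.prod_congr rfl fun i _ => av_pow hb v _ _
    rw [Finset.prod_congr rfl fun v _ => h1 v, Finset.prod_comm]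
    refine Finset.prod_congr rfl fun i _ => ?_
    rw [Finset.prod_pow, hS]
  have hGG : ∏ v, av b v ((∏ σ, G σ t : ℤ) : ℚ) = ∏ σ, ∏ i ∈ Fs σ, S i ^ (e i - 1) := by
    have h1 : ∀ v, av b v ((∏ σ, G σ t : ℤ) : ℚ) = ∏ σ, av b v (G σ t : ℚ) := by
      intro v
      push_cast
      exact av_prod hb v Finset.univ _
    rw [Finset.prod_congr rfl fun v _ => h1 v, Finset.prod_comm]
    exact Finset.prod_congr rfl fun σ _ => hprodG σ
  have hAA : ∏ v, ∏ σ, av b v (A σ t : ℚ) = ∏ σ, ∏ i ∈ Fs σ, S i ^ (e i) := by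
    rw [Finset.prod_comm]
    exact Finset.prod_congr rfl fun σ _ => hprodA σ
  have hsplit : ∏ σ, ∏ i ∈ Fs σ, S i ^ (e i) =
      (∏ σ, ∏ i ∈ Fs σ, S i) * ∏ σ, ∏ i ∈ Fs σ, S i ^ (e i - 1) := by
    rw [← Finset.prod_mul_distrib]
    refine Finset.prod_congr rfl fun σ _ => ?_
    rw [← Finset.prod_mul_distrib]
    refine Finset.prod_congr rfl fun i _ => ?_
    rw [← pow_succ', Nat.sub_add_cancel (he i)]
  have hGpos : 0 < ∏ σ, ∏ i ∈ Fs σ, S i ^ (e i - 1) :=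
    Finset.prod_pos fun σ _ => Finset.prod_pos fun i _ => pow_pos (hSpos i) _
  have hWprod : ∏ v, av b v (rep WV t) =
      (∏ σ, ∏ i ∈ Fs σ, S i ^ (e i - 1)) * ∏ v, av b v (rep Ω t) := by
    rw [h2, ← hGG, ← Finset.prod_mul_distrib]
    exact Finset.prod_congr rfl fun v _ => av_mul hb v _ _
  rw [hWprod, hAA, hsplit] at key
  have h4 : ∏ i, S i = ∏ σ, ∏ i ∈ Fs σ, S i := by
    rw [hFs]
    exact (Finset.prod_fiberwise (g := τ) Finset.univ _).symm
  rw [← h4] at key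
  have hSS : ∏ i, S i ≤ ∏ i, |(y i t : ℝ)| :=
    Finset.prod_le_prod (fun i _ => (hSpos i).le) fun i _ => hSle i
  generalize ∏ σ, ∏ i ∈ Fs σ, S i ^ (e i - 1) = Γ' at *
  generalize ∏ v, av b v (rep Ω t) = ω' at *
  obtain ⟨Y', hY'⟩ : ∃ Y' : ℝ, Y' = ∏ i, |(y i t : ℝ)| := ⟨_, rfl⟩
  rw [← hY'] at hSS ⊢
  obtain ⟨S', hS'⟩ : ∃ S' : ℝ, S' = ∏ i, S i := ⟨_, rfl⟩
  rw [← hS'] at key hSS
  obtain ⟨B, hB⟩ : ∃ B : ℝ, B = |(x (im t) t : ℝ)| ^ (∑ i, dd i + ∑ j, (ee j - 1)) := ⟨_, rfl⟩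
  obtain ⟨C', hC'⟩ : ∃ C' : ℝ, C' = |(x (im t) t : ℝ)| ^ (m + 1) := ⟨_, rfl⟩
  have hB0 : 0 ≤ B := by rw [hB]; positivity
  have hC0 : 0 ≤ C' := by rw [hC']; positivity
  rw [← hB, ← hC'] at key ⊢
  have h5 : Real.exp (ε * L t) = Real.exp (ε1 * L t) ^ (s + 1) * Real.exp (ε1 * L t) := by
    rw [← pow_succ, ← Real.exp_nat_mul]
    congr 1
    rw [hε1]
    push_cast
    field_simp
    ring
  have h6 : Real.exp (-(ε1 * L t)) * (Γ' * B) ≤
      Real.exp (ε1 * L t) ^ (s + 1) * (C' * (Y' * Γ')) := by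
    calc Real.exp (-(ε1 * L t)) * (Γ' * B) ≤ ω' * (Γ' * B) :=
          mul_le_mul_of_nonneg_right h3 (mul_nonneg hGpos.le hB0)
      _ = Γ' * ω' * B := by ring
      _ ≤ Real.exp (ε1 * L t) ^ (s + 1) * (C' * (S' * Γ')) := key
      _ ≤ _ := by
        refine mul_le_mul_of_nonneg_left (mul_le_mul_of_nonneg_left ?_ hC0) (by positivity)
        exact mul_le_mul_of_nonneg_right hSS hGpos.le
  have h7 : Real.exp (-(ε1 * L t)) * Real.exp (ε1 * L t) = 1 := by
    rw [← Real.exp_add]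
    simp
  have h8 : Γ' * B ≤ Γ' * (Real.exp (ε * L t) * (C' * Y')) := by
    have h9 := mul_le_mul_of_nonneg_right h6 (Real.exp_pos (ε1 * L t)).le
    calc Γ' * B = Real.exp (-(ε1 * L t)) * (Γ' * B) * Real.exp (ε1 * L t) := by
          linear_combination (-(Γ' * B)) * h7
      _ ≤ _ := h9
      _ = _ := by rw [h5]; ring
  exact le_of_mul_le_mul_left h8 hGpos

end

end Pool.Agent.TH551.HA.Ci
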