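import Mathlib
import Pool.Agent.TH551.HA.Tr3
import Pool.Agent.TH551.HA.FinAbc

/-!
# Project HA: level one truncation for sums of S-units, without hypotheses
-/

set_option autoImplicit false

namespace Pool.Agent.TH551.HA

open Pool.Agent.TH551.SU

/-- the `n`-term inequality with truncation at level one -/
theorem trPow (N p k : ℕ) (e : Fin p → ℕ) (he : ∀ i, 1 ≤ e i) (Γ : Subgroup ℚˣ) (hΓ : Γ.FG)
    (ε : ℝ) (hε : 0 < ε) :
    ∃ (G : MvPolynomial (Fin (N + 1)) ℚ) (K : ℝ), (∃ d, G.IsHomogeneous d) ∧ G ≠ 0 ∧ 0 < K ∧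
      ∀ M : ℝ, 1 ≤ M → ∀ (u : Fin (N + 1) → Γ) (a : Fin (N + 1) → ℤ) (v : Fin p → Fin k → Γ)
        (c : Fin p → Fin k → ℤ), (∀ i, |(a i : ℝ)| ≤ M) → (∀ i j, |(c i j : ℝ)| ≤ M) →
        ∀ (A : Fin (N + 2) → ℤ) (x : Fin p → ℤ) (w : ℤ),
        (∀ i, (A (Fin.castSucc i) : ℚ) = ((u i : ℚˣ) : ℚ) * a i) →
        (∀ i, (x i : ℚ) = ∑ j, ((v i j : ℚˣ) : ℚ) * c i j) →
        (∃ g ∈ Γ, (w : ℚ) = ((g : ℚˣ) : ℚ)) →
        A (Fin.last (N + 1)) = w * ∏ j, x j ^ (e j) → (∀ i, A i ≠ 0) → ∑ i, A i = 0 →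
        Finset.univ.gcd A = 1 →
        MvPolynomial.aeval (fun i => (A (Fin.castSucc i) : ℚ)) G ≠ 0 →
        ∀ i, |(A i : ℝ)| ^ (1 - ε) ≤ (K * M) ^ K * ∏ j with e j = 1, |(x j : ℝ)| := by
  obtain ⟨G, C, hGh, hG0, hC⟩ := trMain ncF csF hbF fwF N p k e he Γ hΓ ε hε
  obtain ⟨K, hK0, hK⟩ := pow_form (max C 0 + Real.log ((N : ℝ) + 1))
  refine ⟨G, K, hGh, hG0, hK0, ?_⟩
  intro M hM u a v c ha hc A x w hAu hx hw hAl hA0 hsum hgcd hGA i
  have hlast : A (Fin.last (N + 1)) = ∑ i : Fin (N + 1), -A (Fin.castSucc i) := by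
    rw [Fin.sum_univ_castSucc] at hsum
    rw [Finset.sum_neg_distrib]
    linarith
  have h := hC M hM u (fun i => -a i) v c (fun i => by
    push_cast
    rw [abs_neg]
    exact ha i) hc (fun i => -A (Fin.castSucc i)) x w (fun i => by
    push_cast
    rw [hAu i]
    ring) hx hw (fun i => neg_ne_zero.2 (hA0 _)) (by rw [← hlast]; exact hAl)
    (by rw [← hlast]; exact hA0 _) (by
      set d : ℤ := Finset.univ.gcd (fun i : Fin (N + 1) => -A (Fin.castSucc i)) with hd
      have h1 : ∀ i : Fin (N + 1), d ∣ A (Fin.castSucc i) := fun i =>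
        (dvd_neg.1 (Finset.gcd_dvd (Finset.mem_univ i)))
      have h2 : d ∣ A (Fin.last (N + 1)) := by
        rw [hlast]
        exact Finset.dvd_sum fun i _ => (h1 i).neg_right
      have h3 : d ∣ Finset.univ.gcd A := by
        refine Finset.dvd_gcd fun i _ => ?_
        refine Fin.lastCases h2 (fun i => h1 i) i
      rw [hgcd] at h3
      have h4 : normalize d = 1 := normalize_eq_one.2 (isUnit_of_dvd_one h3)
      rw [hd, Finset.normalize_gcd] at h4
      rw [hd]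
      exact h4) (by
      obtain ⟨dg, hdg⟩ := hGh
      have h1 := aeval_scale G dg hdg (fun i => (A (Fin.castSucc i) : ℚ)) (-1)
      have h2 : (fun i : Fin (N + 1) => ((-A (Fin.castSucc i) : ℤ) : ℚ)) =
          fun i => (-1) * (A (Fin.castSucc i) : ℚ) := by
        funext i
        push_cast
        ring
      rw [h2, h1]
      exact mul_ne_zero (pow_ne_zero _ (by norm_num)) hGA)
  have hx0 : ∀ j, x j ≠ 0 := by
    intro j h0
    apply hA0 (Fin.last (N + 1))
    rw [hAl]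
    have h2 : ∏ j, x j ^ (e j) = 0 := Finset.prod_eq_zero (Finset.mem_univ j)
      (by rw [h0, zero_pow (by have := he j; omega)])
    rw [h2, mul_zero]
  have hx1 : ∀ i, (1 : ℝ) ≤ |(x i : ℝ)| := fun i => by
    exact_mod_cast Int.one_le_abs (hx0 i)
  have hA1 : ∀ i, (1 : ℝ) ≤ |(A i : ℝ)| := fun i => by
    exact_mod_cast Int.one_le_abs (hA0 i)
  have hD : (1 : ℝ) ≤ ∏ j with e j = 1, |(x j : ℝ)| := by
    calc (1 : ℝ) = ∏ _j ∈ Finset.univ.filter (fun j => e j = 1), (1 : ℝ) := by simp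
      _ ≤ _ := Finset.prod_le_prod (fun _ _ => zero_le_one) fun i _ => hx1 i
  have hlM : 0 ≤ Real.log M := Real.log_nonneg hM
  have hlN : 0 ≤ Real.log ((N : ℝ) + 1) := Real.log_nonneg (by
    have : (0 : ℝ) ≤ N := Nat.cast_nonneg N
    linarith)
  have hlx : 0 ≤ ∑ j with e j = 1, Real.log |(x j : ℝ)| :=
    Finset.sum_nonneg fun i _ => Real.log_nonneg (hx1 i)
  have hfirst : ∀ i : Fin (N + 1), (1 - ε) * Real.log |(A (Fin.castSucc i) : ℝ)| ≤
      max C 0 * (1 + Real.log M) + ∑ j with e j = 1, Real.log |(x j : ℝ)| := by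
    intro i
    have h1 := h i
    push_cast at h1
    rw [abs_neg] at h1
    have h2 : C * (1 + Real.log M) ≤ max C 0 * (1 + Real.log M) :=
      mul_le_mul_of_nonneg_right (le_max_left _ _) (by linarith)
    linarith
  refine hK M hM _ _ ε (hA1 i) hD ?_
  rw [Real.log_prod (fun i _ => by have := hx1 i; linarith)]
  have hextra : max C 0 * (1 + Real.log M) ≤
      (max C 0 + Real.log ((N : ℝ) + 1)) * (1 + Real.log M) :=
    mul_le_mul_of_nonneg_right (by linarith) (by linarith)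
  refine Fin.lastCases ?_ (fun i => (hfirst i).trans (by linarith)) i
  -- the last term
  by_cases hε1 : 1 - ε ≤ 0
  · have h1 : (1 - ε) * Real.log |(A (Fin.last (N + 1)) : ℝ)| ≤ 0 :=
      mul_nonpos_of_nonpos_of_nonneg hε1 (Real.log_nonneg (hA1 _))
    have h2 : 0 ≤ (max C 0 + Real.log ((N : ℝ) + 1)) * (1 + Real.log M) := by
      have := le_max_right C 0
      positivity
    linarith
  · push Not at hε1
    obtain ⟨i0, hi0⟩ := Finite.exists_max (fun i : Fin (N + 1) => |(A (Fin.castSucc i) : ℝ)|)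
    have h1 : |(A (Fin.last (N + 1)) : ℝ)| ≤ ((N : ℝ) + 1) * |(A (Fin.castSucc i0) : ℝ)| := by
      rw [hlast]
      push_cast
      calc |∑ i : Fin (N + 1), -(A (Fin.castSucc i) : ℝ)| ≤
            ∑ i : Fin (N + 1), |-(A (Fin.castSucc i) : ℝ)| := Finset.abs_sum_le_sum_abs _ _
        _ ≤ ∑ _i : Fin (N + 1), |(A (Fin.castSucc i0) : ℝ)| :=
            Finset.sum_le_sum fun i _ => by rw [abs_neg]; exact hi0 i
        _ = _ := by
          rw [Finset.sum_const, Finset.card_univ, Fintype.card_fin, nsmul_eq_mul]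
          push_cast
          ring
    have h2 : Real.log |(A (Fin.last (N + 1)) : ℝ)| ≤
        Real.log ((N : ℝ) + 1) + Real.log |(A (Fin.castSucc i0) : ℝ)| := by
      rw [← Real.log_mul (by positivity) (by linarith [hA1 (Fin.castSucc i0)])]
      exact Real.log_le_log (by linarith [hA1 (Fin.last (N + 1))]) h1
    have h3 := hfirst i0
    have h4 : (1 - ε) * Real.log |(A (Fin.last (N + 1)) : ℝ)| ≤
        (1 - ε) * (Real.log ((N : ℝ) + 1) + Real.log |(A (Fin.castSucc i0) : ℝ)|) :=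
      mul_le_mul_of_nonneg_left h2 hε1.le
    have h5 : (1 - ε) * Real.log ((N : ℝ) + 1) ≤ Real.log ((N : ℝ) + 1) * (1 + Real.log M) := by
      nlinarith [mul_nonneg hlN hlM]
    nlinarith

end Pool.Agent.TH551.HA
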